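

set_option autoImplicit false

namespace Pool.Agent.H425R2

/-- branching by `Bool.rec` -/
@[reducible] noncomputable def sel {α : Type} (b : Bool) (t e : α) : α :=
  Bool.rec (motive := fun _ => α) e t b

/-- the bits `24 ℓ`, for `ℓ < 24` -/
def CM : Nat := nat_lit 0x1000001000001000001000001000001000001000001000001000001000001000001000001000001000001000001000001000001000001000001000001000001000001000001

/-- the bits `23 i`, for `i < 24` -/
def M23 : Nat := nat_lit 0x2000004000008000010000020000040000080000100000200000400000800001000002000004000008000010000020000040000080000100000200000400000800001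

/-- a search tree of blocks -/
inductive Tr : Type
  | leaf (v : Nat) : Tr
  | node (t : Nat) (l r : Tr) : Tr

/-- entry `i` of a block: width in the low ten bits -/
noncomputable def fld (B i : Nat) : Nat :=
  Nat.land (Nat.shiftRight (Nat.shiftRight B 10) (Nat.mul (Nat.land B 1023) i))
    (Nat.sub (Nat.shiftLeft 1 (Nat.land B 1023)) 1)

/-- the block of `h` -/
noncomputable def get (T : Tr) (h : Nat) : Nat :=
  Tr.rec (motive := fun _ => Nat) (fun B => B)
    (fun t _ _ il ir => sel (Nat.ble t h) ir il) T

/-- shape number `id` -/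
noncomputable def look (T : Tr) (id : Nat) : Nat :=
  fld (get T id) (Nat.land id 255)

noncomputable def pst2 (ih : Nat → Nat → Nat → Bool) (c u r p w : Nat) : Bool :=
  sel (Nat.beq (Nat.land u p) 0) (ih c (Nat.lor u p) (Nat.land r w)) false

noncomputable def pst (nI : Nat → Nat) (ih : Nat → Nat → Nat → Bool) (c u r a a' : Nat) : Bool :=
  pst2 ih c u r (Nat.lor (Nat.shiftLeft 1 a) (Nat.shiftLeft 1 a')) (Nat.lor (nI a) (nI a'))

/-- read `np` pairs; the arguments are: rest of the certificate, used cells, uncovered lines -/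
noncomputable def pairs (k mk : Nat) (nI : Nat → Nat) (K : Nat → Nat → Nat → Bool) (np : Nat) :
    Nat → Nat → Nat → Bool :=
  Nat.rec (motive := fun _ => Nat → Nat → Nat → Bool) K
    (fun _ ih c u r =>
      pst nI ih (Nat.shiftRight c (Nat.add k k)) u r (Nat.land c mk)
        (Nat.succ (Nat.add (Nat.land c mk) (Nat.land (Nat.shiftRight c k) mk)))) np

noncomputable def cst2 (ih : Nat → Nat → Nat → Nat → Bool) (body c u b p : Nat) : Bool :=
  sel (Nat.beq (Nat.land u p) 0) (ih body c (Nat.lor u p) b) false

noncomputable def cst (nI : Nat → Nat) (ih : Nat → Nat → Nat → Nat → Bool) (body c u b J a : Nat) : Bool :=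
  cst2 ih body c u (Nat.lor b (Nat.mul J (nI a))) (Nat.shiftLeft 1 a)

/-- read the images of `n` cells; arguments: incidences, certificate, used cells, matrix -/
noncomputable def cells (k mk mm m : Nat) (nI : Nat → Nat) (K : Nat → Nat → Nat → Bool) (n : Nat) :
    Nat → Nat → Nat → Nat → Bool :=
  Nat.rec (motive := fun _ => Nat → Nat → Nat → Nat → Bool) (fun _ c u b => K c u b)
    (fun _ ih body c u b => cst nI ih (Nat.shiftRight body m) (Nat.shiftRight c k) u b
      (Nat.land body mm) (Nat.land c mk)) n

/-- the lines not covered by the `m` sets of the matrix `b` -/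
noncomputable def unc (CN b m : Nat) : Nat :=
  Nat.land (Nat.shiftRight (Nat.add b CN) m) CN

noncomputable def kst (CN k mk : Nat) (nI : Nat → Nat) (ih : Nat → Nat → Nat → Bool) (c u r V m : Nat) : Bool :=
  sel (Nat.ble m 23)
    (cells k mk (Nat.sub (Nat.shiftLeft 1 m) 1) m nI
      (fun c' u' bc => ih c' u' (Nat.land r (unc CN bc m)))
      (Nat.land V 31) (Nat.shiftRight V 10) c u 0) false

noncomputable def kst1 (CN k mk : Nat) (nI : Nat → Nat) (ih : Nat → Nat → Nat → Bool) (c u r V : Nat) : Bool :=
  kst CN k mk nI ih c u r V (Nat.land (Nat.shiftRight V 5) 31)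

noncomputable def kst0 (T : Tr) (bound CN k mk : Nat) (nI : Nat → Nat) (ih : Nat → Nat → Nat → Bool)
    (c u r id : Nat) : Bool :=
  sel (Nat.ble (Nat.succ id) bound) (kst1 CN k mk nI ih c u r (look T id)) false

/-- read `nc` components -/
noncomputable def comps (T : Tr) (bound CN k mk : Nat) (nI : Nat → Nat) (K : Nat → Nat → Nat → Bool)
    (nc : Nat) : Nat → Nat → Nat → Bool :=
  Nat.rec (motive := fun _ => Nat → Nat → Nat → Bool) K
    (fun _ ih c u r => kst0 T bound CN k mk nI ih (Nat.shiftRight c 18) u r (Nat.land c 262143)) nc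

noncomputable def est2 (T : Tr) (bound k mk : Nat) (nI : Nat → Nat) (K : Nat → Bool) (c u r np nc : Nat) :
    Bool :=
  pairs k mk nI
    (comps T bound CM k mk nI (fun c' _ r' => sel (Nat.beq r' 0) (K c') false) nc) np c u r

noncomputable def est (T : Tr) (bound k mk UN : Nat) (nI : Nat → Nat) (ih : Nat → Nat → Nat → Bool)
    (c E rem x y px : Nat) : Bool :=
  sel (Nat.beq x y) false
    (sel (Nat.beq (Nat.land UN (Nat.lor px (Nat.shiftLeft 1 y))) 0)
      (est2 T bound k mk nI (fun c' => ih c' (Nat.lor E px) (Nat.land rem (nI x)))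
        (Nat.shiftRight c 17) (Nat.lor UN px) (nI y)
        (Nat.land (Nat.shiftRight c 10) 15) (Nat.land (Nat.shiftRight c 14) 7)) false)

noncomputable def est0 (T : Tr) (bound k mk UN : Nat) (nI : Nat → Nat) (ih : Nat → Nat → Nat → Bool)
    (c E rem x : Nat) : Bool :=
  est T bound k mk UN nI ih c E rem x (Nat.land (Nat.shiftRight c 5) 31) (Nat.shiftLeft 1 x)

/-- read `ne` entries; arguments: certificate, moves answered, lines without an answered move -/
noncomputable def entries (T : Tr) (bound k mk UN : Nat) (nI : Nat → Nat) (K : Nat → Nat → Bool) (ne : Nat) :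
    Nat → Nat → Nat → Bool :=
  Nat.rec (motive := fun _ => Nat → Nat → Nat → Bool) (fun _ E rem => K E rem)
    (fun _ ih c E rem => est0 T bound k mk UN nI ih c E rem (Nat.land c 31)) ne

noncomputable def nst (LM m : Nat) (ih : Nat → Nat → Nat → Nat → Bool) (p body NS core J : Nat) : Bool :=
  ih (Nat.succ p) (Nat.shiftRight body m)
    (Nat.lor NS (Nat.shiftLeft (Nat.xor LM (Nat.land (Nat.mul J M23) LM)) p))
    (sel (Nat.beq (Nat.land J (Nat.sub J 1)) 0) core (Nat.lor core (Nat.shiftLeft 1 p)))

/-- incidence complement of a shape, and the cells on two or more lines -/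
noncomputable def nsl (m mm LM : Nat) (K : Nat → Nat → Bool) (n : Nat) : Nat → Nat → Nat → Nat → Bool :=
  Nat.rec (motive := fun _ => Nat → Nat → Nat → Nat → Bool) (fun _ _ NS core => K NS core)
    (fun _ ih p body NS core => nst LM m ih p body NS core (Nat.land body mm)) n

noncomputable def fin1 (core E rem : Nat) : Bool :=
  sel (Nat.beq (Nat.land core E) core) (Nat.beq rem 0) false

noncomputable def tOK4 (T : Tr) (bound cert LM UN k mk NS core : Nat) : Bool :=
  entries T bound k mk UN (fun a => Nat.land (Nat.shiftRight NS a) CM) (fin1 core)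
    (Nat.land cert 31) (Nat.shiftRight cert 5) 0 LM

noncomputable def tOK3 (T : Tr) (V bound cert n m LM UN : Nat) : Bool :=
  nsl m (Nat.sub (Nat.shiftLeft 1 m) 1) LM
    (fun NS core => sel (Nat.ble n 16) (tOK4 T bound cert LM UN 4 15 NS core)
      (tOK4 T bound cert LM UN 5 31 NS core)) n 0 (Nat.shiftRight V 10) 0 0

noncomputable def tOK2 (T : Tr) (V bound cert n m : Nat) : Bool :=
  sel (Nat.ble m 23)
   (tOK3 T V bound cert n m (Nat.land CM (Nat.sub (Nat.shiftLeft 1 (Nat.mul 24 m)) 1))
     (Nat.sub 18446744073709551616 (Nat.shiftLeft 1 n))) false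

/-- the checker of one shape -/
noncomputable def typeOK (T : Tr) (V bound cert : Nat) : Bool :=
  tOK2 T V bound cert (Nat.land V 31) (Nat.land (Nat.shiftRight V 5) 31)

/-- the checker of a list of consecutive shapes -/
noncomputable def rangeOK (T : Tr) (L : List Nat) : Nat → Bool :=
  List.rec (motive := fun _ => Nat → Bool) (fun _ => true)
    (fun c _ ih i => sel (typeOK T (look T i) i c) (ih (Nat.succ i)) false) L

end Pool.Agent.H425R2
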