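
import Pool.Agent.H425R2.Defs
import Pool.Agent.H425R2.Tab

set_option autoImplicit false

namespace Pool.Agent.H425R2

/-- lines (twice: as they are, and with a virtual cell) that do not contain the coded cell `a` -/
noncomputable def bI (a : Nat) : Nat :=
  sel (Nat.ble 128 a) (Nat.xor C218 (Nat.shiftLeft 1 (Nat.mul 24 (Nat.sub a 19)))) (get BT a)

/-- bits below 128 -/
def M128 : Nat := nat_lit 0xffffffffffffffffffffffffffffffff

noncomputable def gst (ih : Nat → Nat → Nat → Nat → Bool) (c u r h C nD nJ : Nat) : Bool :=
  sel (Nat.beq (Nat.land C u) 0)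
    (ih c (Nat.lor C (Nat.land u M128)) (Nat.land (Nat.land nD r) (Nat.lor nJ h)) (Nat.land nJ h))
    false

/-- read `ng` groups; arguments: certificate, cells, lines not blocked, lines not half blocked -/
noncomputable def groups (T : Tr) (bound : Nat) (K : Nat → Nat → Bool) (ng : Nat) :
    Nat → Nat → Nat → Nat → Bool :=
  Nat.rec (motive := fun _ => Nat → Nat → Nat → Nat → Bool) (fun _ C nD _ => K C nD)
    (fun _ ih c C nD nJ =>
      pairs 8 255 bI
        (comps T bound C218 8 255 bI
          (fun c' u r => gst ih c' u r (Nat.shiftRight r 2616) C nD nJ)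
          (Nat.land (Nat.shiftRight c 5) 7))
        (Nat.land c 31) (Nat.shiftRight c 8) 0 C218) ng

/-- the checker of one leaf: Maker cells `U`, lines to be blocked `nd` -/
noncomputable def leafOK (T : Tr) (bound nd U c : Nat) : Bool :=
  groups T bound (fun C nD => sel (Nat.beq nD 0) (Nat.beq (Nat.land C U) 0) false)
    (Nat.land c 31) (Nat.shiftRight c 5) 0 nd C109

/-- the mask of a list of cells -/
noncomputable def mk (L : List Nat) : Nat :=
  List.rec (motive := fun _ => Nat) 0 (fun c _ ih => Nat.lor (Nat.shiftLeft 1 c) ih) L

/-- the lines without a cell of the list -/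
noncomputable def nd (L : List Nat) : Nat :=
  List.rec (motive := fun _ => Nat) C109 (fun c _ ih => Nat.land (get BT c) ih) L

/-- the checker of a list of leaves; every `U` avoids the mask `R` -/
noncomputable def leavesOK (T : Tr) (bound nd R : Nat) (Us : List Nat) : List Nat → Bool :=
  List.rec (motive := fun _ => List Nat → Bool) (fun _ => true)
    (fun U _ ih cs => List.rec (motive := fun _ => Bool) false
      (fun c cs' _ => sel (leafOK T bound nd U c) (sel (Nat.beq (Nat.land U R) 0) (ih cs') false)
        false) cs) Us

end Pool.Agent.H425R2
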