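import Mathlib
import Pool.Agent.Helper582.Cube

set_option autoImplicit false

namespace Pool.Agent.H425R2

open Set Pool.Agent.Helper582.Cube

/-- transfer from a family to a family of supersets of images under a coding of cells -/
theorem push {X Y : Type*} [Nontrivial Y] {H : Set (Set X)} (hH : BW H) (f : X → Y)
    (hf : Set.InjOn f (⋃₀ H)) {K : Set (Set Y)} (h : ∀ k ∈ K, ∃ e ∈ H, f '' e ⊆ k) : BW K := by
  refine ⟨fun K => ∃ H, BW H ∧ Set.InjOn f (⋃₀ H) ∧ ∀ k ∈ K, ∃ e ∈ H, f '' e ⊆ k, ?_,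
    H, hH, hf, h⟩
  rintro K ⟨H, hH, hf, h⟩
  refine ⟨fun h0 => ?_, fun y => ?_⟩
  · obtain ⟨e, he, hs⟩ := h _ h0
    have : e = ∅ := Set.image_eq_empty.1 (Set.subset_empty_iff.1 hs)
    exact (safe_BW H hH).1 (this ▸ he)
  · by_cases hy : ∃ x ∈ ⋃₀ H, f x = y
    · obtain ⟨x, hx, rfl⟩ := hy
      obtain ⟨x', hx', hb⟩ := (safe_BW H hH).2 x
      have hinj : Set.InjOn f (⋃₀ (reply H x x')) := by
        refine hf.mono ?_
        rintro a ⟨s, ⟨e, he, _, rfl⟩, ha⟩
        exact ⟨e, he, ha.1⟩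
      have main : ∀ y, y ≠ f x → (∀ g ∈ H, ∀ e, f '' g ⊆ e → y ∉ e → x' ∉ g) →
          ∃ y, y ≠ f x ∧ ∃ H, BW H ∧ Set.InjOn f (⋃₀ H) ∧
            ∀ k ∈ reply K (f x) y, ∃ e ∈ H, f '' e ⊆ k := by
        intro y hy hc
        refine ⟨y, hy, reply H x x', hb, hinj, ?_⟩
        rintro k ⟨e, he, hye, rfl⟩
        obtain ⟨g, hg, hge⟩ := h e he
        refine ⟨g \ {x}, ⟨g, hg, hc g hg e hge hye, rfl⟩, ?_⟩
        rintro _ ⟨a, ⟨ha, hax⟩, rfl⟩
        refine ⟨hge ⟨a, ha, rfl⟩, fun hh => hax ?_⟩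
        exact hf ⟨g, hg, ha⟩ hx hh
      by_cases hx'H : x' ∈ ⋃₀ H
      · refine main (f x') (fun hh => hx' (hf hx'H hx hh)) ?_
        intro g _ e hge hye hh
        exact hye (hge ⟨x', hh, rfl⟩)
      · obtain ⟨y, hy⟩ := exists_ne (f x)
        refine main y hy ?_
        intro g hg e _ _ hh
        exact hx'H ⟨g, hg, hh⟩
    · obtain ⟨y', hy'⟩ := exists_ne y
      refine ⟨y', hy', H, hH, hf, ?_⟩
      rintro k ⟨e, he, _, rfl⟩
      obtain ⟨g, hg, hge⟩ := h e he
      refine ⟨g, hg, ?_⟩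
      rintro _ ⟨a, ha, rfl⟩
      exact ⟨hge ⟨a, ha, rfl⟩, fun hh => hy ⟨a, ⟨g, hg, ha⟩, hh⟩⟩

/-- a family with a one-cell set is not a Breaker win -/
theorem not_single {X : Type*} {H : Set (Set X)} {z : X} {s : Set X} (hs : s ∈ H) (hz : s ⊆ {z}) :
    ¬ BW H := by
  intro h
  obtain ⟨y, hy, hb⟩ := (safe_BW H h).2 z
  refine (safe_BW _ hb).1 ⟨s, hs, fun hh => hy (hz hh), ?_⟩
  symm
  rw [sdiff_eq_empty]
  exact hz

/-- two sets with a private cell each may be glued to one set without private cells -/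
theorem resolve {X : Type*} {H : Set (Set X)} {S₁ S₂ : Set X} {z₁ z₂ : X} (hz : z₁ ≠ z₂)
    (h1 : ∀ e ∈ H, z₁ ∉ e ∧ z₂ ∉ e) (h2 : z₁ ∉ S₁ ∧ z₁ ∉ S₂ ∧ z₂ ∉ S₁ ∧ z₂ ∉ S₂)
    (h : BW (H ∪ {insert z₁ S₁, insert z₂ S₂})) : BW (H ∪ {S₁ ∪ S₂}) := by
  classical
  refine ⟨fun F => BW F ∨ ∃ (H : Set (Set X)) (S₁ S₂ : Set X),
      BW (H ∪ {insert z₁ S₁, insert z₂ S₂}) ∧ (∀ e ∈ H, z₁ ∉ e ∧ z₂ ∉ e) ∧
      (z₁ ∉ S₁ ∧ z₁ ∉ S₂ ∧ z₂ ∉ S₁ ∧ z₂ ∉ S₂) ∧ Ref (H ∪ {S₁ ∪ S₂}) F, ?_,
    Or.inr ⟨H, S₁, S₂, h, h1, h2, fun k hk => ⟨k, hk, subset_rfl⟩⟩⟩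
  rintro F (hF | ⟨H, S₁, S₂, hb, h1, h2, hr⟩)
  · refine ⟨(safe_BW F hF).1, fun x => ?_⟩
    obtain ⟨y, hy, h⟩ := (safe_BW F hF).2 x
    exact ⟨y, hy, Or.inl h⟩
  · obtain ⟨a1, a2, a3, a4⟩ := h2
    refine ⟨fun h0 => ?_, fun x => ?_⟩
    · obtain ⟨e, he, hs⟩ := hr _ h0
      have he0 : e = ∅ := Set.subset_empty_iff.1 hs
      subst he0
      rcases he with he | he
      · exact (safe_BW _ hb).1 (Or.inl he)
      · rw [mem_singleton_iff] at he
        have hS : S₁ = ∅ := by
          have := (Set.union_empty_iff.1 he.symm).1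
          exact this
        refine not_single (z := z₁) (s := insert z₁ S₁) (Or.inr (Or.inl rfl)) ?_ hb
        rw [hS]
        simp
    · -- the move `x`
      by_cases hx1 : x = z₁ ∨ x = z₂
      · obtain ⟨y, hy⟩ : ∃ y, y ≠ x ∧ (y = z₁ ∨ y = z₂) := by
          rcases hx1 with rfl | rfl
          · exact ⟨z₂, hz.symm, Or.inr rfl⟩
          · exact ⟨z₁, hz, Or.inl rfl⟩
        refine ⟨y, hy.1, Or.inr ⟨H, S₁, S₂, hb, h1, ⟨a1, a2, a3, a4⟩, ?_⟩⟩
        rintro k ⟨e, he, hye, rfl⟩
        obtain ⟨g, hg, hge⟩ := hr e he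
        have hxg : x ∉ g := by
          rcases hg with hg | hg
          · rcases hx1 with rfl | rfl
            · exact (h1 g hg).1
            · exact (h1 g hg).2
          · rw [mem_singleton_iff] at hg
            subst hg
            rcases hx1 with rfl | rfl
            · exact fun hh => hh.elim a1 a2
            · exact fun hh => hh.elim a3 a4
        exact ⟨g, hg, fun a ha => ⟨hge ha, fun hax => hxg (by
          rw [mem_singleton_iff] at hax; rwa [← hax])⟩⟩
      · push Not at hx1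
        obtain ⟨hx1, hx2⟩ := hx1
        obtain ⟨y', hy', hb'⟩ := (safe_BW _ hb).2 x
        -- if the real reply hits `S₁ ∪ S₂` and `H`-sets are treated as in the simulation
        have kill : ∀ y, y ≠ x → y ∈ S₁ ∪ S₂ → (∀ g ∈ H, ∀ e, g ⊆ e → y ∉ e → y' ∉ g) →
            ∃ y, y ≠ x ∧ BW (reply F x y) := by
          intro y hy hyS hc
          refine ⟨y, hy, hb'.mono ?_⟩
          rintro k ⟨e, he, hye, rfl⟩
          obtain ⟨g, hg, hge⟩ := hr e he
          rcases hg with hg | hg
          · exact ⟨g \ {x}, ⟨g, Or.inl hg, hc g hg e hge hye, rfl⟩, sdiff_subset_sdiff_left hge⟩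
          · rw [mem_singleton_iff] at hg
            subst hg
            exact absurd (hge hyS) hye
        have virt : (y' = z₁ ∨ y' = z₂) → ∃ y, y ≠ x ∧ BW (reply F x y) := by
          intro hy'z
          by_cases hne : ∃ y, y ≠ x ∧ y ∈ S₁ ∪ S₂
          · obtain ⟨y, hy, hyS⟩ := hne
            refine kill y hy hyS ?_
            intro g hg _ _ _
            rcases hy'z with rfl | rfl
            · exact (h1 g hg).1
            · exact (h1 g hg).2
          · exfalso
            push Not at hne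
            rcases hy'z with rfl | rfl
            · refine absurd hb' (not_single (z := z₂) (s := insert z₂ S₂ \ {x}) ?_ ?_)
              · refine ⟨insert z₂ S₂, Or.inr (Or.inr rfl), ?_, rfl⟩
                rintro (hh | hh)
                · exact hz hh
                · exact a2 hh
              · rintro a ⟨ha, hax⟩
                rcases ha with rfl | ha
                · rfl
                · by_contra _
                  exact hne a (fun hh => hax hh) (Or.inr ha)
            · refine absurd hb' (not_single (z := z₁) (s := insert z₁ S₁ \ {x}) ?_ ?_)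
              · refine ⟨insert z₁ S₁, Or.inr (Or.inl rfl), ?_, rfl⟩
                rintro (hh | hh)
                · exact hz hh.symm
                · exact a3 hh
              · rintro a ⟨ha, hax⟩
                rcases ha with rfl | ha
                · rfl
                · by_contra _
                  exact hne a (fun hh => hax hh) (Or.inl ha)
        by_cases hy1 : y' = z₁ ∨ y' = z₂
        · obtain ⟨y, hy, hb⟩ := virt hy1
          exact ⟨y, hy, Or.inl hb⟩
        · push Not at hy1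
          obtain ⟨hy1, hy2⟩ := hy1
          by_cases hyS : y' ∈ S₁ ∪ S₂
          · obtain ⟨y, hy, hb⟩ := kill y' hy' hyS (fun g _ e hge hye hh => hye (hge hh))
            exact ⟨y, hy, Or.inl hb⟩
          · refine ⟨y', hy', Or.inr ⟨reply H x y', S₁ \ {x}, S₂ \ {x}, ?_, ?_, ?_, ?_⟩⟩
            · refine hb'.mono ?_
              rintro k (hk | hk | hk)
              · obtain ⟨e, he, hye, rfl⟩ := hk
                exact ⟨e \ {x}, ⟨e, Or.inl he, hye, rfl⟩, subset_rfl⟩
              · subst hk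
                refine ⟨insert z₁ S₁ \ {x}, ⟨insert z₁ S₁, Or.inr (Or.inl rfl), ?_, rfl⟩, ?_⟩
                · rintro (hh | hh)
                  · exact hy1 hh
                  · exact hyS (Or.inl hh)
                · rintro a ⟨ha, hax⟩
                  rcases ha with rfl | ha
                  · exact Or.inl rfl
                  · exact Or.inr ⟨ha, hax⟩
              · rw [mem_singleton_iff] at hk
                subst hk
                refine ⟨insert z₂ S₂ \ {x}, ⟨insert z₂ S₂, Or.inr (Or.inr rfl), ?_, rfl⟩, ?_⟩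
                · rintro (hh | hh)
                  · exact hy2 hh
                  · exact hyS (Or.inr hh)
                · rintro a ⟨ha, hax⟩
                  rcases ha with rfl | ha
                  · exact Or.inl rfl
                  · exact Or.inr ⟨ha, hax⟩
            · rintro e ⟨g, hg, _, rfl⟩
              exact ⟨fun hh => (h1 g hg).1 hh.1, fun hh => (h1 g hg).2 hh.1⟩
            · exact ⟨fun hh => a1 hh.1, fun hh => a2 hh.1, fun hh => a3 hh.1, fun hh => a4 hh.1⟩
            · rintro k ⟨e, he, hye, rfl⟩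
              obtain ⟨g, hg, hge⟩ := hr e he
              rcases hg with hg | hg
              · exact ⟨g \ {x}, Or.inl ⟨g, hg, fun hh => hye (hge hh), rfl⟩,
                  sdiff_subset_sdiff_left hge⟩
              · rw [mem_singleton_iff] at hg
                subst hg
                refine ⟨(S₁ \ {x}) ∪ (S₂ \ {x}), Or.inr rfl, ?_⟩
                rw [← union_sdiff_distrib]
                exact sdiff_subset_sdiff_left hge

end Pool.Agent.H425R2
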