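import Mathlib
import Pool.Agent.Helper582.Cube
import Pool.Agent.H425R2.Theory
import Pool.Agent.H425R2.Defs

set_option autoImplicit false

namespace Pool.Agent.H425R2

open Set Pool.Agent.Helper582.Cube

theorem tland (a b i : ℕ) : (Nat.land a b).testBit i = (a.testBit i && b.testBit i) :=
  Nat.testBit_and a b i

theorem tlor (a b i : ℕ) : (Nat.lor a b).testBit i = (a.testBit i || b.testBit i) :=
  Nat.testBit_or a b i

theorem txor (a b i : ℕ) : (Nat.xor a b).testBit i = (a.testBit i ^^ b.testBit i) :=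
  Nat.testBit_xor a b i

theorem tshr (a s i : ℕ) : (Nat.shiftRight a s).testBit i = a.testBit (s + i) :=
  Nat.testBit_shiftRight a

theorem tshl (a s i : ℕ) : (Nat.shiftLeft a s).testBit i = (decide (s ≤ i) && a.testBit (i - s)) :=
  Nat.testBit_shiftLeft a

theorem tone (a i : ℕ) : (Nat.shiftLeft 1 a).testBit i = decide (a = i) := by
  have : Nat.shiftLeft 1 a = 1 <<< a := rfl
  rw [this, Nat.one_shiftLeft, Nat.testBit_two_pow]

theorem shl_one (a : ℕ) : Nat.shiftLeft 1 a = 2 ^ a := by
  have : Nat.shiftLeft 1 a = 1 <<< a := rfl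
  rw [this, Nat.one_shiftLeft]

theorem sel_and {b t : Bool} (h : sel b t false = true) : b = true ∧ t = true := by
  cases b with
  | false => exact absurd h (by simp [sel])
  | true => exact ⟨rfl, h⟩

theorem sel_nand {b t : Bool} (h : sel b false t = true) : b = false ∧ t = true := by
  cases b with
  | true => exact absurd h (by simp [sel])
  | false => exact ⟨rfl, h⟩

theorem land_zero {u p : ℕ} (h : Nat.beq (Nat.land u p) 0 = true) (i : ℕ)
    (hp : p.testBit i = true) : u.testBit i = false := by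
  have h0 : Nat.land u p = 0 := Nat.eq_of_beq_eq_true h
  have h1 := congrArg (fun z => Nat.testBit z i) h0
  simp only [tland, Nat.zero_testBit, hp, Bool.and_true] at h1
  exact h1

theorem beq_ne {a b : ℕ} (h : Nat.beq a b = false) : a ≠ b := by
  rintro rfl
  rw [Nat.beq_refl] at h
  exact absurd h (by simp)

/-- block `l` of width `w` -/
def blk (w n l : ℕ) : ℕ := n / 2 ^ (w * l) % 2 ^ w

theorem testBit_blk (w n l i : ℕ) (hi : i < w) : (blk w n l).testBit i = n.testBit (w * l + i) := by
  unfold blk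
  rw [Nat.testBit_mod_two_pow, Nat.testBit_div_two_pow]
  simp [hi, Nat.add_comm]

theorem blk_zero (w n : ℕ) : blk w n 0 = n % 2 ^ w := by simp [blk]

theorem blk_succ (w n l : ℕ) : blk w n (l + 1) = blk w (n / 2 ^ w) l := by
  unfold blk
  rw [Nat.div_div_eq_div_mul, ← pow_add]
  congr 3
  ring

theorem blk_mul (w J : ℕ) : ∀ (l n : ℕ), (∀ k, J * blk w n k < 2 ^ w) →
    blk w (J * n) l = J * blk w n l := by
  intro l
  induction l with
  | zero =>
    intro n h
    have h0 := h 0
    rw [blk_zero] at h0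
    rw [blk_zero, blk_zero]
    conv_lhs => rw [← Nat.div_add_mod n (2 ^ w)]
    rw [Nat.mul_add, ← Nat.mul_assoc, Nat.mul_comm J (2 ^ w), Nat.mul_assoc, Nat.mul_add_mod,
      Nat.mod_eq_of_lt h0]
  | succ l ih =>
    intro n h
    rw [blk_succ, blk_succ]
    have h0 := h 0
    rw [blk_zero] at h0
    have e : J * n / 2 ^ w = J * (n / 2 ^ w) := by
      conv_lhs => rw [← Nat.div_add_mod n (2 ^ w)]
      rw [Nat.mul_add, ← Nat.mul_assoc, Nat.mul_comm J (2 ^ w), Nat.mul_assoc,
        Nat.mul_add_div (by positivity), Nat.div_eq_of_lt h0, Nat.add_zero]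
    rw [e]
    exact ih _ (fun k => by rw [← blk_succ]; exact h (k + 1))

theorem blk_add (w : ℕ) : ∀ (l a b : ℕ), (∀ k, blk w a k + blk w b k < 2 ^ w) →
    blk w (a + b) l = blk w a l + blk w b l := by
  intro l
  induction l with
  | zero =>
    intro a b h
    have h0 := h 0
    rw [blk_zero, blk_zero] at h0
    rw [blk_zero, blk_zero, blk_zero, Nat.add_mod, Nat.mod_eq_of_lt h0]
  | succ l ih =>
    intro a b h
    rw [blk_succ, blk_succ, blk_succ]
    have h0 := h 0
    rw [blk_zero, blk_zero] at h0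
    have e : (a + b) / 2 ^ w = a / 2 ^ w + b / 2 ^ w := by
      rw [Nat.add_div (by positivity), if_neg (by omega), Nat.add_zero]
    rw [e]
    exact ih _ _ (fun k => by rw [← blk_succ, ← blk_succ]; exact h (k + 1))

theorem blk_le_one_of {n : ℕ} {w l : ℕ} (hw : 0 < w)
    (h : ∀ i, 0 < i → i < w → n.testBit (w * l + i) = false) : blk w n l ≤ 1 := by
  have : blk w n l < 2 ^ 1 := by
    apply Nat.lt_pow_two_of_testBit
    intro i hi
    by_cases hiw : i < w
    · rw [testBit_blk w n l i hiw]
      exact h i (by omega) hiw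
    · unfold blk
      rw [Nat.testBit_mod_two_pow]
      simp [hiw]
  omega

theorem blk_eq_one {n w l : ℕ} (hw : 0 < w) (h : blk w n l ≤ 1)
    (hb : n.testBit (w * l) = true) : blk w n l = 1 := by
  have h1 := testBit_blk w n l 0 hw
  rw [Nat.add_zero, hb] at h1
  have : blk w n l ≠ 0 := by
    intro h0
    rw [h0] at h1
    simp at h1
  omega

/-- a product with a sparse number -/
theorem testBit_mul_sparse {w J N l i : ℕ} (hi : i < w) (hw : 0 < w) (hJ : J < 2 ^ w)
    (hN : ∀ k, blk w N k ≤ 1) (hl : N.testBit (w * l) = true) (hJi : J.testBit i = true) :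
    (J * N).testBit (w * l + i) = true := by
  rw [← testBit_blk w _ l i hi, blk_mul, blk_eq_one hw (hN l) hl, Nat.mul_one]
  · exact hJi
  · intro k
    have := hN k
    calc J * blk w N k ≤ J * 1 := Nat.mul_le_mul_left _ this
      _ < 2 ^ w := by omega

theorem testBit_mul_sparse_lt {w J N m : ℕ} (hJ : J < 2 ^ m) (hm : m ≤ w)
    (hN : ∀ k, blk w N k ≤ 1) (l : ℕ) : blk w (J * N) l < 2 ^ m := by
  have hmw : (2 : ℕ) ^ m ≤ 2 ^ w := Nat.pow_le_pow_right (by norm_num) hm
  rw [blk_mul]
  · have := hN l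
    calc J * blk w N l ≤ J * 1 := Nat.mul_le_mul_left _ this
      _ < 2 ^ m := by omega
  · intro k
    have := hN k
    calc J * blk w N k ≤ J * 1 := Nat.mul_le_mul_left _ this
      _ < 2 ^ w := by omega

theorem blk_lor (w a b l : ℕ) : blk w (Nat.lor a b) l = Nat.lor (blk w a l) (blk w b l) := by
  apply Nat.eq_of_testBit_eq
  intro i
  by_cases hi : i < w
  · rw [testBit_blk w _ l i hi, tlor, tlor, testBit_blk w _ l i hi, testBit_blk w _ l i hi]
  · rw [tlor]
    unfold blk
    rw [Nat.testBit_mod_two_pow, Nat.testBit_mod_two_pow, Nat.testBit_mod_two_pow]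
    simp [hi]

theorem lor_lt {a b m : ℕ} (ha : a < 2 ^ m) (hb : b < 2 ^ m) : Nat.lor a b < 2 ^ m :=
  Nat.or_lt_two_pow ha hb

/-- the carry trick -/
theorem unc_spec {CN b m l N : ℕ} (hm : m ≤ 23) (hb : ∀ k, blk 24 b k < 2 ^ m)
    (hC : ∀ k, blk 24 CN k ≤ 1) (hN : ∀ k < N, CN.testBit (24 * k) = true) (hl : l < N)
    (h : (unc CN b m).testBit (24 * l) = false) : ∃ i < m, b.testBit (24 * l + i) = false := by
  by_contra hcon
  push Not at hcon
  have hfull : blk 24 b l = 2 ^ m - 1 := by
    apply Nat.eq_of_testBit_eq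
    intro i
    rw [Nat.testBit_two_pow_sub_one]
    by_cases hi : i < m
    · rw [testBit_blk 24 b l i (by omega)]
      have := hcon i hi
      simp only [Bool.not_eq_false] at this
      rw [this]
      simp [hi]
    · rw [Nat.testBit_lt_two_pow ((hb l).trans_le (Nat.pow_le_pow_right (by norm_num) (by omega)))]
      simp [hi]
  have hpm : (2 : ℕ) ^ m ≤ 2 ^ 23 := Nat.pow_le_pow_right (by norm_num) hm
  have hC1 : blk 24 CN l = 1 := blk_eq_one (by norm_num) (hC l) (hN l hl)
  have hsum : blk 24 (b + CN) l = 2 ^ m := by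
    rw [blk_add, hfull, hC1]
    · have : 0 < 2 ^ m := by positivity
      omega
    · intro k
      have h1 := hb k
      have h2 := hC k
      have h3 : (2 : ℕ) ^ 23 < 2 ^ 24 := by norm_num
      omega
  have hbit : (b + CN).testBit (24 * l + m) = true := by
    rw [← testBit_blk 24 _ l m (by omega), hsum, Nat.testBit_two_pow_self]
  have : (unc CN b m).testBit (24 * l) = true := by
    unfold unc
    rw [tland, tshr, hN l hl, Bool.and_true, Nat.add_comm m]
    exact hbit
  rw [h] at this
  exact absurd this (by simp)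

theorem CM_le (k : ℕ) : blk 24 CM k ≤ 1 := by
  by_cases hk : k < 24
  · have h : ∀ k < 24, blk 24 CM k ≤ 1 := by decide +kernel
    exact h k hk
  · have h1 : CM < 2 ^ (24 * k) :=
      lt_of_lt_of_le (by decide +kernel : CM < 2 ^ (24 * 24))
        (Nat.pow_le_pow_right (by norm_num) (by omega))
    unfold blk
    rw [Nat.div_eq_of_lt h1]
    simp

theorem CM_bit (k : ℕ) (hk : k < 24) : CM.testBit (24 * k) = true := by
  have h : ∀ k < 24, CM.testBit (24 * k) = true := by decide +kernel
  exact h k hk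

theorem M23_le (k : ℕ) : blk 23 M23 k ≤ 1 := by
  by_cases hk : k < 24
  · have h : ∀ k < 24, blk 23 M23 k ≤ 1 := by decide +kernel
    exact h k hk
  · have h1 : M23 < 2 ^ (23 * k) :=
      lt_of_lt_of_le (by decide +kernel : M23 < 2 ^ (23 * 24))
        (Nat.pow_le_pow_right (by norm_num) (by omega))
    unfold blk
    rw [Nat.div_eq_of_lt h1]
    simp

theorem M23_bit (k : ℕ) (hk : k < 24) : M23.testBit (23 * k) = true := by
  have h : ∀ k < 24, M23.testBit (23 * k) = true := by decide +kernel
  exact h k hk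

/-- spreading the bits of a small number -/
theorem spread {J i : ℕ} (hJ : J < 2 ^ 23) (hi : i < 23)
    (h : (J * M23).testBit (24 * i) = true) : J.testBit i = true := by
  have e : 24 * i = 23 * i + i := by ring
  rw [e, ← testBit_blk 23 _ i i hi, blk_mul,
    blk_eq_one (by norm_num) (M23_le i) (M23_bit i (by omega)), Nat.mul_one] at h
  · exact h
  · intro k
    have := M23_le k
    calc J * blk 23 M23 k ≤ J * 1 := Nat.mul_le_mul_left _ this
      _ < 2 ^ 23 := by omega

theorem blk_land_CM (x k : ℕ) : blk 24 (Nat.land x CM) k ≤ 1 := by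
  apply blk_le_one_of (by norm_num)
  intro i h1 h2
  rw [tland]
  have h3 : blk 24 CM k < 2 ^ 1 := by have := CM_le k; omega
  have h4 : (blk 24 CM k).testBit i = false :=
    Nat.testBit_lt_two_pow (h3.trans_le (Nat.pow_le_pow_right (by norm_num) (by omega)))
  rw [testBit_blk 24 CM k i h2] at h4
  rw [h4, Bool.and_false]

/-- at most one bit -/
theorem one_bit {J i j : ℕ} (h : Nat.beq (Nat.land J (Nat.sub J 1)) 0 = true)
    (hi : J.testBit i = true) (hj : J.testBit j = true) : i = j := by
  have h0 : J &&& (J - 1) = 0 := Nat.eq_of_beq_eq_true h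
  have hJ : J ≠ 0 := by
    rintro rfl
    simp at hi
  obtain ⟨k, hk⟩ := (Nat.and_sub_one_eq_zero_iff_isPowerOfTwo hJ).1 h0
  rw [hk, Nat.testBit_two_pow, decide_eq_true_eq] at hi hj
  omega

end Pool.Agent.H425R2
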