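import Mathlib
import Pool.Agent.Helper582.Cube
import Pool.Agent.H425R2.Theory

set_option autoImplicit false

namespace Pool.Agent.H425R2

open Set Pool.Agent.Helper582.Cube

/-- real cells and virtual cells (a flavour and a line number) -/
abbrev XC := ℕ ⊕ (Bool × ℕ)

/-- the trace of line `i` on the cell set `C` -/
def trc (T : ℕ → Set ℕ) (C : Set ℕ) (i : ℕ) : Set XC := Sum.inl '' (T i ∩ C)

/-- the family of a group: lines of `D` are blocked on `C`, those of `J` with a virtual cell -/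
def gfam (T : ℕ → Set ℕ) (b : Bool) (C D J : Set ℕ) : Set (Set XC) :=
  {s | (∃ i ∈ D, s = trc T C i) ∨ (∃ i ∈ J, s = insert (Sum.inr (b, i)) (trc T C i))}

def Good (T : ℕ → Set ℕ) (b : Bool) (C D J : Set ℕ) : Prop := BW (gfam T b C D J)

theorem inr_not_trc (T : ℕ → Set ℕ) (C : Set ℕ) (i : ℕ) (z : Bool × ℕ) :
    (Sum.inr z : XC) ∉ trc T C i := by
  rintro ⟨a, _, h⟩
  exact absurd h (by simp)

theorem trc_mono (T : ℕ → Set ℕ) {C C' : Set ℕ} (h : C ⊆ C') (i : ℕ) : trc T C i ⊆ trc T C' i :=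
  Set.image_mono (inter_subset_inter_right _ h)

/-- change of flavour -/
theorem Good.flip {T : ℕ → Set ℕ} {b b' : Bool} {C D J : Set ℕ} (h : Good T b C D J) :
    Good T b' C D J := by
  refine push h (Sum.map id (fun z => (b', z.2))) ?_ ?_
  · intro u hu v hv huv
    have key : ∀ w : XC, w ∈ ⋃₀ (gfam T b C D J) → ∀ z, w = Sum.inr z → z.1 = b := by
      rintro w ⟨s, (⟨i, _, rfl⟩ | ⟨i, _, rfl⟩), hw⟩ z rfl
      · exact absurd hw (inr_not_trc _ _ _ _)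
      · rcases hw with hw | hw
        · rw [Sum.inr.injEq] at hw
          rw [hw]
        · exact absurd hw (inr_not_trc _ _ _ _)
    rcases u with u | u <;> rcases v with v | v
    · simpa using huv
    · simp at huv
    · simp at huv
    · have h1 := key _ hu u rfl
      have h2 := key _ hv v rfl
      simp only [Sum.map_inr, Sum.inr.injEq, Prod.mk.injEq, true_and] at huv
      rw [Sum.inr.injEq]
      exact Prod.ext (h1.trans h2.symm) huv
  · have himg : ∀ i, (Sum.map id (fun z : Bool × ℕ => (b', z.2))) '' (trc T C i) ⊆ trc T C i := by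
      rintro i _ ⟨_, ⟨a, ha, rfl⟩, rfl⟩
      exact ⟨a, ha, rfl⟩
    rintro k (⟨i, hi, rfl⟩ | ⟨i, hi, rfl⟩)
    · exact ⟨_, Or.inl ⟨i, hi, rfl⟩, himg i⟩
    · refine ⟨_, Or.inr ⟨i, hi, rfl⟩, ?_⟩
      rintro _ ⟨w, (rfl | hw), rfl⟩
      · exact Or.inl rfl
      · exact Or.inr (himg i ⟨w, hw, rfl⟩)

/-- weaker goods -/
theorem Good.weaken {T : ℕ → Set ℕ} {b : Bool} {C D J C' D' J' : Set ℕ} (h : Good T b C D J)
    (hC : C ⊆ C') (hD : D' ⊆ D) (hJ : J' ⊆ D ∪ J) : Good T b C' D' J' := by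
  refine h.mono ?_
  rintro k (⟨i, hi, rfl⟩ | ⟨i, hi, rfl⟩)
  · exact ⟨_, Or.inl ⟨i, hD hi, rfl⟩, trc_mono T hC i⟩
  · rcases hJ hi with h1 | h1
    · exact ⟨_, Or.inl ⟨i, h1, rfl⟩, (trc_mono T hC i).trans (subset_insert _ _)⟩
    · exact ⟨_, Or.inr ⟨i, h1, rfl⟩, insert_subset_insert (trc_mono T hC i)⟩

/-- intermediate family: lines of `Z` are already glued -/
def mfam (T : ℕ → Set ℕ) (C₁ D₁ J₁ C₂ D₂ J₂ Z : Set ℕ) : Set (Set XC) :=
  {s | (∃ i ∈ D₁, s = trc T C₁ i) ∨ (∃ i ∈ D₂, s = trc T C₂ i) ∨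
    (∃ i ∈ J₁, i ∉ Z ∧ s = insert (Sum.inr (false, i)) (trc T C₁ i)) ∨
    (∃ i ∈ J₂, i ∉ Z ∧ s = insert (Sum.inr (true, i)) (trc T C₂ i)) ∨
    (∃ i ∈ Z, s = trc T C₁ i ∪ trc T C₂ i)}

theorem mfam_step {T : ℕ → Set ℕ} {C₁ D₁ J₁ C₂ D₂ J₂ Z : Set ℕ}
    (h : BW (mfam T C₁ D₁ J₁ C₂ D₂ J₂ Z)) (i : ℕ) (h1 : i ∈ J₁) (h2 : i ∈ J₂) (hZ : i ∉ Z) :
    BW (mfam T C₁ D₁ J₁ C₂ D₂ J₂ (insert i Z)) := by
  have key : BW ({s ∈ mfam T C₁ D₁ J₁ C₂ D₂ J₂ Z | (Sum.inr (false, i) : XC) ∉ s ∧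
      (Sum.inr (true, i) : XC) ∉ s} ∪ {insert (Sum.inr (false, i)) (trc T C₁ i),
        insert (Sum.inr (true, i)) (trc T C₂ i)}) := by
    refine h.mono ?_
    rintro k (hk | hk | hk)
    · exact ⟨k, hk.1, subset_rfl⟩
    · subst hk
      exact ⟨_, Or.inr (Or.inr (Or.inl ⟨i, h1, hZ, rfl⟩)), subset_rfl⟩
    · rw [mem_singleton_iff] at hk
      subst hk
      exact ⟨_, Or.inr (Or.inr (Or.inr (Or.inl ⟨i, h2, hZ, rfl⟩))), subset_rfl⟩
  have h3 := resolve (by simp) (fun e he => he.2) ⟨inr_not_trc _ _ _ _, inr_not_trc _ _ _ _,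
    inr_not_trc _ _ _ _, inr_not_trc _ _ _ _⟩ key
  refine h3.mono ?_
  rintro k (⟨j, hj, rfl⟩ | ⟨j, hj, rfl⟩ | ⟨j, hj, hjZ, rfl⟩ | ⟨j, hj, hjZ, rfl⟩ | ⟨j, hj, rfl⟩)
  · exact ⟨_, Or.inl ⟨Or.inl ⟨j, hj, rfl⟩, inr_not_trc _ _ _ _, inr_not_trc _ _ _ _⟩, subset_rfl⟩
  · exact ⟨_, Or.inl ⟨Or.inr (Or.inl ⟨j, hj, rfl⟩), inr_not_trc _ _ _ _, inr_not_trc _ _ _ _⟩,
      subset_rfl⟩
  · have hji : j ≠ i := fun hh => hjZ (Or.inl hh)
    refine ⟨_, Or.inl ⟨Or.inr (Or.inr (Or.inl ⟨j, hj, fun hh => hjZ (Or.inr hh), rfl⟩)), ?_, ?_⟩,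
      subset_rfl⟩
    · rintro (hh | hh)
      · simp only [Sum.inr.injEq, Prod.mk.injEq, true_and] at hh
        exact hji hh.symm
      · exact inr_not_trc _ _ _ _ hh
    · rintro (hh | hh)
      · simp at hh
      · exact inr_not_trc _ _ _ _ hh
  · have hji : j ≠ i := fun hh => hjZ (Or.inl hh)
    refine ⟨_, Or.inl ⟨Or.inr (Or.inr (Or.inr (Or.inl ⟨j, hj, fun hh => hjZ (Or.inr hh), rfl⟩))),
      ?_, ?_⟩, subset_rfl⟩
    · rintro (hh | hh)
      · simp at hh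
      · exact inr_not_trc _ _ _ _ hh
    · rintro (hh | hh)
      · simp only [Sum.inr.injEq, Prod.mk.injEq, true_and] at hh
        exact hji hh.symm
      · exact inr_not_trc _ _ _ _ hh
  · rcases hj with hj | hj
    · subst hj
      exact ⟨_, Or.inr rfl, subset_rfl⟩
    · refine ⟨_, Or.inl ⟨Or.inr (Or.inr (Or.inr (Or.inr ⟨j, hj, rfl⟩))), ?_, ?_⟩, subset_rfl⟩
      · rintro (hh | hh) <;> exact inr_not_trc _ _ _ _ hh
      · rintro (hh | hh) <;> exact inr_not_trc _ _ _ _ hh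

theorem mfam_finite {T : ℕ → Set ℕ} {C₁ D₁ J₁ C₂ D₂ J₂ : Set ℕ}
    (h : BW (mfam T C₁ D₁ J₁ C₂ D₂ J₂ ∅)) (Z : Set ℕ) (hf : Z.Finite) (hZ : Z ⊆ J₁ ∩ J₂) :
    BW (mfam T C₁ D₁ J₁ C₂ D₂ J₂ Z) := by
  induction Z, hf using Set.Finite.induction_on with
  | empty => exact h
  | @insert a s ha _ ih =>
    exact mfam_step (ih ((subset_insert _ _).trans hZ)) a (hZ (mem_insert _ _)).1
      (hZ (mem_insert _ _)).2 ha

/-- disjoint groups combine -/
theorem Good.comb {T : ℕ → Set ℕ} {C₁ D₁ J₁ C₂ D₂ J₂ : Set ℕ} (h₁ : Good T false C₁ D₁ J₁)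
    (h₂ : Good T false C₂ D₂ J₂) (hd : ∀ c ∈ C₁, c ∉ C₂) (hf : (J₁ ∩ J₂).Finite) :
    Good T false (C₁ ∪ C₂) (D₁ ∪ D₂ ∪ (J₁ ∩ J₂)) (J₁ ∪ J₂) := by
  classical
  have h₂' : Good T true C₂ D₂ J₂ := h₂.flip
  have hu : BW (gfam T false C₁ D₁ J₁ ∪ gfam T true C₂ D₂ J₂) := by
    refine BW.union h₁ h₂' ?_
    rintro a ⟨s, hs, ha⟩ ⟨t, ht, ha'⟩
    rcases a with a | a
    · have e1 : a ∈ C₁ := by
        rcases hs with ⟨i, _, rfl⟩ | ⟨i, _, rfl⟩
        · obtain ⟨c, hc, hca⟩ := ha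
          rw [Sum.inl.injEq] at hca; subst hca; exact hc.2
        · rcases ha with ha | ha
          · simp at ha
          · obtain ⟨c, hc, hca⟩ := ha
            rw [Sum.inl.injEq] at hca; subst hca; exact hc.2
      have e2 : a ∈ C₂ := by
        rcases ht with ⟨i, _, rfl⟩ | ⟨i, _, rfl⟩
        · obtain ⟨c, hc, hca⟩ := ha'
          rw [Sum.inl.injEq] at hca; subst hca; exact hc.2
        · rcases ha' with ha | ha
          · simp at ha
          · obtain ⟨c, hc, hca⟩ := ha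
            rw [Sum.inl.injEq] at hca; subst hca; exact hc.2
      exact hd a e1 e2
    · have e1 : a.1 = false := by
        rcases hs with ⟨i, _, rfl⟩ | ⟨i, _, rfl⟩
        · exact absurd ha (inr_not_trc _ _ _ _)
        · rcases ha with ha | ha
          · rw [Sum.inr.injEq] at ha; rw [ha]
          · exact absurd ha (inr_not_trc _ _ _ _)
      have e2 : a.1 = true := by
        rcases ht with ⟨i, _, rfl⟩ | ⟨i, _, rfl⟩
        · exact absurd ha' (inr_not_trc _ _ _ _)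
        · rcases ha' with ha | ha
          · rw [Sum.inr.injEq] at ha; rw [ha]
          · exact absurd ha (inr_not_trc _ _ _ _)
      rw [e1] at e2
      exact absurd e2 (by simp)
  have hm : BW (mfam T C₁ D₁ J₁ C₂ D₂ J₂ ∅) := by
    refine hu.mono ?_
    rintro k (⟨i, hi, rfl⟩ | ⟨i, hi, rfl⟩ | ⟨i, hi, _, rfl⟩ | ⟨i, hi, _, rfl⟩ | ⟨i, hi, rfl⟩)
    · exact ⟨_, Or.inl (Or.inl ⟨i, hi, rfl⟩), subset_rfl⟩
    · exact ⟨_, Or.inr (Or.inl ⟨i, hi, rfl⟩), subset_rfl⟩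
    · exact ⟨_, Or.inl (Or.inr ⟨i, hi, rfl⟩), subset_rfl⟩
    · exact ⟨_, Or.inr (Or.inr ⟨i, hi, rfl⟩), subset_rfl⟩
    · exact absurd hi (by simp)
  have hz := mfam_finite hm _ hf subset_rfl
  -- rename the virtual cells of lines in `J₂ \ J₁`
  set f : XC → XC := fun u => match u with
    | Sum.inl c => Sum.inl c
    | Sum.inr (b, i) => if i ∈ J₂ ∧ i ∉ J₁ then Sum.inr (!b, i) else Sum.inr (b, i) with hfdef
  have hfr : ∀ b i, f (Sum.inr (b, i)) =
      if i ∈ J₂ ∧ i ∉ J₁ then Sum.inr (!b, i) else Sum.inr (b, i) := fun b i => rfl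
  have hinj : Function.Injective f := by
    intro u v huv
    rcases u with u | ⟨b, i⟩ <;> rcases v with v | ⟨b', j⟩
    · simpa [hfdef] using huv
    · rw [hfr] at huv
      have : f (Sum.inl u) = Sum.inl u := rfl
      rw [this] at huv
      split_ifs at huv
    · rw [hfr] at huv
      have : f (Sum.inl v) = Sum.inl v := rfl
      rw [this] at huv
      split_ifs at huv
    · rw [hfr, hfr] at huv
      split_ifs at huv with a1 a2 a2
      · simp only [Sum.inr.injEq, Prod.mk.injEq] at huv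
        obtain ⟨e1, e2⟩ := huv
        subst e2
        cases b <;> cases b' <;> simp_all
      · simp only [Sum.inr.injEq, Prod.mk.injEq] at huv
        obtain ⟨_, e2⟩ := huv
        subst e2
        exact absurd a1 a2
      · simp only [Sum.inr.injEq, Prod.mk.injEq] at huv
        obtain ⟨_, e2⟩ := huv
        subst e2
        exact absurd a2 a1
      · exact huv
  have himg : ∀ C i, f '' (trc T C i) ⊆ trc T C i := by
    rintro C i _ ⟨_, ⟨a, ha, rfl⟩, rfl⟩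
    exact ⟨a, ha, rfl⟩
  refine push hz f hinj.injOn ?_
  rintro k (⟨i, hi, rfl⟩ | ⟨i, hi, rfl⟩)
  · rcases hi with (hi | hi) | hi
    · exact ⟨_, Or.inl ⟨i, hi, rfl⟩, (himg _ _).trans (trc_mono T subset_union_left i)⟩
    · exact ⟨_, Or.inr (Or.inl ⟨i, hi, rfl⟩), (himg _ _).trans (trc_mono T subset_union_right i)⟩
    · refine ⟨_, Or.inr (Or.inr (Or.inr (Or.inr ⟨i, hi, rfl⟩))), ?_⟩
      rw [image_union]
      exact union_subset ((himg _ _).trans (trc_mono T subset_union_left i))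
        ((himg _ _).trans (trc_mono T subset_union_right i))
  · by_cases h1 : i ∈ J₁
    · by_cases h2 : i ∈ J₂
      · refine ⟨_, Or.inr (Or.inr (Or.inr (Or.inr ⟨i, ⟨h1, h2⟩, rfl⟩))), ?_⟩
        rw [image_union]
        exact (union_subset ((himg _ _).trans (trc_mono T subset_union_left i))
          ((himg _ _).trans (trc_mono T subset_union_right i))).trans (subset_insert _ _)
      · refine ⟨_, Or.inr (Or.inr (Or.inl ⟨i, h1, fun hh => h2 hh.2, rfl⟩)), ?_⟩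
        rintro _ ⟨w, (rfl | hw), rfl⟩
        · rw [hfr, if_neg (fun hh => h2 hh.1)]
          exact Or.inl rfl
        · exact Or.inr (trc_mono T subset_union_left i (himg _ _ ⟨w, hw, rfl⟩))
    · have h2 : i ∈ J₂ := hi.resolve_left h1
      refine ⟨_, Or.inr (Or.inr (Or.inr (Or.inl ⟨i, h2, fun hh => h1 hh.1, rfl⟩))), ?_⟩
      rintro _ ⟨w, (rfl | hw), rfl⟩
      · rw [hfr, if_pos ⟨h2, h1⟩]
        exact Or.inl rfl
      · exact Or.inr (trc_mono T subset_union_right i (himg _ _ ⟨w, hw, rfl⟩))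

/-- the blocked part of a good, back on real cells -/
theorem Good.real {T : ℕ → Set ℕ} {b : Bool} {C D J : Set ℕ} (h : Good T b C D J) :
    BW {s : Set ℕ | ∃ i ∈ D, s = T i ∩ C} := by
  refine h.pull (Sum.inl : ℕ → XC) Sum.inl_injective ?_
  rintro s ⟨i, hi, rfl⟩
  exact ⟨_, Or.inl ⟨i, hi, rfl⟩, subset_rfl⟩

theorem Good.empty (T : ℕ → Set ℕ) (b : Bool) : Good T b ∅ ∅ ∅ := by
  refine BW.empty.mono ?_
  rintro k (⟨i, hi, _⟩ | ⟨i, hi, _⟩) <;> exact absurd hi (by simp)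

end Pool.Agent.H425R2
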