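import Mathlib
import Pool.Agent.Helper582.Cube
import Pool.Agent.H425R2.Theory
import Pool.Agent.H425R2.Defs
import Pool.Agent.H425R2.Bits

set_option autoImplicit false

namespace Pool.Agent.H425R2

open Set Pool.Agent.Helper582.Cube

/-- set `j` of the shape `V` -/
def tline (V j : ℕ) : Set ℕ :=
  {c | c < Nat.land V 31 ∧
    (Nat.shiftRight V 10).testBit (Nat.land (Nat.shiftRight V 5) 31 * c + j) = true}

/-- the family of the shape `V` -/
def TH (V : ℕ) : Set (Set ℕ) := {s | ∃ j < Nat.land (Nat.shiftRight V 5) 31, s = tline V j}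

/-- what the number `nI a` says about cell `a` -/
structure NIok (nI : ℕ → ℕ) (Lp : ℕ → Set ℕ) (N u0 A : ℕ) : Prop where
  le : ∀ a l, blk 24 (nI a) l ≤ 1
  mem : ∀ a ≤ A, u0.testBit a = false → ∀ l < N, (nI a).testBit (24 * l) = false → a ∈ Lp l

/-- the invariant while a family is read -/
structure Inv (Lp : ℕ → Set ℕ) (N u0 r0 u r : ℕ) (F : Set (Set ℕ)) : Prop where
  bw : BW F
  cell : ∀ a ∈ ⋃₀ F, u.testBit a = true ∧ u0.testBit a = false
  mono : ∀ a, u0.testBit a = true → u.testBit a = true
  cov : ∀ l < N, r0.testBit (24 * l) = true →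
    r.testBit (24 * l) = true ∨ ∃ f ∈ F, f ⊆ Lp l

theorem BW_two {a b : ℕ} (hab : a ≠ b) : BW ({{a, b}} : Set (Set ℕ)) := by
  have h := BW_pair hab
  have e : fam [Nat.lor (one a) (one b)] = {{a, b}} := by
    rw [fam_cons, fam_nil, union_empty, bits_or, bits_one, bits_one]
    rfl
  rw [e] at h
  exact h

theorem pairs_sound {k mk N u0 r0 A : ℕ} {nI : ℕ → ℕ} {Lp : ℕ → Set ℕ} (hA : 2 * mk + 1 ≤ A)
    (hn : NIok nI Lp N u0 A) {K : ℕ → ℕ → ℕ → Bool} (np : ℕ) :
    ∀ (c u r : ℕ) (F : Set (Set ℕ)), Inv Lp N u0 r0 u r F → pairs k mk nI K np c u r = true →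
      ∃ (c' u' r' : ℕ) (F' : Set (Set ℕ)), Inv Lp N u0 r0 u' r' F' ∧ K c' u' r' = true := by
  induction np with
  | zero => exact fun c u r F hi h => ⟨c, u, r, F, hi, h⟩
  | succ np ih =>
    intro c u r F hi h
    obtain ⟨h1, h2⟩ := sel_and (h : sel _ _ false = true)
    generalize ha : Nat.land c mk = a at h1 h2
    have hale : a ≤ mk := by rw [← ha]; exact Nat.and_le_right
    generalize hd : Nat.land (Nat.shiftRight c k) mk = d at h1 h2
    have hdle : d ≤ mk := by rw [← hd]; exact Nat.and_le_right
    have haa : a ≠ Nat.succ (Nat.add a d) := by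
      have : Nat.add a d = a + d := rfl
      omega
    have hbnd : Nat.succ (Nat.add a d) ≤ A := by
      have : Nat.add a d = a + d := rfl
      omega
    generalize ha' : Nat.succ (Nat.add a d) = a' at h1 h2 haa hbnd
    have hu : u.testBit a = false := land_zero h1 a (by rw [tlor, tone]; simp)
    have hu' : u.testBit a' = false := land_zero h1 a' (by rw [tlor, tone, tone]; simp)
    have hu0 : u0.testBit a = false := by
      cases hh : u0.testBit a with
      | false => rfl
      | true => rw [hi.mono a hh] at hu; exact absurd hu (by simp)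
    have hu0' : u0.testBit a' = false := by
      cases hh : u0.testBit a' with
      | false => rfl
      | true => rw [hi.mono a' hh] at hu'; exact absurd hu' (by simp)
    refine ih _ _ _ (F ∪ {{a, a'}}) ?_ h2
    refine ⟨BW.union hi.bw (BW_two haa) ?_, ?_, ?_, ?_⟩
    · intro z hz hz'
      rw [sUnion_singleton] at hz'
      have := (hi.cell z hz).1
      rcases hz' with rfl | hz'
      · rw [hu] at this; exact absurd this (by simp)
      · rw [mem_singleton_iff] at hz'; subst hz'
        rw [hu'] at this; exact absurd this (by simp)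
    · intro z hz
      rw [sUnion_union, sUnion_singleton] at hz
      rw [tlor, tlor, tone, tone]
      rcases hz with hz | hz | hz
      · exact ⟨by rw [(hi.cell z hz).1]; rfl, (hi.cell z hz).2⟩
      · subst hz; exact ⟨by simp, hu0⟩
      · rw [mem_singleton_iff] at hz; subst hz; exact ⟨by simp, hu0'⟩
    · intro z hz
      rw [tlor, hi.mono z hz]; rfl
    · intro l hl hr0
      rcases hi.cov l hl hr0 with h3 | ⟨f, hf, hfl⟩
      · cases h4 : (Nat.lor (nI a) (nI a')).testBit (24 * l) with
        | true => left; rw [tland, h3, h4]; rfl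
        | false =>
          right
          rw [tlor, Bool.or_eq_false_iff] at h4
          refine ⟨{a, a'}, Or.inr rfl, ?_⟩
          rintro z (rfl | hz)
          · exact hn.mem _ (by omega) hu0 l hl h4.1
          · rw [mem_singleton_iff] at hz; subst hz
            exact hn.mem _ hbnd hu0' l hl h4.2
      · exact Or.inr ⟨f, Or.inl hf, hfl⟩

theorem cells_sound {k mk m : ℕ} {nI : ℕ → ℕ} (hI : ∀ a l, blk 24 (nI a) l ≤ 1) (hm : m ≤ 23)
    {K : ℕ → ℕ → ℕ → Bool} (n : ℕ) :
    ∀ body c u b : ℕ, (∀ l, blk 24 b l < 2 ^ m) →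
      cells k mk (Nat.sub (Nat.shiftLeft 1 m) 1) m nI K n body c u b = true →
      ∃ (f : ℕ → ℕ) (c' u' b' : ℕ), K c' u' b' = true ∧
        (∀ i < n, u.testBit (f i) = false ∧ u'.testBit (f i) = true ∧ f i ≤ mk) ∧
        (∀ i < n, ∀ j < n, f i = f j → i = j) ∧
        (∀ a, u.testBit a = true → u'.testBit a = true) ∧
        (∀ l, blk 24 b' l < 2 ^ m) ∧
        (∀ x, b.testBit x = true → b'.testBit x = true) ∧
        (∀ i < n, ∀ l, ∀ t < m, body.testBit (m * i + t) = true →
          (nI (f i)).testBit (24 * l) = true → b'.testBit (24 * l + t) = true) := by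
  induction n with
  | zero =>
    intro body c u b hb h
    exact ⟨fun _ => 0, c, u, b, h, fun i hi => absurd hi (by omega), fun i hi => absurd hi (by omega),
      fun a ha => ha, hb, fun x hx => hx, fun i hi => absurd hi (by omega)⟩
  | succ n ih =>
    intro body c u b hb h
    obtain ⟨h1, h2⟩ := sel_and (h : sel _ _ false = true)
    generalize ha : Nat.land c mk = a at h1 h2
    have hale : a ≤ mk := by rw [← ha]; exact Nat.and_le_right
    have hu : u.testBit a = false := land_zero h1 a (by rw [tone]; simp)
    have hsub : Nat.sub (Nat.shiftLeft 1 m) 1 = 2 ^ m - 1 := by rw [shl_one]; rfl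
    have hJlt : Nat.land body (Nat.sub (Nat.shiftLeft 1 m) 1) < 2 ^ m := by
      rw [hsub]
      have e : Nat.land body (2 ^ m - 1) = body &&& (2 ^ m - 1) := rfl
      rw [e, Nat.and_two_pow_sub_one_eq_mod]
      exact Nat.mod_lt _ (by positivity)
    have hJbit : ∀ t < m, body.testBit t = true →
        (Nat.land body (Nat.sub (Nat.shiftLeft 1 m) 1)).testBit t = true := by
      intro t ht hbt
      rw [tland, hsub, hbt, Nat.testBit_two_pow_sub_one]
      simp [ht]
    generalize hJ : Nat.land body (Nat.sub (Nat.shiftLeft 1 m) 1) = J at h1 h2 hJlt hJbit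
    have hb1 : ∀ l, blk 24 (Nat.lor b (Nat.mul J (nI a))) l < 2 ^ m := by
      intro l
      rw [blk_lor]
      exact lor_lt (hb l) (testBit_mul_sparse_lt hJlt (by omega) (hI a) l)
    obtain ⟨f, c', u', b', hK, hf, hinj, hmono, hb', hbm, hbit⟩ := ih _ _ _ _ hb1 h2
    refine ⟨fun i => Nat.casesOn i a f, c', u', b', hK, ?_, ?_, ?_, hb', ?_, ?_⟩
    · intro i hi
      cases i with
      | zero =>
        exact ⟨hu, hmono a (by rw [tlor, tone]; simp), hale⟩
      | succ i =>
        obtain ⟨g1, g2, g3⟩ := hf i (by omega)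
        refine ⟨?_, g2, g3⟩
        rw [tlor, Bool.or_eq_false_iff] at g1
        exact g1.1
    · have hne : ∀ i < n, f i ≠ a := by
        intro i hi hh
        obtain ⟨g1, _⟩ := hf i hi
        rw [tlor, tone, hh] at g1
        simp at g1
      intro i hi j hj hij
      cases i with
      | zero =>
        cases j with
        | zero => rfl
        | succ j => exact absurd hij.symm (hne j (by omega))
      | succ i =>
        cases j with
        | zero => exact absurd hij (hne i (by omega))
        | succ j => rw [hinj i (by omega) j (by omega) hij]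
    · intro z hz
      exact hmono z (by rw [tlor, hz]; rfl)
    · intro x hx
      exact hbm x (by rw [tlor, hx]; rfl)
    · intro i hi l t ht hbt hnt
      cases i with
      | zero =>
        apply hbm
        rw [tlor]
        have h3 : (Nat.mul J (nI a)).testBit (24 * l + t) = true := by
          refine testBit_mul_sparse (by omega) (by norm_num)
            (hJlt.trans_le (Nat.pow_le_pow_right (by norm_num) (by omega))) (hI a) hnt ?_
          refine hJbit t ht ?_
          simpa using hbt
        rw [h3, Bool.or_true]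
      | succ i =>
        refine hbit i (by omega) l t ht ?_ hnt
        rw [tshr]
        have e : m + (m * i + t) = m * (i + 1) + t := by ring
        rw [e]
        exact hbt

theorem comps_sound {T : Tr} {bound CN k mk N u0 r0 A : ℕ} {nI : ℕ → ℕ} {Lp : ℕ → Set ℕ}
    (hch : ∀ id < bound, BW (TH (look T id)))
    (hC : ∀ l, blk 24 CN l ≤ 1) (hCN : ∀ l < N, CN.testBit (24 * l) = true)
    (hA : mk ≤ A) (hn : NIok nI Lp N u0 A) {K : ℕ → ℕ → ℕ → Bool} (nc : ℕ) :
    ∀ (c u r : ℕ) (F : Set (Set ℕ)), Inv Lp N u0 r0 u r F →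
      comps T bound CN k mk nI K nc c u r = true →
      ∃ (c' u' r' : ℕ) (F' : Set (Set ℕ)), Inv Lp N u0 r0 u' r' F' ∧ K c' u' r' = true := by
  induction nc with
  | zero => exact fun c u r F hi h => ⟨c, u, r, F, hi, h⟩
  | succ nc ih =>
    intro c u r F hi h
    obtain ⟨h1, h2⟩ := sel_and (h : sel _ _ false = true)
    obtain ⟨h3, h4⟩ := sel_and (h2 : sel _ _ false = true)
    generalize hid : Nat.land c 262143 = id at h1 h3 h4
    have hidb : id < bound := Nat.le_of_ble_eq_true h1
    have hbw := hch id hidb
    generalize hV : look T id = V at h3 h4 hbw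
    generalize hmm : Nat.land (Nat.shiftRight V 5) 31 = m at h3 h4
    have hm : m ≤ 23 := Nat.le_of_ble_eq_true h3
    have hz : ∀ l, blk 24 0 l < 2 ^ m := by
      intro l
      have : blk 24 0 l = 0 := by simp [blk]
      rw [this]
      positivity
    obtain ⟨f, c', u', b', hK, hf, hinj, hmono, hb', _, hbit⟩ :=
      cells_sound hn.le hm _ _ _ _ _ hz h4
    have hcell : ∀ i, i ∈ ⋃₀ TH V → i < Nat.land V 31 := by
      rintro i ⟨s, ⟨j, _, rfl⟩, hi⟩
      exact hi.1
    have hu0 : ∀ i < Nat.land V 31, u0.testBit (f i) = false := by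
      intro i hi'
      cases hh : u0.testBit (f i) with
      | false => rfl
      | true =>
        have := hi.mono _ hh
        rw [(hf i hi').1] at this
        exact absurd this (by simp)
    have hbwI : BW {s : Set ℕ | ∃ t < m, s = f '' tline V t} := by
      refine push hbw f ?_ ?_
      · intro i hi' j hj' hij
        exact hinj i (hcell i hi') j (hcell j hj') hij
      · rintro s ⟨t, ht, rfl⟩
        exact ⟨tline V t, ⟨t, by rw [hmm]; exact ht, rfl⟩, subset_rfl⟩
    refine ih _ _ _ (F ∪ {s : Set ℕ | ∃ t < m, s = f '' tline V t}) ?_ hK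
    refine ⟨BW.union hi.bw hbwI ?_, ?_, ?_, ?_⟩
    · rintro z hz ⟨s, ⟨t, _, rfl⟩, i, hi', rfl⟩
      have h5 := (hi.cell _ hz).1
      rw [(hf i hi'.1).1] at h5
      exact absurd h5 (by simp)
    · rintro z ⟨s, (hs | ⟨t, _, rfl⟩), hz⟩
      · have := hi.cell z ⟨s, hs, hz⟩
        exact ⟨hmono z this.1, this.2⟩
      · obtain ⟨i, hi', rfl⟩ := hz
        exact ⟨(hf i hi'.1).2.1, hu0 i hi'.1⟩
    · exact fun a ha => hmono a (hi.mono a ha)
    · intro l hl hr0
      rcases hi.cov l hl hr0 with h5 | ⟨g, hg, hgl⟩
      · cases h6 : (unc CN b' m).testBit (24 * l) with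
        | true => left; rw [tland, h5, h6]; rfl
        | false =>
          right
          obtain ⟨t, ht, hbt⟩ := unc_spec hm hb' hC hCN hl h6
          refine ⟨f '' tline V t, Or.inr ⟨t, ht, rfl⟩, ?_⟩
          rintro _ ⟨i, hi', rfl⟩
          refine hn.mem _ ((hf i hi'.1).2.2.trans hA) (hu0 i hi'.1) l hl ?_
          cases h7 : (nI (f i)).testBit (24 * l) with
          | false => rfl
          | true =>
            have h8 := hi'.2
            rw [hmm] at h8
            have := hbit i hi'.1 l t ht h8 h7
            rw [hbt] at this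
            exact absurd this (by simp)
      · exact Or.inr ⟨g, Or.inl hg, hgl⟩

theorem Inv.start (Lp : ℕ → Set ℕ) (N u0 r0 : ℕ) : Inv Lp N u0 r0 u0 r0 ∅ :=
  ⟨BW.empty, fun a ha => absurd ha (by simp), fun _ h => h, fun _ _ h => Or.inl h⟩

theorem entries_sound {T : Tr} {bound k mk UN m : ℕ} {nI : ℕ → ℕ} {Lp : ℕ → Set ℕ}
    (hch : ∀ id < bound, BW (TH (look T id))) (hm : m ≤ 23) (hmk : mk ≤ 31)
    (hn : NIok nI Lp m UN 63) {K : ℕ → ℕ → Bool} (ne : ℕ) :
    ∀ c E rem : ℕ, entries T bound k mk UN nI K ne c E rem = true →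
      ∃ E' rem' : ℕ, K E' rem' = true ∧
        (∀ x, E'.testBit x = true → E.testBit x = true ∨
          ∃ y, y ≠ x ∧ BW (reply {s | ∃ l < m, s = Lp l} x y)) ∧
        (∀ x, E.testBit x = true → E'.testBit x = true) ∧
        (∀ l < m, rem.testBit (24 * l) = true → rem'.testBit (24 * l) = true ∨
          ∃ x, E'.testBit x = true ∧ x ∈ Lp l) := by
  induction ne with
  | zero =>
    intro c E rem h
    exact ⟨E, rem, h, fun x hx => Or.inl hx, fun x hx => hx, fun l _ h => Or.inl h⟩
  | succ ne ih =>
    intro c E rem h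
    obtain ⟨h1, h2⟩ := sel_nand (h : sel _ false _ = true)
    obtain ⟨h3, h4⟩ := sel_and (h2 : sel _ _ false = true)
    generalize hx : Nat.land c 31 = x at h1 h3 h4
    generalize hy : Nat.land (Nat.shiftRight c 5) 31 = y at h1 h3 h4
    have hxy : x ≠ y := beq_ne h1
    have hxle : x ≤ 31 := by rw [← hx]; exact Nat.and_le_right
    have hyle : y ≤ 31 := by rw [← hy]; exact Nat.and_le_right
    have hUx : UN.testBit x = false := by
      cases hh : UN.testBit x with
      | false => rfl
      | true =>
        have := congrArg (fun z => Nat.testBit z x) (Nat.eq_of_beq_eq_true h3)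
        simp only [tland, tlor, tone, hh] at this
        simp at this
    have hUy : UN.testBit y = false := by
      cases hh : UN.testBit y with
      | false => rfl
      | true =>
        have := congrArg (fun z => Nat.testBit z y) (Nat.eq_of_beq_eq_true h3)
        simp only [tland, tlor, tone, hh] at this
        simp at this
    have hn' : NIok nI Lp m (Nat.lor UN (Nat.shiftLeft 1 x)) 63 := by
      refine ⟨hn.le, fun a ha hua => hn.mem a ha ?_⟩
      rw [tlor, Bool.or_eq_false_iff] at hua
      exact hua.1
    obtain ⟨c1, u1, r1, F1, hi1, hK1⟩ := pairs_sound (by omega) hn' _ _ _ _ _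
      (Inv.start Lp m (Nat.lor UN (Nat.shiftLeft 1 x)) (nI y)) h4
    obtain ⟨c2, u2, r2, F2, hi2, hK2⟩ := comps_sound hch CM_le
      (fun l hl => CM_bit l (by omega)) (by omega) hn' _ _ _ _ _ hi1 hK1
    obtain ⟨hr2, hK3⟩ := sel_and (hK2 : sel _ _ false = true)
    have hr2' : r2 = 0 := Nat.eq_of_beq_eq_true hr2
    obtain ⟨E', rem', hK, ha, hb, hc⟩ := ih _ _ _ hK3
    have hbw : BW (reply {s | ∃ l < m, s = Lp l} x y) := by
      refine hi2.bw.mono ?_
      rintro s ⟨e, ⟨l, hl, rfl⟩, hye, rfl⟩
      have hny : (nI y).testBit (24 * l) = true := by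
        cases hh : (nI y).testBit (24 * l) with
        | true => rfl
        | false => exact absurd (hn.mem y (by omega) hUy l hl hh) hye
      rcases hi2.cov l hl hny with h5 | ⟨f, hf, hfl⟩
      · rw [hr2'] at h5
        simp at h5
      · refine ⟨f, hf, fun a haf => ⟨hfl haf, ?_⟩⟩
        intro hax
        rw [mem_singleton_iff] at hax
        subst hax
        have := (hi2.cell _ ⟨f, hf, haf⟩).2
        rw [tlor, tone] at this
        simp at this
    refine ⟨E', rem', hK, ?_, ?_, ?_⟩
    · intro z hz
      rcases ha z hz with h5 | h5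
      · rw [tlor, tone, Bool.or_eq_true, decide_eq_true_eq] at h5
        rcases h5 with h5 | h5
        · exact Or.inl h5
        · subst h5
          exact Or.inr ⟨y, hxy.symm, hbw⟩
      · exact Or.inr h5
    · intro z hz
      exact hb z (by rw [tlor, hz]; rfl)
    · intro l hl hrl
      cases h5 : (nI x).testBit (24 * l) with
      | true => exact hc l hl (by rw [tland, hrl, h5]; rfl)
      | false =>
        exact Or.inr ⟨x, hb x (by rw [tlor, tone]; simp), hn.mem x (by omega) hUx l hl h5⟩

theorem nsl_sound {m LM : ℕ} (hm : m ≤ 23) (hLM : ∀ l < m, LM.testBit (24 * l) = true)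
    {K : ℕ → ℕ → Bool} (n : ℕ) :
    ∀ p body NS core : ℕ,
      nsl m (Nat.sub (Nat.shiftLeft 1 m) 1) LM K n p body NS core = true →
      ∃ NS' core' : ℕ, K NS' core' = true ∧
        (∀ x, NS.testBit x = true → NS'.testBit x = true) ∧
        (∀ x, core.testBit x = true → core'.testBit x = true) ∧
        (∀ i < n, ∀ l < m, NS'.testBit (24 * l + (p + i)) = false →
          body.testBit (m * i + l) = true) ∧
        (∀ i < n, core'.testBit (p + i) = false → ∀ s < m, ∀ t < m,
          body.testBit (m * i + s) = true → body.testBit (m * i + t) = true → s = t) := by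
  induction n with
  | zero =>
    intro p body NS core h
    exact ⟨NS, core, h, fun x hx => hx, fun x hx => hx, fun i hi => absurd hi (by omega),
      fun i hi => absurd hi (by omega)⟩
  | succ n ih =>
    intro p body NS core h
    have hsub : Nat.sub (Nat.shiftLeft 1 m) 1 = 2 ^ m - 1 := by rw [shl_one]; rfl
    have hJlt : Nat.land body (Nat.sub (Nat.shiftLeft 1 m) 1) < 2 ^ m := by
      rw [hsub]
      have e : Nat.land body (2 ^ m - 1) = body &&& (2 ^ m - 1) := rfl
      rw [e, Nat.and_two_pow_sub_one_eq_mod]
      exact Nat.mod_lt _ (by positivity)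
    have hJbit : ∀ t < m, (Nat.land body (Nat.sub (Nat.shiftLeft 1 m) 1)).testBit t =
        body.testBit t := by
      intro t ht
      rw [tland, hsub, Nat.testBit_two_pow_sub_one]
      simp [ht]
    have h' : nsl m (Nat.sub (Nat.shiftLeft 1 m) 1) LM K n (Nat.succ p) (Nat.shiftRight body m)
      (Nat.lor NS (Nat.shiftLeft (Nat.xor LM (Nat.land (Nat.mul
        (Nat.land body (Nat.sub (Nat.shiftLeft 1 m) 1)) M23) LM)) p))
      (sel (Nat.beq (Nat.land (Nat.land body (Nat.sub (Nat.shiftLeft 1 m) 1))
        (Nat.sub (Nat.land body (Nat.sub (Nat.shiftLeft 1 m) 1)) 1)) 0) core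
        (Nat.lor core (Nat.shiftLeft 1 p))) = true := h
    generalize hJ : Nat.land body (Nat.sub (Nat.shiftLeft 1 m) 1) = J at h' hJlt hJbit
    obtain ⟨NS', core', hK, h1, h2, h3, h4⟩ := ih _ _ _ _ h'
    refine ⟨NS', core', hK, ?_, ?_, ?_, ?_⟩
    · intro x hx
      exact h1 x (by rw [tlor, hx]; rfl)
    · intro x hx
      apply h2
      cases Nat.beq (Nat.land J (Nat.sub J 1)) 0 with
      | true => exact hx
      | false =>
        change (Nat.lor core (Nat.shiftLeft 1 p)).testBit x = true
        rw [tlor, hx]; rfl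
    · intro i hi l hl hNS
      cases i with
      | zero =>
        have h5 : (Nat.lor NS (Nat.shiftLeft (Nat.xor LM (Nat.land (Nat.mul J M23) LM)) p)).testBit
            (24 * l + p) = false := by
          cases hh : (Nat.lor NS (Nat.shiftLeft (Nat.xor LM (Nat.land (Nat.mul J M23) LM))
            p)).testBit (24 * l + p) with
          | false => rfl
          | true =>
            have := h1 _ hh
            rw [Nat.add_zero] at hNS
            rw [hNS] at this
            exact absurd this (by simp)
        rw [tlor, Bool.or_eq_false_iff, tshl] at h5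
        have h6 := h5.2
        have e1 : 24 * l + p - p = 24 * l := by omega
        have e2 : decide (p ≤ 24 * l + p) = true := by simp
        rw [e1, e2, Bool.true_and, txor, tland, hLM l hl] at h6
        have h7 : (J * M23).testBit (24 * l) = true := by
          cases hh : (J * M23).testBit (24 * l) with
          | true => rfl
          | false =>
            have e3 : (Nat.mul J M23).testBit (24 * l) = false := hh
            rw [e3] at h6
            exact absurd h6 (by simp)
        have h8 := spread (hJlt.trans_le (Nat.pow_le_pow_right (by norm_num) hm)) (by omega) h7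
        rw [hJbit l hl] at h8
        simpa using h8
      | succ i =>
        have e : p + (i + 1) = Nat.succ p + i := by omega
        rw [e] at hNS
        have := h3 i (by omega) l hl hNS
        rw [tshr] at this
        have e2 : m + (m * i + l) = m * (i + 1) + l := by ring
        rw [e2] at this
        exact this
    · intro i hi hcore s hs t ht hbs hbt
      cases i with
      | zero =>
        have h5 : Nat.beq (Nat.land J (Nat.sub J 1)) 0 = true := by
          cases hh : Nat.beq (Nat.land J (Nat.sub J 1)) 0 with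
          | true => rfl
          | false =>
            have : core'.testBit p = true := by
              apply h2
              rw [hh]
              change (Nat.lor core (Nat.shiftLeft 1 p)).testBit p = true
              rw [tlor, tone]; simp
            rw [Nat.add_zero] at hcore
            rw [hcore] at this
            exact absurd this (by simp)
        refine one_bit h5 ?_ ?_
        · rw [hJbit s hs]; simpa using hbs
        · rw [hJbit t ht]; simpa using hbt
      | succ i =>
        have e : p + (i + 1) = Nat.succ p + i := by omega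
        rw [e] at hcore
        refine h4 i (by omega) hcore s hs t ht ?_ ?_
        · rw [tshr]
          have e2 : m + (m * i + s) = m * (i + 1) + s := by ring
          rw [e2]; exact hbs
        · rw [tshr]
          have e2 : m + (m * i + t) = m * (i + 1) + t := by ring
          rw [e2]; exact hbt

/-- a cell private to one set is no better for Maker than another cell of that set -/
theorem dominate {X : Type*} [Nontrivial X] {H : Set (Set X)} {e : Set X} {a b y : X}
    (hab : a ≠ b) (ha : ∀ f ∈ H, a ∈ f → f = e) (hb : b ∈ e) (hy : y ≠ b)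
    (h : BW (reply H b y)) : ∃ y', y' ≠ a ∧ BW (reply H a y') := by
  classical
  by_cases hya : y = a
  · subst hya
    refine ⟨b, hab.symm, h.mono ?_⟩
    rintro s ⟨f, hf, hbf, rfl⟩
    have haf : y ∉ f := by
      intro hh
      rw [ha f hf hh] at hbf
      exact hbf hb
    refine ⟨f \ {b}, ⟨f, hf, haf, rfl⟩, ?_⟩
    rintro c ⟨hc, _⟩
    exact ⟨hc, fun hh => haf (by rw [mem_singleton_iff] at hh; rwa [← hh])⟩
  · refine ⟨y, hya, push h (Equiv.swap a b) (Equiv.injective _).injOn ?_⟩
    rintro s ⟨f, hf, hyf, rfl⟩
    refine ⟨f \ {b}, ⟨f, hf, hyf, rfl⟩, ?_⟩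
    rintro _ ⟨c, ⟨hc, hcb⟩, rfl⟩
    have hcb' : c ≠ b := fun hh => hcb hh
    by_cases hca : c = a
    · subst hca
      rw [Equiv.swap_apply_left]
      exact ⟨by rw [ha f hf hc]; exact hb, fun hh => hab hh.symm⟩
    · rw [Equiv.swap_apply_of_ne_of_ne hca hcb']
      exact ⟨hc, hca⟩

theorem UN_bit {n a : ℕ} (hn : n ≤ 31) (ha : a ≤ 63)
    (h : (Nat.sub 18446744073709551616 (Nat.shiftLeft 1 n)).testBit a = false) : a < n := by
  rw [shl_one] at h
  have key : ∀ n ≤ 31, ∀ a ≤ 63, (Nat.sub 18446744073709551616 (2 ^ n)).testBit a = false →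
      a < n := by decide +kernel
  exact key n hn a ha h

theorem typeOK_sound {T : Tr} {V bound cert : ℕ} (hch : ∀ id < bound, BW (TH (look T id)))
    (h : typeOK T V bound cert = true) : BW (TH V) := by
  obtain ⟨h1, h2⟩ := sel_and (h : sel _ _ false = true)
  have hm : Nat.land (Nat.shiftRight V 5) 31 ≤ 23 := Nat.le_of_ble_eq_true h1
  have hnle : Nat.land V 31 ≤ 31 := Nat.and_le_right
  have hH : TH V = {s | ∃ l < Nat.land (Nat.shiftRight V 5) 31, s = tline V l} := rfl
  have htl : ∀ c l, c ∈ tline V l ↔ c < Nat.land V 31 ∧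
    (Nat.shiftRight V 10).testBit (Nat.land (Nat.shiftRight V 5) 31 * c + l) = true :=
      fun c l => Iff.rfl
  rw [hH]
  generalize hmm : Nat.land (Nat.shiftRight V 5) 31 = m at h1 h2 hm htl
  have hLM : ∀ l < m, (Nat.land CM (Nat.sub (Nat.shiftLeft 1 (Nat.mul 24 m)) 1)).testBit (24 * l)
      = true := by
    intro l hl
    rw [shl_one]
    have e : Nat.sub (2 ^ (Nat.mul 24 m)) 1 = 2 ^ (24 * m) - 1 := rfl
    rw [tland, CM_bit l (by omega), e, Nat.testBit_two_pow_sub_one]
    simp only [Bool.true_and, decide_eq_true_eq]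
    omega
  obtain ⟨NS, core, hK, _, _, h3, h4⟩ := nsl_sound hm hLM _ _ _ _ _ h2
  have hn : NIok (fun a => Nat.land (Nat.shiftRight NS a) CM) (tline V) m
      (Nat.sub 18446744073709551616 (Nat.shiftLeft 1 (Nat.land V 31))) 63 := by
    refine ⟨fun a l => blk_land_CM _ _, ?_⟩
    intro a ha hua l hl hb
    have han : a < Nat.land V 31 := UN_bit hnle ha hua
    refine (htl a l).2 ⟨han, h3 a han l hl ?_⟩
    have hb' : (Nat.land (Nat.shiftRight NS a) CM).testBit (24 * l) = false := hb
    rw [tland, tshr, CM_bit l (by omega), Bool.and_true] at hb'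
    rw [Nat.zero_add, Nat.add_comm]
    exact hb'
  have key : ∃ k mk, mk ≤ 31 ∧ entries T bound k mk
      (Nat.sub 18446744073709551616 (Nat.shiftLeft 1 (Nat.land V 31)))
      (fun a => Nat.land (Nat.shiftRight NS a) CM) (fin1 core)
      (Nat.land cert 31) (Nat.shiftRight cert 5) 0
      (Nat.land CM (Nat.sub (Nat.shiftLeft 1 (Nat.mul 24 m)) 1)) = true := by
    revert hK
    change (sel _ _ _ = true) → _
    cases Nat.ble (Nat.land V 31) 16 with
    | true => intro hK; exact ⟨4, 15, by norm_num, hK⟩
    | false => intro hK; exact ⟨5, 31, by norm_num, hK⟩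
  obtain ⟨k, mk, hmk, hent⟩ := key
  obtain ⟨E, rem, hfin, h5, _, h7⟩ := entries_sound hch hm hmk hn _ _ _ _ hent
  obtain ⟨h8, h9⟩ := sel_and (hfin : sel _ _ false = true)
  have hrem : rem = 0 := Nat.eq_of_beq_eq_true h9
  have hcoreE : ∀ x, core.testBit x = true → E.testBit x = true := by
    intro x hx
    have := congrArg (fun z => Nat.testBit z x) (Nat.eq_of_beq_eq_true h8)
    simp only [tland, hx, Bool.true_and] at this
    exact this
  have hEx : ∀ l < m, ∃ x, E.testBit x = true ∧ x ∈ tline V l := by
    intro l hl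
    rcases h7 l hl (hLM l hl) with h10 | h10
    · rw [hrem] at h10
      simp at h10
    · exact h10
  have hans : ∀ x, E.testBit x = true → ∃ y, y ≠ x ∧ BW (reply {s | ∃ l < m, s = tline V l} x y) := by
    intro x hx
    rcases h5 x hx with h10 | h10
    · simp at h10
    · exact h10
  apply BW.node
  · rintro ⟨l, hl, he⟩
    obtain ⟨x, _, hx⟩ := hEx l hl
    rw [← he] at hx
    exact hx
  · rintro x ⟨s, ⟨l, hl, rfl⟩, hxl⟩
    cases hxE : E.testBit x with
    | true => exact hans x hxE
    | false =>
      have hcx : core.testBit x = false := by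
        cases hh : core.testBit x with
        | false => rfl
        | true => rw [hcoreE x hh] at hxE; exact absurd hxE (by simp)
      obtain ⟨b, hbE, hbl⟩ := hEx l hl
      have hxb : x ≠ b := by
        rintro rfl
        rw [hxE] at hbE
        exact absurd hbE (by simp)
      obtain ⟨y, hy, hbw⟩ := hans b hbE
      refine dominate (e := tline V l) hxb ?_ hbl hy hbw
      rintro f ⟨l', hl', rfl⟩ hxf
      have := h4 x hxl.1 (by rw [Nat.zero_add]; exact hcx) l' hl' l hl
        ((htl x l').1 hxf).2 ((htl x l).1 hxl).2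
      rw [this]

/-- all shapes in a range are Breaker wins, given those before -/
theorem range_sound {T : Tr} (L : List ℕ) : ∀ i : ℕ, rangeOK T L i = true →
    ∀ id, i ≤ id → id < i + L.length → (∀ id' < id, BW (TH (look T id'))) →
      BW (TH (look T id)) := by
  induction L with
  | nil => intro i _ id h1 h2; simp at h2; omega
  | cons c L ih =>
    intro i h id h1 h2 hch
    obtain ⟨h3, h4⟩ := sel_and (h : sel _ _ false = true)
    rcases Nat.eq_or_lt_of_le h1 with h5 | h5
    · subst h5
      exact typeOK_sound hch h3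
    · refine ih (Nat.succ i) h4 id h5 ?_ hch
      simp only [List.length_cons] at h2
      have : Nat.succ i = i + 1 := rfl
      omega

/-- a range of shapes, checked -/
def Rg (T : Tr) (a b : ℕ) : Prop :=
  ∀ id, a ≤ id → id < b → (∀ id' < id, BW (TH (look T id'))) → BW (TH (look T id))

theorem Rg.of {T : Tr} {L : List ℕ} {a b : ℕ} (h : rangeOK T L a = true)
    (hl : Nat.beq (a + L.length) b = true) : Rg T a b := by
  have hb : a + L.length = b := Nat.eq_of_beq_eq_true hl
  intro id h1 h2
  exact range_sound L a h id h1 (by omega)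

theorem Rg.join {T : Tr} {a b c : ℕ} (h1 : Rg T a b) (h2 : Rg T b c) : Rg T a c := by
  intro id h3 h4 hch
  by_cases h : id < b
  · exact h1 id h3 h hch
  · exact h2 id (by omega) h4 hch

theorem Rg.all {T : Tr} {n : ℕ} (h : Rg T 0 n) : ∀ id < n, BW (TH (look T id)) := by
  intro id
  induction id using Nat.strong_induction_on with
  | _ id ih => exact fun hid => h id (Nat.zero_le _) hid (fun id' h' => ih id' h' (h'.trans hid))

end Pool.Agent.H425R2
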