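import Mathlib
import Pool.Agent.Helper582.Cube
import Pool.Agent.H425R2.Theory
import Pool.Agent.H425R2.Comb
import Pool.Agent.H425R2.Defs
import Pool.Agent.H425R2.Bits
import Pool.Agent.H425R2.Sound
import Pool.Agent.H425R2.BDefs

set_option autoImplicit false
set_option maxRecDepth 100000

namespace Pool.Agent.H425R2

open Set Pool.Agent.Helper582.Cube

/-- line `i` of the board -/
def Tl (i : ℕ) : Set ℕ := {c | (bl.getD i 0).testBit c = true}

/-- Breaker wins when Maker has `U`, Breaker has `R` and Maker is to move -/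
def Pos (U R : ℕ) : Prop :=
  BW {s : Set ℕ | ∃ i < 109, (∀ c ∈ Tl i, R.testBit c = false) ∧
    s = {c | c ∈ Tl i ∧ U.testBit c = false}}

theorem blk_bits {n l : ℕ} (h : blk 24 n l ≤ 1) (i : ℕ) (h1 : 0 < i) (h2 : i < 24) :
    n.testBit (24 * l + i) = false := by
  rw [← testBit_blk 24 n l i h2]
  have h3 : blk 24 n l < 2 ^ 1 := by omega
  exact Nat.testBit_lt_two_pow (h3.trans_le (Nat.pow_le_pow_right (by norm_num) (by omega)))

theorem C218_le (k : ℕ) : blk 24 C218 k ≤ 1 := by
  by_cases hk : k < 218
  · have h : ∀ k < 218, blk 24 C218 k ≤ 1 := by decide +kernel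
    exact h k hk
  · have h1 : C218 < 2 ^ (24 * k) :=
      lt_of_lt_of_le (by decide +kernel : C218 < 2 ^ (24 * 218))
        (Nat.pow_le_pow_right (by norm_num) (by omega))
    unfold blk
    rw [Nat.div_eq_of_lt h1]
    simp

theorem C218_bit (k : ℕ) (hk : k < 218) : C218.testBit (24 * k) = true := by
  have h : ∀ k < 218, C218.testBit (24 * k) = true := by decide +kernel
  exact h k hk

theorem C109_bit (k : ℕ) (hk : k < 109) : C109.testBit (24 * k) = true := by
  have h : ∀ k < 109, C109.testBit (24 * k) = true := by decide +kernel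
  exact h k hk

/-- the table is right for the cell `a` -/
noncomputable def tabRow (w a : ℕ) (L : List ℕ) : ℕ → Bool :=
  List.rec (motive := fun _ => ℕ → Bool) (fun _ => true)
    (fun e _ ih i =>
      sel (Nat.beq (Nat.add (Nat.land (Nat.shiftRight w (Nat.mul 24 i)) 1)
          (Nat.land (Nat.shiftRight e a) 1)) 1)
        (sel (Nat.beq (Nat.add (Nat.land (Nat.shiftRight w (Nat.mul 24 (Nat.add 109 i))) 1)
          (Nat.land (Nat.shiftRight e a) 1)) 1) (ih (Nat.succ i)) false) false) L

theorem land_one (w i : ℕ) : Nat.land (Nat.shiftRight w i) 1 = (w.testBit i).toNat := by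
  have h1 : Nat.land (Nat.shiftRight w i) 1 = (w >>> i) &&& 1 := rfl
  rw [h1, Nat.and_one_is_mod, Nat.shiftRight_eq_div_pow]
  have := Nat.testBit_eq_decide_div_mod_eq (x := w) (i := i)
  rw [this]
  rcases Nat.mod_two_eq_zero_or_one (w / 2 ^ i) with h | h <;> simp [h]

theorem tabRow_spec {w a : ℕ} (L : List ℕ) : ∀ i, tabRow w a L i = true →
    ∀ j < L.length, w.testBit (24 * (i + j)) = !((L.getD j 0).testBit a) ∧
      w.testBit (24 * (109 + (i + j))) = !((L.getD j 0).testBit a) := by
  induction L with
  | nil => intro i _ j hj; simp at hj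
  | cons e L ih =>
    intro i h j hj
    obtain ⟨h1, h2⟩ := sel_and (h : sel _ _ false = true)
    obtain ⟨h3, h4⟩ := sel_and (h2 : sel _ _ false = true)
    have e1 := Nat.eq_of_beq_eq_true h1
    have e2 := Nat.eq_of_beq_eq_true h3
    rw [land_one, land_one] at e1 e2
    cases j with
    | zero =>
      simp only [List.getD_cons_zero, Nat.add_zero]
      have m1 : Nat.mul 24 i = 24 * i := rfl
      have m2 : Nat.mul 24 (Nat.add 109 i) = 24 * (109 + i) := rfl
      rw [m1] at e1
      rw [m2] at e2
      constructor
      · revert e1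
        cases w.testBit (24 * i) <;> cases e.testBit a <;> decide
      · revert e2
        cases w.testBit (24 * (109 + i)) <;> cases e.testBit a <;> decide
    | succ j =>
      simp only [List.length_cons] at hj
      have := ih (Nat.succ i) h4 j (by omega)
      simp only [List.getD_cons_succ]
      have e3 : Nat.succ i + j = i + (j + 1) := by omega
      rw [e3] at this
      exact this

theorem bl_length : bl.length = 109 := by decide +kernel

theorem tab_all : ∀ a < 128, tabRow (get BT a) a bl 0 = true ∧
    Nat.beq (Nat.land (get BT a) C218) (get BT a) = true := by decide +kernel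

theorem tab_bit {a i : ℕ} (ha : a < 128) (hi : i < 109) :
    (get BT a).testBit (24 * i) = !((bl.getD i 0).testBit a) ∧
      (get BT a).testBit (24 * (109 + i)) = !((bl.getD i 0).testBit a) := by
  have := tabRow_spec bl 0 (tab_all a ha).1 i (by rw [bl_length]; exact hi)
  rw [Nat.zero_add] at this
  exact this

theorem tab_le {a : ℕ} (ha : a < 128) (l : ℕ) : blk 24 (get BT a) l ≤ 1 := by
  have h := Nat.eq_of_beq_eq_true (tab_all a ha).2
  rw [← h]
  apply blk_le_one_of (by norm_num)
  intro i h1 h2
  rw [tland, blk_bits (C218_le l) i h1 h2, Bool.and_false]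

/-- the extended lines -/
def LpB (l : ℕ) : Set ℕ :=
  {a | (a < 128 ∧ a ∈ Tl (if l < 109 then l else l - 109)) ∨ (109 ≤ l ∧ a = l + 19)}

theorem bI_ok : NIok bI LpB 218 0 511 := by
  refine ⟨?_, ?_⟩
  · intro a l
    by_cases ha : a < 128
    · have h1 : Nat.ble 128 a = false := ble_false ha
      have h2 : bI a = get BT a := by unfold bI; rw [h1]
      rw [h2]
      exact tab_le ha l
    · have h1 : Nat.ble 128 a = true := Nat.ble_eq_true_of_le (by omega)
      have h2 : bI a = Nat.xor C218 (Nat.shiftLeft 1 (Nat.mul 24 (Nat.sub a 19))) := by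
        unfold bI; rw [h1]
      rw [h2]
      apply blk_le_one_of (by norm_num)
      intro i h3 h4
      rw [txor, tone, blk_bits (C218_le l) i h3 h4]
      have : Nat.mul 24 (Nat.sub a 19) = 24 * (a - 19) := rfl
      rw [this]
      have : decide (24 * (a - 19) = 24 * l + i) = false := by
        rw [decide_eq_false_iff_not]; omega
      rw [this]; rfl
  · intro a _ _ l hl hb
    by_cases ha : a < 128
    · have h1 : Nat.ble 128 a = false := ble_false ha
      have h2 : bI a = get BT a := by unfold bI; rw [h1]
      rw [h2] at hb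
      left
      refine ⟨ha, ?_⟩
      by_cases hl2 : l < 109
      · rw [if_pos hl2]
        have := (tab_bit ha hl2).1
        rw [hb] at this
        have h3 : (bl.getD l 0).testBit a = true := by
          cases hh : (bl.getD l 0).testBit a with
          | true => rfl
          | false => rw [hh] at this; exact absurd this (by simp)
        exact h3
      · rw [if_neg hl2]
        have := (tab_bit ha (by omega : l - 109 < 109)).2
        have e : 109 + (l - 109) = l := by omega
        rw [e, hb] at this
        have h3 : (bl.getD (l - 109) 0).testBit a = true := by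
          cases hh : (bl.getD (l - 109) 0).testBit a with
          | true => rfl
          | false => rw [hh] at this; exact absurd this (by simp)
        exact h3
    · have h1 : Nat.ble 128 a = true := Nat.ble_eq_true_of_le (by omega)
      have h2 : bI a = Nat.xor C218 (Nat.shiftLeft 1 (Nat.mul 24 (Nat.sub a 19))) := by
        unfold bI; rw [h1]
      rw [h2, txor, tone, C218_bit l hl] at hb
      have e : Nat.mul 24 (Nat.sub a 19) = 24 * (a - 19) := rfl
      rw [e] at hb
      right
      have : decide (24 * (a - 19) = 24 * l) = true := by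
        cases hh : decide (24 * (a - 19) = 24 * l) with
        | true => rfl
        | false => rw [hh] at hb; exact absurd hb (by simp)
      rw [decide_eq_true_eq] at this
      omega

/-- coded cells as real and virtual cells -/
def phi (a : ℕ) : XC := if a < 128 then Sum.inl a else Sum.inr (false, a - 128)

theorem phi_inj : Function.Injective phi := by
  intro a b h
  unfold phi at h
  split_ifs at h with h1 h2 h2
  · simpa using h
  · simp only [Sum.inr.injEq, Prod.mk.injEq, true_and] at h
    omega

theorem M128_bit (a : ℕ) : M128.testBit a = decide (a < 128) := by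
  have : M128 = 2 ^ 128 - 1 := by decide +kernel
  rw [this, Nat.testBit_two_pow_sub_one]

theorem good_of_inv {u r : ℕ} {F : Set (Set ℕ)} (hi : Inv LpB 218 0 C218 u r F) :
    Good Tl false {a | a < 128 ∧ u.testBit a = true}
      {i | i < 109 ∧ r.testBit (24 * i) = false}
      {i | i < 109 ∧ (Nat.shiftRight r 2616).testBit (24 * i) = false} := by
  refine push hi.bw phi phi_inj.injOn ?_
  rintro k (⟨i, ⟨hi1, hi2⟩, rfl⟩ | ⟨i, ⟨hi1, hi2⟩, rfl⟩)
  · rcases hi.cov i (by omega) (C218_bit i (by omega)) with h | ⟨f, hf, hfl⟩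
    · rw [hi2] at h; exact absurd h (by simp)
    · refine ⟨f, hf, ?_⟩
      rintro _ ⟨a, ha, rfl⟩
      rcases hfl ha with ⟨h1, h2⟩ | ⟨h1, _⟩
      · rw [if_pos hi1] at h2
        refine ⟨a, ⟨h2, h1, (hi.cell a ⟨f, hf, ha⟩).1⟩, ?_⟩
        unfold phi
        rw [if_pos h1]
      · omega
  · have e : (Nat.shiftRight r 2616).testBit (24 * i) = r.testBit (24 * (109 + i)) := by
      rw [tshr]; congr 1; ring
    rw [e] at hi2
    rcases hi.cov (109 + i) (by omega) (C218_bit _ (by omega)) with h | ⟨f, hf, hfl⟩
    · rw [hi2] at h; exact absurd h (by simp)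
    · refine ⟨f, hf, ?_⟩
      rintro _ ⟨a, ha, rfl⟩
      rcases hfl ha with ⟨h1, h2⟩ | ⟨_, h2⟩
      · rw [if_neg (by omega), Nat.add_sub_cancel_left] at h2
        right
        refine ⟨a, ⟨h2, h1, (hi.cell a ⟨f, hf, ha⟩).1⟩, ?_⟩
        unfold phi
        rw [if_pos h1]
      · left
        unfold phi
        rw [if_neg (by omega)]
        congr 2
        omega

theorem groups_sound {T : Tr} {bound nd0 : ℕ} (hch : ∀ id < bound, BW (TH (look T id)))
    {K : ℕ → ℕ → Bool} (ng : ℕ) :
    ∀ c C nD nJ : ℕ, Good Tl false {a | C.testBit a = true}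
        {i | i < 109 ∧ nd0.testBit (24 * i) = true ∧ nD.testBit (24 * i) = false}
        {i | i < 109 ∧ nJ.testBit (24 * i) = false} →
      groups T bound K ng c C nD nJ = true →
      ∃ C' nD' : ℕ, K C' nD' = true ∧ BW {s : Set ℕ | ∃ i ∈ {i | i < 109 ∧
        nd0.testBit (24 * i) = true ∧ nD'.testBit (24 * i) = false},
        s = Tl i ∩ {a | C'.testBit a = true}} := by
  induction ng with
  | zero => exact fun c C nD nJ hg h => ⟨C, nD, h, hg.real⟩
  | succ ng ih =>
    intro c C nD nJ hg h
    have h' : pairs 8 255 bI (comps T bound C218 8 255 bI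
      (fun c' u r => gst (groups T bound K ng) c' u r (Nat.shiftRight r 2616) C nD nJ)
          (Nat.land (Nat.shiftRight c 5) 7)) (Nat.land c 31) (Nat.shiftRight c 8) 0 C218 = true := h
    obtain ⟨c1, u1, r1, F1, hi1, hK1⟩ := pairs_sound (by norm_num) bI_ok _ _ _ _ _
      (Inv.start LpB 218 0 C218) h'
    obtain ⟨c2, u, r, F2, hi2, hK2⟩ := comps_sound hch C218_le (fun l hl => C218_bit l hl)
      (by norm_num) bI_ok _ _ _ _ _ hi1 hK1
    obtain ⟨hd, hK3⟩ := sel_and (hK2 : sel _ _ false = true)
    have hgood := good_of_inv hi2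
    refine ih _ _ _ _ ?_ hK3
    have hdis : ∀ a ∈ {a | C.testBit a = true}, a ∉ {a | a < 128 ∧ u.testBit a = true} := by
      rintro a ha ⟨_, hua⟩
      have := land_zero hd a hua
      have ha' : C.testBit a = true := ha
      rw [this] at ha'
      exact absurd ha' (by simp)
    have hfin : ({i | i < 109 ∧ nJ.testBit (24 * i) = false} ∩
        {i | i < 109 ∧ (Nat.shiftRight r 2616).testBit (24 * i) = false}).Finite :=
      (Set.finite_lt_nat 109).subset (fun i hi => hi.1.1)
    refine (Good.comb hg hgood hdis hfin).weaken ?_ ?_ ?_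
    · rintro a (ha | ⟨ha1, ha2⟩)
      · have ha' : C.testBit a = true := ha
        change (Nat.lor C (Nat.land u M128)).testBit a = true
        rw [tlor, ha']; rfl
      · change (Nat.lor C (Nat.land u M128)).testBit a = true
        rw [tlor, tland, ha2, M128_bit]
        simp [ha1]
    · rintro i ⟨hi1', hi2', hi3'⟩
      rw [tland, tland, tlor, Bool.and_eq_false_iff, Bool.and_eq_false_iff,
        Bool.or_eq_false_iff] at hi3'
      rcases hi3' with (h1 | h1) | ⟨h1, h2⟩
      · exact Or.inl (Or.inl ⟨hi1', hi2', h1⟩)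
      · exact Or.inl (Or.inr ⟨hi1', h1⟩)
      · exact Or.inr ⟨⟨hi1', h1⟩, ⟨hi1', h2⟩⟩
    · rintro i ⟨hi1', hi2'⟩
      rw [tland, Bool.and_eq_false_iff] at hi2'
      right
      rcases hi2' with h1 | h1
      · exact Or.inl ⟨hi1', h1⟩
      · exact Or.inr ⟨hi1', h1⟩

theorem leaf_sound {T : Tr} {bound nd U R c : ℕ} (hch : ∀ id < bound, BW (TH (look T id)))
    (hnd : ∀ i < 109, (∀ c ∈ Tl i, R.testBit c = false) → nd.testBit (24 * i) = true)
    (h : leafOK T bound nd U c = true) : Pos U R := by
  have h0 : Good Tl false {a | (0 : ℕ).testBit a = true}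
        {i | i < 109 ∧ nd.testBit (24 * i) = true ∧ nd.testBit (24 * i) = false}
        {i | i < 109 ∧ C109.testBit (24 * i) = false} := by
    refine (Good.empty Tl false).weaken (by simp) ?_ ?_
    · rintro i ⟨_, h1, h2⟩
      rw [h1] at h2; exact absurd h2 (by simp)
    · rintro i ⟨h1, h2⟩
      rw [C109_bit i h1] at h2; exact absurd h2 (by simp)
  obtain ⟨C, nD, hK, hbw⟩ := groups_sound hch _ _ _ _ _ h0 h
  obtain ⟨h1, h2⟩ := sel_and (hK : sel _ _ false = true)
  have hD : nD = 0 := Nat.eq_of_beq_eq_true h1
  refine hbw.mono ?_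
  rintro k ⟨i, hi, hal, rfl⟩
  refine ⟨_, ⟨i, ⟨hi, hnd i hi hal, by rw [hD]; simp⟩, rfl⟩, ?_⟩
  rintro a ⟨ha1, ha2⟩
  refine ⟨ha1, ?_⟩
  have ha2' : C.testBit a = true := ha2
  cases hh : U.testBit a with
  | false => rfl
  | true =>
    have := land_zero h2 a hh
    rw [this] at ha2'
    exact absurd ha2' (by simp)

theorem mk_bit (L : List ℕ) (c : ℕ) : (mk L).testBit c = true ↔ c ∈ L := by
  induction L with
  | nil =>
    have : mk [] = 0 := rfl
    rw [this]; simp
  | cons a L ih =>
    have : mk (a :: L) = Nat.lor (Nat.shiftLeft 1 a) (mk L) := rfl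
    rw [this, tlor, tone, Bool.or_eq_true, decide_eq_true_eq, ih, List.mem_cons]
    constructor
    · rintro (h | h)
      · exact Or.inl h.symm
      · exact Or.inr h
    · rintro (h | h)
      · exact Or.inl h.symm
      · exact Or.inr h

theorem nd_spec (L : List ℕ) (hL : ∀ c ∈ L, c < 128) : ∀ i < 109,
    (∀ c ∈ Tl i, (mk L).testBit c = false) → (nd L).testBit (24 * i) = true := by
  induction L with
  | nil => intro i hi _; exact C109_bit i hi
  | cons a L ih =>
    intro i hi h
    have e : nd (a :: L) = Nat.land (get BT a) (nd L) := rfl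
    rw [e, tland, Bool.and_eq_true]
    have e2 : mk (a :: L) = Nat.lor (Nat.shiftLeft 1 a) (mk L) := rfl
    constructor
    · rw [(tab_bit (hL a (by simp)) hi).1]
      cases hh : (bl.getD i 0).testBit a with
      | false => rfl
      | true =>
        have := h a hh
        rw [e2, tlor, tone] at this
        simp at this
    · refine ih (fun c hc => hL c (by simp [hc])) i hi (fun c hc => ?_)
      have := h c hc
      rw [e2, tlor, Bool.or_eq_false_iff] at this
      exact this.2

/-- a set of solved positions with Breaker cells `R` -/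
def Solved (R : ℕ) (Us : List ℕ) : Prop :=
  ∀ U ∈ Us, Pos U R ∧ ∀ c, U.testBit c = true → R.testBit c = false

theorem leaves_sound {T : Tr} {bound : ℕ} (hch : ∀ id < bound, BW (TH (look T id)))
    (L : List ℕ) (hL : ∀ c ∈ L, c < 128) (Us : List ℕ) : ∀ cs : List ℕ,
    leavesOK T bound (nd L) (mk L) Us cs = true → Solved (mk L) Us := by
  induction Us with
  | nil => intro cs _ U hU; exact absurd hU (by simp)
  | cons V Us ih =>
    intro cs h
    cases cs with
    | nil =>
      have h' : false = true := h
      exact absurd h' (by simp)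
    | cons c cs =>
      obtain ⟨h1, h2⟩ := sel_and (h : sel _ _ false = true)
      obtain ⟨h3, h4⟩ := sel_and (h2 : sel _ _ false = true)
      intro U hU
      rcases List.mem_cons.1 hU with hU | hU
      · subst hU
        refine ⟨leaf_sound hch (nd_spec L hL) h1, fun c hc => ?_⟩
        cases hh : (mk L).testBit c with
        | false => rfl
        | true =>
          have := land_zero h3 c hh
          rw [this] at hc
          exact absurd hc (by simp)
      · exact ih cs h4 U hU

end Pool.Agent.H425R2
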