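import Pool.Agent.H425R2.U0
import Pool.Agent.H425R2.U1
import Pool.Agent.H425R2.U2
import Pool.Agent.H425R2.U3

set_option autoImplicit false
set_option maxRecDepth 100000

namespace Pool.Agent.H425R2

def FB0 : List (Nat × List Nat) := [(nat_lit 0xa0000000011, u0_0), (nat_lit 0xa0000000011, u0_1), (nat_lit 0xa0000000011, u0_2), (nat_lit 0xa0000000011, u0_3), (nat_lit 0xa0000000011, u0_4), (nat_lit 0xa0000000011, u0_5), (nat_lit 0xa0000000011, u0_6), (nat_lit 0xa0000000011, u0_7), (nat_lit 0xa0000000011, u0_8), (nat_lit 0xa0000000011, u0_9), (nat_lit 0xa0000000011, u0_10), (nat_lit 0xa0000000011, u0_11), (nat_lit 0xa0000000011, u0_12), (nat_lit 0xa0000000011, u0_13), (nat_lit 0xa0000000011, u0_14), (nat_lit 0xa0000000011, u0_15), (nat_lit 0xa0000000011, u0_16), (nat_lit 0xa0000000011, u0_17), (nat_lit 0xa0000000011, u0_18), (nat_lit 0xa0000000011, u0_19), (nat_lit 0xa0000000011, u0_20), (nat_lit 0xa0000000011, u0_21), (nat_lit 0xa0000000011, u0_22), (nat_lit 0xa0000000011, u0_23), (nat_lit 0xa0000000011, u0_24),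 (nat_lit 0xa0000000011, u0_25), (nat_lit 0xa0000000011, u0_26), (nat_lit 0xa0000000011, u0_27), (nat_lit 0xa0000000011, u0_28), (nat_lit 0xa0000000011, u0_29), (nat_lit 0xa0000000011, u0_30), (nat_lit 0xa0000000011, u0_31), (nat_lit 0xa0000000011, u0_32), (nat_lit 0xa0000000011, u0_33), (nat_lit 0xa0000000011, u0_34), (nat_lit 0xa0000000011, u0_35), (nat_lit 0xa0000000011, u0_36), (nat_lit 0xa0000000011, u0_37), (nat_lit 0xa0000000011, u0_38), (nat_lit 0xa0000000011, u0_39), (nat_lit 0xa0000000011, u0_40), (nat_lit 0xa0000000011, u0_41), (nat_lit 0xa0000000011, u0_42), (nat_lit 0xa0000000011, u0_43), (nat_lit 0xa0000000011, u0_44), (nat_lit 0xa0000000011, u0_45), (nat_lit 0xa0000000011, u0_46), (nat_lit 0xa0000000011, u0_47), (nat_lit 0xa0000000011, u0_48), (nat_lit 0xa0000000011, u0_49), (nat_lit 0xa0000000011, u0_50), (nat_lit 0xa0000000011, u0_51), (nat_lit 0xa0000000011, u0_52)]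
def FB1 : List (Nat × List Nat) := [(nat_lit 0x4000000200000001, u1_0), (nat_lit 0x4000000200000001, u1_1), (nat_lit 0x4000000200000001, u1_2), (nat_lit 0x4000000200000001, u1_3), (nat_lit 0x4000000200000001, u1_4), (nat_lit 0x4000000200000001, u1_5), (nat_lit 0x4000000200000001, u1_6), (nat_lit 0x4000000200000001, u1_7), (nat_lit 0x4000000200000001, u1_8), (nat_lit 0x4000000200000001, u1_9), (nat_lit 0x4000000200000001, u1_10), (nat_lit 0x4000000200000001, u1_11), (nat_lit 0x4000000200000001, u1_12), (nat_lit 0x4000000200000001, u1_13), (nat_lit 0x4000000200000001, u1_14), (nat_lit 0x4000000200000001, u1_15), (nat_lit 0x4000000200000001, u1_16), (nat_lit 0x4000000200000001, u1_17), (nat_lit 0x4000000200000001, u1_18), (nat_lit 0x4000000200000001, u1_19), (nat_lit 0x4000000200000001, u1_20), (nat_lit 0x4000000200000001, u1_21), (nat_lit 0x4000000200000001, u1_22), (nat_lit 0x4000000200000001, u1_23), (nat_lit 0x4000000200000001, u1_24), (nat_lit 0x4000000200000001, u1_25), (nat_lit 0x4000000200000001, u1_26), (nat_lit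 0x4000000200000001, u1_27), (nat_lit 0x4000000200000001, u1_28), (nat_lit 0x4000000200000001, u1_29), (nat_lit 0x4000000200000001, u1_30), (nat_lit 0x4000000200000001, u1_31), (nat_lit 0x4000000200000001, u1_32), (nat_lit 0x4000000200000001, u1_33), (nat_lit 0x4000000200000001, u1_34), (nat_lit 0x4000000200000001, u1_35), (nat_lit 0x4000000200000001, u1_36), (nat_lit 0x4000000200000001, u1_37), (nat_lit 0x4000000200000001, u1_38)]
def FB2 : List (Nat × List Nat) := [(nat_lit 0x200000000020000000011, u2_0), (nat_lit 0x200000000020000000011, u2_1), (nat_lit 0x200000000020000000011, u2_2), (nat_lit 0x200000000020000000011, u2_3), (nat_lit 0x200000000020000000011, u2_4), (nat_lit 0x200000000020000000011, u2_5), (nat_lit 0x200000000020000000011, u2_6), (nat_lit 0x200000000020000000011, u2_7), (nat_lit 0x200000000020000000011, u2_8)]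
def FB3 : List (Nat × List Nat) := [(nat_lit 0x4000000080000001, u3_0)]
def FB4 : List (Nat × List Nat) := [(nat_lit 0x20001000011, u4_0)]
def FB5 : List (Nat × List Nat) := [(nat_lit 0x4000000000000000000020000000011, u5_0)]
def FB6 : List (Nat × List Nat) := [(nat_lit 0x100000000000020000000011, u6_0)]
def FB7 : List (Nat × List Nat) := [(nat_lit 0x20100000011, u7_0)]
def FB8 : List (Nat × List Nat) := [(nat_lit 0x10000020000000011, u8_0)]
def FB9 : List (Nat × List Nat) := [(nat_lit 0x8000020000000011, u9_0)]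
def FB10 : List (Nat × List Nat) := [(nat_lit 0x2000020000000011, u10_0)]
def FB11 : List (Nat × List Nat) := [(nat_lit 0x4000000000000000020000000011, u11_0)]
def FB12 : List (Nat × List Nat) := [(nat_lit 0x4000000000020000000011, u12_0)]
def FB13 : List (Nat × List Nat) := [(nat_lit 0x24000000011, u13_0)]
def FB14 : List (Nat × List Nat) := [(nat_lit 0x20000000015, u14_0)]
def FB15 : List (Nat × List Nat) := [(nat_lit 0x10000000000000000020000000011, u15_0)]
def FB16 : List (Nat × List Nat) := [(nat_lit 0x8000000000020000000011, u16_0)]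
def FB17 : List (Nat × List Nat) := [(nat_lit 0x20000001011, u17_0)]
def FB18 : List (Nat × List Nat) := [(nat_lit 0x40000000000000020000000011, u18_0)]
def FB19 : List (Nat × List Nat) := [(nat_lit 0x400000000020000000011, u19_0)]
def FB20 : List (Nat × List Nat) := [(nat_lit 0x20000400011, u20_0)]
def FB21 : List (Nat × List Nat) := [(nat_lit 0x1000020000000011, u21_0)]

end Pool.Agent.H425R2
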