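import Pool.Agent.H425R2.TDefs
import Pool.Agent.H425R2.ULists
import Pool.Agent.H425R2.ImgD

set_option autoImplicit false
set_option maxRecDepth 100000

namespace Pool.Agent.H425R2

def FF0 : List (Nat × List Nat) := [(nat_lit 0xa0000000011, u0_0), (nat_lit 0xa0000000011, u0_1), (nat_lit 0xa0000000011, u0_2), (nat_lit 0xa0000000011, u0_3), (nat_lit 0xa0000000011, u0_4), (nat_lit 0xa0000000011, u0_5), (nat_lit 0xa0000000011, u0_6), (nat_lit 0xa0000000011, u0_7), (nat_lit 0xa0000000011, u0_8), (nat_lit 0xa0000000011, u0_9), (nat_lit 0xa0000000011, u0_10), (nat_lit 0xa0000000011, u0_11), (nat_lit 0xa0000000011, u0_12), (nat_lit 0xa0000000011, u0_13), (nat_lit 0xa0000000011, u0_14), (nat_lit 0xa0000000011, u0_15), (nat_lit 0xa0000000011, u0_16), (nat_lit 0xa0000000011, u0_17), (nat_lit 0xa0000000011, u0_18), (nat_lit 0xa0000000011, u0_19), (nat_lit 0xa0000000011, u0_20), (nat_lit 0xa0000000011, u0_21), (nat_lit 0xa0000000011, u0_22), (nat_lit 0xa0000000011, u0_23), (nat_lit 0xa0000000011, u0_24), (nat_lit 0xa0000000011, u0_25),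 (nat_lit 0xa0000000011, u0_26), (nat_lit 0xa0000000011, u0_27), (nat_lit 0xa0000000011, u0_28), (nat_lit 0xa0000000011, u0_29)]
def FF1 : List (Nat × List Nat) := [(nat_lit 0xa0000000011, u0_30), (nat_lit 0xa0000000011, u0_31), (nat_lit 0xa0000000011, u0_32), (nat_lit 0xa0000000011, u0_33), (nat_lit 0xa0000000011, u0_34), (nat_lit 0xa0000000011, u0_35), (nat_lit 0xa0000000011, u0_36), (nat_lit 0xa0000000011, u0_37), (nat_lit 0xa0000000011, u0_38), (nat_lit 0xa0000000011, u0_39), (nat_lit 0xa0000000011, u0_40), (nat_lit 0xa0000000011, u0_41), (nat_lit 0xa0000000011, u0_42), (nat_lit 0xa0000000011, u0_43), (nat_lit 0xa0000000011, u0_44), (nat_lit 0xa0000000011, u0_45), (nat_lit 0xa0000000011, u0_46), (nat_lit 0xa0000000011, u0_47), (nat_lit 0xa0000000011, u0_48), (nat_lit 0xa0000000011, u0_49), (nat_lit 0xa0000000011, u0_50), (nat_lit 0xa0000000011, u0_51), (nat_lit 0xa0000000011, u0_52), (nat_lit 0x4000000200000001, u1_0), (nat_lit 0x4000000200000001, u1_1), (nat_lit 0x4000000200000001, u1_2), (nat_lit 0x4000000200000001, u1_3),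 (nat_lit 0x4000000200000001, u1_4), (nat_lit 0x4000000200000001, u1_5), (nat_lit 0x4000000200000001, u1_6)]
def FF2 : List (Nat × List Nat) := [(nat_lit 0x4000000200000001, u1_7), (nat_lit 0x4000000200000001, u1_8), (nat_lit 0x4000000200000001, u1_9), (nat_lit 0x4000000200000001, u1_10), (nat_lit 0x4000000200000001, u1_11), (nat_lit 0x4000000200000001, u1_12), (nat_lit 0x4000000200000001, u1_13), (nat_lit 0x4000000200000001, u1_14), (nat_lit 0x4000000200000001, u1_15), (nat_lit 0x4000000200000001, u1_16), (nat_lit 0x4000000200000001, u1_17), (nat_lit 0x4000000200000001, u1_18), (nat_lit 0x4000000200000001, u1_19), (nat_lit 0x4000000200000001, u1_20), (nat_lit 0x4000000200000001, u1_21), (nat_lit 0x4000000200000001, u1_22), (nat_lit 0x4000000200000001, u1_23), (nat_lit 0x4000000200000001, u1_24), (nat_lit 0x4000000200000001, u1_25), (nat_lit 0x4000000200000001, u1_26), (nat_lit 0x4000000200000001, u1_27), (nat_lit 0x4000000200000001, u1_28), (nat_lit 0x4000000200000001, u1_29), (nat_lit 0x4000000200000001, u1_30), (nat_lit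 0x4000000200000001, u1_31), (nat_lit 0x4000000200000001, u1_32), (nat_lit 0x4000000200000001, u1_33), (nat_lit 0x4000000200000001, u1_34), (nat_lit 0x4000000200000001, u1_35), (nat_lit 0x4000000200000001, u1_36)]
def FF3 : List (Nat × List Nat) := [(nat_lit 0x4000000200000001, u1_37), (nat_lit 0x4000000200000001, u1_38), (nat_lit 0x200000000020000000011, u2_0), (nat_lit 0x200000000020000000011, u2_1), (nat_lit 0x200000000020000000011, u2_2), (nat_lit 0x200000000020000000011, u2_3), (nat_lit 0x200000000020000000011, u2_4), (nat_lit 0x200000000020000000011, u2_5), (nat_lit 0x200000000020000000011, u2_6), (nat_lit 0x200000000020000000011, u2_7), (nat_lit 0x200000000020000000011, u2_8), (nat_lit 0x4000000080000001, u3_0), (nat_lit 0x20001000011, u4_0), (nat_lit 0x4000000000000000000020000000011, u5_0), (nat_lit 0x100000000000020000000011, u6_0), (nat_lit 0x20100000011, u7_0), (nat_lit 0x10000020000000011, u8_0), (nat_lit 0x8000020000000011, u9_0), (nat_lit 0x2000020000000011, u10_0), (nat_lit 0x4000000000000000020000000011, u11_0),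 (nat_lit 0x4000000000020000000011, u12_0), (nat_lit 0x24000000011, u13_0), (nat_lit 0x20000000015, u14_0), (nat_lit 0x10000000000000000020000000011, u15_0), (nat_lit 0x8000000000020000000011, u16_0), (nat_lit 0x20000001011, u17_0), (nat_lit 0x40000000000000020000000011, u18_0), (nat_lit 0x400000000020000000011, u19_0), (nat_lit 0x20000400011, u20_0), (nat_lit 0x1000020000000011, u21_0)]
def FF4 : List (Nat × List Nat) := [(nat_lit 0xa0000000011, ib0), (nat_lit 0xa0000000011, ib1), (nat_lit 0xa0000000011, ib2), (nat_lit 0xa0000000011, ib3), (nat_lit 0xa0000000011, ib4), (nat_lit 0xa0000000011, ib5), (nat_lit 0xa0000000011, ib6), (nat_lit 0xa00000000000000000011, ib7), (nat_lit 0xa00000000000000000011, ib8), (nat_lit 0xa00000000000000000011, ib9), (nat_lit 0xa00000000000000000011, ib10), (nat_lit 0xa00000000000000000011, ib11), (nat_lit 0xa00000000000000000011, ib12), (nat_lit 0xa00000000000000000011, ib13), (nat_lit 0xa00000000000000000011, ib14), (nat_lit 0x200000000020000000011, ib15), (nat_lit 0x200000000020000000011, ib16),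 (nat_lit 0x200000000020000000011, ib17), (nat_lit 0x800000000080000000011, ib18), (nat_lit 0x800000000080000000011, ib19), (nat_lit 0x800000000080000000011, ib20), (nat_lit 0x800000000080000000011, ib21), (nat_lit 0x4000000080000001, ib22), (nat_lit 0x4000000200000001, ib23), (nat_lit 0x4000000200000001, ib24), (nat_lit 0x4000000200000001, ib25), (nat_lit 0x4000020000000001, ib26), (nat_lit 0x4000020000000001, ib27), (nat_lit 0x4000020000000001, ib28), (nat_lit 0x4000020000000001, ib29)]
def FF5 : List (Nat × List Nat) := [(nat_lit 0x4000000081000000, ib30), (nat_lit 0x4000000081000000, ib31), (nat_lit 0x4000000081000000, ib32), (nat_lit 0x4000000081000000, ib33), (nat_lit 0x4000000201000000, ib34), (nat_lit 0x4000000201000000, ib35), (nat_lit 0x4000000201000000, ib36), (nat_lit 0x4000000201000000, ib37), (nat_lit 0x4000020001000000, ib38), (nat_lit 0x4000020001000000, ib39), (nat_lit 0x4000020001000000, ib40), (nat_lit 0x4000020001000000, ib41)]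
/-- the solved families -/
def FF : List (Nat × List Nat) := FF0 ++ (FF1 ++ (FF2 ++ (FF3 ++ (FF4 ++ (FF5)))))
/-- the answer to the third move -/
noncomputable def yf (b : Nat) : Nat := sel (Nat.beq b 41) 83 41

end Pool.Agent.H425R2
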