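import Pool.Agent.H425R2.TDefs

set_option autoImplicit false

namespace Pool.Agent.H425R2

/-- image of a mask -/
noncomputable def imgm (G U n : Nat) : Nat :=
  Nat.rec (motive := fun _ => Nat) 0 (fun c ih => sel (Nat.beq (Nat.land (Nat.shiftRight U c) 1) 1)
    (Nat.lor (Nat.shiftLeft 1 (gf G c)) ih) ih) n

/-- `B` lists the images of `A` -/
noncomputable def imgsOK (G : Nat) (A : List Nat) : List Nat → Bool :=
  List.rec (motive := fun _ => List Nat → Bool) (fun B => List.rec (motive := fun _ => Bool) true
      (fun _ _ _ => false) B)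
    (fun U _ ih B => List.rec (motive := fun _ => Bool) false
      (fun V B' _ => sel (Nat.beq (imgm G U 125) V) (ih B') false) B) A

end Pool.Agent.H425R2
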