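
import Pool.Agent.H425R2.BDefs

set_option autoImplicit false

namespace Pool.Agent.H425R2

/-- evaluate the number first -/
@[reducible] noncomputable def force {α : Type} (s : Nat) (f : Nat → α) : α :=
  Nat.rec (motive := fun _ => α) (f 0) (fun p _ => f (Nat.succ p)) s

/-- the numbers with bit `b` -/
noncomputable def flt (b : Nat) (L : List Nat) : List Nat :=
  List.rec (motive := fun _ => List Nat) []
    (fun U _ ih => sel (Nat.beq (Nat.land (Nat.shiftRight U b) 1) 1) (List.cons U ih) ih) L

/-- union of the members that contain `M` -/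
noncomputable def cov (M : Nat) (L : List Nat) : Nat → Nat :=
  List.rec (motive := fun _ => Nat → Nat) (fun acc => acc)
    (fun U _ ih acc => sel (Nat.beq (Nat.land U M) M) (force (Nat.lor U acc) ih) (ih acc)) L

/-- exactly one bit -/
noncomputable def single (d : Nat) : Bool :=
  sel (Nat.beq d 0) false (Nat.beq (Nat.land d (Nat.sub d 1)) 0)

/-- union over the families whose Breaker set is one cell away from `R` -/
noncomputable def covF (M R : Nat) (Fs : List (Nat × List Nat)) : Nat → Nat :=
  List.rec (motive := fun _ => Nat → Nat) (fun acc => acc)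
    (fun p _ ih acc => sel (single (Nat.xor p.1 (Nat.land p.1 R))) (force (cov M p.2 acc) ih)
      (ih acc)) Fs

/-- filter all families -/
noncomputable def fltF (b : Nat) (Fs : List (Nat × List Nat)) : List (Nat × List Nat) :=
  List.rec (motive := fun _ => List (Nat × List Nat)) []
    (fun p _ ih => List.cons (p.1, flt b p.2) ih) Fs

/-- no line inside `M` -/
noncomputable def noneSub (M : Nat) (L : List Nat) : Bool :=
  List.rec (motive := fun _ => Bool) true
    (fun e _ ih => sel (Nat.beq (Nat.land e M) e) false ih) L

/-- all 125 cells -/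
def FULL : Nat := nat_lit 0x1fffffffffffffffffffffffffffffff

/-- a position all of whose moves are answered by a member of the families -/
noncomputable def pchk (Fs : List (Nat × List Nat)) (M R : Nat) : Bool :=
  sel (noneSub M bl)
    (Nat.beq (Nat.land (Nat.lor (covF M R Fs 0) (Nat.lor M R)) FULL) FULL) false

/-- a position with two more rounds: the answer to `b` is `yf b` -/
noncomputable def nchk (Fs : List (Nat × List Nat)) (yf : Nat → Nat) (M R : Nat) (n : Nat) : Bool :=
  Nat.rec (motive := fun _ => Bool) (noneSub M bl)
    (fun b ih => sel (sel (Nat.beq (Nat.land (Nat.lor M R) (Nat.shiftLeft 1 b)) 0)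
      (sel (Nat.beq (Nat.land (Nat.lor M (Nat.shiftLeft 1 b)) (Nat.shiftLeft 1 (yf b))) 0)
        (pchk Fs (Nat.lor M (Nat.shiftLeft 1 b)) (Nat.lor R (Nat.shiftLeft 1 (yf b)))) false)
      true) ih false) n

/-- the permutation coded by `G` -/
noncomputable def gf (G c : Nat) : Nat := Nat.land (Nat.shiftRight G (Nat.mul 7 c)) 127

/-- injective on the first `n` cells -/
noncomputable def ginj (G n : Nat) : Nat → Bool :=
  Nat.rec (motive := fun _ => Nat → Bool) (fun _ => true)
    (fun c ih u => sel (Nat.beq (Nat.land u (Nat.shiftLeft 1 (gf G c))) 0)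
      (force (Nat.lor u (Nat.shiftLeft 1 (gf G c))) ih) false) n

/-- image of a line given by its cells -/
noncomputable def gimg (G P : Nat) : Nat :=
  Nat.lor (Nat.shiftLeft 1 (gf G (Nat.land P 127)))
    (Nat.lor (Nat.shiftLeft 1 (gf G (Nat.land (Nat.shiftRight P 7) 127)))
      (Nat.lor (Nat.shiftLeft 1 (gf G (Nat.land (Nat.shiftRight P 14) 127)))
        (Nat.lor (Nat.shiftLeft 1 (gf G (Nat.land (Nat.shiftRight P 21) 127)))
          (Nat.shiftLeft 1 (gf G (Nat.land (Nat.shiftRight P 28) 127))))))

noncomputable def gimgs (G : Nat) (L : List Nat) : List Nat :=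
  List.rec (motive := fun _ => List Nat) [] (fun P _ ih => List.cons (gimg G P) ih) L

noncomputable def memb (e : Nat) (L : List Nat) : Bool :=
  List.rec (motive := fun _ => Bool) false (fun f _ ih => sel (Nat.beq f e) true ih) L

noncomputable def allMemb (K L : List Nat) : Bool :=
  List.rec (motive := fun _ => Bool) true (fun e _ ih => sel (memb e K) ih false) L

/-- `G` codes a symmetry of the board -/
noncomputable def symOK (G : Nat) : Bool :=
  sel (ginj G 125 0) (allMemb (gimgs G lc) bl) false

/-- images of a list of cells -/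
noncomputable def gmap (G : Nat) (L : List Nat) : List Nat :=
  List.rec (motive := fun _ => List Nat) [] (fun c _ ih => List.cons (gf G c) ih) L

/-- `G` is a symmetry that keeps both sets of cells -/
noncomputable def stabOK (Ml Rl : List Nat) (G : Nat) : Bool :=
  sel (Nat.beq (mk (gmap G Ml)) (mk Ml)) (Nat.beq (mk (gmap G Rl)) (mk Rl)) false

noncomputable def stabs (Ml Rl : List Nat) (Gs : List Nat) : Bool :=
  List.rec (motive := fun _ => Bool) true (fun G _ ih => sel (stabOK Ml Rl G) ih false) Gs

/-- union of the images of the cells `As` under all of `Gs` -/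
noncomputable def orb (Gs As : List Nat) : Nat :=
  List.rec (motive := fun _ => Nat) 0 (fun G _ ih => Nat.lor (mk (gmap G As)) ih) Gs

/-- every free cell is an image of a member of `As` -/
noncomputable def rootOK (Ml Rl Gs As : List Nat) : Bool :=
  sel (noneSub (mk Ml) bl) (sel (stabs Ml Rl Gs)
    (Nat.beq (Nat.land (Nat.lor (orb Gs As) (Nat.lor (mk Ml) (mk Rl))) FULL) FULL) false) false

end Pool.Agent.H425R2
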