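import Mathlib
import Pool.Agent.Helper582.Cube
import Pool.Agent.H425R2.Theory
import Pool.Agent.H425R2.Bits
import Pool.Agent.H425R2.BSound
import Pool.Agent.H425R2.TDefs

set_option autoImplicit false
set_option maxRecDepth 100000

namespace Pool.Agent.H425R2

open Set Pool.Agent.Helper582.Cube

theorem force_eq {α : Type} (s : ℕ) (f : ℕ → α) : force s f = f s := by
  cases s <;> rfl

theorem Pos.mono {U R M R' : ℕ} (h : Pos U R) (hM : ∀ c, M.testBit c = true → U.testBit c = true)
    (hR : ∀ c, R.testBit c = true → R'.testBit c = true) : Pos M R' := by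
  refine BW.mono h ?_
  rintro k ⟨i, hi, hal, rfl⟩
  refine ⟨_, ⟨i, hi, fun c hc => ?_, rfl⟩, ?_⟩
  · cases hh : R.testBit c with
    | false => rfl
    | true =>
      have := hR c hh
      rw [hal c hc] at this
      exact absurd this (by simp)
  · rintro c ⟨hc, hU⟩
    refine ⟨hc, ?_⟩
    cases hh : M.testBit c with
    | false => rfl
    | true =>
      rw [hM c hh] at hU
      exact absurd hU (by simp)

theorem bl_lt : ∀ e ∈ bl, e < 2 ^ 125 := by decide +kernel

theorem bl_mem {i : ℕ} (hi : i < 109) : bl.getD i 0 ∈ bl := by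
  rw [List.getD_eq_getElem _ _ (by rw [bl_length]; exact hi)]
  exact List.getElem_mem _

theorem Tl_lt {i c : ℕ} (hi : i < 109) (hc : c ∈ Tl i) : c < 125 := by
  by_contra hcon
  have h1 := bl_lt _ (bl_mem hi)
  have h2 : (bl.getD i 0).testBit c = false :=
    Nat.testBit_lt_two_pow (h1.trans_le (Nat.pow_le_pow_right (by norm_num) (by omega)))
  have h3 : (bl.getD i 0).testBit c = true := hc
  rw [h2] at h3
  exact absurd h3 (by simp)

theorem Pos.node {M R : ℕ} (hne : ∀ i < 109, ∃ c ∈ Tl i, M.testBit c = false)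
    (h : ∀ c < 125, M.testBit c = false → R.testBit c = false → ∃ y, y ≠ c ∧
      M.testBit y = false ∧ Pos (Nat.lor M (Nat.shiftLeft 1 c)) (Nat.lor R (Nat.shiftLeft 1 y))) :
    Pos M R := by
  apply BW.node
  · rintro ⟨i, hi, _, he⟩
    obtain ⟨c, hc, hM⟩ := hne i hi
    have : c ∈ (∅ : Set ℕ) := by rw [he]; exact ⟨hc, hM⟩
    exact this
  · rintro x ⟨s, ⟨i, hi, hal, rfl⟩, hxi, hxM⟩
    obtain ⟨y, hy, hyM, hP⟩ := h x (Tl_lt hi hxi) hxM (hal x hxi)
    refine ⟨y, hy, BW.mono hP ?_⟩
    rintro s ⟨e, ⟨j, hj, halj, rfl⟩, hye, rfl⟩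
    have hyj : y ∉ Tl j := fun hh => hye ⟨hh, hyM⟩
    refine ⟨_, ⟨j, hj, fun c hc => ?_, rfl⟩, ?_⟩
    · rw [tlor, halj c hc, tone]
      have : y ≠ c := fun hh => hyj (hh ▸ hc)
      simp [this]
    · rintro c ⟨hc, hcM⟩
      rw [tlor, Bool.or_eq_false_iff, tone] at hcM
      refine ⟨⟨hc, hcM.1⟩, ?_⟩
      intro hcx
      rw [mem_singleton_iff] at hcx
      rw [hcx] at hcM
      simp at hcM

/-- all members of the families are solved -/
def SolvedF (Fs : List (ℕ × List ℕ)) : Prop := ∀ p ∈ Fs, Solved p.1 p.2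

theorem flt_mem {b U : ℕ} (L : List ℕ) (h : U ∈ flt b L) : U ∈ L := by
  induction L with
  | nil => exact h
  | cons V L ih =>
    have e : flt b (V :: L) = sel (Nat.beq (Nat.land (Nat.shiftRight V b) 1) 1)
      (V :: flt b L) (flt b L) := rfl
    rw [e] at h
    revert h
    cases Nat.beq (Nat.land (Nat.shiftRight V b) 1) 1 with
    | true =>
      intro h
      rcases List.mem_cons.1 h with h | h
      · exact List.mem_cons.2 (Or.inl h)
      · exact List.mem_cons.2 (Or.inr (ih h))
    | false => exact fun h => List.mem_cons.2 (Or.inr (ih h))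

theorem SolvedF.flt {b : ℕ} {Fs : List (ℕ × List ℕ)} (h : SolvedF Fs) : SolvedF (fltF b Fs) := by
  induction Fs with
  | nil => exact h
  | cons p Fs ih =>
    have e : fltF b (p :: Fs) = (p.1, Pool.Agent.H425R2.flt b p.2) :: fltF b Fs := rfl
    rw [e]
    intro q hq
    rcases List.mem_cons.1 hq with hq | hq
    · subst hq
      exact fun U hU => h p (by simp) U (flt_mem _ hU)
    · exact ih (fun q hq => h q (by simp [hq])) q hq

theorem land_eq_bits {U M : ℕ} (h : Nat.beq (Nat.land U M) M = true) (c : ℕ)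
    (hc : M.testBit c = true) : U.testBit c = true := by
  have h0 := congrArg (fun z => Nat.testBit z c) (Nat.eq_of_beq_eq_true h)
  simp only [tland, hc, Bool.and_true] at h0
  exact h0

theorem cov_spec {M : ℕ} (L : List ℕ) : ∀ acc c : ℕ, (cov M L acc).testBit c = true →
    acc.testBit c = true ∨ ∃ U ∈ L, Nat.beq (Nat.land U M) M = true ∧ U.testBit c = true := by
  induction L with
  | nil => exact fun acc c h => Or.inl h
  | cons V L ih =>
    intro acc c h
    have e : cov M (V :: L) acc = sel (Nat.beq (Nat.land V M) M)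
      (force (Nat.lor V acc) (cov M L)) (cov M L acc) := rfl
    rw [e, force_eq] at h
    revert h
    cases hb : Nat.beq (Nat.land V M) M with
    | true =>
      intro h
      rcases ih _ _ h with h1 | ⟨U, hU, h1⟩
      · rw [tlor, Bool.or_eq_true] at h1
        rcases h1 with h1 | h1
        · exact Or.inr ⟨V, by simp, hb, h1⟩
        · exact Or.inl h1
      · exact Or.inr ⟨U, by simp [hU], h1⟩
    | false =>
      intro h
      rcases ih _ _ h with h1 | ⟨U, hU, h1⟩
      · exact Or.inl h1
      · exact Or.inr ⟨U, by simp [hU], h1⟩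

theorem covF_spec {M R : ℕ} (Fs : List (ℕ × List ℕ)) : ∀ acc c : ℕ,
    (covF M R Fs acc).testBit c = true → acc.testBit c = true ∨ ∃ p ∈ Fs, ∃ U ∈ p.2,
      single (Nat.xor p.1 (Nat.land p.1 R)) = true ∧ Nat.beq (Nat.land U M) M = true ∧
        U.testBit c = true := by
  induction Fs with
  | nil => exact fun acc c h => Or.inl h
  | cons p Fs ih =>
    intro acc c h
    have e : covF M R (p :: Fs) acc = sel (single (Nat.xor p.1 (Nat.land p.1 R)))
      (force (cov M p.2 acc) (covF M R Fs)) (covF M R Fs acc) := rfl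
    rw [e, force_eq] at h
    revert h
    cases hb : single (Nat.xor p.1 (Nat.land p.1 R)) with
    | true =>
      intro h
      rcases ih _ _ h with h1 | ⟨q, hq, h1⟩
      · rcases cov_spec _ _ _ h1 with h2 | ⟨U, hU, h2⟩
        · exact Or.inl h2
        · exact Or.inr ⟨p, by simp, U, hU, hb, h2⟩
      · exact Or.inr ⟨q, by simp [hq], h1⟩
    | false =>
      intro h
      rcases ih _ _ h with h1 | ⟨q, hq, h1⟩
      · exact Or.inl h1
      · exact Or.inr ⟨q, by simp [hq], h1⟩

theorem single_spec {d : ℕ} (h : single d = true) :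
    ∃ y, d.testBit y = true ∧ ∀ c, d.testBit c = true → c = y := by
  obtain ⟨h1, h2⟩ := sel_nand (h : sel _ false _ = true)
  have hd : d ≠ 0 := beq_ne h1
  obtain ⟨y, hy⟩ := Nat.exists_testBit_ne_of_ne hd
  rw [Nat.zero_testBit] at hy
  have hy' : d.testBit y = true := by
    cases hh : d.testBit y with
    | true => rfl
    | false => exact absurd hh hy
  exact ⟨y, hy', fun c hc => one_bit h2 hc hy'⟩

theorem noneSub_spec {M : ℕ} (L : List ℕ) (h : noneSub M L = true) :
    ∀ e ∈ L, ∃ c, e.testBit c = true ∧ M.testBit c = false := by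
  induction L with
  | nil => intro e he; exact absurd he (by simp)
  | cons V L ih =>
    obtain ⟨h1, h2⟩ := sel_nand (h : sel _ false _ = true)
    intro e he
    rcases List.mem_cons.1 he with he | he
    · subst he
      by_contra hcon
      push Not at hcon
      apply beq_ne h1
      apply Nat.eq_of_testBit_eq
      intro c
      rw [tland]
      cases hh : e.testBit c with
      | false => rfl
      | true =>
        have := hcon c hh
        simp only [ne_eq, Bool.not_eq_false] at this
        rw [this]; rfl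
    · exact ih h2 e he

theorem noneSub_Tl {M : ℕ} (h : noneSub M bl = true) :
    ∀ i < 109, ∃ c ∈ Tl i, M.testBit c = false := by
  intro i hi
  obtain ⟨c, h1, h2⟩ := noneSub_spec bl h _ (bl_mem hi)
  exact ⟨c, h1, h2⟩

theorem FULL_bit {c : ℕ} (hc : c < 125) : FULL.testBit c = true := by
  have : FULL = 2 ^ 125 - 1 := by decide +kernel
  rw [this, Nat.testBit_two_pow_sub_one]
  simp [hc]

theorem pchk_sound {Fs : List (ℕ × List ℕ)} {M R : ℕ} (hF : SolvedF Fs)
    (h : pchk Fs M R = true) : Pos M R := by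
  obtain ⟨h1, h2⟩ := sel_and (h : sel _ _ false = true)
  refine Pos.node (noneSub_Tl h1) ?_
  intro c hc hM hR
  have h3 := land_eq_bits h2 c (FULL_bit hc)
  rw [tlor, tlor, hM, hR, Bool.or_false, Bool.or_false] at h3
  rcases covF_spec _ _ _ h3 with h4 | ⟨p, hp, U, hU, h4, h5, h6⟩
  · simp at h4
  · obtain ⟨hP, hdis⟩ := hF p hp U hU
    obtain ⟨y, hy, huniq⟩ := single_spec h4
    rw [txor, tland] at hy
    have hpy : p.1.testBit y = true := by
      cases hh : p.1.testBit y with
      | true => rfl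
      | false => rw [hh] at hy; simp at hy
    have hUM := fun c => land_eq_bits h5 c
    refine ⟨y, ?_, ?_, ?_⟩
    · rintro rfl
      rw [hdis y h6] at hpy
      exact absurd hpy (by simp)
    · cases hh : M.testBit y with
      | false => rfl
      | true =>
        rw [hdis y (hUM y hh)] at hpy
        exact absurd hpy (by simp)
    · refine hP.mono ?_ ?_
      · intro a ha
        rw [tlor, tone, Bool.or_eq_true, decide_eq_true_eq] at ha
        rcases ha with ha | ha
        · exact hUM a ha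
        · subst ha; exact h6
      · intro a ha
        rw [tlor, tone]
        cases hh : R.testBit a with
        | true => rfl
        | false =>
          have : a = y := huniq a (by rw [txor, tland, ha, hh]; rfl)
          subst this
          simp

theorem nchk_spec {Fs : List (ℕ × List ℕ)} {yf : ℕ → ℕ} {M R : ℕ} (hF : SolvedF Fs) (n : ℕ)
    (h : nchk Fs yf M R n = true) : noneSub M bl = true ∧
      ∀ b < n, M.testBit b = false → R.testBit b = false → ∃ y, y ≠ b ∧ M.testBit y = false ∧
        Pos (Nat.lor M (Nat.shiftLeft 1 b)) (Nat.lor R (Nat.shiftLeft 1 y)) := by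
  induction n with
  | zero => exact ⟨h, fun b hb => absurd hb (by omega)⟩
  | succ n ih =>
    obtain ⟨h1, h2⟩ := sel_and (h : sel _ _ false = true)
    obtain ⟨h3, h4⟩ := ih h2
    refine ⟨h3, fun b hb hM hR => ?_⟩
    rcases Nat.lt_succ_iff_lt_or_eq.1 hb with h5 | h5
    · exact h4 b h5 hM hR
    · subst h5
      have h6 : Nat.beq (Nat.land (Nat.lor M R) (Nat.shiftLeft 1 b)) 0 = true := by
        have : Nat.land (Nat.lor M R) (Nat.shiftLeft 1 b) = 0 := by
          apply Nat.eq_of_testBit_eq
          intro c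
          rw [tland, tlor, tone, Nat.zero_testBit]
          by_cases hcb : b = c
          · subst hcb; rw [hM, hR]; rfl
          · simp [hcb]
        rw [this]
        rfl
      rw [h6] at h1
      obtain ⟨h7, h8⟩ := sel_and (h1 : sel _ _ false = true)
      have h9 := land_zero h7 (yf b) (by rw [tone]; simp)
      rw [tlor, Bool.or_eq_false_iff, tone, decide_eq_false_iff_not] at h9
      exact ⟨yf b, fun hh => h9.2 hh.symm, h9.1, pchk_sound hF h8⟩

theorem nchk_sound {Fs : List (ℕ × List ℕ)} {yf : ℕ → ℕ} {M R : ℕ} (hF : SolvedF Fs)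
    (h : nchk Fs yf M R 125 = true) : Pos M R := by
  obtain ⟨h1, h2⟩ := nchk_spec hF 125 h
  exact Pos.node (noneSub_Tl h1) h2

theorem gf_lt (G c : ℕ) : gf G c < 128 := by
  have : gf G c ≤ 127 := Nat.and_le_right
  omega

theorem ginj_spec {G : ℕ} (n : ℕ) : ∀ u : ℕ, ginj G n u = true →
    (∀ c < n, u.testBit (gf G c) = false) ∧
      (∀ c < n, ∀ d < n, gf G c = gf G d → c = d) := by
  induction n with
  | zero => exact fun u _ => ⟨fun c hc => absurd hc (by omega), fun c hc => absurd hc (by omega)⟩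
  | succ n ih =>
    intro u h
    obtain ⟨h1, h2⟩ := sel_and (h : sel _ _ false = true)
    have h2' : ginj G n (Nat.lor u (Nat.shiftLeft 1 (gf G n))) = true := by
      have := h2
      rw [force_eq] at this
      exact this
    obtain ⟨h3, h4⟩ := ih _ h2'
    have h5 := land_zero h1 (gf G n) (by rw [tone]; simp)
    have h6 : ∀ c < n, u.testBit (gf G c) = false ∧ gf G n ≠ gf G c := by
      intro c hc
      have := h3 c hc
      rw [tlor, Bool.or_eq_false_iff, tone, decide_eq_false_iff_not] at this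
      exact this
    refine ⟨fun c hc => ?_, fun c hc d hd hcd => ?_⟩
    · rcases Nat.lt_succ_iff_lt_or_eq.1 hc with h7 | h7
      · exact (h6 c h7).1
      · subst h7; exact h5
    · rcases Nat.lt_succ_iff_lt_or_eq.1 hc with h7 | h7
      · rcases Nat.lt_succ_iff_lt_or_eq.1 hd with h8 | h8
        · exact h4 c h7 d h8 hcd
        · subst h8; exact absurd hcd.symm (h6 c h7).2
      · rcases Nat.lt_succ_iff_lt_or_eq.1 hd with h8 | h8
        · subst h7; exact absurd hcd (h6 d h8).2
        · omega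

/-- the mask of a line given by its cells -/
noncomputable def pmask (P : ℕ) : ℕ :=
  Nat.lor (Nat.shiftLeft 1 (Nat.land P 127))
    (Nat.lor (Nat.shiftLeft 1 (Nat.land (Nat.shiftRight P 7) 127))
      (Nat.lor (Nat.shiftLeft 1 (Nat.land (Nat.shiftRight P 14) 127))
        (Nat.lor (Nat.shiftLeft 1 (Nat.land (Nat.shiftRight P 21) 127))
          (Nat.shiftLeft 1 (Nat.land (Nat.shiftRight P 28) 127)))))

theorem lc_map : lc.map pmask = bl := by decide +kernel

theorem gimg_spec {G P d : ℕ} (h : (gimg G P).testBit d = true) :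
    ∃ c, (pmask P).testBit c = true ∧ gf G c = d := by
  unfold gimg at h
  simp only [tlor, tone, Bool.or_eq_true, decide_eq_true_eq] at h
  rcases h with h | h | h | h | h <;> refine ⟨_, ?_, h⟩ <;> unfold pmask <;>
    simp only [tlor, tone, Bool.or_eq_true, decide_eq_true_eq, true_or, or_true]

theorem gimg_spec' {G P c : ℕ} (h : (pmask P).testBit c = true) :
    (gimg G P).testBit (gf G c) = true := by
  unfold pmask at h
  simp only [tlor, tone, Bool.or_eq_true, decide_eq_true_eq] at h
  unfold gimg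
  rcases h with h | h | h | h | h <;> subst h <;>
    simp only [tlor, tone, Bool.or_eq_true, decide_eq_true_eq, true_or, or_true]

theorem memb_spec {e : ℕ} (L : List ℕ) (h : memb e L = true) : e ∈ L := by
  induction L with
  | nil =>
    have h' : false = true := h
    exact absurd h' (by simp)
  | cons f L ih =>
    have h' : sel (Nat.beq f e) true (memb e L) = true := h
    revert h'
    cases hb : Nat.beq f e with
    | true => intro _; exact List.mem_cons.2 (Or.inl (Nat.eq_of_beq_eq_true hb).symm)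
    | false => exact fun h' => List.mem_cons.2 (Or.inr (ih h'))

theorem allMemb_spec {K : List ℕ} (L : List ℕ) (h : allMemb K L = true) : ∀ e ∈ L, e ∈ K := by
  induction L with
  | nil => intro e he; exact absurd he (by simp)
  | cons f L ih =>
    obtain ⟨h1, h2⟩ := sel_and (h : sel _ _ false = true)
    intro e he
    rcases List.mem_cons.1 he with he | he
    · subst he; exact memb_spec _ h1
    · exact ih h2 e he

theorem gimgs_mem {G e : ℕ} (L : List ℕ) (h : e ∈ gimgs G L) : ∃ P ∈ L, e = gimg G P := by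
  induction L with
  | nil => exact absurd h (by simp [gimgs])
  | cons P L ih =>
    have h' : e ∈ gimg G P :: gimgs G L := h
    rcases List.mem_cons.1 h' with h' | h'
    · exact ⟨P, by simp, h'⟩
    · obtain ⟨Q, hQ, h''⟩ := ih h'
      exact ⟨Q, by simp [hQ], h''⟩

theorem sym_lines {G : ℕ} (h : symOK G = true) : ∀ i < 109, ∃ j < 109, gf G '' (Tl j) = Tl i := by
  obtain ⟨_, h2⟩ := sel_and (h : sel _ _ false = true)
  intro i hi
  have h3 := allMemb_spec _ h2 _ (bl_mem hi)
  obtain ⟨P, hP, he⟩ := gimgs_mem _ h3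
  have h4 : pmask P ∈ bl := by
    rw [← lc_map]
    exact List.mem_map_of_mem hP
  obtain ⟨j, hj, hjP⟩ := List.getElem_of_mem h4
  rw [bl_length] at hj
  refine ⟨j, hj, ?_⟩
  have e1 : bl.getD j 0 = pmask P := by
    rw [List.getD_eq_getElem _ _ (by rw [bl_length]; exact hj)]
    exact hjP
  ext d
  constructor
  · rintro ⟨c, hc, rfl⟩
    have hc' : (bl.getD j 0).testBit c = true := hc
    rw [e1] at hc'
    change (bl.getD i 0).testBit (gf G c) = true
    rw [he]
    exact gimg_spec' hc'
  · intro hd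
    have hd' : (bl.getD i 0).testBit d = true := hd
    rw [he] at hd'
    obtain ⟨c, hc, hcd⟩ := gimg_spec hd'
    refine ⟨c, ?_, hcd⟩
    change (bl.getD j 0).testBit c = true
    rw [e1]
    exact hc

theorem sym_inj {G : ℕ} (h : symOK G = true) {c d : ℕ} (hc : c < 125) (hd : d < 125)
    (hcd : gf G c = gf G d) : c = d := by
  obtain ⟨h1, _⟩ := sel_and (h : sel _ _ false = true)
  exact (ginj_spec 125 0 h1).2 c hc d hd hcd

theorem gmap_mem {G d : ℕ} (L : List ℕ) : d ∈ gmap G L ↔ ∃ c ∈ L, gf G c = d := by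
  induction L with
  | nil => simp [gmap]
  | cons a L ih =>
    have : gmap G (a :: L) = gf G a :: gmap G L := rfl
    rw [this, List.mem_cons, ih]
    constructor
    · rintro (h | ⟨c, hc, h⟩)
      · exact ⟨a, by simp, h.symm⟩
      · exact ⟨c, by simp [hc], h⟩
    · rintro ⟨c, hc, h⟩
      rcases List.mem_cons.1 hc with hc | hc
      · subst hc; exact Or.inl h.symm
      · exact Or.inr ⟨c, hc, h⟩

theorem sym_sound {G : ℕ} (h : symOK G = true) {Ml Rl : List ℕ} (hM : ∀ c ∈ Ml, c < 125)
    (hP : Pos (mk Ml) (mk Rl)) : Pos (mk (gmap G Ml)) (mk (gmap G Rl)) := by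
  refine push hP (gf G) ?_ ?_
  · rintro c ⟨s, ⟨i, hi, _, rfl⟩, hc⟩ d ⟨t, ⟨j, hj, _, rfl⟩, hd⟩ hcd
    exact sym_inj h (Tl_lt hi hc.1) (Tl_lt hj hd.1) hcd
  · rintro k ⟨i, hi, hal, rfl⟩
    obtain ⟨j, hj, hji⟩ := sym_lines h i hi
    refine ⟨_, ⟨j, hj, fun c hc => ?_, rfl⟩, ?_⟩
    · cases hh : (mk Rl).testBit c with
      | false => rfl
      | true =>
        have h1 : (mk (gmap G Rl)).testBit (gf G c) = true :=
          (mk_bit _ _).2 ((gmap_mem _).2 ⟨c, (mk_bit _ _).1 hh, rfl⟩)
        have h2 : gf G c ∈ Tl i := by rw [← hji]; exact ⟨c, hc, rfl⟩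
        rw [hal _ h2] at h1
        exact absurd h1 (by simp)
    · rintro _ ⟨c, ⟨hc, hcM⟩, rfl⟩
      refine ⟨by rw [← hji]; exact ⟨c, hc, rfl⟩, ?_⟩
      cases hh : (mk (gmap G Ml)).testBit (gf G c) with
      | false => rfl
      | true =>
        obtain ⟨d, hd, hdc⟩ := (gmap_mem _).1 ((mk_bit _ _).1 hh)
        have := sym_inj h (hM d hd) (Tl_lt hj hc) hdc
        subst this
        rw [(mk_bit _ _).2 hd] at hcM
        exact absurd hcM (by simp)

theorem mk_cons (a : ℕ) (L : List ℕ) : mk (a :: L) = Nat.lor (Nat.shiftLeft 1 a) (mk L) := rfl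

theorem stabs_spec {Ml Rl : List ℕ} (Gs : List ℕ) (h : stabs Ml Rl Gs = true) :
    ∀ G ∈ Gs, mk (gmap G Ml) = mk Ml ∧ mk (gmap G Rl) = mk Rl := by
  induction Gs with
  | nil => intro G hG; exact absurd hG (by simp)
  | cons F Gs ih =>
    obtain ⟨h1, h2⟩ := sel_and (h : sel _ _ false = true)
    obtain ⟨h3, h4⟩ := sel_and (h1 : sel _ _ false = true)
    intro G hG
    rcases List.mem_cons.1 hG with hG | hG
    · subst hG; exact ⟨Nat.eq_of_beq_eq_true h3, Nat.eq_of_beq_eq_true h4⟩
    · exact ih h2 G hG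

theorem orb_spec {As : List ℕ} {c : ℕ} (Gs : List ℕ) (h : (orb Gs As).testBit c = true) :
    ∃ G ∈ Gs, ∃ a ∈ As, gf G a = c := by
  induction Gs with
  | nil =>
    have e : orb [] As = 0 := rfl
    rw [e] at h; simp at h
  | cons F Gs ih =>
    have e : orb (F :: Gs) As = Nat.lor (mk (gmap F As)) (orb Gs As) := rfl
    rw [e, tlor, Bool.or_eq_true] at h
    rcases h with h | h
    · obtain ⟨a, ha, hac⟩ := (gmap_mem _).1 ((mk_bit _ _).1 h)
      exact ⟨F, by simp, a, ha, hac⟩
    · obtain ⟨G, hG, h'⟩ := ih h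
      exact ⟨G, by simp [hG], h'⟩

/-- it is enough to answer one move of each orbit -/
theorem root_sound {Ml Rl Gs As : List ℕ} (hM : ∀ c ∈ Ml, c < 125)
    (hG : ∀ G ∈ Gs, symOK G = true) (h : rootOK Ml Rl Gs As = true)
    (hA : ∀ a ∈ As, a < 125 ∧ ∃ y, y < 125 ∧ y ≠ a ∧ y ∉ Ml ∧ Pos (mk (a :: Ml)) (mk (y :: Rl))) :
    Pos (mk Ml) (mk Rl) := by
  obtain ⟨h1, h2⟩ := sel_and (h : sel _ _ false = true)
  obtain ⟨h3, h4⟩ := sel_and (h2 : sel _ _ false = true)
  refine Pos.node (noneSub_Tl h1) ?_
  intro c hc hMc hRc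
  have h5 := land_eq_bits h4 c (FULL_bit hc)
  rw [tlor, tlor, hMc, hRc, Bool.or_false, Bool.or_false] at h5
  obtain ⟨G, hGm, a, ha, hac⟩ := orb_spec _ h5
  obtain ⟨ha1, y, hy, hya, hyM, hP⟩ := hA a ha
  obtain ⟨hs1, hs2⟩ := stabs_spec _ h3 G hGm
  have hsym := hG G hGm
  have hP' := sym_sound hsym (by
    intro d hd
    rcases List.mem_cons.1 hd with hd | hd
    · subst hd; exact ha1
    · exact hM d hd) hP
  have e1 : gmap G (a :: Ml) = c :: gmap G Ml := by
    rw [← hac]; rfl
  have e2 : gmap G (y :: Rl) = gf G y :: gmap G Rl := rfl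
  rw [e1, e2, mk_cons, mk_cons, hs1, hs2] at hP'
  refine ⟨gf G y, ?_, ?_, ?_⟩
  · rw [← hac]
    exact fun hh => hya (sym_inj hsym hy ha1 hh)
  · cases hh : (mk Ml).testBit (gf G y) with
    | false => rfl
    | true =>
      rw [← hs1] at hh
      obtain ⟨d, hd, hdy⟩ := (gmap_mem _).1 ((mk_bit _ _).1 hh)
      have := sym_inj hsym (hM d hd) hy hdy
      subst this
      exact absurd hd hyM
  · refine hP'.mono ?_ ?_
    · intro d hd
      rw [tlor, Bool.or_eq_true] at hd ⊢
      exact hd.symm
    · intro d hd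
      rw [tlor, Bool.or_eq_true] at hd ⊢
      exact hd.symm

/-- the empty board -/
theorem five_of_root (h : Pos (mk []) (mk [])) : BW (cubeLines 5) := by
  have hc : covers 5 (bl.map (fun e => Nat.shiftLeft e 16)) = true := by decide +kernel
  refine BW_cube hc (BW.mono h ?_)
  rintro k ⟨e, he, rfl⟩
  obtain ⟨e', he', rfl⟩ := List.mem_map.1 he
  obtain ⟨i, hi, hie⟩ := List.getElem_of_mem he'
  rw [bl_length] at hi
  have e1 : bl.getD i 0 = e' := by
    rw [List.getD_eq_getElem _ _ (by rw [bl_length]; exact hi)]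
    exact hie
  refine ⟨_, ⟨i, hi, fun c _ => ?_, rfl⟩, ?_⟩
  · have : mk [] = 0 := rfl
    rw [this]; simp
  · rintro c ⟨hc, _⟩
    have hc' : (bl.getD i 0).testBit c = true := hc
    rw [e1] at hc'
    change (Nat.shiftLeft e' 16).testBit (c + 16) = true
    rw [tshl, Nat.add_sub_cancel, hc']
    simp

/-- moving a solved position by a symmetry that keeps `R` -/
theorem Solved.append {R : ℕ} {A B : List ℕ} (hA : Solved R A) (hB : Solved R B) :
    Solved R (A ++ B) := by
  intro U hU
  rcases List.mem_append.1 hU with h | h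
  · exact hA U h
  · exact hB U h

end Pool.Agent.H425R2
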