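import Mathlib
import Pool.Agent.Helper582.Cube
import Pool.Agent.H425R2.Theory
import Pool.Agent.H425R2.Bits
import Pool.Agent.H425R2.BSound
import Pool.Agent.H425R2.TDefs
import Pool.Agent.H425R2.TSound
import Pool.Agent.H425R2.FinD

set_option autoImplicit false
set_option maxRecDepth 100000

namespace Pool.Agent.H425R2

open Set Pool.Agent.Helper582.Cube

theorem imgm_spec {G U d : ℕ} (n : ℕ) : (imgm G U n).testBit d = true ↔
    ∃ c < n, U.testBit c = true ∧ gf G c = d := by
  induction n with
  | zero =>
    have e : imgm G U 0 = 0 := rfl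
    rw [e]; simp
  | succ n ih =>
    have e : imgm G U (n + 1) = sel (Nat.beq (Nat.land (Nat.shiftRight U n) 1) 1)
      (Nat.lor (Nat.shiftLeft 1 (gf G n)) (imgm G U n)) (imgm G U n) := rfl
    rw [e, land_one]
    cases hb : U.testBit n with
    | true =>
      have : (Nat.lor (Nat.shiftLeft 1 (gf G n)) (imgm G U n)).testBit d = true ↔
          ∃ c < n + 1, U.testBit c = true ∧ gf G c = d := by
        rw [tlor, tone, Bool.or_eq_true, decide_eq_true_eq, ih]
        constructor
        · rintro (h | ⟨c, hc, h⟩)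
          · exact ⟨n, by omega, hb, h⟩
          · exact ⟨c, by omega, h⟩
        · rintro ⟨c, hc, h1, h2⟩
          rcases Nat.lt_succ_iff_lt_or_eq.1 hc with h3 | h3
          · exact Or.inr ⟨c, h3, h1, h2⟩
          · subst h3; exact Or.inl h2
      exact this
    | false =>
      have : (imgm G U n).testBit d = true ↔ ∃ c < n + 1, U.testBit c = true ∧ gf G c = d := by
        rw [ih]
        constructor
        · rintro ⟨c, hc, h⟩
          exact ⟨c, by omega, h⟩
        · rintro ⟨c, hc, h1, h2⟩
          rcases Nat.lt_succ_iff_lt_or_eq.1 hc with h3 | h3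
          · exact ⟨c, h3, h1, h2⟩
          · subst h3
            rw [hb] at h1
            exact absurd h1 (by simp)
      exact this

theorem sym_mask {G U R : ℕ} (h : symOK G = true) (hP : Pos U R) :
    Pos (imgm G U 125) (imgm G R 125) := by
  refine push hP (gf G) ?_ ?_
  · rintro c ⟨s, ⟨i, hi, _, rfl⟩, hc⟩ d ⟨t, ⟨j, hj, _, rfl⟩, hd⟩ hcd
    exact sym_inj h (Tl_lt hi hc.1) (Tl_lt hj hd.1) hcd
  · rintro k ⟨i, hi, hal, rfl⟩
    obtain ⟨j, hj, hji⟩ := sym_lines h i hi
    refine ⟨_, ⟨j, hj, fun c hc => ?_, rfl⟩, ?_⟩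
    · cases hh : R.testBit c with
      | false => rfl
      | true =>
        have h1 : (imgm G R 125).testBit (gf G c) = true :=
          (imgm_spec 125).2 ⟨c, Tl_lt hj hc, hh, rfl⟩
        have h2 : gf G c ∈ Tl i := by rw [← hji]; exact ⟨c, hc, rfl⟩
        rw [hal _ h2] at h1
        exact absurd h1 (by simp)
    · rintro _ ⟨c, ⟨hc, hcM⟩, rfl⟩
      refine ⟨by rw [← hji]; exact ⟨c, hc, rfl⟩, ?_⟩
      cases hh : (imgm G U 125).testBit (gf G c) with
      | false => rfl
      | true =>
        obtain ⟨d, hd, hdU, hdc⟩ := (imgm_spec 125).1 hh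
        have := sym_inj h hd (Tl_lt hj hc) hdc
        subst this
        rw [hdU] at hcM
        exact absurd hcM (by simp)

theorem imgs_sound {G R R' : ℕ} (hG : symOK G = true) (hR : Nat.beq (imgm G R 125) R' = true)
    (A : List ℕ) : ∀ B : List ℕ, Solved R A → imgsOK G A B = true → Solved R' B := by
  have hR' := Nat.eq_of_beq_eq_true hR
  induction A with
  | nil =>
    intro B _ h
    cases B with
    | nil => intro U hU; exact absurd hU (by simp)
    | cons V B =>
      have h' : false = true := h
      exact absurd h' (by simp)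
  | cons U A ih =>
    intro B hA h
    cases B with
    | nil =>
      have h' : false = true := h
      exact absurd h' (by simp)
    | cons V B =>
      obtain ⟨h1, h2⟩ := sel_and (h : sel _ _ false = true)
      have e := Nat.eq_of_beq_eq_true h1
      intro W hW
      rcases List.mem_cons.1 hW with hW | hW
      · subst hW
        obtain ⟨hP, hd⟩ := hA U (by simp)
        constructor
        · rw [← e, ← hR']
          exact sym_mask hG hP
        · intro d hdW
          rw [← e] at hdW
          obtain ⟨c, hc, hcU, hcd⟩ := (imgm_spec 125).1 hdW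
          cases hh : R'.testBit d with
          | false => rfl
          | true =>
            rw [← hR'] at hh
            obtain ⟨c', hc', hcR, hcd'⟩ := (imgm_spec 125).1 hh
            have := sym_inj hG hc hc' (hcd.trans hcd'.symm)
            subst this
            rw [hd c hcU] at hcR
            exact absurd hcR (by simp)
      · exact ih B (fun U hU => hA U (by simp [hU])) h2 W hW

theorem SolvedF.nil : SolvedF [] := fun p hp => absurd hp (by simp)

theorem SolvedF.cons {R : ℕ} {Us : List ℕ} {Fs : List (ℕ × List ℕ)} (h : Solved R Us)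
    (hF : SolvedF Fs) : SolvedF ((R, Us) :: Fs) := by
  intro p hp
  rcases List.mem_cons.1 hp with hp | hp
  · subst hp; exact h
  · exact hF p hp

theorem SolvedF.append {Fs Gs : List (ℕ × List ℕ)} (hF : SolvedF Fs)
    (hG : SolvedF Gs) : SolvedF (Fs ++ Gs) := by
  intro p hp
  rcases List.mem_append.1 hp with hp | hp
  · exact hF p hp
  · exact hG p hp

/-- leaves with a literal Breaker set -/
theorem Solved.of {T : Tr} {bound R : ℕ} (hch : ∀ id < bound, BW (TH (look T id)))
    (L : List ℕ) (hL : ∀ c ∈ L, c < 128) (hR : Nat.beq (mk L) R = true) {Us cs : List ℕ}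
    (h : leavesOK T bound (nd L) (mk L) Us cs = true) : Solved R Us := by
  rw [← Nat.eq_of_beq_eq_true hR]
  exact leaves_sound hch L hL Us cs h

/-- a solved position as a family -/
theorem Solved.one {U R : ℕ} (h : Pos U R) (hd : Nat.beq (Nat.land R U) 0 = true) :
    Solved R [U] := by
  intro V hV
  rw [List.mem_singleton] at hV
  subst hV
  refine ⟨h, fun c hc => land_zero hd c hc⟩

/-- the answer to a first move of a list -/
def Ans (Ml Rl : List ℕ) (a : ℕ) : Prop :=
  a < 125 ∧ ∃ y, y < 125 ∧ y ≠ a ∧ y ∉ Ml ∧ Pos (mk (a :: Ml)) (mk (y :: Rl))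

theorem Ans.nil {Ml Rl : List ℕ} : ∀ a ∈ ([] : List ℕ), Ans Ml Rl a :=
  fun a ha => absurd ha (by simp)

theorem Ans.cons {Ml Rl : List ℕ} {a : ℕ} {As : List ℕ} (h : Ans Ml Rl a)
    (hA : ∀ a ∈ As, Ans Ml Rl a) : ∀ b ∈ a :: As, Ans Ml Rl b := by
  intro b hb
  rcases List.mem_cons.1 hb with hb | hb
  · subst hb; exact h
  · exact hA b hb

end Pool.Agent.H425R2
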