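
import Pool.Agent.H425R2.TDefs

set_option autoImplicit false

namespace Pool.Agent.H425R2

/-- drop the first element of `A` if it is `U` -/
noncomputable def dropIf (U : Nat) (A : List Nat) : List Nat :=
  List.rec (motive := fun _ => List Nat) [] (fun V A' _ => sel (Nat.beq U V) A' (List.cons V A')) A

/-- match `A` against `Us` in order; what is left of `A` -/
noncomputable def consume (Us : List Nat) : List Nat → List Nat :=
  List.rec (motive := fun _ => List Nat → List Nat) (fun A => A)
    (fun U _ ih A => ih (dropIf U A)) Us

/-- all of `A` is found in the families with Breaker set `R` -/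
noncomputable def subOK (R : Nat) (Fs : List (Nat × List Nat)) : List Nat → Bool :=
  List.rec (motive := fun _ => List Nat → Bool)
    (fun A => List.rec (motive := fun _ => Bool) true (fun _ _ _ => false) A)
    (fun p _ ih A => sel (Nat.beq p.1 R) (ih (consume p.2 A)) (ih A)) Fs

end Pool.Agent.H425R2
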