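import Pool.Agent.H425R2.FinD
import Pool.Agent.H425R2.SubD
import Pool.Agent.H425R2.Sym
import Pool.Agent.H425R2.ULists
import Pool.Agent.H425R2.ImgD

set_option autoImplicit false
set_option maxRecDepth 100000

namespace Pool.Agent.H425R2

theorem za0 : subOK (nat_lit 0xa0000000011) FB0 ia0 = true := by decide +kernel
theorem zb0 : imgsOK g52 ia0 ib0 = true := by decide +kernel
theorem zc0 : Nat.beq (imgm g52 (nat_lit 0xa0000000011) 125) (nat_lit 0xa0000000011) = true := by decide +kernel
theorem za4 : subOK (nat_lit 0xa0000000011) FB0 ia4 = true := by decide +kernel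
theorem zb4 : imgsOK g71 ia4 ib4 = true := by decide +kernel
theorem zc4 : Nat.beq (imgm g71 (nat_lit 0xa0000000011) 125) (nat_lit 0xa0000000011) = true := by decide +kernel
theorem za8 : subOK (nat_lit 0xa0000000011) FB0 ia8 = true := by decide +kernel
theorem zb8 : imgsOK g26 ia8 ib8 = true := by decide +kernel
theorem zc8 : Nat.beq (imgm g26 (nat_lit 0xa0000000011) 125) (nat_lit 0xa00000000000000000011) = true := by decide +kernel
theorem za12 : subOK (nat_lit 0xa0000000011) FB0 ia12 = true := by decide +kernel
theorem zb12 : imgsOK g12 ia12 ib12 = true := by decide +kernel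
theorem zc12 : Nat.beq (imgm g12 (nat_lit 0xa0000000011) 125) (nat_lit 0xa00000000000000000011) = true := by decide +kernel
theorem za16 : subOK (nat_lit 0x200000000020000000011) FB2 ia16 = true := by decide +kernel
theorem zb16 : imgsOK g60 ia16 ib16 = true := by decide +kernel
theorem zc16 : Nat.beq (imgm g60 (nat_lit 0x200000000020000000011) 125) (nat_lit 0x200000000020000000011) = true := by decide +kernel
theorem za20 : subOK (nat_lit 0x200000000020000000011) FB2 ia20 = true := by decide +kernel
theorem zb20 : imgsOK g59 ia20 ib20 = true := by decide +kernel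
theorem zc20 : Nat.beq (imgm g59 (nat_lit 0x200000000020000000011) 125) (nat_lit 0x800000000080000000011) = true := by decide +kernel
theorem za24 : subOK (nat_lit 0x4000000200000001) FB1 ia24 = true := by decide +kernel
theorem zb24 : imgsOK g67 ia24 ib24 = true := by decide +kernel
theorem zc24 : Nat.beq (imgm g67 (nat_lit 0x4000000200000001) 125) (nat_lit 0x4000000200000001) = true := by decide +kernel
theorem za28 : subOK (nat_lit 0x4000000200000001) FB1 ia28 = true := by decide +kernel
theorem zb28 : imgsOK g77 ia28 ib28 = true := by decide +kernel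
theorem zc28 : Nat.beq (imgm g77 (nat_lit 0x4000000200000001) 125) (nat_lit 0x4000020000000001) = true := by decide +kernel
theorem za32 : subOK (nat_lit 0x4000000200000001) FB1 ia32 = true := by decide +kernel
theorem zb32 : imgsOK g19 ia32 ib32 = true := by decide +kernel
theorem zc32 : Nat.beq (imgm g19 (nat_lit 0x4000000200000001) 125) (nat_lit 0x4000000081000000) = true := by decide +kernel
theorem za36 : subOK (nat_lit 0x4000000200000001) FB1 ia36 = true := by decide +kernel
theorem zb36 : imgsOK g7 ia36 ib36 = true := by decide +kernel
theorem zc36 : Nat.beq (imgm g7 (nat_lit 0x4000000200000001) 125) (nat_lit 0x4000000201000000) = true := by decide +kernel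
theorem za40 : subOK (nat_lit 0x4000000200000001) FB1 ia40 = true := by decide +kernel
theorem zb40 : imgsOK g5 ia40 ib40 = true := by decide +kernel
theorem zc40 : Nat.beq (imgm g5 (nat_lit 0x4000000200000001) 125) (nat_lit 0x4000020001000000) = true := by decide +kernel

end Pool.Agent.H425R2
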