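import Pool.Agent.H425R2.FinD
import Pool.Agent.H425R2.SubD
import Pool.Agent.H425R2.Sym
import Pool.Agent.H425R2.ULists
import Pool.Agent.H425R2.ImgD

set_option autoImplicit false
set_option maxRecDepth 100000

namespace Pool.Agent.H425R2

theorem za1 : subOK (nat_lit 0xa0000000011) FB0 ia1 = true := by decide +kernel
theorem zb1 : imgsOK g65 ia1 ib1 = true := by decide +kernel
theorem zc1 : Nat.beq (imgm g65 (nat_lit 0xa0000000011) 125) (nat_lit 0xa0000000011) = true := by decide +kernel
theorem za5 : subOK (nat_lit 0xa0000000011) FB0 ia5 = true := by decide +kernel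
theorem zb5 : imgsOK g72 ia5 ib5 = true := by decide +kernel
theorem zc5 : Nat.beq (imgm g72 (nat_lit 0xa0000000011) 125) (nat_lit 0xa0000000011) = true := by decide +kernel
theorem za9 : subOK (nat_lit 0xa0000000011) FB0 ia9 = true := by decide +kernel
theorem zb9 : imgsOK g60 ia9 ib9 = true := by decide +kernel
theorem zc9 : Nat.beq (imgm g60 (nat_lit 0xa0000000011) 125) (nat_lit 0xa00000000000000000011) = true := by decide +kernel
theorem za13 : subOK (nat_lit 0xa0000000011) FB0 ia13 = true := by decide +kernel
theorem zb13 : imgsOK g32 ia13 ib13 = true := by decide +kernel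
theorem zc13 : Nat.beq (imgm g32 (nat_lit 0xa0000000011) 125) (nat_lit 0xa00000000000000000011) = true := by decide +kernel
theorem za17 : subOK (nat_lit 0x200000000020000000011) FB2 ia17 = true := by decide +kernel
theorem zb17 : imgsOK g65 ia17 ib17 = true := by decide +kernel
theorem zc17 : Nat.beq (imgm g65 (nat_lit 0x200000000020000000011) 125) (nat_lit 0x200000000020000000011) = true := by decide +kernel
theorem za21 : subOK (nat_lit 0x200000000020000000011) FB2 ia21 = true := by decide +kernel
theorem zb21 : imgsOK g64 ia21 ib21 = true := by decide +kernel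
theorem zc21 : Nat.beq (imgm g64 (nat_lit 0x200000000020000000011) 125) (nat_lit 0x800000000080000000011) = true := by decide +kernel
theorem za25 : subOK (nat_lit 0x4000000200000001) FB1 ia25 = true := by decide +kernel
theorem zb25 : imgsOK g76 ia25 ib25 = true := by decide +kernel
theorem zc25 : Nat.beq (imgm g76 (nat_lit 0x4000000200000001) 125) (nat_lit 0x4000000200000001) = true := by decide +kernel
theorem za29 : subOK (nat_lit 0x4000000200000001) FB1 ia29 = true := by decide +kernel
theorem zb29 : imgsOK g78 ia29 ib29 = true := by decide +kernel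
theorem zc29 : Nat.beq (imgm g78 (nat_lit 0x4000000200000001) 125) (nat_lit 0x4000020000000001) = true := by decide +kernel
theorem za33 : subOK (nat_lit 0x4000000200000001) FB1 ia33 = true := by decide +kernel
theorem zb33 : imgsOK g81 ia33 ib33 = true := by decide +kernel
theorem zc33 : Nat.beq (imgm g81 (nat_lit 0x4000000200000001) 125) (nat_lit 0x4000000081000000) = true := by decide +kernel
theorem za37 : subOK (nat_lit 0x4000000200000001) FB1 ia37 = true := by decide +kernel
theorem zb37 : imgsOK g83 ia37 ib37 = true := by decide +kernel
theorem zc37 : Nat.beq (imgm g83 (nat_lit 0x4000000200000001) 125) (nat_lit 0x4000000201000000) = true := by decide +kernel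
theorem za41 : subOK (nat_lit 0x4000000200000001) FB1 ia41 = true := by decide +kernel
theorem zb41 : imgsOK g70 ia41 ib41 = true := by decide +kernel
theorem zc41 : Nat.beq (imgm g70 (nat_lit 0x4000000200000001) 125) (nat_lit 0x4000020001000000) = true := by decide +kernel

end Pool.Agent.H425R2
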