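import Pool.Agent.H425R2.FinD
import Pool.Agent.H425R2.SubD
import Pool.Agent.H425R2.Sym
import Pool.Agent.H425R2.ULists
import Pool.Agent.H425R2.ImgD

set_option autoImplicit false
set_option maxRecDepth 100000

namespace Pool.Agent.H425R2

theorem za2 : subOK (nat_lit 0xa0000000011) FB0 ia2 = true := by decide +kernel
theorem zb2 : imgsOK g59 ia2 ib2 = true := by decide +kernel
theorem zc2 : Nat.beq (imgm g59 (nat_lit 0xa0000000011) 125) (nat_lit 0xa0000000011) = true := by decide +kernel
theorem za6 : subOK (nat_lit 0xa0000000011) FB0 ia6 = true := by decide +kernel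
theorem zb6 : imgsOK g73 ia6 ib6 = true := by decide +kernel
theorem zc6 : Nat.beq (imgm g73 (nat_lit 0xa0000000011) 125) (nat_lit 0xa0000000011) = true := by decide +kernel
theorem za10 : subOK (nat_lit 0xa0000000011) FB0 ia10 = true := by decide +kernel
theorem zb10 : imgsOK g64 ia10 ib10 = true := by decide +kernel
theorem zc10 : Nat.beq (imgm g64 (nat_lit 0xa0000000011) 125) (nat_lit 0xa00000000000000000011) = true := by decide +kernel
theorem za14 : subOK (nat_lit 0xa0000000011) FB0 ia14 = true := by decide +kernel
theorem zb14 : imgsOK g75 ia14 ib14 = true := by decide +kernel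
theorem zc14 : Nat.beq (imgm g75 (nat_lit 0xa0000000011) 125) (nat_lit 0xa00000000000000000011) = true := by decide +kernel
theorem za18 : subOK (nat_lit 0x200000000020000000011) FB2 ia18 = true := by decide +kernel
theorem zb18 : imgsOK g26 ia18 ib18 = true := by decide +kernel
theorem zc18 : Nat.beq (imgm g26 (nat_lit 0x200000000020000000011) 125) (nat_lit 0x800000000080000000011) = true := by decide +kernel
theorem za22 : subOK (nat_lit 0x4000000080000001) FB3 ia22 = true := by decide +kernel
theorem zb22 : imgsOK g66 ia22 ib22 = true := by decide +kernel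
theorem zc22 : Nat.beq (imgm g66 (nat_lit 0x4000000080000001) 125) (nat_lit 0x4000000080000001) = true := by decide +kernel
theorem za26 : subOK (nat_lit 0x4000000200000001) FB1 ia26 = true := by decide +kernel
theorem zb26 : imgsOK g22 ia26 ib26 = true := by decide +kernel
theorem zc26 : Nat.beq (imgm g22 (nat_lit 0x4000000200000001) 125) (nat_lit 0x4000020000000001) = true := by decide +kernel
theorem za30 : subOK (nat_lit 0x4000000200000001) FB1 ia30 = true := by decide +kernel
theorem zb30 : imgsOK g79 ia30 ib30 = true := by decide +kernel
theorem zc30 : Nat.beq (imgm g79 (nat_lit 0x4000000200000001) 125) (nat_lit 0x4000000081000000) = true := by decide +kernel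
theorem za34 : subOK (nat_lit 0x4000000200000001) FB1 ia34 = true := by decide +kernel
theorem zb34 : imgsOK g62 ia34 ib34 = true := by decide +kernel
theorem zc34 : Nat.beq (imgm g62 (nat_lit 0x4000000200000001) 125) (nat_lit 0x4000000201000000) = true := by decide +kernel
theorem za38 : subOK (nat_lit 0x4000000200000001) FB1 ia38 = true := by decide +kernel
theorem zb38 : imgsOK g54 ia38 ib38 = true := by decide +kernel
theorem zc38 : Nat.beq (imgm g54 (nat_lit 0x4000000200000001) 125) (nat_lit 0x4000020001000000) = true := by decide +kernel

end Pool.Agent.H425R2
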