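import Pool.Agent.H425R2.FinD
import Pool.Agent.H425R2.SubD
import Pool.Agent.H425R2.Sym
import Pool.Agent.H425R2.ULists
import Pool.Agent.H425R2.ImgD

set_option autoImplicit false
set_option maxRecDepth 100000

namespace Pool.Agent.H425R2

theorem za3 : subOK (nat_lit 0xa0000000011) FB0 ia3 = true := by decide +kernel
theorem zb3 : imgsOK g70 ia3 ib3 = true := by decide +kernel
theorem zc3 : Nat.beq (imgm g70 (nat_lit 0xa0000000011) 125) (nat_lit 0xa0000000011) = true := by decide +kernel
theorem za7 : subOK (nat_lit 0xa0000000011) FB0 ia7 = true := by decide +kernel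
theorem zb7 : imgsOK g50 ia7 ib7 = true := by decide +kernel
theorem zc7 : Nat.beq (imgm g50 (nat_lit 0xa0000000011) 125) (nat_lit 0xa00000000000000000011) = true := by decide +kernel
theorem za11 : subOK (nat_lit 0xa0000000011) FB0 ia11 = true := by decide +kernel
theorem zb11 : imgsOK g74 ia11 ib11 = true := by decide +kernel
theorem zc11 : Nat.beq (imgm g74 (nat_lit 0xa0000000011) 125) (nat_lit 0xa00000000000000000011) = true := by decide +kernel
theorem za15 : subOK (nat_lit 0x200000000020000000011) FB2 ia15 = true := by decide +kernel
theorem zb15 : imgsOK g50 ia15 ib15 = true := by decide +kernel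
theorem zc15 : Nat.beq (imgm g50 (nat_lit 0x200000000020000000011) 125) (nat_lit 0x200000000020000000011) = true := by decide +kernel
theorem za19 : subOK (nat_lit 0x200000000020000000011) FB2 ia19 = true := by decide +kernel
theorem zb19 : imgsOK g52 ia19 ib19 = true := by decide +kernel
theorem zc19 : Nat.beq (imgm g52 (nat_lit 0x200000000020000000011) 125) (nat_lit 0x800000000080000000011) = true := by decide +kernel
theorem za23 : subOK (nat_lit 0x4000000200000001) FB1 ia23 = true := by decide +kernel
theorem zb23 : imgsOK g50 ia23 ib23 = true := by decide +kernel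
theorem zc23 : Nat.beq (imgm g50 (nat_lit 0x4000000200000001) 125) (nat_lit 0x4000000200000001) = true := by decide +kernel
theorem za27 : subOK (nat_lit 0x4000000200000001) FB1 ia27 = true := by decide +kernel
theorem zb27 : imgsOK g48 ia27 ib27 = true := by decide +kernel
theorem zc27 : Nat.beq (imgm g48 (nat_lit 0x4000000200000001) 125) (nat_lit 0x4000020000000001) = true := by decide +kernel
theorem za31 : subOK (nat_lit 0x4000000200000001) FB1 ia31 = true := by decide +kernel
theorem zb31 : imgsOK g80 ia31 ib31 = true := by decide +kernel
theorem zc31 : Nat.beq (imgm g80 (nat_lit 0x4000000200000001) 125) (nat_lit 0x4000000081000000) = true := by decide +kernel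
theorem za35 : subOK (nat_lit 0x4000000200000001) FB1 ia35 = true := by decide +kernel
theorem zb35 : imgsOK g82 ia35 ib35 = true := by decide +kernel
theorem zc35 : Nat.beq (imgm g82 (nat_lit 0x4000000200000001) 125) (nat_lit 0x4000000201000000) = true := by decide +kernel
theorem za39 : subOK (nat_lit 0x4000000200000001) FB1 ia39 = true := by decide +kernel
theorem zb39 : imgsOK g84 ia39 ib39 = true := by decide +kernel
theorem zc39 : Nat.beq (imgm g84 (nat_lit 0x4000000200000001) 125) (nat_lit 0x4000020001000000) = true := by decide +kernel

end Pool.Agent.H425R2
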