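import Mathlib
import Pool.Agent.H425R2.TSound
import Pool.Agent.H425R2.SubD

set_option autoImplicit false

namespace Pool.Agent.H425R2

theorem dropIf_spec {U x : ℕ} (A : List ℕ) (h : x ∈ A) : x = U ∨ x ∈ dropIf U A := by
  cases A with
  | nil => exact absurd h (by simp)
  | cons V A =>
    have e : dropIf U (V :: A) = sel (Nat.beq U V) A (V :: A) := rfl
    rw [e]
    cases hb : Nat.beq U V with
    | true =>
      have hUV := Nat.eq_of_beq_eq_true hb
      rcases List.mem_cons.1 h with h | h
      · exact Or.inl (h.trans hUV.symm)
      · exact Or.inr h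
    | false => exact Or.inr h

theorem consume_spec {x : ℕ} (Us : List ℕ) : ∀ A : List ℕ, x ∈ A → x ∈ Us ∨ x ∈ consume Us A := by
  induction Us with
  | nil => exact fun A h => Or.inr h
  | cons U Us ih =>
    intro A h
    have e : consume (U :: Us) A = consume Us (dropIf U A) := rfl
    rw [e]
    rcases dropIf_spec (U := U) A h with h1 | h1
    · exact Or.inl (by simp [h1])
    · rcases ih _ h1 with h2 | h2
      · exact Or.inl (by simp [h2])
      · exact Or.inr h2

theorem sub_sound {R : ℕ} (Fs : List (ℕ × List ℕ)) (hF : SolvedF Fs) : ∀ A : List ℕ,
    subOK R Fs A = true → Solved R A := by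
  induction Fs with
  | nil =>
    intro A h
    cases A with
    | nil => intro U hU; exact absurd hU (by simp)
    | cons V A =>
      have h' : false = true := h
      exact absurd h' (by simp)
  | cons p Fs ih =>
    intro A h
    have e : subOK R (p :: Fs) A = sel (Nat.beq p.1 R) (subOK R Fs (consume p.2 A))
      (subOK R Fs A) := rfl
    rw [e] at h
    have ih' := ih (fun q hq => hF q (by simp [hq]))
    revert h
    cases hb : Nat.beq p.1 R with
    | true =>
      intro h U hU
      have hR := Nat.eq_of_beq_eq_true hb
      rcases consume_spec p.2 A hU with h1 | h1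
      · have := hF p (by simp) U h1
        rw [hR] at this
        exact this
      · exact ih' _ h U h1
    | false => exact fun h => ih' _ h

end Pool.Agent.H425R2
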