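import Pool.Agent.H425R2.Sound
import Pool.Agent.H425R2.T0
import Pool.Agent.H425R2.T1
import Pool.Agent.H425R2.T2
import Pool.Agent.H425R2.T3
import Pool.Agent.H425R2.T4
import Pool.Agent.H425R2.T5
import Pool.Agent.H425R2.T6
import Pool.Agent.H425R2.T7
import Pool.Agent.H425R2.T8
import Pool.Agent.H425R2.T9
import Pool.Agent.H425R2.T10
import Pool.Agent.H425R2.T11
import Pool.Agent.H425R2.T12
import Pool.Agent.H425R2.T13
import Pool.Agent.H425R2.T14
import Pool.Agent.H425R2.T15
import Pool.Agent.H425R2.T16
import Pool.Agent.H425R2.T17
import Pool.Agent.H425R2.T18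
import Pool.Agent.H425R2.T19
import Pool.Agent.H425R2.T20
import Pool.Agent.H425R2.T21
import Pool.Agent.H425R2.T22
import Pool.Agent.H425R2.T23
import Pool.Agent.H425R2.T24
import Pool.Agent.H425R2.T25
import Pool.Agent.H425R2.T26
import Pool.Agent.H425R2.T27
import Pool.Agent.H425R2.T28
import Pool.Agent.H425R2.T29
import Pool.Agent.H425R2.T30
import Pool.Agent.H425R2.T31

set_option autoImplicit false
set_option maxRecDepth 100000

namespace Pool.Agent.H425R2

theorem q0 : Rg TT 0 200 := Rg.of (L := c0) o0 (by decide +kernel)
theorem q200 : Rg TT 200 371 := Rg.of (L := c200) o200 (by decide +kernel)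
theorem q371 : Rg TT 371 541 := Rg.of (L := c371) o371 (by decide +kernel)
theorem q541 : Rg TT 541 721 := Rg.of (L := c541) o541 (by decide +kernel)
theorem q721 : Rg TT 721 903 := Rg.of (L := c721) o721 (by decide +kernel)
theorem q903 : Rg TT 903 1040 := Rg.of (L := c903) o903 (by decide +kernel)
theorem q1040 : Rg TT 1040 1168 := Rg.of (L := c1040) o1040 (by decide +kernel)
theorem q1168 : Rg TT 1168 1292 := Rg.of (L := c1168) o1168 (by decide +kernel)
theorem q1292 : Rg TT 1292 1467 := Rg.of (L := c1292) o1292 (by decide +kernel)
theorem q1467 : Rg TT 1467 1645 := Rg.of (L := c1467) o1467 (by decide +kernel)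
theorem q1645 : Rg TT 1645 1758 := Rg.of (L := c1645) o1645 (by decide +kernel)
theorem q1758 : Rg TT 1758 1876 := Rg.of (L := c1758) o1758 (by decide +kernel)
theorem q1876 : Rg TT 1876 1991 := Rg.of (L := c1876) o1876 (by decide +kernel)
theorem q1991 : Rg TT 1991 2114 := Rg.of (L := c1991) o1991 (by decide +kernel)
theorem q2114 : Rg TT 2114 2235 := Rg.of (L := c2114) o2114 (by decide +kernel)
theorem q2235 : Rg TT 2235 2359 := Rg.of (L := c2235) o2235 (by decide +kernel)
theorem q2359 : Rg TT 2359 2488 := Rg.of (L := c2359) o2359 (by decide +kernel)
theorem q2488 : Rg TT 2488 2616 := Rg.of (L := c2488) o2488 (by decide +kernel)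
theorem q2616 : Rg TT 2616 2742 := Rg.of (L := c2616) o2616 (by decide +kernel)
theorem q2742 : Rg TT 2742 2874 := Rg.of (L := c2742) o2742 (by decide +kernel)
theorem q2874 : Rg TT 2874 3003 := Rg.of (L := c2874) o2874 (by decide +kernel)
theorem q3003 : Rg TT 3003 3127 := Rg.of (L := c3003) o3003 (by decide +kernel)
theorem q3127 : Rg TT 3127 3255 := Rg.of (L := c3127) o3127 (by decide +kernel)
theorem q3255 : Rg TT 3255 3382 := Rg.of (L := c3255) o3255 (by decide +kernel)
theorem q3382 : Rg TT 3382 3512 := Rg.of (L := c3382) o3382 (by decide +kernel)
theorem q3512 : Rg TT 3512 3639 := Rg.of (L := c3512) o3512 (by decide +kernel)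
theorem q3639 : Rg TT 3639 3767 := Rg.of (L := c3639) o3639 (by decide +kernel)
theorem q3767 : Rg TT 3767 3899 := Rg.of (L := c3767) o3767 (by decide +kernel)
theorem q3899 : Rg TT 3899 4018 := Rg.of (L := c3899) o3899 (by decide +kernel)
theorem q4018 : Rg TT 4018 4093 := Rg.of (L := c4018) o4018 (by decide +kernel)
theorem q4093 : Rg TT 4093 4167 := Rg.of (L := c4093) o4093 (by decide +kernel)
theorem q4167 : Rg TT 4167 4238 := Rg.of (L := c4167) o4167 (by decide +kernel)
theorem q4238 : Rg TT 4238 4311 := Rg.of (L := c4238) o4238 (by decide +kernel)
theorem q4311 : Rg TT 4311 4445 := Rg.of (L := c4311) o4311 (by decide +kernel)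
theorem q4445 : Rg TT 4445 4578 := Rg.of (L := c4445) o4445 (by decide +kernel)
theorem q4578 : Rg TT 4578 4709 := Rg.of (L := c4578) o4578 (by decide +kernel)
theorem q4709 : Rg TT 4709 4840 := Rg.of (L := c4709) o4709 (by decide +kernel)
theorem q4840 : Rg TT 4840 4972 := Rg.of (L := c4840) o4840 (by decide +kernel)
theorem q4972 : Rg TT 4972 5106 := Rg.of (L := c4972) o4972 (by decide +kernel)
theorem q5106 : Rg TT 5106 5238 := Rg.of (L := c5106) o5106 (by decide +kernel)
theorem q5238 : Rg TT 5238 5370 := Rg.of (L := c5238) o5238 (by decide +kernel)
theorem q5370 : Rg TT 5370 5503 := Rg.of (L := c5370) o5370 (by decide +kernel)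
theorem q5503 : Rg TT 5503 5637 := Rg.of (L := c5503) o5503 (by decide +kernel)
theorem q5637 : Rg TT 5637 5771 := Rg.of (L := c5637) o5637 (by decide +kernel)
theorem q5771 : Rg TT 5771 5903 := Rg.of (L := c5771) o5771 (by decide +kernel)
theorem q5903 : Rg TT 5903 6036 := Rg.of (L := c5903) o5903 (by decide +kernel)
theorem q6036 : Rg TT 6036 6168 := Rg.of (L := c6036) o6036 (by decide +kernel)
theorem q6168 : Rg TT 6168 6303 := Rg.of (L := c6168) o6168 (by decide +kernel)
theorem q6303 : Rg TT 6303 6434 := Rg.of (L := c6303) o6303 (by decide +kernel)
theorem q6434 : Rg TT 6434 6566 := Rg.of (L := c6434) o6434 (by decide +kernel)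
theorem q6566 : Rg TT 6566 6701 := Rg.of (L := c6566) o6566 (by decide +kernel)
theorem q6701 : Rg TT 6701 6833 := Rg.of (L := c6701) o6701 (by decide +kernel)
theorem q6833 : Rg TT 6833 6968 := Rg.of (L := c6833) o6833 (by decide +kernel)
theorem q6968 : Rg TT 6968 7097 := Rg.of (L := c6968) o6968 (by decide +kernel)
theorem q7097 : Rg TT 7097 7227 := Rg.of (L := c7097) o7097 (by decide +kernel)
theorem q7227 : Rg TT 7227 7359 := Rg.of (L := c7227) o7227 (by decide +kernel)
theorem r0 : Rg TT 0 7359 := (((((((((((((((((((((((((((((((((((((((((((((((((((((((q0.join q200).join q371).join q541).join q721).join q903).join q1040).join q1168).join q1292).join q1467).join q1645).join q1758).join q1876).join q1991).join q2114).join q2235).join q2359).join q2488).join q2616).join q2742).join q2874).join q3003).join q3127).join q3255).join q3382).join q3512).join q3639).join q3767).join q3899).join q4018).join q4093).join q4167).join q4238).join q4311).join q4445).join q4578).join q4709).join q4840).join q4972).join q5106).join q5238).join q5370).join q5503).join q5637).join q5771).join q5903).join q6036).join q6168).join q6303).join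 q6434).join q6566).join q6701).join q6833).join q6968).join q7097).join q7227)
theorem q7359 : Rg TT 7359 7494 := Rg.of (L := c7359) o7359 (by decide +kernel)
theorem q7494 : Rg TT 7494 7627 := Rg.of (L := c7494) o7494 (by decide +kernel)
theorem q7627 : Rg TT 7627 7762 := Rg.of (L := c7627) o7627 (by decide +kernel)
theorem q7762 : Rg TT 7762 7890 := Rg.of (L := c7762) o7762 (by decide +kernel)
theorem q7890 : Rg TT 7890 7978 := Rg.of (L := c7890) o7890 (by decide +kernel)
theorem q7978 : Rg TT 7978 8069 := Rg.of (L := c7978) o7978 (by decide +kernel)
theorem q8069 : Rg TT 8069 8161 := Rg.of (L := c8069) o8069 (by decide +kernel)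
theorem q8161 : Rg TT 8161 8254 := Rg.of (L := c8161) o8161 (by decide +kernel)
theorem q8254 : Rg TT 8254 8346 := Rg.of (L := c8254) o8254 (by decide +kernel)
theorem q8346 : Rg TT 8346 8442 := Rg.of (L := c8346) o8346 (by decide +kernel)
theorem q8442 : Rg TT 8442 8538 := Rg.of (L := c8442) o8442 (by decide +kernel)
theorem q8538 : Rg TT 8538 8634 := Rg.of (L := c8538) o8538 (by decide +kernel)
theorem q8634 : Rg TT 8634 8729 := Rg.of (L := c8634) o8634 (by decide +kernel)
theorem q8729 : Rg TT 8729 8821 := Rg.of (L := c8729) o8729 (by decide +kernel)
theorem q8821 : Rg TT 8821 8920 := Rg.of (L := c8821) o8821 (by decide +kernel)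
theorem q8920 : Rg TT 8920 9016 := Rg.of (L := c8920) o8920 (by decide +kernel)
theorem q9016 : Rg TT 9016 9113 := Rg.of (L := c9016) o9016 (by decide +kernel)
theorem q9113 : Rg TT 9113 9206 := Rg.of (L := c9113) o9113 (by decide +kernel)
theorem q9206 : Rg TT 9206 9301 := Rg.of (L := c9206) o9206 (by decide +kernel)
theorem q9301 : Rg TT 9301 9399 := Rg.of (L := c9301) o9301 (by decide +kernel)
theorem q9399 : Rg TT 9399 9499 := Rg.of (L := c9399) o9399 (by decide +kernel)
theorem q9499 : Rg TT 9499 9597 := Rg.of (L := c9499) o9499 (by decide +kernel)
theorem q9597 : Rg TT 9597 9696 := Rg.of (L := c9597) o9597 (by decide +kernel)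
theorem q9696 : Rg TT 9696 9794 := Rg.of (L := c9696) o9696 (by decide +kernel)
theorem q9794 : Rg TT 9794 9895 := Rg.of (L := c9794) o9794 (by decide +kernel)
theorem q9895 : Rg TT 9895 9990 := Rg.of (L := c9895) o9895 (by decide +kernel)
theorem q9990 : Rg TT 9990 10086 := Rg.of (L := c9990) o9990 (by decide +kernel)
theorem q10086 : Rg TT 10086 10181 := Rg.of (L := c10086) o10086 (by decide +kernel)
theorem q10181 : Rg TT 10181 10282 := Rg.of (L := c10181) o10181 (by decide +kernel)
theorem q10282 : Rg TT 10282 10380 := Rg.of (L := c10282) o10282 (by decide +kernel)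
theorem q10380 : Rg TT 10380 10477 := Rg.of (L := c10380) o10380 (by decide +kernel)
theorem q10477 : Rg TT 10477 10572 := Rg.of (L := c10477) o10477 (by decide +kernel)
theorem q10572 : Rg TT 10572 10667 := Rg.of (L := c10572) o10572 (by decide +kernel)
theorem q10667 : Rg TT 10667 10765 := Rg.of (L := c10667) o10667 (by decide +kernel)
theorem q10765 : Rg TT 10765 10864 := Rg.of (L := c10765) o10765 (by decide +kernel)
theorem q10864 : Rg TT 10864 10962 := Rg.of (L := c10864) o10864 (by decide +kernel)
theorem q10962 : Rg TT 10962 11059 := Rg.of (L := c10962) o10962 (by decide +kernel)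
theorem q11059 : Rg TT 11059 11158 := Rg.of (L := c11059) o11059 (by decide +kernel)
theorem q11158 : Rg TT 11158 11252 := Rg.of (L := c11158) o11158 (by decide +kernel)
theorem q11252 : Rg TT 11252 11349 := Rg.of (L := c11252) o11252 (by decide +kernel)
theorem q11349 : Rg TT 11349 11443 := Rg.of (L := c11349) o11349 (by decide +kernel)
theorem q11443 : Rg TT 11443 11539 := Rg.of (L := c11443) o11443 (by decide +kernel)
theorem q11539 : Rg TT 11539 11637 := Rg.of (L := c11539) o11539 (by decide +kernel)
theorem q11637 : Rg TT 11637 11727 := Rg.of (L := c11637) o11637 (by decide +kernel)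
theorem q11727 : Rg TT 11727 11791 := Rg.of (L := c11727) o11727 (by decide +kernel)
theorem q11791 : Rg TT 11791 11851 := Rg.of (L := c11791) o11791 (by decide +kernel)
theorem q11851 : Rg TT 11851 11911 := Rg.of (L := c11851) o11851 (by decide +kernel)
theorem q11911 : Rg TT 11911 11971 := Rg.of (L := c11911) o11911 (by decide +kernel)
theorem q11971 : Rg TT 11971 12061 := Rg.of (L := c11971) o11971 (by decide +kernel)
theorem q12061 : Rg TT 12061 12198 := Rg.of (L := c12061) o12061 (by decide +kernel)
theorem q12198 : Rg TT 12198 12339 := Rg.of (L := c12198) o12198 (by decide +kernel)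
theorem q12339 : Rg TT 12339 12480 := Rg.of (L := c12339) o12339 (by decide +kernel)
theorem q12480 : Rg TT 12480 12624 := Rg.of (L := c12480) o12480 (by decide +kernel)
theorem q12624 : Rg TT 12624 12750 := Rg.of (L := c12624) o12624 (by decide +kernel)
theorem q12750 : Rg TT 12750 12846 := Rg.of (L := c12750) o12750 (by decide +kernel)
theorem q12846 : Rg TT 12846 12938 := Rg.of (L := c12846) o12846 (by decide +kernel)
theorem r1 : Rg TT 7359 12938 := (((((((((((((((((((((((((((((((((((((((((((((((((((((((q7359.join q7494).join q7627).join q7762).join q7890).join q7978).join q8069).join q8161).join q8254).join q8346).join q8442).join q8538).join q8634).join q8729).join q8821).join q8920).join q9016).join q9113).join q9206).join q9301).join q9399).join q9499).join q9597).join q9696).join q9794).join q9895).join q9990).join q10086).join q10181).join q10282).join q10380).join q10477).join q10572).join q10667).join q10765).join q10864).join q10962).join q11059).join q11158).join q11252).join q11349).join q11443).join q11539).join q11637).join q11727).join q11791).join q11851).join q11911).join q11971).join q12061).join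 q12198).join q12339).join q12480).join q12624).join q12750).join q12846)
theorem q12938 : Rg TT 12938 13031 := Rg.of (L := c12938) o12938 (by decide +kernel)
theorem q13031 : Rg TT 13031 13124 := Rg.of (L := c13031) o13031 (by decide +kernel)
theorem q13124 : Rg TT 13124 13216 := Rg.of (L := c13124) o13124 (by decide +kernel)
theorem q13216 : Rg TT 13216 13309 := Rg.of (L := c13216) o13216 (by decide +kernel)
theorem q13309 : Rg TT 13309 13403 := Rg.of (L := c13309) o13309 (by decide +kernel)
theorem q13403 : Rg TT 13403 13498 := Rg.of (L := c13403) o13403 (by decide +kernel)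
theorem q13498 : Rg TT 13498 13593 := Rg.of (L := c13498) o13498 (by decide +kernel)
theorem q13593 : Rg TT 13593 13685 := Rg.of (L := c13593) o13593 (by decide +kernel)
theorem q13685 : Rg TT 13685 13778 := Rg.of (L := c13685) o13685 (by decide +kernel)
theorem q13778 : Rg TT 13778 13869 := Rg.of (L := c13778) o13778 (by decide +kernel)
theorem q13869 : Rg TT 13869 13959 := Rg.of (L := c13869) o13869 (by decide +kernel)
theorem q13959 : Rg TT 13959 14048 := Rg.of (L := c13959) o13959 (by decide +kernel)
theorem q14048 : Rg TT 14048 14140 := Rg.of (L := c14048) o14048 (by decide +kernel)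
theorem q14140 : Rg TT 14140 14233 := Rg.of (L := c14140) o14140 (by decide +kernel)
theorem q14233 : Rg TT 14233 14327 := Rg.of (L := c14233) o14233 (by decide +kernel)
theorem q14327 : Rg TT 14327 14422 := Rg.of (L := c14327) o14327 (by decide +kernel)
theorem q14422 : Rg TT 14422 14520 := Rg.of (L := c14422) o14422 (by decide +kernel)
theorem q14520 : Rg TT 14520 14616 := Rg.of (L := c14520) o14520 (by decide +kernel)
theorem q14616 : Rg TT 14616 14706 := Rg.of (L := c14616) o14616 (by decide +kernel)
theorem q14706 : Rg TT 14706 14799 := Rg.of (L := c14706) o14706 (by decide +kernel)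
theorem q14799 : Rg TT 14799 14893 := Rg.of (L := c14799) o14799 (by decide +kernel)
theorem q14893 : Rg TT 14893 14988 := Rg.of (L := c14893) o14893 (by decide +kernel)
theorem q14988 : Rg TT 14988 15082 := Rg.of (L := c14988) o14988 (by decide +kernel)
theorem q15082 : Rg TT 15082 15176 := Rg.of (L := c15082) o15082 (by decide +kernel)
theorem q15176 : Rg TT 15176 15269 := Rg.of (L := c15176) o15176 (by decide +kernel)
theorem q15269 : Rg TT 15269 15361 := Rg.of (L := c15269) o15269 (by decide +kernel)
theorem q15361 : Rg TT 15361 15451 := Rg.of (L := c15361) o15361 (by decide +kernel)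
theorem q15451 : Rg TT 15451 15546 := Rg.of (L := c15451) o15451 (by decide +kernel)
theorem q15546 : Rg TT 15546 15642 := Rg.of (L := c15546) o15546 (by decide +kernel)
theorem q15642 : Rg TT 15642 15734 := Rg.of (L := c15642) o15642 (by decide +kernel)
theorem q15734 : Rg TT 15734 15827 := Rg.of (L := c15734) o15734 (by decide +kernel)
theorem q15827 : Rg TT 15827 15921 := Rg.of (L := c15827) o15827 (by decide +kernel)
theorem q15921 : Rg TT 15921 16014 := Rg.of (L := c15921) o15921 (by decide +kernel)
theorem q16014 : Rg TT 16014 16106 := Rg.of (L := c16014) o16014 (by decide +kernel)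
theorem q16106 : Rg TT 16106 16198 := Rg.of (L := c16106) o16106 (by decide +kernel)
theorem q16198 : Rg TT 16198 16291 := Rg.of (L := c16198) o16198 (by decide +kernel)
theorem q16291 : Rg TT 16291 16385 := Rg.of (L := c16291) o16291 (by decide +kernel)
theorem q16385 : Rg TT 16385 16482 := Rg.of (L := c16385) o16385 (by decide +kernel)
theorem q16482 : Rg TT 16482 16575 := Rg.of (L := c16482) o16482 (by decide +kernel)
theorem q16575 : Rg TT 16575 16671 := Rg.of (L := c16575) o16575 (by decide +kernel)
theorem q16671 : Rg TT 16671 16767 := Rg.of (L := c16671) o16671 (by decide +kernel)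
theorem q16767 : Rg TT 16767 16859 := Rg.of (L := c16767) o16767 (by decide +kernel)
theorem q16859 : Rg TT 16859 16954 := Rg.of (L := c16859) o16859 (by decide +kernel)
theorem q16954 : Rg TT 16954 17047 := Rg.of (L := c16954) o16954 (by decide +kernel)
theorem q17047 : Rg TT 17047 17145 := Rg.of (L := c17047) o17047 (by decide +kernel)
theorem q17145 : Rg TT 17145 17237 := Rg.of (L := c17145) o17145 (by decide +kernel)
theorem q17237 : Rg TT 17237 17331 := Rg.of (L := c17237) o17237 (by decide +kernel)
theorem q17331 : Rg TT 17331 17426 := Rg.of (L := c17331) o17331 (by decide +kernel)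
theorem q17426 : Rg TT 17426 17522 := Rg.of (L := c17426) o17426 (by decide +kernel)
theorem q17522 : Rg TT 17522 17616 := Rg.of (L := c17522) o17522 (by decide +kernel)
theorem q17616 : Rg TT 17616 17709 := Rg.of (L := c17616) o17616 (by decide +kernel)
theorem q17709 : Rg TT 17709 17801 := Rg.of (L := c17709) o17709 (by decide +kernel)
theorem q17801 : Rg TT 17801 17896 := Rg.of (L := c17801) o17801 (by decide +kernel)
theorem q17896 : Rg TT 17896 17991 := Rg.of (L := c17896) o17896 (by decide +kernel)
theorem q17991 : Rg TT 17991 18092 := Rg.of (L := c17991) o17991 (by decide +kernel)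
theorem q18092 : Rg TT 18092 18188 := Rg.of (L := c18092) o18092 (by decide +kernel)
theorem r2 : Rg TT 12938 18188 := (((((((((((((((((((((((((((((((((((((((((((((((((((((((q12938.join q13031).join q13124).join q13216).join q13309).join q13403).join q13498).join q13593).join q13685).join q13778).join q13869).join q13959).join q14048).join q14140).join q14233).join q14327).join q14422).join q14520).join q14616).join q14706).join q14799).join q14893).join q14988).join q15082).join q15176).join q15269).join q15361).join q15451).join q15546).join q15642).join q15734).join q15827).join q15921).join q16014).join q16106).join q16198).join q16291).join q16385).join q16482).join q16575).join q16671).join q16767).join q16859).join q16954).join q17047).join q17145).join q17237).join q17331).join q17426).join q17522).join q17616).join q17709).join q17801).join q17896).join q17991).join q18092)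
theorem q18188 : Rg TT 18188 18279 := Rg.of (L := c18188) o18188 (by decide +kernel)
theorem q18279 : Rg TT 18279 18373 := Rg.of (L := c18279) o18279 (by decide +kernel)
theorem q18373 : Rg TT 18373 18465 := Rg.of (L := c18373) o18373 (by decide +kernel)
theorem q18465 : Rg TT 18465 18558 := Rg.of (L := c18465) o18465 (by decide +kernel)
theorem q18558 : Rg TT 18558 18651 := Rg.of (L := c18558) o18558 (by decide +kernel)
theorem q18651 : Rg TT 18651 18743 := Rg.of (L := c18651) o18651 (by decide +kernel)
theorem q18743 : Rg TT 18743 18836 := Rg.of (L := c18743) o18743 (by decide +kernel)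
theorem q18836 : Rg TT 18836 18933 := Rg.of (L := c18836) o18836 (by decide +kernel)
theorem q18933 : Rg TT 18933 19026 := Rg.of (L := c18933) o18933 (by decide +kernel)
theorem q19026 : Rg TT 19026 19121 := Rg.of (L := c19026) o19026 (by decide +kernel)
theorem q19121 : Rg TT 19121 19216 := Rg.of (L := c19121) o19121 (by decide +kernel)
theorem q19216 : Rg TT 19216 19313 := Rg.of (L := c19216) o19216 (by decide +kernel)
theorem q19313 : Rg TT 19313 19404 := Rg.of (L := c19313) o19313 (by decide +kernel)
theorem q19404 : Rg TT 19404 19500 := Rg.of (L := c19404) o19404 (by decide +kernel)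
theorem q19500 : Rg TT 19500 19593 := Rg.of (L := c19500) o19500 (by decide +kernel)
theorem q19593 : Rg TT 19593 19687 := Rg.of (L := c19593) o19593 (by decide +kernel)
theorem q19687 : Rg TT 19687 19783 := Rg.of (L := c19687) o19687 (by decide +kernel)
theorem q19783 : Rg TT 19783 19879 := Rg.of (L := c19783) o19783 (by decide +kernel)
theorem q19879 : Rg TT 19879 19975 := Rg.of (L := c19879) o19879 (by decide +kernel)
theorem q19975 : Rg TT 19975 20067 := Rg.of (L := c19975) o19975 (by decide +kernel)
theorem q20067 : Rg TT 20067 20162 := Rg.of (L := c20067) o20067 (by decide +kernel)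
theorem q20162 : Rg TT 20162 20257 := Rg.of (L := c20162) o20162 (by decide +kernel)
theorem q20257 : Rg TT 20257 20353 := Rg.of (L := c20257) o20257 (by decide +kernel)
theorem q20353 : Rg TT 20353 20449 := Rg.of (L := c20353) o20353 (by decide +kernel)
theorem q20449 : Rg TT 20449 20543 := Rg.of (L := c20449) o20449 (by decide +kernel)
theorem q20543 : Rg TT 20543 20636 := Rg.of (L := c20543) o20543 (by decide +kernel)
theorem q20636 : Rg TT 20636 20732 := Rg.of (L := c20636) o20636 (by decide +kernel)
theorem q20732 : Rg TT 20732 20832 := Rg.of (L := c20732) o20732 (by decide +kernel)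
theorem q20832 : Rg TT 20832 20923 := Rg.of (L := c20832) o20832 (by decide +kernel)
theorem q20923 : Rg TT 20923 21019 := Rg.of (L := c20923) o20923 (by decide +kernel)
theorem q21019 : Rg TT 21019 21111 := Rg.of (L := c21019) o21019 (by decide +kernel)
theorem q21111 : Rg TT 21111 21204 := Rg.of (L := c21111) o21111 (by decide +kernel)
theorem q21204 : Rg TT 21204 21300 := Rg.of (L := c21204) o21204 (by decide +kernel)
theorem q21300 : Rg TT 21300 21396 := Rg.of (L := c21300) o21300 (by decide +kernel)
theorem q21396 : Rg TT 21396 21496 := Rg.of (L := c21396) o21396 (by decide +kernel)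
theorem q21496 : Rg TT 21496 21592 := Rg.of (L := c21496) o21496 (by decide +kernel)
theorem q21592 : Rg TT 21592 21680 := Rg.of (L := c21592) o21592 (by decide +kernel)
theorem q21680 : Rg TT 21680 21744 := Rg.of (L := c21680) o21680 (by decide +kernel)
theorem q21744 : Rg TT 21744 21810 := Rg.of (L := c21744) o21744 (by decide +kernel)
theorem q21810 : Rg TT 21810 21875 := Rg.of (L := c21810) o21810 (by decide +kernel)
theorem q21875 : Rg TT 21875 21940 := Rg.of (L := c21875) o21875 (by decide +kernel)
theorem q21940 : Rg TT 21940 22004 := Rg.of (L := c21940) o21940 (by decide +kernel)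
theorem q22004 : Rg TT 22004 22068 := Rg.of (L := c22004) o22004 (by decide +kernel)
theorem q22068 : Rg TT 22068 22132 := Rg.of (L := c22068) o22068 (by decide +kernel)
theorem q22132 : Rg TT 22132 22197 := Rg.of (L := c22132) o22132 (by decide +kernel)
theorem q22197 : Rg TT 22197 22263 := Rg.of (L := c22197) o22197 (by decide +kernel)
theorem q22263 : Rg TT 22263 22328 := Rg.of (L := c22263) o22263 (by decide +kernel)
theorem q22328 : Rg TT 22328 22390 := Rg.of (L := c22328) o22328 (by decide +kernel)
theorem q22390 : Rg TT 22390 22455 := Rg.of (L := c22390) o22390 (by decide +kernel)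
theorem q22455 : Rg TT 22455 22519 := Rg.of (L := c22455) o22455 (by decide +kernel)
theorem q22519 : Rg TT 22519 22583 := Rg.of (L := c22519) o22519 (by decide +kernel)
theorem q22583 : Rg TT 22583 22647 := Rg.of (L := c22583) o22583 (by decide +kernel)
theorem q22647 : Rg TT 22647 22711 := Rg.of (L := c22647) o22647 (by decide +kernel)
theorem q22711 : Rg TT 22711 22775 := Rg.of (L := c22711) o22711 (by decide +kernel)
theorem q22775 : Rg TT 22775 22843 := Rg.of (L := c22775) o22775 (by decide +kernel)
theorem q22843 : Rg TT 22843 22908 := Rg.of (L := c22843) o22843 (by decide +kernel)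
theorem r3 : Rg TT 18188 22908 := (((((((((((((((((((((((((((((((((((((((((((((((((((((((q18188.join q18279).join q18373).join q18465).join q18558).join q18651).join q18743).join q18836).join q18933).join q19026).join q19121).join q19216).join q19313).join q19404).join q19500).join q19593).join q19687).join q19783).join q19879).join q19975).join q20067).join q20162).join q20257).join q20353).join q20449).join q20543).join q20636).join q20732).join q20832).join q20923).join q21019).join q21111).join q21204).join q21300).join q21396).join q21496).join q21592).join q21680).join q21744).join q21810).join q21875).join q21940).join q22004).join q22068).join q22132).join q22197).join q22263).join q22328).join q22390).join q22455).join q22519).join q22583).join q22647).join q22711).join q22775).join q22843)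
theorem q22908 : Rg TT 22908 22971 := Rg.of (L := c22908) o22908 (by decide +kernel)
theorem q22971 : Rg TT 22971 23033 := Rg.of (L := c22971) o22971 (by decide +kernel)
theorem q23033 : Rg TT 23033 23093 := Rg.of (L := c23033) o23033 (by decide +kernel)
theorem q23093 : Rg TT 23093 23155 := Rg.of (L := c23093) o23093 (by decide +kernel)
theorem q23155 : Rg TT 23155 23215 := Rg.of (L := c23155) o23155 (by decide +kernel)
theorem q23215 : Rg TT 23215 23276 := Rg.of (L := c23215) o23215 (by decide +kernel)
theorem q23276 : Rg TT 23276 23338 := Rg.of (L := c23276) o23276 (by decide +kernel)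
theorem q23338 : Rg TT 23338 23399 := Rg.of (L := c23338) o23338 (by decide +kernel)
theorem q23399 : Rg TT 23399 23461 := Rg.of (L := c23399) o23399 (by decide +kernel)
theorem q23461 : Rg TT 23461 23523 := Rg.of (L := c23461) o23461 (by decide +kernel)
theorem q23523 : Rg TT 23523 23583 := Rg.of (L := c23523) o23523 (by decide +kernel)
theorem q23583 : Rg TT 23583 23644 := Rg.of (L := c23583) o23583 (by decide +kernel)
theorem q23644 : Rg TT 23644 23705 := Rg.of (L := c23644) o23644 (by decide +kernel)
theorem q23705 : Rg TT 23705 23766 := Rg.of (L := c23705) o23705 (by decide +kernel)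
theorem q23766 : Rg TT 23766 23831 := Rg.of (L := c23766) o23766 (by decide +kernel)
theorem q23831 : Rg TT 23831 23891 := Rg.of (L := c23831) o23831 (by decide +kernel)
theorem q23891 : Rg TT 23891 23954 := Rg.of (L := c23891) o23891 (by decide +kernel)
theorem q23954 : Rg TT 23954 24018 := Rg.of (L := c23954) o23954 (by decide +kernel)
theorem q24018 : Rg TT 24018 24080 := Rg.of (L := c24018) o24018 (by decide +kernel)
theorem q24080 : Rg TT 24080 24146 := Rg.of (L := c24080) o24080 (by decide +kernel)
theorem q24146 : Rg TT 24146 24208 := Rg.of (L := c24146) o24146 (by decide +kernel)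
theorem q24208 : Rg TT 24208 24274 := Rg.of (L := c24208) o24208 (by decide +kernel)
theorem q24274 : Rg TT 24274 24336 := Rg.of (L := c24274) o24274 (by decide +kernel)
theorem q24336 : Rg TT 24336 24400 := Rg.of (L := c24336) o24336 (by decide +kernel)
theorem q24400 : Rg TT 24400 24465 := Rg.of (L := c24400) o24400 (by decide +kernel)
theorem q24465 : Rg TT 24465 24529 := Rg.of (L := c24465) o24465 (by decide +kernel)
theorem q24529 : Rg TT 24529 24592 := Rg.of (L := c24529) o24529 (by decide +kernel)
theorem q24592 : Rg TT 24592 24656 := Rg.of (L := c24592) o24592 (by decide +kernel)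
theorem q24656 : Rg TT 24656 24720 := Rg.of (L := c24656) o24656 (by decide +kernel)
theorem q24720 : Rg TT 24720 24825 := Rg.of (L := c24720) o24720 (by decide +kernel)
theorem q24825 : Rg TT 24825 24929 := Rg.of (L := c24825) o24825 (by decide +kernel)
theorem q24929 : Rg TT 24929 25036 := Rg.of (L := c24929) o24929 (by decide +kernel)
theorem q25036 : Rg TT 25036 25144 := Rg.of (L := c25036) o25036 (by decide +kernel)
theorem q25144 : Rg TT 25144 25246 := Rg.of (L := c25144) o25144 (by decide +kernel)
theorem q25246 : Rg TT 25246 25349 := Rg.of (L := c25246) o25246 (by decide +kernel)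
theorem q25349 : Rg TT 25349 25455 := Rg.of (L := c25349) o25349 (by decide +kernel)
theorem q25455 : Rg TT 25455 25560 := Rg.of (L := c25455) o25455 (by decide +kernel)
theorem q25560 : Rg TT 25560 25663 := Rg.of (L := c25560) o25560 (by decide +kernel)
theorem q25663 : Rg TT 25663 25769 := Rg.of (L := c25663) o25663 (by decide +kernel)
theorem q25769 : Rg TT 25769 25870 := Rg.of (L := c25769) o25769 (by decide +kernel)
theorem q25870 : Rg TT 25870 25971 := Rg.of (L := c25870) o25870 (by decide +kernel)
theorem q25971 : Rg TT 25971 26076 := Rg.of (L := c25971) o25971 (by decide +kernel)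
theorem q26076 : Rg TT 26076 26180 := Rg.of (L := c26076) o26076 (by decide +kernel)
theorem q26180 : Rg TT 26180 26282 := Rg.of (L := c26180) o26180 (by decide +kernel)
theorem q26282 : Rg TT 26282 26388 := Rg.of (L := c26282) o26282 (by decide +kernel)
theorem q26388 : Rg TT 26388 26491 := Rg.of (L := c26388) o26388 (by decide +kernel)
theorem q26491 : Rg TT 26491 26598 := Rg.of (L := c26491) o26491 (by decide +kernel)
theorem q26598 : Rg TT 26598 26702 := Rg.of (L := c26598) o26598 (by decide +kernel)
theorem q26702 : Rg TT 26702 26804 := Rg.of (L := c26702) o26702 (by decide +kernel)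
theorem q26804 : Rg TT 26804 26909 := Rg.of (L := c26804) o26804 (by decide +kernel)
theorem q26909 : Rg TT 26909 27014 := Rg.of (L := c26909) o26909 (by decide +kernel)
theorem q27014 : Rg TT 27014 27118 := Rg.of (L := c27014) o27014 (by decide +kernel)
theorem q27118 : Rg TT 27118 27222 := Rg.of (L := c27118) o27118 (by decide +kernel)
theorem q27222 : Rg TT 27222 27324 := Rg.of (L := c27222) o27222 (by decide +kernel)
theorem q27324 : Rg TT 27324 27429 := Rg.of (L := c27324) o27324 (by decide +kernel)
theorem q27429 : Rg TT 27429 27534 := Rg.of (L := c27429) o27429 (by decide +kernel)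
theorem r4 : Rg TT 22908 27534 := (((((((((((((((((((((((((((((((((((((((((((((((((((((((q22908.join q22971).join q23033).join q23093).join q23155).join q23215).join q23276).join q23338).join q23399).join q23461).join q23523).join q23583).join q23644).join q23705).join q23766).join q23831).join q23891).join q23954).join q24018).join q24080).join q24146).join q24208).join q24274).join q24336).join q24400).join q24465).join q24529).join q24592).join q24656).join q24720).join q24825).join q24929).join q25036).join q25144).join q25246).join q25349).join q25455).join q25560).join q25663).join q25769).join q25870).join q25971).join q26076).join q26180).join q26282).join q26388).join q26491).join q26598).join q26702).join q26804).join q26909).join q27014).join q27118).join q27222).join q27324).join q27429)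
theorem q27534 : Rg TT 27534 27637 := Rg.of (L := c27534) o27534 (by decide +kernel)
theorem q27637 : Rg TT 27637 27737 := Rg.of (L := c27637) o27637 (by decide +kernel)
theorem q27737 : Rg TT 27737 27840 := Rg.of (L := c27737) o27737 (by decide +kernel)
theorem q27840 : Rg TT 27840 27946 := Rg.of (L := c27840) o27840 (by decide +kernel)
theorem q27946 : Rg TT 27946 28049 := Rg.of (L := c27946) o27946 (by decide +kernel)
theorem q28049 : Rg TT 28049 28154 := Rg.of (L := c28049) o28049 (by decide +kernel)
theorem q28154 : Rg TT 28154 28258 := Rg.of (L := c28154) o28154 (by decide +kernel)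
theorem q28258 : Rg TT 28258 28361 := Rg.of (L := c28258) o28258 (by decide +kernel)
theorem q28361 : Rg TT 28361 28465 := Rg.of (L := c28361) o28361 (by decide +kernel)
theorem q28465 : Rg TT 28465 28569 := Rg.of (L := c28465) o28465 (by decide +kernel)
theorem q28569 : Rg TT 28569 28676 := Rg.of (L := c28569) o28569 (by decide +kernel)
theorem q28676 : Rg TT 28676 28783 := Rg.of (L := c28676) o28676 (by decide +kernel)
theorem q28783 : Rg TT 28783 28890 := Rg.of (L := c28783) o28783 (by decide +kernel)
theorem q28890 : Rg TT 28890 28996 := Rg.of (L := c28890) o28890 (by decide +kernel)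
theorem q28996 : Rg TT 28996 29101 := Rg.of (L := c28996) o28996 (by decide +kernel)
theorem q29101 : Rg TT 29101 29207 := Rg.of (L := c29101) o29101 (by decide +kernel)
theorem q29207 : Rg TT 29207 29312 := Rg.of (L := c29207) o29207 (by decide +kernel)
theorem q29312 : Rg TT 29312 29415 := Rg.of (L := c29312) o29312 (by decide +kernel)
theorem q29415 : Rg TT 29415 29519 := Rg.of (L := c29415) o29415 (by decide +kernel)
theorem q29519 : Rg TT 29519 29624 := Rg.of (L := c29519) o29519 (by decide +kernel)
theorem q29624 : Rg TT 29624 29726 := Rg.of (L := c29624) o29624 (by decide +kernel)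
theorem q29726 : Rg TT 29726 29830 := Rg.of (L := c29726) o29726 (by decide +kernel)
theorem q29830 : Rg TT 29830 29932 := Rg.of (L := c29830) o29830 (by decide +kernel)
theorem q29932 : Rg TT 29932 30038 := Rg.of (L := c29932) o29932 (by decide +kernel)
theorem q30038 : Rg TT 30038 30143 := Rg.of (L := c30038) o30038 (by decide +kernel)
theorem q30143 : Rg TT 30143 30246 := Rg.of (L := c30143) o30143 (by decide +kernel)
theorem q30246 : Rg TT 30246 30349 := Rg.of (L := c30246) o30246 (by decide +kernel)
theorem q30349 : Rg TT 30349 30436 := Rg.of (L := c30349) o30349 (by decide +kernel)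
theorem q30436 : Rg TT 30436 30515 := Rg.of (L := c30436) o30436 (by decide +kernel)
theorem q30515 : Rg TT 30515 30595 := Rg.of (L := c30515) o30515 (by decide +kernel)
theorem q30595 : Rg TT 30595 30673 := Rg.of (L := c30595) o30595 (by decide +kernel)
theorem q30673 : Rg TT 30673 30750 := Rg.of (L := c30673) o30673 (by decide +kernel)
theorem q30750 : Rg TT 30750 30827 := Rg.of (L := c30750) o30750 (by decide +kernel)
theorem q30827 : Rg TT 30827 30898 := Rg.of (L := c30827) o30827 (by decide +kernel)
theorem q30898 : Rg TT 30898 30970 := Rg.of (L := c30898) o30898 (by decide +kernel)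
theorem q30970 : Rg TT 30970 31043 := Rg.of (L := c30970) o30970 (by decide +kernel)
theorem q31043 : Rg TT 31043 31112 := Rg.of (L := c31043) o31043 (by decide +kernel)
theorem q31112 : Rg TT 31112 31186 := Rg.of (L := c31112) o31112 (by decide +kernel)
theorem q31186 : Rg TT 31186 31259 := Rg.of (L := c31186) o31186 (by decide +kernel)
theorem q31259 : Rg TT 31259 31331 := Rg.of (L := c31259) o31259 (by decide +kernel)
theorem q31331 : Rg TT 31331 31406 := Rg.of (L := c31331) o31331 (by decide +kernel)
theorem q31406 : Rg TT 31406 31482 := Rg.of (L := c31406) o31406 (by decide +kernel)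
theorem q31482 : Rg TT 31482 31554 := Rg.of (L := c31482) o31482 (by decide +kernel)
theorem q31554 : Rg TT 31554 31625 := Rg.of (L := c31554) o31554 (by decide +kernel)
theorem q31625 : Rg TT 31625 31696 := Rg.of (L := c31625) o31625 (by decide +kernel)
theorem q31696 : Rg TT 31696 31769 := Rg.of (L := c31696) o31696 (by decide +kernel)
theorem q31769 : Rg TT 31769 31843 := Rg.of (L := c31769) o31769 (by decide +kernel)
theorem q31843 : Rg TT 31843 31915 := Rg.of (L := c31843) o31843 (by decide +kernel)
theorem q31915 : Rg TT 31915 31985 := Rg.of (L := c31915) o31915 (by decide +kernel)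
theorem q31985 : Rg TT 31985 32055 := Rg.of (L := c31985) o31985 (by decide +kernel)
theorem q32055 : Rg TT 32055 32127 := Rg.of (L := c32055) o32055 (by decide +kernel)
theorem q32127 : Rg TT 32127 32202 := Rg.of (L := c32127) o32127 (by decide +kernel)
theorem q32202 : Rg TT 32202 32277 := Rg.of (L := c32202) o32202 (by decide +kernel)
theorem q32277 : Rg TT 32277 32351 := Rg.of (L := c32277) o32277 (by decide +kernel)
theorem q32351 : Rg TT 32351 32424 := Rg.of (L := c32351) o32351 (by decide +kernel)
theorem q32424 : Rg TT 32424 32496 := Rg.of (L := c32424) o32424 (by decide +kernel)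
theorem r5 : Rg TT 27534 32496 := (((((((((((((((((((((((((((((((((((((((((((((((((((((((q27534.join q27637).join q27737).join q27840).join q27946).join q28049).join q28154).join q28258).join q28361).join q28465).join q28569).join q28676).join q28783).join q28890).join q28996).join q29101).join q29207).join q29312).join q29415).join q29519).join q29624).join q29726).join q29830).join q29932).join q30038).join q30143).join q30246).join q30349).join q30436).join q30515).join q30595).join q30673).join q30750).join q30827).join q30898).join q30970).join q31043).join q31112).join q31186).join q31259).join q31331).join q31406).join q31482).join q31554).join q31625).join q31696).join q31769).join q31843).join q31915).join q31985).join q32055).join q32127).join q32202).join q32277).join q32351).join q32424)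
theorem q32496 : Rg TT 32496 32567 := Rg.of (L := c32496) o32496 (by decide +kernel)
theorem q32567 : Rg TT 32567 32644 := Rg.of (L := c32567) o32567 (by decide +kernel)
theorem q32644 : Rg TT 32644 32716 := Rg.of (L := c32644) o32644 (by decide +kernel)
theorem q32716 : Rg TT 32716 32787 := Rg.of (L := c32716) o32716 (by decide +kernel)
theorem q32787 : Rg TT 32787 32859 := Rg.of (L := c32787) o32787 (by decide +kernel)
theorem q32859 : Rg TT 32859 32929 := Rg.of (L := c32859) o32859 (by decide +kernel)
theorem q32929 : Rg TT 32929 33004 := Rg.of (L := c32929) o32929 (by decide +kernel)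
theorem q33004 : Rg TT 33004 33081 := Rg.of (L := c33004) o33004 (by decide +kernel)
theorem q33081 : Rg TT 33081 33153 := Rg.of (L := c33081) o33081 (by decide +kernel)
theorem q33153 : Rg TT 33153 33226 := Rg.of (L := c33153) o33153 (by decide +kernel)
theorem q33226 : Rg TT 33226 33299 := Rg.of (L := c33226) o33226 (by decide +kernel)
theorem q33299 : Rg TT 33299 33372 := Rg.of (L := c33299) o33299 (by decide +kernel)
theorem q33372 : Rg TT 33372 33443 := Rg.of (L := c33372) o33372 (by decide +kernel)
theorem q33443 : Rg TT 33443 33517 := Rg.of (L := c33443) o33443 (by decide +kernel)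
theorem q33517 : Rg TT 33517 33588 := Rg.of (L := c33517) o33517 (by decide +kernel)
theorem q33588 : Rg TT 33588 33656 := Rg.of (L := c33588) o33588 (by decide +kernel)
theorem q33656 : Rg TT 33656 33728 := Rg.of (L := c33656) o33656 (by decide +kernel)
theorem q33728 : Rg TT 33728 33799 := Rg.of (L := c33728) o33728 (by decide +kernel)
theorem q33799 : Rg TT 33799 33874 := Rg.of (L := c33799) o33799 (by decide +kernel)
theorem q33874 : Rg TT 33874 33951 := Rg.of (L := c33874) o33874 (by decide +kernel)
theorem q33951 : Rg TT 33951 34026 := Rg.of (L := c33951) o33951 (by decide +kernel)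
theorem q34026 : Rg TT 34026 34098 := Rg.of (L := c34026) o34026 (by decide +kernel)
theorem q34098 : Rg TT 34098 34173 := Rg.of (L := c34098) o34098 (by decide +kernel)
theorem q34173 : Rg TT 34173 34250 := Rg.of (L := c34173) o34173 (by decide +kernel)
theorem q34250 : Rg TT 34250 34324 := Rg.of (L := c34250) o34250 (by decide +kernel)
theorem q34324 : Rg TT 34324 34399 := Rg.of (L := c34324) o34324 (by decide +kernel)
theorem q34399 : Rg TT 34399 34473 := Rg.of (L := c34399) o34399 (by decide +kernel)
theorem q34473 : Rg TT 34473 34550 := Rg.of (L := c34473) o34473 (by decide +kernel)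
theorem q34550 : Rg TT 34550 34622 := Rg.of (L := c34550) o34550 (by decide +kernel)
theorem q34622 : Rg TT 34622 34696 := Rg.of (L := c34622) o34622 (by decide +kernel)
theorem q34696 : Rg TT 34696 34770 := Rg.of (L := c34696) o34696 (by decide +kernel)
theorem q34770 : Rg TT 34770 34845 := Rg.of (L := c34770) o34770 (by decide +kernel)
theorem q34845 : Rg TT 34845 34918 := Rg.of (L := c34845) o34845 (by decide +kernel)
theorem q34918 : Rg TT 34918 34994 := Rg.of (L := c34918) o34918 (by decide +kernel)
theorem q34994 : Rg TT 34994 35070 := Rg.of (L := c34994) o34994 (by decide +kernel)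
theorem q35070 : Rg TT 35070 35144 := Rg.of (L := c35070) o35070 (by decide +kernel)
theorem q35144 : Rg TT 35144 35220 := Rg.of (L := c35144) o35144 (by decide +kernel)
theorem q35220 : Rg TT 35220 35293 := Rg.of (L := c35220) o35220 (by decide +kernel)
theorem q35293 : Rg TT 35293 35365 := Rg.of (L := c35293) o35293 (by decide +kernel)
theorem q35365 : Rg TT 35365 35438 := Rg.of (L := c35365) o35365 (by decide +kernel)
theorem q35438 : Rg TT 35438 35512 := Rg.of (L := c35438) o35438 (by decide +kernel)
theorem q35512 : Rg TT 35512 35581 := Rg.of (L := c35512) o35512 (by decide +kernel)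
theorem q35581 : Rg TT 35581 35653 := Rg.of (L := c35581) o35581 (by decide +kernel)
theorem q35653 : Rg TT 35653 35726 := Rg.of (L := c35653) o35653 (by decide +kernel)
theorem q35726 : Rg TT 35726 35798 := Rg.of (L := c35726) o35726 (by decide +kernel)
theorem q35798 : Rg TT 35798 35869 := Rg.of (L := c35798) o35798 (by decide +kernel)
theorem q35869 : Rg TT 35869 35940 := Rg.of (L := c35869) o35869 (by decide +kernel)
theorem q35940 : Rg TT 35940 36011 := Rg.of (L := c35940) o35940 (by decide +kernel)
theorem q36011 : Rg TT 36011 36083 := Rg.of (L := c36011) o36011 (by decide +kernel)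
theorem q36083 : Rg TT 36083 36153 := Rg.of (L := c36083) o36083 (by decide +kernel)
theorem q36153 : Rg TT 36153 36225 := Rg.of (L := c36153) o36153 (by decide +kernel)
theorem q36225 : Rg TT 36225 36297 := Rg.of (L := c36225) o36225 (by decide +kernel)
theorem q36297 : Rg TT 36297 36368 := Rg.of (L := c36297) o36297 (by decide +kernel)
theorem q36368 : Rg TT 36368 36444 := Rg.of (L := c36368) o36368 (by decide +kernel)
theorem q36444 : Rg TT 36444 36521 := Rg.of (L := c36444) o36444 (by decide +kernel)
theorem q36521 : Rg TT 36521 36592 := Rg.of (L := c36521) o36521 (by decide +kernel)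
theorem r6 : Rg TT 32496 36592 := (((((((((((((((((((((((((((((((((((((((((((((((((((((((q32496.join q32567).join q32644).join q32716).join q32787).join q32859).join q32929).join q33004).join q33081).join q33153).join q33226).join q33299).join q33372).join q33443).join q33517).join q33588).join q33656).join q33728).join q33799).join q33874).join q33951).join q34026).join q34098).join q34173).join q34250).join q34324).join q34399).join q34473).join q34550).join q34622).join q34696).join q34770).join q34845).join q34918).join q34994).join q35070).join q35144).join q35220).join q35293).join q35365).join q35438).join q35512).join q35581).join q35653).join q35726).join q35798).join q35869).join q35940).join q36011).join q36083).join q36153).join q36225).join q36297).join q36368).join q36444).join q36521)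
theorem q36592 : Rg TT 36592 36666 := Rg.of (L := c36592) o36592 (by decide +kernel)
theorem q36666 : Rg TT 36666 36739 := Rg.of (L := c36666) o36666 (by decide +kernel)
theorem q36739 : Rg TT 36739 36814 := Rg.of (L := c36739) o36739 (by decide +kernel)
theorem q36814 : Rg TT 36814 36889 := Rg.of (L := c36814) o36814 (by decide +kernel)
theorem q36889 : Rg TT 36889 36962 := Rg.of (L := c36889) o36889 (by decide +kernel)
theorem q36962 : Rg TT 36962 37036 := Rg.of (L := c36962) o36962 (by decide +kernel)
theorem q37036 : Rg TT 37036 37109 := Rg.of (L := c37036) o37036 (by decide +kernel)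
theorem q37109 : Rg TT 37109 37180 := Rg.of (L := c37109) o37109 (by decide +kernel)
theorem q37180 : Rg TT 37180 37254 := Rg.of (L := c37180) o37180 (by decide +kernel)
theorem q37254 : Rg TT 37254 37324 := Rg.of (L := c37254) o37254 (by decide +kernel)
theorem q37324 : Rg TT 37324 37396 := Rg.of (L := c37324) o37324 (by decide +kernel)
theorem q37396 : Rg TT 37396 37469 := Rg.of (L := c37396) o37396 (by decide +kernel)
theorem q37469 : Rg TT 37469 37541 := Rg.of (L := c37469) o37469 (by decide +kernel)
theorem q37541 : Rg TT 37541 37616 := Rg.of (L := c37541) o37541 (by decide +kernel)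
theorem q37616 : Rg TT 37616 37688 := Rg.of (L := c37616) o37616 (by decide +kernel)
theorem q37688 : Rg TT 37688 37763 := Rg.of (L := c37688) o37688 (by decide +kernel)
theorem q37763 : Rg TT 37763 37820 := Rg.of (L := c37763) o37763 (by decide +kernel)
theorem q37820 : Rg TT 37820 37871 := Rg.of (L := c37820) o37820 (by decide +kernel)
theorem q37871 : Rg TT 37871 37923 := Rg.of (L := c37871) o37871 (by decide +kernel)
theorem q37923 : Rg TT 37923 37974 := Rg.of (L := c37923) o37923 (by decide +kernel)
theorem q37974 : Rg TT 37974 38025 := Rg.of (L := c37974) o37974 (by decide +kernel)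
theorem q38025 : Rg TT 38025 38075 := Rg.of (L := c38025) o38025 (by decide +kernel)
theorem q38075 : Rg TT 38075 38126 := Rg.of (L := c38075) o38075 (by decide +kernel)
theorem q38126 : Rg TT 38126 38178 := Rg.of (L := c38126) o38126 (by decide +kernel)
theorem q38178 : Rg TT 38178 38229 := Rg.of (L := c38178) o38178 (by decide +kernel)
theorem q38229 : Rg TT 38229 38282 := Rg.of (L := c38229) o38229 (by decide +kernel)
theorem q38282 : Rg TT 38282 38333 := Rg.of (L := c38282) o38282 (by decide +kernel)
theorem q38333 : Rg TT 38333 38384 := Rg.of (L := c38333) o38333 (by decide +kernel)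
theorem q38384 : Rg TT 38384 38434 := Rg.of (L := c38384) o38384 (by decide +kernel)
theorem q38434 : Rg TT 38434 38485 := Rg.of (L := c38434) o38434 (by decide +kernel)
theorem q38485 : Rg TT 38485 38536 := Rg.of (L := c38485) o38485 (by decide +kernel)
theorem q38536 : Rg TT 38536 38587 := Rg.of (L := c38536) o38536 (by decide +kernel)
theorem q38587 : Rg TT 38587 38640 := Rg.of (L := c38587) o38587 (by decide +kernel)
theorem q38640 : Rg TT 38640 38693 := Rg.of (L := c38640) o38640 (by decide +kernel)
theorem q38693 : Rg TT 38693 38743 := Rg.of (L := c38693) o38693 (by decide +kernel)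
theorem q38743 : Rg TT 38743 38796 := Rg.of (L := c38743) o38743 (by decide +kernel)
theorem q38796 : Rg TT 38796 38850 := Rg.of (L := c38796) o38796 (by decide +kernel)
theorem q38850 : Rg TT 38850 38905 := Rg.of (L := c38850) o38850 (by decide +kernel)
theorem q38905 : Rg TT 38905 38958 := Rg.of (L := c38905) o38905 (by decide +kernel)
theorem q38958 : Rg TT 38958 39010 := Rg.of (L := c38958) o38958 (by decide +kernel)
theorem q39010 : Rg TT 39010 39062 := Rg.of (L := c39010) o39010 (by decide +kernel)
theorem q39062 : Rg TT 39062 39113 := Rg.of (L := c39062) o39062 (by decide +kernel)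
theorem q39113 : Rg TT 39113 39161 := Rg.of (L := c39113) o39113 (by decide +kernel)
theorem q39161 : Rg TT 39161 39212 := Rg.of (L := c39161) o39161 (by decide +kernel)
theorem q39212 : Rg TT 39212 39263 := Rg.of (L := c39212) o39212 (by decide +kernel)
theorem q39263 : Rg TT 39263 39316 := Rg.of (L := c39263) o39263 (by decide +kernel)
theorem q39316 : Rg TT 39316 39367 := Rg.of (L := c39316) o39316 (by decide +kernel)
theorem q39367 : Rg TT 39367 39419 := Rg.of (L := c39367) o39367 (by decide +kernel)
theorem q39419 : Rg TT 39419 39471 := Rg.of (L := c39419) o39419 (by decide +kernel)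
theorem q39471 : Rg TT 39471 39523 := Rg.of (L := c39471) o39471 (by decide +kernel)
theorem q39523 : Rg TT 39523 39572 := Rg.of (L := c39523) o39523 (by decide +kernel)
theorem q39572 : Rg TT 39572 39622 := Rg.of (L := c39572) o39572 (by decide +kernel)
theorem q39622 : Rg TT 39622 39672 := Rg.of (L := c39622) o39622 (by decide +kernel)
theorem q39672 : Rg TT 39672 39727 := Rg.of (L := c39672) o39672 (by decide +kernel)
theorem q39727 : Rg TT 39727 39779 := Rg.of (L := c39727) o39727 (by decide +kernel)
theorem r7 : Rg TT 36592 39779 := ((((((((((((((((((((((((((((((((((((((((((((((((((((((q36592.join q36666).join q36739).join q36814).join q36889).join q36962).join q37036).join q37109).join q37180).join q37254).join q37324).join q37396).join q37469).join q37541).join q37616).join q37688).join q37763).join q37820).join q37871).join q37923).join q37974).join q38025).join q38075).join q38126).join q38178).join q38229).join q38282).join q38333).join q38384).join q38434).join q38485).join q38536).join q38587).join q38640).join q38693).join q38743).join q38796).join q38850).join q38905).join q38958).join q39010).join q39062).join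 q39113).join q39161).join q39212).join q39263).join q39316).join q39367).join q39419).join q39471).join q39523).join q39572).join q39622).join q39672).join q39727)
theorem q39779 : Rg TT 39779 39833 := Rg.of (L := c39779) o39779 (by decide +kernel)
theorem q39833 : Rg TT 39833 39884 := Rg.of (L := c39833) o39833 (by decide +kernel)
theorem q39884 : Rg TT 39884 39937 := Rg.of (L := c39884) o39884 (by decide +kernel)
theorem q39937 : Rg TT 39937 39988 := Rg.of (L := c39937) o39937 (by decide +kernel)
theorem q39988 : Rg TT 39988 40040 := Rg.of (L := c39988) o39988 (by decide +kernel)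
theorem q40040 : Rg TT 40040 40092 := Rg.of (L := c40040) o40040 (by decide +kernel)
theorem q40092 : Rg TT 40092 40145 := Rg.of (L := c40092) o40092 (by decide +kernel)
theorem q40145 : Rg TT 40145 40200 := Rg.of (L := c40145) o40145 (by decide +kernel)
theorem q40200 : Rg TT 40200 40252 := Rg.of (L := c40200) o40200 (by decide +kernel)
theorem q40252 : Rg TT 40252 40305 := Rg.of (L := c40252) o40252 (by decide +kernel)
theorem q40305 : Rg TT 40305 40360 := Rg.of (L := c40305) o40305 (by decide +kernel)
theorem q40360 : Rg TT 40360 40414 := Rg.of (L := c40360) o40360 (by decide +kernel)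
theorem q40414 : Rg TT 40414 40467 := Rg.of (L := c40414) o40414 (by decide +kernel)
theorem q40467 : Rg TT 40467 40520 := Rg.of (L := c40467) o40467 (by decide +kernel)
theorem q40520 : Rg TT 40520 40575 := Rg.of (L := c40520) o40520 (by decide +kernel)
theorem q40575 : Rg TT 40575 40626 := Rg.of (L := c40575) o40575 (by decide +kernel)
theorem q40626 : Rg TT 40626 40679 := Rg.of (L := c40626) o40626 (by decide +kernel)
theorem q40679 : Rg TT 40679 40732 := Rg.of (L := c40679) o40679 (by decide +kernel)
theorem q40732 : Rg TT 40732 40785 := Rg.of (L := c40732) o40732 (by decide +kernel)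
theorem q40785 : Rg TT 40785 40838 := Rg.of (L := c40785) o40785 (by decide +kernel)
theorem q40838 : Rg TT 40838 40893 := Rg.of (L := c40838) o40838 (by decide +kernel)
theorem q40893 : Rg TT 40893 40946 := Rg.of (L := c40893) o40893 (by decide +kernel)
theorem q40946 : Rg TT 40946 40997 := Rg.of (L := c40946) o40946 (by decide +kernel)
theorem q40997 : Rg TT 40997 41049 := Rg.of (L := c40997) o40997 (by decide +kernel)
theorem q41049 : Rg TT 41049 41102 := Rg.of (L := c41049) o41049 (by decide +kernel)
theorem q41102 : Rg TT 41102 41155 := Rg.of (L := c41102) o41102 (by decide +kernel)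
theorem q41155 : Rg TT 41155 41205 := Rg.of (L := c41155) o41155 (by decide +kernel)
theorem q41205 : Rg TT 41205 41255 := Rg.of (L := c41205) o41205 (by decide +kernel)
theorem q41255 : Rg TT 41255 41306 := Rg.of (L := c41255) o41255 (by decide +kernel)
theorem q41306 : Rg TT 41306 41358 := Rg.of (L := c41306) o41306 (by decide +kernel)
theorem q41358 : Rg TT 41358 41410 := Rg.of (L := c41358) o41358 (by decide +kernel)
theorem q41410 : Rg TT 41410 41461 := Rg.of (L := c41410) o41410 (by decide +kernel)
theorem q41461 : Rg TT 41461 41512 := Rg.of (L := c41461) o41461 (by decide +kernel)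
theorem q41512 : Rg TT 41512 41565 := Rg.of (L := c41512) o41512 (by decide +kernel)
theorem q41565 : Rg TT 41565 41664 := Rg.of (L := c41565) o41565 (by decide +kernel)
theorem q41664 : Rg TT 41664 41774 := Rg.of (L := c41664) o41664 (by decide +kernel)
theorem q41774 : Rg TT 41774 41884 := Rg.of (L := c41774) o41774 (by decide +kernel)
theorem q41884 : Rg TT 41884 41995 := Rg.of (L := c41884) o41884 (by decide +kernel)
theorem q41995 : Rg TT 41995 42107 := Rg.of (L := c41995) o41995 (by decide +kernel)
theorem q42107 : Rg TT 42107 42205 := Rg.of (L := c42107) o42107 (by decide +kernel)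
theorem q42205 : Rg TT 42205 42288 := Rg.of (L := c42205) o42205 (by decide +kernel)
theorem q42288 : Rg TT 42288 42367 := Rg.of (L := c42288) o42288 (by decide +kernel)
theorem q42367 : Rg TT 42367 42444 := Rg.of (L := c42367) o42367 (by decide +kernel)
theorem q42444 : Rg TT 42444 42523 := Rg.of (L := c42444) o42444 (by decide +kernel)
theorem q42523 : Rg TT 42523 42597 := Rg.of (L := c42523) o42523 (by decide +kernel)
theorem q42597 : Rg TT 42597 42673 := Rg.of (L := c42597) o42597 (by decide +kernel)
theorem q42673 : Rg TT 42673 42750 := Rg.of (L := c42673) o42673 (by decide +kernel)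
theorem q42750 : Rg TT 42750 42830 := Rg.of (L := c42750) o42750 (by decide +kernel)
theorem q42830 : Rg TT 42830 42908 := Rg.of (L := c42830) o42830 (by decide +kernel)
theorem q42908 : Rg TT 42908 42981 := Rg.of (L := c42908) o42908 (by decide +kernel)
theorem q42981 : Rg TT 42981 43057 := Rg.of (L := c42981) o42981 (by decide +kernel)
theorem q43057 : Rg TT 43057 43135 := Rg.of (L := c43057) o43057 (by decide +kernel)
theorem q43135 : Rg TT 43135 43211 := Rg.of (L := c43135) o43135 (by decide +kernel)
theorem q43211 : Rg TT 43211 43288 := Rg.of (L := c43211) o43211 (by decide +kernel)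
theorem q43288 : Rg TT 43288 43366 := Rg.of (L := c43288) o43288 (by decide +kernel)
theorem r8 : Rg TT 39779 43366 := ((((((((((((((((((((((((((((((((((((((((((((((((((((((q39779.join q39833).join q39884).join q39937).join q39988).join q40040).join q40092).join q40145).join q40200).join q40252).join q40305).join q40360).join q40414).join q40467).join q40520).join q40575).join q40626).join q40679).join q40732).join q40785).join q40838).join q40893).join q40946).join q40997).join q41049).join q41102).join q41155).join q41205).join q41255).join q41306).join q41358).join q41410).join q41461).join q41512).join q41565).join q41664).join q41774).join q41884).join q41995).join q42107).join q42205).join q42288).join q42367).join q42444).join q42523).join q42597).join q42673).join q42750).join q42830).join q42908).join q42981).join q43057).join q43135).join q43211).join q43288)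
theorem q43366 : Rg TT 43366 43445 := Rg.of (L := c43366) o43366 (by decide +kernel)
theorem q43445 : Rg TT 43445 43522 := Rg.of (L := c43445) o43445 (by decide +kernel)
theorem q43522 : Rg TT 43522 43598 := Rg.of (L := c43522) o43522 (by decide +kernel)
theorem q43598 : Rg TT 43598 43677 := Rg.of (L := c43598) o43598 (by decide +kernel)
theorem q43677 : Rg TT 43677 43755 := Rg.of (L := c43677) o43677 (by decide +kernel)
theorem q43755 : Rg TT 43755 43832 := Rg.of (L := c43755) o43755 (by decide +kernel)
theorem q43832 : Rg TT 43832 43911 := Rg.of (L := c43832) o43832 (by decide +kernel)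
theorem q43911 : Rg TT 43911 43989 := Rg.of (L := c43911) o43911 (by decide +kernel)
theorem q43989 : Rg TT 43989 44066 := Rg.of (L := c43989) o43989 (by decide +kernel)
theorem q44066 : Rg TT 44066 44144 := Rg.of (L := c44066) o44066 (by decide +kernel)
theorem q44144 : Rg TT 44144 44217 := Rg.of (L := c44144) o44144 (by decide +kernel)
theorem q44217 : Rg TT 44217 44294 := Rg.of (L := c44217) o44217 (by decide +kernel)
theorem q44294 : Rg TT 44294 44370 := Rg.of (L := c44294) o44294 (by decide +kernel)
theorem q44370 : Rg TT 44370 44445 := Rg.of (L := c44370) o44370 (by decide +kernel)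
theorem q44445 : Rg TT 44445 44524 := Rg.of (L := c44445) o44445 (by decide +kernel)
theorem q44524 : Rg TT 44524 44597 := Rg.of (L := c44524) o44524 (by decide +kernel)
theorem q44597 : Rg TT 44597 44675 := Rg.of (L := c44597) o44597 (by decide +kernel)
theorem q44675 : Rg TT 44675 44750 := Rg.of (L := c44675) o44675 (by decide +kernel)
theorem q44750 : Rg TT 44750 44827 := Rg.of (L := c44750) o44750 (by decide +kernel)
theorem q44827 : Rg TT 44827 44902 := Rg.of (L := c44827) o44827 (by decide +kernel)
theorem q44902 : Rg TT 44902 44980 := Rg.of (L := c44902) o44902 (by decide +kernel)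
theorem q44980 : Rg TT 44980 45056 := Rg.of (L := c44980) o44980 (by decide +kernel)
theorem q45056 : Rg TT 45056 45133 := Rg.of (L := c45056) o45056 (by decide +kernel)
theorem q45133 : Rg TT 45133 45208 := Rg.of (L := c45133) o45133 (by decide +kernel)
theorem q45208 : Rg TT 45208 45283 := Rg.of (L := c45208) o45208 (by decide +kernel)
theorem q45283 : Rg TT 45283 45359 := Rg.of (L := c45283) o45283 (by decide +kernel)
theorem q45359 : Rg TT 45359 45438 := Rg.of (L := c45359) o45359 (by decide +kernel)
theorem q45438 : Rg TT 45438 45516 := Rg.of (L := c45438) o45438 (by decide +kernel)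
theorem q45516 : Rg TT 45516 45594 := Rg.of (L := c45516) o45516 (by decide +kernel)
theorem q45594 : Rg TT 45594 45673 := Rg.of (L := c45594) o45594 (by decide +kernel)
theorem q45673 : Rg TT 45673 45749 := Rg.of (L := c45673) o45673 (by decide +kernel)
theorem q45749 : Rg TT 45749 45828 := Rg.of (L := c45749) o45749 (by decide +kernel)
theorem q45828 : Rg TT 45828 45903 := Rg.of (L := c45828) o45828 (by decide +kernel)
theorem q45903 : Rg TT 45903 45982 := Rg.of (L := c45903) o45903 (by decide +kernel)
theorem q45982 : Rg TT 45982 46061 := Rg.of (L := c45982) o45982 (by decide +kernel)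
theorem q46061 : Rg TT 46061 46141 := Rg.of (L := c46061) o46061 (by decide +kernel)
theorem q46141 : Rg TT 46141 46218 := Rg.of (L := c46141) o46141 (by decide +kernel)
theorem q46218 : Rg TT 46218 46293 := Rg.of (L := c46218) o46218 (by decide +kernel)
theorem q46293 : Rg TT 46293 46370 := Rg.of (L := c46293) o46293 (by decide +kernel)
theorem q46370 : Rg TT 46370 46445 := Rg.of (L := c46370) o46370 (by decide +kernel)
theorem q46445 : Rg TT 46445 46517 := Rg.of (L := c46445) o46445 (by decide +kernel)
theorem q46517 : Rg TT 46517 46594 := Rg.of (L := c46517) o46517 (by decide +kernel)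
theorem q46594 : Rg TT 46594 46669 := Rg.of (L := c46594) o46594 (by decide +kernel)
theorem q46669 : Rg TT 46669 46747 := Rg.of (L := c46669) o46669 (by decide +kernel)
theorem q46747 : Rg TT 46747 46825 := Rg.of (L := c46747) o46747 (by decide +kernel)
theorem q46825 : Rg TT 46825 46901 := Rg.of (L := c46825) o46825 (by decide +kernel)
theorem q46901 : Rg TT 46901 46974 := Rg.of (L := c46901) o46901 (by decide +kernel)
theorem q46974 : Rg TT 46974 47053 := Rg.of (L := c46974) o46974 (by decide +kernel)
theorem q47053 : Rg TT 47053 47127 := Rg.of (L := c47053) o47053 (by decide +kernel)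
theorem q47127 : Rg TT 47127 47202 := Rg.of (L := c47127) o47127 (by decide +kernel)
theorem q47202 : Rg TT 47202 47279 := Rg.of (L := c47202) o47202 (by decide +kernel)
theorem q47279 : Rg TT 47279 47358 := Rg.of (L := c47279) o47279 (by decide +kernel)
theorem q47358 : Rg TT 47358 47436 := Rg.of (L := c47358) o47358 (by decide +kernel)
theorem q47436 : Rg TT 47436 47519 := Rg.of (L := c47436) o47436 (by decide +kernel)
theorem q47519 : Rg TT 47519 47596 := Rg.of (L := c47519) o47519 (by decide +kernel)
theorem r9 : Rg TT 43366 47596 := ((((((((((((((((((((((((((((((((((((((((((((((((((((((q43366.join q43445).join q43522).join q43598).join q43677).join q43755).join q43832).join q43911).join q43989).join q44066).join q44144).join q44217).join q44294).join q44370).join q44445).join q44524).join q44597).join q44675).join q44750).join q44827).join q44902).join q44980).join q45056).join q45133).join q45208).join q45283).join q45359).join q45438).join q45516).join q45594).join q45673).join q45749).join q45828).join q45903).join q45982).join q46061).join q46141).join q46218).join q46293).join q46370).join q46445).join q46517).join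 q46594).join q46669).join q46747).join q46825).join q46901).join q46974).join q47053).join q47127).join q47202).join q47279).join q47358).join q47436).join q47519)
theorem q47596 : Rg TT 47596 47672 := Rg.of (L := c47596) o47596 (by decide +kernel)
theorem q47672 : Rg TT 47672 47749 := Rg.of (L := c47672) o47672 (by decide +kernel)
theorem q47749 : Rg TT 47749 47825 := Rg.of (L := c47749) o47749 (by decide +kernel)
theorem q47825 : Rg TT 47825 47902 := Rg.of (L := c47825) o47825 (by decide +kernel)
theorem q47902 : Rg TT 47902 47978 := Rg.of (L := c47902) o47902 (by decide +kernel)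
theorem q47978 : Rg TT 47978 48054 := Rg.of (L := c47978) o47978 (by decide +kernel)
theorem q48054 : Rg TT 48054 48134 := Rg.of (L := c48054) o48054 (by decide +kernel)
theorem q48134 : Rg TT 48134 48209 := Rg.of (L := c48134) o48134 (by decide +kernel)
theorem q48209 : Rg TT 48209 48283 := Rg.of (L := c48209) o48209 (by decide +kernel)
theorem q48283 : Rg TT 48283 48362 := Rg.of (L := c48283) o48283 (by decide +kernel)
theorem q48362 : Rg TT 48362 48440 := Rg.of (L := c48362) o48362 (by decide +kernel)
theorem q48440 : Rg TT 48440 48516 := Rg.of (L := c48440) o48440 (by decide +kernel)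
theorem q48516 : Rg TT 48516 48594 := Rg.of (L := c48516) o48516 (by decide +kernel)
theorem q48594 : Rg TT 48594 48673 := Rg.of (L := c48594) o48594 (by decide +kernel)
theorem q48673 : Rg TT 48673 48753 := Rg.of (L := c48673) o48673 (by decide +kernel)
theorem q48753 : Rg TT 48753 48829 := Rg.of (L := c48753) o48753 (by decide +kernel)
theorem q48829 : Rg TT 48829 48906 := Rg.of (L := c48829) o48829 (by decide +kernel)
theorem q48906 : Rg TT 48906 48981 := Rg.of (L := c48906) o48906 (by decide +kernel)
theorem q48981 : Rg TT 48981 49057 := Rg.of (L := c48981) o48981 (by decide +kernel)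
theorem q49057 : Rg TT 49057 49131 := Rg.of (L := c49057) o49057 (by decide +kernel)
theorem q49131 : Rg TT 49131 49208 := Rg.of (L := c49131) o49131 (by decide +kernel)
theorem q49208 : Rg TT 49208 49281 := Rg.of (L := c49208) o49208 (by decide +kernel)
theorem q49281 : Rg TT 49281 49362 := Rg.of (L := c49281) o49281 (by decide +kernel)
theorem q49362 : Rg TT 49362 49431 := Rg.of (L := c49362) o49362 (by decide +kernel)
theorem q49431 : Rg TT 49431 49504 := Rg.of (L := c49431) o49431 (by decide +kernel)
theorem q49504 : Rg TT 49504 49581 := Rg.of (L := c49504) o49504 (by decide +kernel)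
theorem q49581 : Rg TT 49581 49655 := Rg.of (L := c49581) o49581 (by decide +kernel)
theorem q49655 : Rg TT 49655 49736 := Rg.of (L := c49655) o49655 (by decide +kernel)
theorem q49736 : Rg TT 49736 49812 := Rg.of (L := c49736) o49736 (by decide +kernel)
theorem q49812 : Rg TT 49812 49889 := Rg.of (L := c49812) o49812 (by decide +kernel)
theorem q49889 : Rg TT 49889 49966 := Rg.of (L := c49889) o49889 (by decide +kernel)
theorem q49966 : Rg TT 49966 50038 := Rg.of (L := c49966) o49966 (by decide +kernel)
theorem q50038 : Rg TT 50038 50117 := Rg.of (L := c50038) o50038 (by decide +kernel)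
theorem q50117 : Rg TT 50117 50189 := Rg.of (L := c50117) o50117 (by decide +kernel)
theorem q50189 : Rg TT 50189 50267 := Rg.of (L := c50189) o50189 (by decide +kernel)
theorem q50267 : Rg TT 50267 50346 := Rg.of (L := c50267) o50267 (by decide +kernel)
theorem q50346 : Rg TT 50346 50423 := Rg.of (L := c50346) o50346 (by decide +kernel)
theorem q50423 : Rg TT 50423 50502 := Rg.of (L := c50423) o50423 (by decide +kernel)
theorem q50502 : Rg TT 50502 50581 := Rg.of (L := c50502) o50502 (by decide +kernel)
theorem q50581 : Rg TT 50581 50659 := Rg.of (L := c50581) o50581 (by decide +kernel)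
theorem q50659 : Rg TT 50659 50733 := Rg.of (L := c50659) o50659 (by decide +kernel)
theorem q50733 : Rg TT 50733 50808 := Rg.of (L := c50733) o50733 (by decide +kernel)
theorem q50808 : Rg TT 50808 50878 := Rg.of (L := c50808) o50808 (by decide +kernel)
theorem q50878 : Rg TT 50878 50952 := Rg.of (L := c50878) o50878 (by decide +kernel)
theorem q50952 : Rg TT 50952 51030 := Rg.of (L := c50952) o50952 (by decide +kernel)
theorem q51030 : Rg TT 51030 51109 := Rg.of (L := c51030) o51030 (by decide +kernel)
theorem q51109 : Rg TT 51109 51182 := Rg.of (L := c51109) o51109 (by decide +kernel)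
theorem q51182 : Rg TT 51182 51258 := Rg.of (L := c51182) o51182 (by decide +kernel)
theorem q51258 : Rg TT 51258 51335 := Rg.of (L := c51258) o51258 (by decide +kernel)
theorem q51335 : Rg TT 51335 51407 := Rg.of (L := c51335) o51335 (by decide +kernel)
theorem q51407 : Rg TT 51407 51483 := Rg.of (L := c51407) o51407 (by decide +kernel)
theorem q51483 : Rg TT 51483 51559 := Rg.of (L := c51483) o51483 (by decide +kernel)
theorem q51559 : Rg TT 51559 51633 := Rg.of (L := c51559) o51559 (by decide +kernel)
theorem q51633 : Rg TT 51633 51705 := Rg.of (L := c51633) o51633 (by decide +kernel)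
theorem q51705 : Rg TT 51705 51780 := Rg.of (L := c51705) o51705 (by decide +kernel)
theorem q51780 : Rg TT 51780 51851 := Rg.of (L := c51780) o51780 (by decide +kernel)
theorem r10 : Rg TT 47596 51851 := (((((((((((((((((((((((((((((((((((((((((((((((((((((((q47596.join q47672).join q47749).join q47825).join q47902).join q47978).join q48054).join q48134).join q48209).join q48283).join q48362).join q48440).join q48516).join q48594).join q48673).join q48753).join q48829).join q48906).join q48981).join q49057).join q49131).join q49208).join q49281).join q49362).join q49431).join q49504).join q49581).join q49655).join q49736).join q49812).join q49889).join q49966).join q50038).join q50117).join q50189).join q50267).join q50346).join q50423).join q50502).join q50581).join q50659).join q50733).join q50808).join q50878).join q50952).join q51030).join q51109).join q51182).join q51258).join q51335).join q51407).join q51483).join q51559).join q51633).join q51705).join q51780)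
theorem q51851 : Rg TT 51851 51932 := Rg.of (L := c51851) o51851 (by decide +kernel)
theorem q51932 : Rg TT 51932 52008 := Rg.of (L := c51932) o51932 (by decide +kernel)
theorem q52008 : Rg TT 52008 52085 := Rg.of (L := c52008) o52008 (by decide +kernel)
theorem q52085 : Rg TT 52085 52159 := Rg.of (L := c52085) o52085 (by decide +kernel)
theorem q52159 : Rg TT 52159 52234 := Rg.of (L := c52159) o52159 (by decide +kernel)
theorem q52234 : Rg TT 52234 52308 := Rg.of (L := c52234) o52234 (by decide +kernel)
theorem q52308 : Rg TT 52308 52385 := Rg.of (L := c52308) o52308 (by decide +kernel)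
theorem q52385 : Rg TT 52385 52462 := Rg.of (L := c52385) o52385 (by decide +kernel)
theorem q52462 : Rg TT 52462 52541 := Rg.of (L := c52462) o52462 (by decide +kernel)
theorem q52541 : Rg TT 52541 52612 := Rg.of (L := c52541) o52541 (by decide +kernel)
theorem q52612 : Rg TT 52612 52686 := Rg.of (L := c52612) o52612 (by decide +kernel)
theorem q52686 : Rg TT 52686 52760 := Rg.of (L := c52686) o52686 (by decide +kernel)
theorem q52760 : Rg TT 52760 52831 := Rg.of (L := c52760) o52760 (by decide +kernel)
theorem q52831 : Rg TT 52831 52891 := Rg.of (L := c52831) o52831 (by decide +kernel)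
theorem q52891 : Rg TT 52891 52950 := Rg.of (L := c52891) o52891 (by decide +kernel)
theorem q52950 : Rg TT 52950 53006 := Rg.of (L := c52950) o52950 (by decide +kernel)
theorem q53006 : Rg TT 53006 53062 := Rg.of (L := c53006) o53006 (by decide +kernel)
theorem q53062 : Rg TT 53062 53117 := Rg.of (L := c53062) o53062 (by decide +kernel)
theorem q53117 : Rg TT 53117 53174 := Rg.of (L := c53117) o53117 (by decide +kernel)
theorem q53174 : Rg TT 53174 53228 := Rg.of (L := c53174) o53174 (by decide +kernel)
theorem q53228 : Rg TT 53228 53285 := Rg.of (L := c53228) o53228 (by decide +kernel)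
theorem q53285 : Rg TT 53285 53342 := Rg.of (L := c53285) o53285 (by decide +kernel)
theorem q53342 : Rg TT 53342 53397 := Rg.of (L := c53342) o53342 (by decide +kernel)
theorem q53397 : Rg TT 53397 53451 := Rg.of (L := c53397) o53397 (by decide +kernel)
theorem q53451 : Rg TT 53451 53507 := Rg.of (L := c53451) o53451 (by decide +kernel)
theorem q53507 : Rg TT 53507 53561 := Rg.of (L := c53507) o53507 (by decide +kernel)
theorem q53561 : Rg TT 53561 53614 := Rg.of (L := c53561) o53561 (by decide +kernel)
theorem q53614 : Rg TT 53614 53667 := Rg.of (L := c53614) o53614 (by decide +kernel)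
theorem q53667 : Rg TT 53667 53719 := Rg.of (L := c53667) o53667 (by decide +kernel)
theorem q53719 : Rg TT 53719 53772 := Rg.of (L := c53719) o53719 (by decide +kernel)
theorem q53772 : Rg TT 53772 53825 := Rg.of (L := c53772) o53772 (by decide +kernel)
theorem q53825 : Rg TT 53825 53877 := Rg.of (L := c53825) o53825 (by decide +kernel)
theorem q53877 : Rg TT 53877 53930 := Rg.of (L := c53877) o53877 (by decide +kernel)
theorem q53930 : Rg TT 53930 53983 := Rg.of (L := c53930) o53930 (by decide +kernel)
theorem q53983 : Rg TT 53983 54035 := Rg.of (L := c53983) o53983 (by decide +kernel)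
theorem q54035 : Rg TT 54035 54087 := Rg.of (L := c54035) o54035 (by decide +kernel)
theorem q54087 : Rg TT 54087 54143 := Rg.of (L := c54087) o54087 (by decide +kernel)
theorem q54143 : Rg TT 54143 54198 := Rg.of (L := c54143) o54143 (by decide +kernel)
theorem q54198 : Rg TT 54198 54251 := Rg.of (L := c54198) o54198 (by decide +kernel)
theorem q54251 : Rg TT 54251 54305 := Rg.of (L := c54251) o54251 (by decide +kernel)
theorem q54305 : Rg TT 54305 54358 := Rg.of (L := c54305) o54305 (by decide +kernel)
theorem q54358 : Rg TT 54358 54413 := Rg.of (L := c54358) o54358 (by decide +kernel)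
theorem q54413 : Rg TT 54413 54466 := Rg.of (L := c54413) o54413 (by decide +kernel)
theorem q54466 : Rg TT 54466 54522 := Rg.of (L := c54466) o54466 (by decide +kernel)
theorem q54522 : Rg TT 54522 54579 := Rg.of (L := c54522) o54522 (by decide +kernel)
theorem q54579 : Rg TT 54579 54630 := Rg.of (L := c54579) o54579 (by decide +kernel)
theorem q54630 : Rg TT 54630 54683 := Rg.of (L := c54630) o54630 (by decide +kernel)
theorem q54683 : Rg TT 54683 54738 := Rg.of (L := c54683) o54683 (by decide +kernel)
theorem q54738 : Rg TT 54738 54791 := Rg.of (L := c54738) o54738 (by decide +kernel)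
theorem q54791 : Rg TT 54791 54846 := Rg.of (L := c54791) o54791 (by decide +kernel)
theorem q54846 : Rg TT 54846 54901 := Rg.of (L := c54846) o54846 (by decide +kernel)
theorem q54901 : Rg TT 54901 54954 := Rg.of (L := c54901) o54901 (by decide +kernel)
theorem q54954 : Rg TT 54954 55009 := Rg.of (L := c54954) o54954 (by decide +kernel)
theorem q55009 : Rg TT 55009 55064 := Rg.of (L := c55009) o55009 (by decide +kernel)
theorem q55064 : Rg TT 55064 55117 := Rg.of (L := c55064) o55064 (by decide +kernel)
theorem r11 : Rg TT 51851 55117 := ((((((((((((((((((((((((((((((((((((((((((((((((((((((q51851.join q51932).join q52008).join q52085).join q52159).join q52234).join q52308).join q52385).join q52462).join q52541).join q52612).join q52686).join q52760).join q52831).join q52891).join q52950).join q53006).join q53062).join q53117).join q53174).join q53228).join q53285).join q53342).join q53397).join q53451).join q53507).join q53561).join q53614).join q53667).join q53719).join q53772).join q53825).join q53877).join q53930).join q53983).join q54035).join q54087).join q54143).join q54198).join q54251).join q54305).join q54358).join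 q54413).join q54466).join q54522).join q54579).join q54630).join q54683).join q54738).join q54791).join q54846).join q54901).join q54954).join q55009).join q55064)
theorem q55117 : Rg TT 55117 55170 := Rg.of (L := c55117) o55117 (by decide +kernel)
theorem q55170 : Rg TT 55170 55225 := Rg.of (L := c55170) o55170 (by decide +kernel)
theorem q55225 : Rg TT 55225 55278 := Rg.of (L := c55225) o55225 (by decide +kernel)
theorem q55278 : Rg TT 55278 55330 := Rg.of (L := c55278) o55278 (by decide +kernel)
theorem q55330 : Rg TT 55330 55384 := Rg.of (L := c55330) o55330 (by decide +kernel)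
theorem q55384 : Rg TT 55384 55437 := Rg.of (L := c55384) o55384 (by decide +kernel)
theorem q55437 : Rg TT 55437 55491 := Rg.of (L := c55437) o55437 (by decide +kernel)
theorem q55491 : Rg TT 55491 55542 := Rg.of (L := c55491) o55491 (by decide +kernel)
theorem q55542 : Rg TT 55542 55595 := Rg.of (L := c55542) o55542 (by decide +kernel)
theorem q55595 : Rg TT 55595 55649 := Rg.of (L := c55595) o55595 (by decide +kernel)
theorem q55649 : Rg TT 55649 55703 := Rg.of (L := c55649) o55649 (by decide +kernel)
theorem q55703 : Rg TT 55703 55760 := Rg.of (L := c55703) o55703 (by decide +kernel)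
theorem q55760 : Rg TT 55760 55813 := Rg.of (L := c55760) o55760 (by decide +kernel)
theorem q55813 : Rg TT 55813 55867 := Rg.of (L := c55813) o55813 (by decide +kernel)
theorem q55867 : Rg TT 55867 55920 := Rg.of (L := c55867) o55867 (by decide +kernel)
theorem q55920 : Rg TT 55920 55973 := Rg.of (L := c55920) o55920 (by decide +kernel)
theorem q55973 : Rg TT 55973 56028 := Rg.of (L := c55973) o55973 (by decide +kernel)
theorem q56028 : Rg TT 56028 56080 := Rg.of (L := c56028) o56028 (by decide +kernel)
theorem q56080 : Rg TT 56080 56136 := Rg.of (L := c56080) o56080 (by decide +kernel)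
theorem q56136 : Rg TT 56136 56189 := Rg.of (L := c56136) o56136 (by decide +kernel)
theorem q56189 : Rg TT 56189 56242 := Rg.of (L := c56189) o56189 (by decide +kernel)
theorem q56242 : Rg TT 56242 56300 := Rg.of (L := c56242) o56242 (by decide +kernel)
theorem q56300 : Rg TT 56300 56353 := Rg.of (L := c56300) o56300 (by decide +kernel)
theorem q56353 : Rg TT 56353 56397 := Rg.of (L := c56353) o56353 (by decide +kernel)
theorem q56397 : Rg TT 56397 56439 := Rg.of (L := c56397) o56397 (by decide +kernel)
theorem q56439 : Rg TT 56439 56482 := Rg.of (L := c56439) o56439 (by decide +kernel)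
theorem q56482 : Rg TT 56482 56524 := Rg.of (L := c56482) o56482 (by decide +kernel)
theorem q56524 : Rg TT 56524 56566 := Rg.of (L := c56524) o56524 (by decide +kernel)
theorem q56566 : Rg TT 56566 56609 := Rg.of (L := c56566) o56566 (by decide +kernel)
theorem q56609 : Rg TT 56609 56651 := Rg.of (L := c56609) o56609 (by decide +kernel)
theorem q56651 : Rg TT 56651 56693 := Rg.of (L := c56651) o56651 (by decide +kernel)
theorem q56693 : Rg TT 56693 56735 := Rg.of (L := c56693) o56693 (by decide +kernel)
theorem q56735 : Rg TT 56735 56777 := Rg.of (L := c56735) o56735 (by decide +kernel)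
theorem q56777 : Rg TT 56777 56819 := Rg.of (L := c56777) o56777 (by decide +kernel)
theorem q56819 : Rg TT 56819 56861 := Rg.of (L := c56819) o56819 (by decide +kernel)
theorem q56861 : Rg TT 56861 56902 := Rg.of (L := c56861) o56861 (by decide +kernel)
theorem q56902 : Rg TT 56902 56942 := Rg.of (L := c56902) o56902 (by decide +kernel)
theorem q56942 : Rg TT 56942 56984 := Rg.of (L := c56942) o56942 (by decide +kernel)
theorem q56984 : Rg TT 56984 57025 := Rg.of (L := c56984) o56984 (by decide +kernel)
theorem q57025 : Rg TT 57025 57067 := Rg.of (L := c57025) o57025 (by decide +kernel)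
theorem q57067 : Rg TT 57067 57109 := Rg.of (L := c57067) o57067 (by decide +kernel)
theorem q57109 : Rg TT 57109 57151 := Rg.of (L := c57109) o57109 (by decide +kernel)
theorem q57151 : Rg TT 57151 57193 := Rg.of (L := c57151) o57151 (by decide +kernel)
theorem q57193 : Rg TT 57193 57234 := Rg.of (L := c57193) o57193 (by decide +kernel)
theorem q57234 : Rg TT 57234 57276 := Rg.of (L := c57234) o57234 (by decide +kernel)
theorem q57276 : Rg TT 57276 57319 := Rg.of (L := c57276) o57276 (by decide +kernel)
theorem q57319 : Rg TT 57319 57361 := Rg.of (L := c57319) o57319 (by decide +kernel)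
theorem q57361 : Rg TT 57361 57402 := Rg.of (L := c57361) o57361 (by decide +kernel)
theorem q57402 : Rg TT 57402 57472 := Rg.of (L := c57402) o57402 (by decide +kernel)
theorem q57472 : Rg TT 57472 57554 := Rg.of (L := c57472) o57472 (by decide +kernel)
theorem q57554 : Rg TT 57554 57636 := Rg.of (L := c57554) o57554 (by decide +kernel)
theorem q57636 : Rg TT 57636 57721 := Rg.of (L := c57636) o57636 (by decide +kernel)
theorem q57721 : Rg TT 57721 57804 := Rg.of (L := c57721) o57721 (by decide +kernel)
theorem q57804 : Rg TT 57804 57889 := Rg.of (L := c57804) o57804 (by decide +kernel)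
theorem q57889 : Rg TT 57889 57974 := Rg.of (L := c57889) o57889 (by decide +kernel)
theorem r12 : Rg TT 55117 57974 := ((((((((((((((((((((((((((((((((((((((((((((((((((((((q55117.join q55170).join q55225).join q55278).join q55330).join q55384).join q55437).join q55491).join q55542).join q55595).join q55649).join q55703).join q55760).join q55813).join q55867).join q55920).join q55973).join q56028).join q56080).join q56136).join q56189).join q56242).join q56300).join q56353).join q56397).join q56439).join q56482).join q56524).join q56566).join q56609).join q56651).join q56693).join q56735).join q56777).join q56819).join q56861).join q56902).join q56942).join q56984).join q57025).join q57067).join q57109).join q57151).join q57193).join q57234).join q57276).join q57319).join q57361).join q57402).join q57472).join q57554).join q57636).join q57721).join q57804).join q57889)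
theorem q57974 : Rg TT 57974 58060 := Rg.of (L := c57974) o57974 (by decide +kernel)
theorem q58060 : Rg TT 58060 58146 := Rg.of (L := c58060) o58060 (by decide +kernel)
theorem q58146 : Rg TT 58146 58231 := Rg.of (L := c58146) o58146 (by decide +kernel)
theorem q58231 : Rg TT 58231 58315 := Rg.of (L := c58231) o58231 (by decide +kernel)
theorem q58315 : Rg TT 58315 58400 := Rg.of (L := c58315) o58315 (by decide +kernel)
theorem q58400 : Rg TT 58400 58485 := Rg.of (L := c58400) o58400 (by decide +kernel)
theorem q58485 : Rg TT 58485 58569 := Rg.of (L := c58485) o58485 (by decide +kernel)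
theorem q58569 : Rg TT 58569 58655 := Rg.of (L := c58569) o58569 (by decide +kernel)
theorem q58655 : Rg TT 58655 58737 := Rg.of (L := c58655) o58655 (by decide +kernel)
theorem q58737 : Rg TT 58737 58823 := Rg.of (L := c58737) o58737 (by decide +kernel)
theorem q58823 : Rg TT 58823 58906 := Rg.of (L := c58823) o58823 (by decide +kernel)
theorem q58906 : Rg TT 58906 58990 := Rg.of (L := c58906) o58906 (by decide +kernel)
theorem q58990 : Rg TT 58990 59076 := Rg.of (L := c58990) o58990 (by decide +kernel)
theorem q59076 : Rg TT 59076 59162 := Rg.of (L := c59076) o59076 (by decide +kernel)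
theorem q59162 : Rg TT 59162 59246 := Rg.of (L := c59162) o59162 (by decide +kernel)
theorem q59246 : Rg TT 59246 59329 := Rg.of (L := c59246) o59246 (by decide +kernel)
theorem q59329 : Rg TT 59329 59414 := Rg.of (L := c59329) o59329 (by decide +kernel)
theorem q59414 : Rg TT 59414 59498 := Rg.of (L := c59414) o59414 (by decide +kernel)
theorem q59498 : Rg TT 59498 59582 := Rg.of (L := c59498) o59498 (by decide +kernel)
theorem q59582 : Rg TT 59582 59670 := Rg.of (L := c59582) o59582 (by decide +kernel)
theorem q59670 : Rg TT 59670 59755 := Rg.of (L := c59670) o59670 (by decide +kernel)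
theorem q59755 : Rg TT 59755 59839 := Rg.of (L := c59755) o59755 (by decide +kernel)
theorem q59839 : Rg TT 59839 59924 := Rg.of (L := c59839) o59839 (by decide +kernel)
theorem q59924 : Rg TT 59924 60010 := Rg.of (L := c59924) o59924 (by decide +kernel)
theorem q60010 : Rg TT 60010 60093 := Rg.of (L := c60010) o60010 (by decide +kernel)
theorem q60093 : Rg TT 60093 60178 := Rg.of (L := c60093) o60093 (by decide +kernel)
theorem q60178 : Rg TT 60178 60261 := Rg.of (L := c60178) o60178 (by decide +kernel)
theorem q60261 : Rg TT 60261 60344 := Rg.of (L := c60261) o60261 (by decide +kernel)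
theorem q60344 : Rg TT 60344 60428 := Rg.of (L := c60344) o60344 (by decide +kernel)
theorem q60428 : Rg TT 60428 60511 := Rg.of (L := c60428) o60428 (by decide +kernel)
theorem q60511 : Rg TT 60511 60595 := Rg.of (L := c60511) o60511 (by decide +kernel)
theorem q60595 : Rg TT 60595 60676 := Rg.of (L := c60595) o60595 (by decide +kernel)
theorem q60676 : Rg TT 60676 60743 := Rg.of (L := c60676) o60676 (by decide +kernel)
theorem q60743 : Rg TT 60743 60804 := Rg.of (L := c60743) o60743 (by decide +kernel)
theorem q60804 : Rg TT 60804 60865 := Rg.of (L := c60804) o60804 (by decide +kernel)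
theorem q60865 : Rg TT 60865 60928 := Rg.of (L := c60865) o60865 (by decide +kernel)
theorem q60928 : Rg TT 60928 60992 := Rg.of (L := c60928) o60928 (by decide +kernel)
theorem q60992 : Rg TT 60992 61054 := Rg.of (L := c60992) o60992 (by decide +kernel)
theorem q61054 : Rg TT 61054 61116 := Rg.of (L := c61054) o61054 (by decide +kernel)
theorem q61116 : Rg TT 61116 61176 := Rg.of (L := c61116) o61116 (by decide +kernel)
theorem q61176 : Rg TT 61176 61238 := Rg.of (L := c61176) o61176 (by decide +kernel)
theorem q61238 : Rg TT 61238 61301 := Rg.of (L := c61238) o61238 (by decide +kernel)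
theorem q61301 : Rg TT 61301 61364 := Rg.of (L := c61301) o61301 (by decide +kernel)
theorem q61364 : Rg TT 61364 61424 := Rg.of (L := c61364) o61364 (by decide +kernel)
theorem q61424 : Rg TT 61424 61485 := Rg.of (L := c61424) o61424 (by decide +kernel)
theorem q61485 : Rg TT 61485 61546 := Rg.of (L := c61485) o61485 (by decide +kernel)
theorem q61546 : Rg TT 61546 61606 := Rg.of (L := c61546) o61546 (by decide +kernel)
theorem q61606 : Rg TT 61606 61667 := Rg.of (L := c61606) o61606 (by decide +kernel)
theorem q61667 : Rg TT 61667 61727 := Rg.of (L := c61667) o61667 (by decide +kernel)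
theorem q61727 : Rg TT 61727 61788 := Rg.of (L := c61727) o61727 (by decide +kernel)
theorem q61788 : Rg TT 61788 61850 := Rg.of (L := c61788) o61788 (by decide +kernel)
theorem q61850 : Rg TT 61850 61911 := Rg.of (L := c61850) o61850 (by decide +kernel)
theorem q61911 : Rg TT 61911 61973 := Rg.of (L := c61911) o61911 (by decide +kernel)
theorem q61973 : Rg TT 61973 62036 := Rg.of (L := c61973) o61973 (by decide +kernel)
theorem q62036 : Rg TT 62036 62095 := Rg.of (L := c62036) o62036 (by decide +kernel)
theorem q62095 : Rg TT 62095 62158 := Rg.of (L := c62095) o62095 (by decide +kernel)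
theorem r13 : Rg TT 57974 62158 := (((((((((((((((((((((((((((((((((((((((((((((((((((((((q57974.join q58060).join q58146).join q58231).join q58315).join q58400).join q58485).join q58569).join q58655).join q58737).join q58823).join q58906).join q58990).join q59076).join q59162).join q59246).join q59329).join q59414).join q59498).join q59582).join q59670).join q59755).join q59839).join q59924).join q60010).join q60093).join q60178).join q60261).join q60344).join q60428).join q60511).join q60595).join q60676).join q60743).join q60804).join q60865).join q60928).join q60992).join q61054).join q61116).join q61176).join q61238).join q61301).join q61364).join q61424).join q61485).join q61546).join q61606).join q61667).join q61727).join q61788).join q61850).join q61911).join q61973).join q62036).join q62095)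
theorem q62158 : Rg TT 62158 62220 := Rg.of (L := c62158) o62158 (by decide +kernel)
theorem q62220 : Rg TT 62220 62282 := Rg.of (L := c62220) o62220 (by decide +kernel)
theorem q62282 : Rg TT 62282 62343 := Rg.of (L := c62282) o62282 (by decide +kernel)
theorem q62343 : Rg TT 62343 62406 := Rg.of (L := c62343) o62343 (by decide +kernel)
theorem q62406 : Rg TT 62406 62468 := Rg.of (L := c62406) o62406 (by decide +kernel)
theorem q62468 : Rg TT 62468 62530 := Rg.of (L := c62468) o62468 (by decide +kernel)
theorem q62530 : Rg TT 62530 62591 := Rg.of (L := c62530) o62530 (by decide +kernel)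
theorem q62591 : Rg TT 62591 62649 := Rg.of (L := c62591) o62591 (by decide +kernel)
theorem q62649 : Rg TT 62649 62705 := Rg.of (L := c62649) o62649 (by decide +kernel)
theorem q62705 : Rg TT 62705 62763 := Rg.of (L := c62705) o62705 (by decide +kernel)
theorem q62763 : Rg TT 62763 62824 := Rg.of (L := c62763) o62763 (by decide +kernel)
theorem q62824 : Rg TT 62824 62885 := Rg.of (L := c62824) o62824 (by decide +kernel)
theorem q62885 : Rg TT 62885 62946 := Rg.of (L := c62885) o62885 (by decide +kernel)
theorem q62946 : Rg TT 62946 63008 := Rg.of (L := c62946) o62946 (by decide +kernel)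
theorem q63008 : Rg TT 63008 63071 := Rg.of (L := c63008) o63008 (by decide +kernel)
theorem q63071 : Rg TT 63071 63131 := Rg.of (L := c63071) o63071 (by decide +kernel)
theorem q63131 : Rg TT 63131 63191 := Rg.of (L := c63131) o63131 (by decide +kernel)
theorem q63191 : Rg TT 63191 63250 := Rg.of (L := c63191) o63191 (by decide +kernel)
theorem q63250 : Rg TT 63250 63310 := Rg.of (L := c63250) o63250 (by decide +kernel)
theorem q63310 : Rg TT 63310 63372 := Rg.of (L := c63310) o63310 (by decide +kernel)
theorem q63372 : Rg TT 63372 63433 := Rg.of (L := c63372) o63372 (by decide +kernel)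
theorem q63433 : Rg TT 63433 63490 := Rg.of (L := c63433) o63433 (by decide +kernel)
theorem q63490 : Rg TT 63490 63552 := Rg.of (L := c63490) o63490 (by decide +kernel)
theorem q63552 : Rg TT 63552 63612 := Rg.of (L := c63552) o63552 (by decide +kernel)
theorem q63612 : Rg TT 63612 63670 := Rg.of (L := c63612) o63612 (by decide +kernel)
theorem q63670 : Rg TT 63670 63732 := Rg.of (L := c63670) o63670 (by decide +kernel)
theorem q63732 : Rg TT 63732 63792 := Rg.of (L := c63732) o63732 (by decide +kernel)
theorem q63792 : Rg TT 63792 63853 := Rg.of (L := c63792) o63792 (by decide +kernel)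
theorem q63853 : Rg TT 63853 63912 := Rg.of (L := c63853) o63853 (by decide +kernel)
theorem q63912 : Rg TT 63912 63971 := Rg.of (L := c63912) o63912 (by decide +kernel)
theorem q63971 : Rg TT 63971 64029 := Rg.of (L := c63971) o63971 (by decide +kernel)
theorem q64029 : Rg TT 64029 64090 := Rg.of (L := c64029) o64029 (by decide +kernel)
theorem q64090 : Rg TT 64090 64149 := Rg.of (L := c64090) o64090 (by decide +kernel)
theorem q64149 : Rg TT 64149 64211 := Rg.of (L := c64149) o64149 (by decide +kernel)
theorem q64211 : Rg TT 64211 64273 := Rg.of (L := c64211) o64211 (by decide +kernel)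
theorem q64273 : Rg TT 64273 64333 := Rg.of (L := c64273) o64273 (by decide +kernel)
theorem q64333 : Rg TT 64333 64394 := Rg.of (L := c64333) o64333 (by decide +kernel)
theorem q64394 : Rg TT 64394 64452 := Rg.of (L := c64394) o64394 (by decide +kernel)
theorem q64452 : Rg TT 64452 64509 := Rg.of (L := c64452) o64452 (by decide +kernel)
theorem q64509 : Rg TT 64509 64567 := Rg.of (L := c64509) o64509 (by decide +kernel)
theorem q64567 : Rg TT 64567 64627 := Rg.of (L := c64567) o64567 (by decide +kernel)
theorem q64627 : Rg TT 64627 64687 := Rg.of (L := c64627) o64627 (by decide +kernel)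
theorem q64687 : Rg TT 64687 64749 := Rg.of (L := c64687) o64687 (by decide +kernel)
theorem q64749 : Rg TT 64749 64810 := Rg.of (L := c64749) o64749 (by decide +kernel)
theorem q64810 : Rg TT 64810 64871 := Rg.of (L := c64810) o64810 (by decide +kernel)
theorem q64871 : Rg TT 64871 64931 := Rg.of (L := c64871) o64871 (by decide +kernel)
theorem q64931 : Rg TT 64931 64996 := Rg.of (L := c64931) o64931 (by decide +kernel)
theorem q64996 : Rg TT 64996 65054 := Rg.of (L := c64996) o64996 (by decide +kernel)
theorem q65054 : Rg TT 65054 65114 := Rg.of (L := c65054) o65054 (by decide +kernel)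
theorem q65114 : Rg TT 65114 65175 := Rg.of (L := c65114) o65114 (by decide +kernel)
theorem q65175 : Rg TT 65175 65236 := Rg.of (L := c65175) o65175 (by decide +kernel)
theorem q65236 : Rg TT 65236 65294 := Rg.of (L := c65236) o65236 (by decide +kernel)
theorem q65294 : Rg TT 65294 65354 := Rg.of (L := c65294) o65294 (by decide +kernel)
theorem q65354 : Rg TT 65354 65416 := Rg.of (L := c65354) o65354 (by decide +kernel)
theorem q65416 : Rg TT 65416 65478 := Rg.of (L := c65416) o65416 (by decide +kernel)
theorem r14 : Rg TT 62158 65478 := ((((((((((((((((((((((((((((((((((((((((((((((((((((((q62158.join q62220).join q62282).join q62343).join q62406).join q62468).join q62530).join q62591).join q62649).join q62705).join q62763).join q62824).join q62885).join q62946).join q63008).join q63071).join q63131).join q63191).join q63250).join q63310).join q63372).join q63433).join q63490).join q63552).join q63612).join q63670).join q63732).join q63792).join q63853).join q63912).join q63971).join q64029).join q64090).join q64149).join q64211).join q64273).join q64333).join q64394).join q64452).join q64509).join q64567).join q64627).join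 q64687).join q64749).join q64810).join q64871).join q64931).join q64996).join q65054).join q65114).join q65175).join q65236).join q65294).join q65354).join q65416)
theorem q65478 : Rg TT 65478 65538 := Rg.of (L := c65478) o65478 (by decide +kernel)
theorem q65538 : Rg TT 65538 65597 := Rg.of (L := c65538) o65538 (by decide +kernel)
theorem q65597 : Rg TT 65597 65656 := Rg.of (L := c65597) o65597 (by decide +kernel)
theorem q65656 : Rg TT 65656 65714 := Rg.of (L := c65656) o65656 (by decide +kernel)
theorem q65714 : Rg TT 65714 65775 := Rg.of (L := c65714) o65714 (by decide +kernel)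
theorem q65775 : Rg TT 65775 65832 := Rg.of (L := c65775) o65775 (by decide +kernel)
theorem q65832 : Rg TT 65832 65897 := Rg.of (L := c65832) o65832 (by decide +kernel)
theorem q65897 : Rg TT 65897 65954 := Rg.of (L := c65897) o65897 (by decide +kernel)
theorem q65954 : Rg TT 65954 66014 := Rg.of (L := c65954) o65954 (by decide +kernel)
theorem q66014 : Rg TT 66014 66077 := Rg.of (L := c66014) o66014 (by decide +kernel)
theorem q66077 : Rg TT 66077 66138 := Rg.of (L := c66077) o66077 (by decide +kernel)
theorem q66138 : Rg TT 66138 66199 := Rg.of (L := c66138) o66138 (by decide +kernel)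
theorem q66199 : Rg TT 66199 66262 := Rg.of (L := c66199) o66199 (by decide +kernel)
theorem q66262 : Rg TT 66262 66323 := Rg.of (L := c66262) o66262 (by decide +kernel)
theorem q66323 : Rg TT 66323 66382 := Rg.of (L := c66323) o66323 (by decide +kernel)
theorem q66382 : Rg TT 66382 66444 := Rg.of (L := c66382) o66382 (by decide +kernel)
theorem q66444 : Rg TT 66444 66505 := Rg.of (L := c66444) o66444 (by decide +kernel)
theorem q66505 : Rg TT 66505 66568 := Rg.of (L := c66505) o66505 (by decide +kernel)
theorem q66568 : Rg TT 66568 66630 := Rg.of (L := c66568) o66568 (by decide +kernel)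
theorem q66630 : Rg TT 66630 66691 := Rg.of (L := c66630) o66630 (by decide +kernel)
theorem q66691 : Rg TT 66691 66751 := Rg.of (L := c66691) o66691 (by decide +kernel)
theorem q66751 : Rg TT 66751 66813 := Rg.of (L := c66751) o66751 (by decide +kernel)
theorem q66813 : Rg TT 66813 66872 := Rg.of (L := c66813) o66813 (by decide +kernel)
theorem q66872 : Rg TT 66872 66933 := Rg.of (L := c66872) o66872 (by decide +kernel)
theorem q66933 : Rg TT 66933 66995 := Rg.of (L := c66933) o66933 (by decide +kernel)
theorem q66995 : Rg TT 66995 67054 := Rg.of (L := c66995) o66995 (by decide +kernel)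
theorem q67054 : Rg TT 67054 67114 := Rg.of (L := c67054) o67054 (by decide +kernel)
theorem q67114 : Rg TT 67114 67173 := Rg.of (L := c67114) o67114 (by decide +kernel)
theorem q67173 : Rg TT 67173 67237 := Rg.of (L := c67173) o67173 (by decide +kernel)
theorem q67237 : Rg TT 67237 67296 := Rg.of (L := c67237) o67237 (by decide +kernel)
theorem q67296 : Rg TT 67296 67355 := Rg.of (L := c67296) o67296 (by decide +kernel)
theorem q67355 : Rg TT 67355 67415 := Rg.of (L := c67355) o67355 (by decide +kernel)
theorem q67415 : Rg TT 67415 67475 := Rg.of (L := c67415) o67415 (by decide +kernel)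
theorem q67475 : Rg TT 67475 67533 := Rg.of (L := c67475) o67475 (by decide +kernel)
theorem q67533 : Rg TT 67533 67592 := Rg.of (L := c67533) o67533 (by decide +kernel)
theorem q67592 : Rg TT 67592 67651 := Rg.of (L := c67592) o67592 (by decide +kernel)
theorem q67651 : Rg TT 67651 67711 := Rg.of (L := c67651) o67651 (by decide +kernel)
theorem q67711 : Rg TT 67711 67771 := Rg.of (L := c67711) o67711 (by decide +kernel)
theorem q67771 : Rg TT 67771 67829 := Rg.of (L := c67771) o67771 (by decide +kernel)
theorem q67829 : Rg TT 67829 67888 := Rg.of (L := c67829) o67829 (by decide +kernel)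
theorem q67888 : Rg TT 67888 67948 := Rg.of (L := c67888) o67888 (by decide +kernel)
theorem q67948 : Rg TT 67948 68010 := Rg.of (L := c67948) o67948 (by decide +kernel)
theorem q68010 : Rg TT 68010 68068 := Rg.of (L := c68010) o68010 (by decide +kernel)
theorem q68068 : Rg TT 68068 68128 := Rg.of (L := c68068) o68068 (by decide +kernel)
theorem q68128 : Rg TT 68128 68181 := Rg.of (L := c68128) o68128 (by decide +kernel)
theorem q68181 : Rg TT 68181 68228 := Rg.of (L := c68181) o68181 (by decide +kernel)
theorem q68228 : Rg TT 68228 68274 := Rg.of (L := c68228) o68228 (by decide +kernel)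
theorem q68274 : Rg TT 68274 68320 := Rg.of (L := c68274) o68274 (by decide +kernel)
theorem q68320 : Rg TT 68320 68366 := Rg.of (L := c68320) o68320 (by decide +kernel)
theorem q68366 : Rg TT 68366 68410 := Rg.of (L := c68366) o68366 (by decide +kernel)
theorem q68410 : Rg TT 68410 68456 := Rg.of (L := c68410) o68410 (by decide +kernel)
theorem q68456 : Rg TT 68456 68501 := Rg.of (L := c68456) o68456 (by decide +kernel)
theorem q68501 : Rg TT 68501 68545 := Rg.of (L := c68501) o68501 (by decide +kernel)
theorem q68545 : Rg TT 68545 68590 := Rg.of (L := c68545) o68545 (by decide +kernel)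
theorem q68590 : Rg TT 68590 68636 := Rg.of (L := c68590) o68590 (by decide +kernel)
theorem r15 : Rg TT 65478 68636 := ((((((((((((((((((((((((((((((((((((((((((((((((((((((q65478.join q65538).join q65597).join q65656).join q65714).join q65775).join q65832).join q65897).join q65954).join q66014).join q66077).join q66138).join q66199).join q66262).join q66323).join q66382).join q66444).join q66505).join q66568).join q66630).join q66691).join q66751).join q66813).join q66872).join q66933).join q66995).join q67054).join q67114).join q67173).join q67237).join q67296).join q67355).join q67415).join q67475).join q67533).join q67592).join q67651).join q67711).join q67771).join q67829).join q67888).join q67948).join q68010).join q68068).join q68128).join q68181).join q68228).join q68274).join q68320).join q68366).join q68410).join q68456).join q68501).join q68545).join q68590)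
theorem q68636 : Rg TT 68636 68681 := Rg.of (L := c68636) o68636 (by decide +kernel)
theorem q68681 : Rg TT 68681 68726 := Rg.of (L := c68681) o68681 (by decide +kernel)
theorem q68726 : Rg TT 68726 68772 := Rg.of (L := c68726) o68726 (by decide +kernel)
theorem q68772 : Rg TT 68772 68818 := Rg.of (L := c68772) o68772 (by decide +kernel)
theorem q68818 : Rg TT 68818 68863 := Rg.of (L := c68818) o68818 (by decide +kernel)
theorem q68863 : Rg TT 68863 68906 := Rg.of (L := c68863) o68863 (by decide +kernel)
theorem q68906 : Rg TT 68906 68951 := Rg.of (L := c68906) o68906 (by decide +kernel)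
theorem q68951 : Rg TT 68951 68995 := Rg.of (L := c68951) o68951 (by decide +kernel)
theorem q68995 : Rg TT 68995 69039 := Rg.of (L := c68995) o68995 (by decide +kernel)
theorem q69039 : Rg TT 69039 69083 := Rg.of (L := c69039) o69039 (by decide +kernel)
theorem q69083 : Rg TT 69083 69127 := Rg.of (L := c69083) o69083 (by decide +kernel)
theorem q69127 : Rg TT 69127 69171 := Rg.of (L := c69127) o69127 (by decide +kernel)
theorem q69171 : Rg TT 69171 69215 := Rg.of (L := c69171) o69171 (by decide +kernel)
theorem q69215 : Rg TT 69215 69260 := Rg.of (L := c69215) o69215 (by decide +kernel)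
theorem q69260 : Rg TT 69260 69303 := Rg.of (L := c69260) o69260 (by decide +kernel)
theorem q69303 : Rg TT 69303 69346 := Rg.of (L := c69303) o69303 (by decide +kernel)
theorem q69346 : Rg TT 69346 69391 := Rg.of (L := c69346) o69346 (by decide +kernel)
theorem q69391 : Rg TT 69391 69435 := Rg.of (L := c69391) o69391 (by decide +kernel)
theorem q69435 : Rg TT 69435 69479 := Rg.of (L := c69435) o69435 (by decide +kernel)
theorem q69479 : Rg TT 69479 69524 := Rg.of (L := c69479) o69479 (by decide +kernel)
theorem q69524 : Rg TT 69524 69568 := Rg.of (L := c69524) o69524 (by decide +kernel)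
theorem q69568 : Rg TT 69568 69613 := Rg.of (L := c69568) o69568 (by decide +kernel)
theorem q69613 : Rg TT 69613 69658 := Rg.of (L := c69613) o69613 (by decide +kernel)
theorem q69658 : Rg TT 69658 69703 := Rg.of (L := c69658) o69658 (by decide +kernel)
theorem q69703 : Rg TT 69703 69747 := Rg.of (L := c69703) o69703 (by decide +kernel)
theorem q69747 : Rg TT 69747 69792 := Rg.of (L := c69747) o69747 (by decide +kernel)
theorem q69792 : Rg TT 69792 69836 := Rg.of (L := c69792) o69792 (by decide +kernel)
theorem q69836 : Rg TT 69836 69880 := Rg.of (L := c69836) o69836 (by decide +kernel)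
theorem q69880 : Rg TT 69880 69926 := Rg.of (L := c69880) o69880 (by decide +kernel)
theorem q69926 : Rg TT 69926 69972 := Rg.of (L := c69926) o69926 (by decide +kernel)
theorem q69972 : Rg TT 69972 70017 := Rg.of (L := c69972) o69972 (by decide +kernel)
theorem q70017 : Rg TT 70017 70062 := Rg.of (L := c70017) o70017 (by decide +kernel)
theorem q70062 : Rg TT 70062 70105 := Rg.of (L := c70062) o70062 (by decide +kernel)
theorem q70105 : Rg TT 70105 70149 := Rg.of (L := c70105) o70105 (by decide +kernel)
theorem q70149 : Rg TT 70149 70195 := Rg.of (L := c70149) o70149 (by decide +kernel)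
theorem q70195 : Rg TT 70195 70241 := Rg.of (L := c70195) o70195 (by decide +kernel)
theorem q70241 : Rg TT 70241 70286 := Rg.of (L := c70241) o70241 (by decide +kernel)
theorem q70286 : Rg TT 70286 70331 := Rg.of (L := c70286) o70286 (by decide +kernel)
theorem q70331 : Rg TT 70331 70376 := Rg.of (L := c70331) o70331 (by decide +kernel)
theorem q70376 : Rg TT 70376 70421 := Rg.of (L := c70376) o70376 (by decide +kernel)
theorem q70421 : Rg TT 70421 70465 := Rg.of (L := c70421) o70421 (by decide +kernel)
theorem q70465 : Rg TT 70465 70511 := Rg.of (L := c70465) o70465 (by decide +kernel)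
theorem q70511 : Rg TT 70511 70557 := Rg.of (L := c70511) o70511 (by decide +kernel)
theorem q70557 : Rg TT 70557 70600 := Rg.of (L := c70557) o70557 (by decide +kernel)
theorem q70600 : Rg TT 70600 70645 := Rg.of (L := c70600) o70600 (by decide +kernel)
theorem q70645 : Rg TT 70645 70690 := Rg.of (L := c70645) o70645 (by decide +kernel)
theorem q70690 : Rg TT 70690 70736 := Rg.of (L := c70690) o70690 (by decide +kernel)
theorem q70736 : Rg TT 70736 70779 := Rg.of (L := c70736) o70736 (by decide +kernel)
theorem q70779 : Rg TT 70779 70824 := Rg.of (L := c70779) o70779 (by decide +kernel)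
theorem q70824 : Rg TT 70824 70870 := Rg.of (L := c70824) o70824 (by decide +kernel)
theorem q70870 : Rg TT 70870 70918 := Rg.of (L := c70870) o70870 (by decide +kernel)
theorem q70918 : Rg TT 70918 70962 := Rg.of (L := c70918) o70918 (by decide +kernel)
theorem q70962 : Rg TT 70962 71007 := Rg.of (L := c70962) o70962 (by decide +kernel)
theorem q71007 : Rg TT 71007 71050 := Rg.of (L := c71007) o71007 (by decide +kernel)
theorem q71050 : Rg TT 71050 71097 := Rg.of (L := c71050) o71050 (by decide +kernel)
theorem r16 : Rg TT 68636 71097 := ((((((((((((((((((((((((((((((((((((((((((((((((((((((q68636.join q68681).join q68726).join q68772).join q68818).join q68863).join q68906).join q68951).join q68995).join q69039).join q69083).join q69127).join q69171).join q69215).join q69260).join q69303).join q69346).join q69391).join q69435).join q69479).join q69524).join q69568).join q69613).join q69658).join q69703).join q69747).join q69792).join q69836).join q69880).join q69926).join q69972).join q70017).join q70062).join q70105).join q70149).join q70195).join q70241).join q70286).join q70331).join q70376).join q70421).join q70465).join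 q70511).join q70557).join q70600).join q70645).join q70690).join q70736).join q70779).join q70824).join q70870).join q70918).join q70962).join q71007).join q71050)
theorem q71097 : Rg TT 71097 71143 := Rg.of (L := c71097) o71097 (by decide +kernel)
theorem q71143 : Rg TT 71143 71189 := Rg.of (L := c71143) o71143 (by decide +kernel)
theorem q71189 : Rg TT 71189 71232 := Rg.of (L := c71189) o71189 (by decide +kernel)
theorem q71232 : Rg TT 71232 71276 := Rg.of (L := c71232) o71232 (by decide +kernel)
theorem q71276 : Rg TT 71276 71322 := Rg.of (L := c71276) o71276 (by decide +kernel)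
theorem q71322 : Rg TT 71322 71368 := Rg.of (L := c71322) o71322 (by decide +kernel)
theorem q71368 : Rg TT 71368 71412 := Rg.of (L := c71368) o71368 (by decide +kernel)
theorem q71412 : Rg TT 71412 71457 := Rg.of (L := c71412) o71412 (by decide +kernel)
theorem q71457 : Rg TT 71457 71501 := Rg.of (L := c71457) o71457 (by decide +kernel)
theorem q71501 : Rg TT 71501 71546 := Rg.of (L := c71501) o71501 (by decide +kernel)
theorem q71546 : Rg TT 71546 71592 := Rg.of (L := c71546) o71546 (by decide +kernel)
theorem q71592 : Rg TT 71592 71636 := Rg.of (L := c71592) o71592 (by decide +kernel)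
theorem q71636 : Rg TT 71636 71682 := Rg.of (L := c71636) o71636 (by decide +kernel)
theorem q71682 : Rg TT 71682 71726 := Rg.of (L := c71682) o71682 (by decide +kernel)
theorem q71726 : Rg TT 71726 71772 := Rg.of (L := c71726) o71726 (by decide +kernel)
theorem q71772 : Rg TT 71772 71816 := Rg.of (L := c71772) o71772 (by decide +kernel)
theorem q71816 : Rg TT 71816 71856 := Rg.of (L := c71816) o71816 (by decide +kernel)
theorem q71856 : Rg TT 71856 71896 := Rg.of (L := c71856) o71856 (by decide +kernel)
theorem q71896 : Rg TT 71896 71936 := Rg.of (L := c71896) o71896 (by decide +kernel)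
theorem q71936 : Rg TT 71936 71975 := Rg.of (L := c71936) o71936 (by decide +kernel)
theorem q71975 : Rg TT 71975 72013 := Rg.of (L := c71975) o71975 (by decide +kernel)
theorem q72013 : Rg TT 72013 72051 := Rg.of (L := c72013) o72013 (by decide +kernel)
theorem q72051 : Rg TT 72051 72089 := Rg.of (L := c72051) o72051 (by decide +kernel)
theorem q72089 : Rg TT 72089 72150 := Rg.of (L := c72089) o72089 (by decide +kernel)
theorem q72150 : Rg TT 72150 72239 := Rg.of (L := c72150) o72150 (by decide +kernel)
theorem q72239 : Rg TT 72239 72329 := Rg.of (L := c72239) o72239 (by decide +kernel)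
theorem q72329 : Rg TT 72329 72409 := Rg.of (L := c72329) o72329 (by decide +kernel)
theorem q72409 : Rg TT 72409 72480 := Rg.of (L := c72409) o72409 (by decide +kernel)
theorem q72480 : Rg TT 72480 72548 := Rg.of (L := c72480) o72480 (by decide +kernel)
theorem q72548 : Rg TT 72548 72618 := Rg.of (L := c72548) o72548 (by decide +kernel)
theorem q72618 : Rg TT 72618 72686 := Rg.of (L := c72618) o72618 (by decide +kernel)
theorem q72686 : Rg TT 72686 72754 := Rg.of (L := c72686) o72686 (by decide +kernel)
theorem q72754 : Rg TT 72754 72824 := Rg.of (L := c72754) o72754 (by decide +kernel)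
theorem q72824 : Rg TT 72824 72892 := Rg.of (L := c72824) o72824 (by decide +kernel)
theorem q72892 : Rg TT 72892 72958 := Rg.of (L := c72892) o72892 (by decide +kernel)
theorem q72958 : Rg TT 72958 73023 := Rg.of (L := c72958) o72958 (by decide +kernel)
theorem q73023 : Rg TT 73023 73085 := Rg.of (L := c73023) o73023 (by decide +kernel)
theorem q73085 : Rg TT 73085 73154 := Rg.of (L := c73085) o73085 (by decide +kernel)
theorem q73154 : Rg TT 73154 73219 := Rg.of (L := c73154) o73154 (by decide +kernel)
theorem q73219 : Rg TT 73219 73284 := Rg.of (L := c73219) o73219 (by decide +kernel)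
theorem q73284 : Rg TT 73284 73351 := Rg.of (L := c73284) o73284 (by decide +kernel)
theorem q73351 : Rg TT 73351 73416 := Rg.of (L := c73351) o73351 (by decide +kernel)
theorem q73416 : Rg TT 73416 73482 := Rg.of (L := c73416) o73416 (by decide +kernel)
theorem q73482 : Rg TT 73482 73550 := Rg.of (L := c73482) o73482 (by decide +kernel)
theorem q73550 : Rg TT 73550 73618 := Rg.of (L := c73550) o73550 (by decide +kernel)
theorem q73618 : Rg TT 73618 73683 := Rg.of (L := c73618) o73618 (by decide +kernel)
theorem q73683 : Rg TT 73683 73752 := Rg.of (L := c73683) o73683 (by decide +kernel)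
theorem q73752 : Rg TT 73752 73820 := Rg.of (L := c73752) o73752 (by decide +kernel)
theorem q73820 : Rg TT 73820 73884 := Rg.of (L := c73820) o73820 (by decide +kernel)
theorem q73884 : Rg TT 73884 73952 := Rg.of (L := c73884) o73884 (by decide +kernel)
theorem q73952 : Rg TT 73952 74016 := Rg.of (L := c73952) o73952 (by decide +kernel)
theorem q74016 : Rg TT 74016 74082 := Rg.of (L := c74016) o74016 (by decide +kernel)
theorem q74082 : Rg TT 74082 74149 := Rg.of (L := c74082) o74082 (by decide +kernel)
theorem q74149 : Rg TT 74149 74212 := Rg.of (L := c74149) o74149 (by decide +kernel)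
theorem q74212 : Rg TT 74212 74277 := Rg.of (L := c74212) o74212 (by decide +kernel)
theorem r17 : Rg TT 71097 74277 := ((((((((((((((((((((((((((((((((((((((((((((((((((((((q71097.join q71143).join q71189).join q71232).join q71276).join q71322).join q71368).join q71412).join q71457).join q71501).join q71546).join q71592).join q71636).join q71682).join q71726).join q71772).join q71816).join q71856).join q71896).join q71936).join q71975).join q72013).join q72051).join q72089).join q72150).join q72239).join q72329).join q72409).join q72480).join q72548).join q72618).join q72686).join q72754).join q72824).join q72892).join q72958).join q73023).join q73085).join q73154).join q73219).join q73284).join q73351).join q73416).join q73482).join q73550).join q73618).join q73683).join q73752).join q73820).join q73884).join q73952).join q74016).join q74082).join q74149).join q74212)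
theorem q74277 : Rg TT 74277 74341 := Rg.of (L := c74277) o74277 (by decide +kernel)
theorem q74341 : Rg TT 74341 74405 := Rg.of (L := c74341) o74341 (by decide +kernel)
theorem q74405 : Rg TT 74405 74471 := Rg.of (L := c74405) o74405 (by decide +kernel)
theorem q74471 : Rg TT 74471 74538 := Rg.of (L := c74471) o74471 (by decide +kernel)
theorem q74538 : Rg TT 74538 74601 := Rg.of (L := c74538) o74538 (by decide +kernel)
theorem q74601 : Rg TT 74601 74666 := Rg.of (L := c74601) o74601 (by decide +kernel)
theorem q74666 : Rg TT 74666 74731 := Rg.of (L := c74666) o74666 (by decide +kernel)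
theorem q74731 : Rg TT 74731 74798 := Rg.of (L := c74731) o74731 (by decide +kernel)
theorem q74798 : Rg TT 74798 74861 := Rg.of (L := c74798) o74798 (by decide +kernel)
theorem q74861 : Rg TT 74861 74923 := Rg.of (L := c74861) o74861 (by decide +kernel)
theorem q74923 : Rg TT 74923 74986 := Rg.of (L := c74923) o74923 (by decide +kernel)
theorem q74986 : Rg TT 74986 75049 := Rg.of (L := c74986) o74986 (by decide +kernel)
theorem q75049 : Rg TT 75049 75111 := Rg.of (L := c75049) o75049 (by decide +kernel)
theorem q75111 : Rg TT 75111 75172 := Rg.of (L := c75111) o75111 (by decide +kernel)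
theorem q75172 : Rg TT 75172 75239 := Rg.of (L := c75172) o75172 (by decide +kernel)
theorem q75239 : Rg TT 75239 75301 := Rg.of (L := c75239) o75239 (by decide +kernel)
theorem q75301 : Rg TT 75301 75364 := Rg.of (L := c75301) o75301 (by decide +kernel)
theorem q75364 : Rg TT 75364 75426 := Rg.of (L := c75364) o75364 (by decide +kernel)
theorem q75426 : Rg TT 75426 75488 := Rg.of (L := c75426) o75426 (by decide +kernel)
theorem q75488 : Rg TT 75488 75553 := Rg.of (L := c75488) o75488 (by decide +kernel)
theorem q75553 : Rg TT 75553 75616 := Rg.of (L := c75553) o75553 (by decide +kernel)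
theorem q75616 : Rg TT 75616 75678 := Rg.of (L := c75616) o75616 (by decide +kernel)
theorem q75678 : Rg TT 75678 75743 := Rg.of (L := c75678) o75678 (by decide +kernel)
theorem q75743 : Rg TT 75743 75808 := Rg.of (L := c75743) o75743 (by decide +kernel)
theorem q75808 : Rg TT 75808 75873 := Rg.of (L := c75808) o75808 (by decide +kernel)
theorem q75873 : Rg TT 75873 75939 := Rg.of (L := c75873) o75873 (by decide +kernel)
theorem q75939 : Rg TT 75939 76003 := Rg.of (L := c75939) o75939 (by decide +kernel)
theorem q76003 : Rg TT 76003 76069 := Rg.of (L := c76003) o76003 (by decide +kernel)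
theorem q76069 : Rg TT 76069 76134 := Rg.of (L := c76069) o76069 (by decide +kernel)
theorem q76134 : Rg TT 76134 76198 := Rg.of (L := c76134) o76134 (by decide +kernel)
theorem q76198 : Rg TT 76198 76263 := Rg.of (L := c76198) o76198 (by decide +kernel)
theorem q76263 : Rg TT 76263 76325 := Rg.of (L := c76263) o76263 (by decide +kernel)
theorem q76325 : Rg TT 76325 76389 := Rg.of (L := c76325) o76325 (by decide +kernel)
theorem q76389 : Rg TT 76389 76453 := Rg.of (L := c76389) o76389 (by decide +kernel)
theorem q76453 : Rg TT 76453 76520 := Rg.of (L := c76453) o76453 (by decide +kernel)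
theorem q76520 : Rg TT 76520 76582 := Rg.of (L := c76520) o76520 (by decide +kernel)
theorem q76582 : Rg TT 76582 76644 := Rg.of (L := c76582) o76582 (by decide +kernel)
theorem q76644 : Rg TT 76644 76706 := Rg.of (L := c76644) o76644 (by decide +kernel)
theorem q76706 : Rg TT 76706 76771 := Rg.of (L := c76706) o76706 (by decide +kernel)
theorem q76771 : Rg TT 76771 76835 := Rg.of (L := c76771) o76771 (by decide +kernel)
theorem q76835 : Rg TT 76835 76899 := Rg.of (L := c76835) o76835 (by decide +kernel)
theorem q76899 : Rg TT 76899 76964 := Rg.of (L := c76899) o76899 (by decide +kernel)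
theorem q76964 : Rg TT 76964 77029 := Rg.of (L := c76964) o76964 (by decide +kernel)
theorem q77029 : Rg TT 77029 77093 := Rg.of (L := c77029) o77029 (by decide +kernel)
theorem q77093 : Rg TT 77093 77157 := Rg.of (L := c77093) o77093 (by decide +kernel)
theorem q77157 : Rg TT 77157 77221 := Rg.of (L := c77157) o77157 (by decide +kernel)
theorem q77221 : Rg TT 77221 77286 := Rg.of (L := c77221) o77221 (by decide +kernel)
theorem q77286 : Rg TT 77286 77353 := Rg.of (L := c77286) o77286 (by decide +kernel)
theorem q77353 : Rg TT 77353 77420 := Rg.of (L := c77353) o77353 (by decide +kernel)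
theorem q77420 : Rg TT 77420 77482 := Rg.of (L := c77420) o77420 (by decide +kernel)
theorem q77482 : Rg TT 77482 77546 := Rg.of (L := c77482) o77482 (by decide +kernel)
theorem q77546 : Rg TT 77546 77609 := Rg.of (L := c77546) o77546 (by decide +kernel)
theorem q77609 : Rg TT 77609 77673 := Rg.of (L := c77609) o77609 (by decide +kernel)
theorem q77673 : Rg TT 77673 77738 := Rg.of (L := c77673) o77673 (by decide +kernel)
theorem q77738 : Rg TT 77738 77803 := Rg.of (L := c77738) o77738 (by decide +kernel)
theorem r18 : Rg TT 74277 77803 := ((((((((((((((((((((((((((((((((((((((((((((((((((((((q74277.join q74341).join q74405).join q74471).join q74538).join q74601).join q74666).join q74731).join q74798).join q74861).join q74923).join q74986).join q75049).join q75111).join q75172).join q75239).join q75301).join q75364).join q75426).join q75488).join q75553).join q75616).join q75678).join q75743).join q75808).join q75873).join q75939).join q76003).join q76069).join q76134).join q76198).join q76263).join q76325).join q76389).join q76453).join q76520).join q76582).join q76644).join q76706).join q76771).join q76835).join q76899).join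 q76964).join q77029).join q77093).join q77157).join q77221).join q77286).join q77353).join q77420).join q77482).join q77546).join q77609).join q77673).join q77738)
theorem q77803 : Rg TT 77803 77864 := Rg.of (L := c77803) o77803 (by decide +kernel)
theorem q77864 : Rg TT 77864 77926 := Rg.of (L := c77864) o77864 (by decide +kernel)
theorem q77926 : Rg TT 77926 77991 := Rg.of (L := c77926) o77926 (by decide +kernel)
theorem q77991 : Rg TT 77991 78056 := Rg.of (L := c77991) o77991 (by decide +kernel)
theorem q78056 : Rg TT 78056 78124 := Rg.of (L := c78056) o78056 (by decide +kernel)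
theorem q78124 : Rg TT 78124 78190 := Rg.of (L := c78124) o78124 (by decide +kernel)
theorem q78190 : Rg TT 78190 78256 := Rg.of (L := c78190) o78190 (by decide +kernel)
theorem q78256 : Rg TT 78256 78321 := Rg.of (L := c78256) o78256 (by decide +kernel)
theorem q78321 : Rg TT 78321 78385 := Rg.of (L := c78321) o78321 (by decide +kernel)
theorem q78385 : Rg TT 78385 78449 := Rg.of (L := c78385) o78385 (by decide +kernel)
theorem q78449 : Rg TT 78449 78513 := Rg.of (L := c78449) o78449 (by decide +kernel)
theorem q78513 : Rg TT 78513 78578 := Rg.of (L := c78513) o78513 (by decide +kernel)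
theorem q78578 : Rg TT 78578 78640 := Rg.of (L := c78578) o78578 (by decide +kernel)
theorem q78640 : Rg TT 78640 78701 := Rg.of (L := c78640) o78640 (by decide +kernel)
theorem q78701 : Rg TT 78701 78767 := Rg.of (L := c78701) o78701 (by decide +kernel)
theorem q78767 : Rg TT 78767 78831 := Rg.of (L := c78767) o78767 (by decide +kernel)
theorem q78831 : Rg TT 78831 78898 := Rg.of (L := c78831) o78831 (by decide +kernel)
theorem q78898 : Rg TT 78898 78963 := Rg.of (L := c78898) o78898 (by decide +kernel)
theorem q78963 : Rg TT 78963 79025 := Rg.of (L := c78963) o78963 (by decide +kernel)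
theorem q79025 : Rg TT 79025 79089 := Rg.of (L := c79025) o79025 (by decide +kernel)
theorem q79089 : Rg TT 79089 79151 := Rg.of (L := c79089) o79089 (by decide +kernel)
theorem q79151 : Rg TT 79151 79215 := Rg.of (L := c79151) o79151 (by decide +kernel)
theorem q79215 : Rg TT 79215 79280 := Rg.of (L := c79215) o79215 (by decide +kernel)
theorem q79280 : Rg TT 79280 79335 := Rg.of (L := c79280) o79280 (by decide +kernel)
theorem q79335 : Rg TT 79335 79383 := Rg.of (L := c79335) o79335 (by decide +kernel)
theorem q79383 : Rg TT 79383 79433 := Rg.of (L := c79383) o79383 (by decide +kernel)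
theorem q79433 : Rg TT 79433 79481 := Rg.of (L := c79433) o79433 (by decide +kernel)
theorem q79481 : Rg TT 79481 79528 := Rg.of (L := c79481) o79481 (by decide +kernel)
theorem q79528 : Rg TT 79528 79578 := Rg.of (L := c79528) o79528 (by decide +kernel)
theorem q79578 : Rg TT 79578 79627 := Rg.of (L := c79578) o79578 (by decide +kernel)
theorem q79627 : Rg TT 79627 79676 := Rg.of (L := c79627) o79627 (by decide +kernel)
theorem q79676 : Rg TT 79676 79723 := Rg.of (L := c79676) o79676 (by decide +kernel)
theorem q79723 : Rg TT 79723 79773 := Rg.of (L := c79723) o79723 (by decide +kernel)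
theorem q79773 : Rg TT 79773 79820 := Rg.of (L := c79773) o79773 (by decide +kernel)
theorem q79820 : Rg TT 79820 79869 := Rg.of (L := c79820) o79820 (by decide +kernel)
theorem q79869 : Rg TT 79869 79917 := Rg.of (L := c79869) o79869 (by decide +kernel)
theorem q79917 : Rg TT 79917 79965 := Rg.of (L := c79917) o79917 (by decide +kernel)
theorem q79965 : Rg TT 79965 80014 := Rg.of (L := c79965) o79965 (by decide +kernel)
theorem q80014 : Rg TT 80014 80062 := Rg.of (L := c80014) o80014 (by decide +kernel)
theorem q80062 : Rg TT 80062 80111 := Rg.of (L := c80062) o80062 (by decide +kernel)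
theorem q80111 : Rg TT 80111 80158 := Rg.of (L := c80111) o80111 (by decide +kernel)
theorem q80158 : Rg TT 80158 80206 := Rg.of (L := c80158) o80158 (by decide +kernel)
theorem q80206 : Rg TT 80206 80252 := Rg.of (L := c80206) o80206 (by decide +kernel)
theorem q80252 : Rg TT 80252 80300 := Rg.of (L := c80252) o80252 (by decide +kernel)
theorem q80300 : Rg TT 80300 80347 := Rg.of (L := c80300) o80300 (by decide +kernel)
theorem q80347 : Rg TT 80347 80396 := Rg.of (L := c80347) o80347 (by decide +kernel)
theorem q80396 : Rg TT 80396 80444 := Rg.of (L := c80396) o80396 (by decide +kernel)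
theorem q80444 : Rg TT 80444 80493 := Rg.of (L := c80444) o80444 (by decide +kernel)
theorem q80493 : Rg TT 80493 80539 := Rg.of (L := c80493) o80493 (by decide +kernel)
theorem q80539 : Rg TT 80539 80586 := Rg.of (L := c80539) o80539 (by decide +kernel)
theorem q80586 : Rg TT 80586 80632 := Rg.of (L := c80586) o80586 (by decide +kernel)
theorem q80632 : Rg TT 80632 80681 := Rg.of (L := c80632) o80632 (by decide +kernel)
theorem q80681 : Rg TT 80681 80730 := Rg.of (L := c80681) o80681 (by decide +kernel)
theorem q80730 : Rg TT 80730 80778 := Rg.of (L := c80730) o80730 (by decide +kernel)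
theorem q80778 : Rg TT 80778 80824 := Rg.of (L := c80778) o80778 (by decide +kernel)
theorem r19 : Rg TT 77803 80824 := ((((((((((((((((((((((((((((((((((((((((((((((((((((((q77803.join q77864).join q77926).join q77991).join q78056).join q78124).join q78190).join q78256).join q78321).join q78385).join q78449).join q78513).join q78578).join q78640).join q78701).join q78767).join q78831).join q78898).join q78963).join q79025).join q79089).join q79151).join q79215).join q79280).join q79335).join q79383).join q79433).join q79481).join q79528).join q79578).join q79627).join q79676).join q79723).join q79773).join q79820).join q79869).join q79917).join q79965).join q80014).join q80062).join q80111).join q80158).join q80206).join q80252).join q80300).join q80347).join q80396).join q80444).join q80493).join q80539).join q80586).join q80632).join q80681).join q80730).join q80778)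
theorem q80824 : Rg TT 80824 80872 := Rg.of (L := c80824) o80824 (by decide +kernel)
theorem q80872 : Rg TT 80872 80919 := Rg.of (L := c80872) o80872 (by decide +kernel)
theorem q80919 : Rg TT 80919 80969 := Rg.of (L := c80919) o80919 (by decide +kernel)
theorem q80969 : Rg TT 80969 81016 := Rg.of (L := c80969) o80969 (by decide +kernel)
theorem q81016 : Rg TT 81016 81064 := Rg.of (L := c81016) o81016 (by decide +kernel)
theorem q81064 : Rg TT 81064 81110 := Rg.of (L := c81064) o81064 (by decide +kernel)
theorem q81110 : Rg TT 81110 81156 := Rg.of (L := c81110) o81110 (by decide +kernel)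
theorem q81156 : Rg TT 81156 81202 := Rg.of (L := c81156) o81156 (by decide +kernel)
theorem q81202 : Rg TT 81202 81248 := Rg.of (L := c81202) o81202 (by decide +kernel)
theorem q81248 : Rg TT 81248 81296 := Rg.of (L := c81248) o81248 (by decide +kernel)
theorem q81296 : Rg TT 81296 81345 := Rg.of (L := c81296) o81296 (by decide +kernel)
theorem q81345 : Rg TT 81345 81393 := Rg.of (L := c81345) o81345 (by decide +kernel)
theorem q81393 : Rg TT 81393 81440 := Rg.of (L := c81393) o81393 (by decide +kernel)
theorem q81440 : Rg TT 81440 81488 := Rg.of (L := c81440) o81440 (by decide +kernel)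
theorem q81488 : Rg TT 81488 81535 := Rg.of (L := c81488) o81488 (by decide +kernel)
theorem q81535 : Rg TT 81535 81581 := Rg.of (L := c81535) o81535 (by decide +kernel)
theorem q81581 : Rg TT 81581 81630 := Rg.of (L := c81581) o81581 (by decide +kernel)
theorem q81630 : Rg TT 81630 81677 := Rg.of (L := c81630) o81630 (by decide +kernel)
theorem q81677 : Rg TT 81677 81724 := Rg.of (L := c81677) o81677 (by decide +kernel)
theorem q81724 : Rg TT 81724 81771 := Rg.of (L := c81724) o81724 (by decide +kernel)
theorem q81771 : Rg TT 81771 81817 := Rg.of (L := c81771) o81771 (by decide +kernel)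
theorem q81817 : Rg TT 81817 81866 := Rg.of (L := c81817) o81817 (by decide +kernel)
theorem q81866 : Rg TT 81866 81913 := Rg.of (L := c81866) o81866 (by decide +kernel)
theorem q81913 : Rg TT 81913 81960 := Rg.of (L := c81913) o81913 (by decide +kernel)
theorem q81960 : Rg TT 81960 82001 := Rg.of (L := c81960) o81960 (by decide +kernel)
theorem q82001 : Rg TT 82001 82041 := Rg.of (L := c82001) o82001 (by decide +kernel)
theorem q82041 : Rg TT 82041 82081 := Rg.of (L := c82041) o82041 (by decide +kernel)
theorem q82081 : Rg TT 82081 82121 := Rg.of (L := c82081) o82081 (by decide +kernel)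
theorem q82121 : Rg TT 82121 82162 := Rg.of (L := c82121) o82121 (by decide +kernel)
theorem q82162 : Rg TT 82162 82202 := Rg.of (L := c82162) o82162 (by decide +kernel)
theorem q82202 : Rg TT 82202 82242 := Rg.of (L := c82202) o82202 (by decide +kernel)
theorem q82242 : Rg TT 82242 82283 := Rg.of (L := c82242) o82242 (by decide +kernel)
theorem q82283 : Rg TT 82283 82322 := Rg.of (L := c82283) o82283 (by decide +kernel)
theorem q82322 : Rg TT 82322 82362 := Rg.of (L := c82322) o82322 (by decide +kernel)
theorem q82362 : Rg TT 82362 82401 := Rg.of (L := c82362) o82362 (by decide +kernel)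
theorem q82401 : Rg TT 82401 82440 := Rg.of (L := c82401) o82401 (by decide +kernel)
theorem q82440 : Rg TT 82440 82480 := Rg.of (L := c82440) o82440 (by decide +kernel)
theorem q82480 : Rg TT 82480 82518 := Rg.of (L := c82480) o82480 (by decide +kernel)
theorem q82518 : Rg TT 82518 82556 := Rg.of (L := c82518) o82518 (by decide +kernel)
theorem q82556 : Rg TT 82556 82595 := Rg.of (L := c82556) o82556 (by decide +kernel)
theorem q82595 : Rg TT 82595 82634 := Rg.of (L := c82595) o82595 (by decide +kernel)
theorem q82634 : Rg TT 82634 82673 := Rg.of (L := c82634) o82634 (by decide +kernel)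
theorem q82673 : Rg TT 82673 82711 := Rg.of (L := c82673) o82673 (by decide +kernel)
theorem q82711 : Rg TT 82711 82748 := Rg.of (L := c82711) o82711 (by decide +kernel)
theorem q82748 : Rg TT 82748 82787 := Rg.of (L := c82748) o82748 (by decide +kernel)
theorem q82787 : Rg TT 82787 82825 := Rg.of (L := c82787) o82787 (by decide +kernel)
theorem q82825 : Rg TT 82825 82863 := Rg.of (L := c82825) o82825 (by decide +kernel)
theorem q82863 : Rg TT 82863 82901 := Rg.of (L := c82863) o82863 (by decide +kernel)
theorem q82901 : Rg TT 82901 82939 := Rg.of (L := c82901) o82901 (by decide +kernel)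
theorem q82939 : Rg TT 82939 82977 := Rg.of (L := c82939) o82939 (by decide +kernel)
theorem q82977 : Rg TT 82977 83015 := Rg.of (L := c82977) o82977 (by decide +kernel)
theorem q83015 : Rg TT 83015 83053 := Rg.of (L := c83015) o83015 (by decide +kernel)
theorem q83053 : Rg TT 83053 83091 := Rg.of (L := c83053) o83053 (by decide +kernel)
theorem q83091 : Rg TT 83091 83129 := Rg.of (L := c83091) o83091 (by decide +kernel)
theorem q83129 : Rg TT 83129 83167 := Rg.of (L := c83129) o83129 (by decide +kernel)
theorem r20 : Rg TT 80824 83167 := ((((((((((((((((((((((((((((((((((((((((((((((((((((((q80824.join q80872).join q80919).join q80969).join q81016).join q81064).join q81110).join q81156).join q81202).join q81248).join q81296).join q81345).join q81393).join q81440).join q81488).join q81535).join q81581).join q81630).join q81677).join q81724).join q81771).join q81817).join q81866).join q81913).join q81960).join q82001).join q82041).join q82081).join q82121).join q82162).join q82202).join q82242).join q82283).join q82322).join q82362).join q82401).join q82440).join q82480).join q82518).join q82556).join q82595).join q82634).join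 q82673).join q82711).join q82748).join q82787).join q82825).join q82863).join q82901).join q82939).join q82977).join q83015).join q83053).join q83091).join q83129)
theorem q83167 : Rg TT 83167 83204 := Rg.of (L := c83167) o83167 (by decide +kernel)
theorem q83204 : Rg TT 83204 83242 := Rg.of (L := c83204) o83204 (by decide +kernel)
theorem q83242 : Rg TT 83242 83279 := Rg.of (L := c83242) o83242 (by decide +kernel)
theorem q83279 : Rg TT 83279 83317 := Rg.of (L := c83279) o83279 (by decide +kernel)
theorem q83317 : Rg TT 83317 83355 := Rg.of (L := c83317) o83317 (by decide +kernel)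
theorem q83355 : Rg TT 83355 83393 := Rg.of (L := c83355) o83355 (by decide +kernel)
theorem q83393 : Rg TT 83393 83430 := Rg.of (L := c83393) o83393 (by decide +kernel)
theorem q83430 : Rg TT 83430 83468 := Rg.of (L := c83430) o83430 (by decide +kernel)
theorem q83468 : Rg TT 83468 83506 := Rg.of (L := c83468) o83468 (by decide +kernel)
theorem q83506 : Rg TT 83506 83545 := Rg.of (L := c83506) o83506 (by decide +kernel)
theorem q83545 : Rg TT 83545 83583 := Rg.of (L := c83545) o83545 (by decide +kernel)
theorem q83583 : Rg TT 83583 83621 := Rg.of (L := c83583) o83583 (by decide +kernel)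
theorem q83621 : Rg TT 83621 83659 := Rg.of (L := c83621) o83621 (by decide +kernel)
theorem q83659 : Rg TT 83659 83697 := Rg.of (L := c83659) o83659 (by decide +kernel)
theorem q83697 : Rg TT 83697 83735 := Rg.of (L := c83697) o83697 (by decide +kernel)
theorem q83735 : Rg TT 83735 83772 := Rg.of (L := c83735) o83735 (by decide +kernel)
theorem q83772 : Rg TT 83772 83811 := Rg.of (L := c83772) o83772 (by decide +kernel)
theorem q83811 : Rg TT 83811 83849 := Rg.of (L := c83811) o83811 (by decide +kernel)
theorem q83849 : Rg TT 83849 83887 := Rg.of (L := c83849) o83849 (by decide +kernel)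
theorem q83887 : Rg TT 83887 83924 := Rg.of (L := c83887) o83887 (by decide +kernel)
theorem q83924 : Rg TT 83924 83962 := Rg.of (L := c83924) o83924 (by decide +kernel)
theorem q83962 : Rg TT 83962 84001 := Rg.of (L := c83962) o83962 (by decide +kernel)
theorem q84001 : Rg TT 84001 84040 := Rg.of (L := c84001) o84001 (by decide +kernel)
theorem q84040 : Rg TT 84040 84079 := Rg.of (L := c84040) o84040 (by decide +kernel)
theorem q84079 : Rg TT 84079 84117 := Rg.of (L := c84079) o84079 (by decide +kernel)
theorem q84117 : Rg TT 84117 84154 := Rg.of (L := c84117) o84117 (by decide +kernel)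
theorem q84154 : Rg TT 84154 84193 := Rg.of (L := c84154) o84154 (by decide +kernel)
theorem q84193 : Rg TT 84193 84230 := Rg.of (L := c84193) o84193 (by decide +kernel)
theorem q84230 : Rg TT 84230 84269 := Rg.of (L := c84230) o84230 (by decide +kernel)
theorem q84269 : Rg TT 84269 84307 := Rg.of (L := c84269) o84269 (by decide +kernel)
theorem q84307 : Rg TT 84307 84344 := Rg.of (L := c84307) o84307 (by decide +kernel)
theorem q84344 : Rg TT 84344 84383 := Rg.of (L := c84344) o84344 (by decide +kernel)
theorem q84383 : Rg TT 84383 84421 := Rg.of (L := c84383) o84383 (by decide +kernel)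
theorem q84421 : Rg TT 84421 84460 := Rg.of (L := c84421) o84421 (by decide +kernel)
theorem q84460 : Rg TT 84460 84499 := Rg.of (L := c84460) o84460 (by decide +kernel)
theorem q84499 : Rg TT 84499 84537 := Rg.of (L := c84499) o84499 (by decide +kernel)
theorem q84537 : Rg TT 84537 84575 := Rg.of (L := c84537) o84537 (by decide +kernel)
theorem q84575 : Rg TT 84575 84614 := Rg.of (L := c84575) o84575 (by decide +kernel)
theorem q84614 : Rg TT 84614 84652 := Rg.of (L := c84614) o84614 (by decide +kernel)
theorem q84652 : Rg TT 84652 84691 := Rg.of (L := c84652) o84652 (by decide +kernel)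
theorem q84691 : Rg TT 84691 84728 := Rg.of (L := c84691) o84691 (by decide +kernel)
theorem q84728 : Rg TT 84728 84765 := Rg.of (L := c84728) o84728 (by decide +kernel)
theorem q84765 : Rg TT 84765 84803 := Rg.of (L := c84765) o84765 (by decide +kernel)
theorem q84803 : Rg TT 84803 84842 := Rg.of (L := c84803) o84803 (by decide +kernel)
theorem q84842 : Rg TT 84842 84880 := Rg.of (L := c84842) o84842 (by decide +kernel)
theorem q84880 : Rg TT 84880 84919 := Rg.of (L := c84880) o84880 (by decide +kernel)
theorem q84919 : Rg TT 84919 84956 := Rg.of (L := c84919) o84919 (by decide +kernel)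
theorem q84956 : Rg TT 84956 85001 := Rg.of (L := c84956) o84956 (by decide +kernel)
theorem q85001 : Rg TT 85001 85068 := Rg.of (L := c85001) o85001 (by decide +kernel)
theorem q85068 : Rg TT 85068 85138 := Rg.of (L := c85068) o85068 (by decide +kernel)
theorem q85138 : Rg TT 85138 85204 := Rg.of (L := c85138) o85138 (by decide +kernel)
theorem q85204 : Rg TT 85204 85273 := Rg.of (L := c85204) o85204 (by decide +kernel)
theorem q85273 : Rg TT 85273 85342 := Rg.of (L := c85273) o85273 (by decide +kernel)
theorem q85342 : Rg TT 85342 85411 := Rg.of (L := c85342) o85342 (by decide +kernel)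
theorem q85411 : Rg TT 85411 85480 := Rg.of (L := c85411) o85411 (by decide +kernel)
theorem r21 : Rg TT 83167 85480 := ((((((((((((((((((((((((((((((((((((((((((((((((((((((q83167.join q83204).join q83242).join q83279).join q83317).join q83355).join q83393).join q83430).join q83468).join q83506).join q83545).join q83583).join q83621).join q83659).join q83697).join q83735).join q83772).join q83811).join q83849).join q83887).join q83924).join q83962).join q84001).join q84040).join q84079).join q84117).join q84154).join q84193).join q84230).join q84269).join q84307).join q84344).join q84383).join q84421).join q84460).join q84499).join q84537).join q84575).join q84614).join q84652).join q84691).join q84728).join q84765).join q84803).join q84842).join q84880).join q84919).join q84956).join q85001).join q85068).join q85138).join q85204).join q85273).join q85342).join q85411)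
theorem q85480 : Rg TT 85480 85551 := Rg.of (L := c85480) o85480 (by decide +kernel)
theorem q85551 : Rg TT 85551 85620 := Rg.of (L := c85551) o85551 (by decide +kernel)
theorem q85620 : Rg TT 85620 85690 := Rg.of (L := c85620) o85620 (by decide +kernel)
theorem q85690 : Rg TT 85690 85759 := Rg.of (L := c85690) o85690 (by decide +kernel)
theorem q85759 : Rg TT 85759 85828 := Rg.of (L := c85759) o85759 (by decide +kernel)
theorem q85828 : Rg TT 85828 85900 := Rg.of (L := c85828) o85828 (by decide +kernel)
theorem q85900 : Rg TT 85900 85963 := Rg.of (L := c85900) o85900 (by decide +kernel)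
theorem q85963 : Rg TT 85963 86018 := Rg.of (L := c85963) o85963 (by decide +kernel)
theorem q86018 : Rg TT 86018 86071 := Rg.of (L := c86018) o86018 (by decide +kernel)
theorem q86071 : Rg TT 86071 86123 := Rg.of (L := c86071) o86071 (by decide +kernel)
theorem q86123 : Rg TT 86123 86177 := Rg.of (L := c86123) o86123 (by decide +kernel)
theorem q86177 : Rg TT 86177 86228 := Rg.of (L := c86177) o86177 (by decide +kernel)
theorem q86228 : Rg TT 86228 86282 := Rg.of (L := c86228) o86228 (by decide +kernel)
theorem q86282 : Rg TT 86282 86333 := Rg.of (L := c86282) o86282 (by decide +kernel)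
theorem q86333 : Rg TT 86333 86386 := Rg.of (L := c86333) o86333 (by decide +kernel)
theorem q86386 : Rg TT 86386 86439 := Rg.of (L := c86386) o86386 (by decide +kernel)
theorem q86439 : Rg TT 86439 86495 := Rg.of (L := c86439) o86439 (by decide +kernel)
theorem q86495 : Rg TT 86495 86548 := Rg.of (L := c86495) o86495 (by decide +kernel)
theorem q86548 : Rg TT 86548 86599 := Rg.of (L := c86548) o86548 (by decide +kernel)
theorem q86599 : Rg TT 86599 86648 := Rg.of (L := c86599) o86599 (by decide +kernel)
theorem q86648 : Rg TT 86648 86701 := Rg.of (L := c86648) o86648 (by decide +kernel)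
theorem q86701 : Rg TT 86701 86751 := Rg.of (L := c86701) o86701 (by decide +kernel)
theorem q86751 : Rg TT 86751 86802 := Rg.of (L := c86751) o86751 (by decide +kernel)
theorem q86802 : Rg TT 86802 86852 := Rg.of (L := c86802) o86802 (by decide +kernel)
theorem q86852 : Rg TT 86852 86901 := Rg.of (L := c86852) o86852 (by decide +kernel)
theorem q86901 : Rg TT 86901 86953 := Rg.of (L := c86901) o86901 (by decide +kernel)
theorem q86953 : Rg TT 86953 87002 := Rg.of (L := c86953) o86953 (by decide +kernel)
theorem q87002 : Rg TT 87002 87050 := Rg.of (L := c87002) o87002 (by decide +kernel)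
theorem q87050 : Rg TT 87050 87100 := Rg.of (L := c87050) o87050 (by decide +kernel)
theorem q87100 : Rg TT 87100 87149 := Rg.of (L := c87100) o87100 (by decide +kernel)
theorem q87149 : Rg TT 87149 87201 := Rg.of (L := c87149) o87149 (by decide +kernel)
theorem q87201 : Rg TT 87201 87251 := Rg.of (L := c87201) o87201 (by decide +kernel)
theorem q87251 : Rg TT 87251 87301 := Rg.of (L := c87251) o87251 (by decide +kernel)
theorem q87301 : Rg TT 87301 87350 := Rg.of (L := c87301) o87301 (by decide +kernel)
theorem q87350 : Rg TT 87350 87399 := Rg.of (L := c87350) o87350 (by decide +kernel)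
theorem q87399 : Rg TT 87399 87448 := Rg.of (L := c87399) o87399 (by decide +kernel)
theorem q87448 : Rg TT 87448 87499 := Rg.of (L := c87448) o87448 (by decide +kernel)
theorem q87499 : Rg TT 87499 87549 := Rg.of (L := c87499) o87499 (by decide +kernel)
theorem q87549 : Rg TT 87549 87602 := Rg.of (L := c87549) o87549 (by decide +kernel)
theorem q87602 : Rg TT 87602 87654 := Rg.of (L := c87602) o87602 (by decide +kernel)
theorem q87654 : Rg TT 87654 87706 := Rg.of (L := c87654) o87654 (by decide +kernel)
theorem q87706 : Rg TT 87706 87757 := Rg.of (L := c87706) o87706 (by decide +kernel)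
theorem q87757 : Rg TT 87757 87807 := Rg.of (L := c87757) o87757 (by decide +kernel)
theorem q87807 : Rg TT 87807 87858 := Rg.of (L := c87807) o87807 (by decide +kernel)
theorem q87858 : Rg TT 87858 87910 := Rg.of (L := c87858) o87858 (by decide +kernel)
theorem q87910 : Rg TT 87910 87962 := Rg.of (L := c87910) o87910 (by decide +kernel)
theorem q87962 : Rg TT 87962 88014 := Rg.of (L := c87962) o87962 (by decide +kernel)
theorem q88014 : Rg TT 88014 88063 := Rg.of (L := c88014) o88014 (by decide +kernel)
theorem q88063 : Rg TT 88063 88112 := Rg.of (L := c88063) o88063 (by decide +kernel)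
theorem q88112 : Rg TT 88112 88164 := Rg.of (L := c88112) o88112 (by decide +kernel)
theorem q88164 : Rg TT 88164 88213 := Rg.of (L := c88164) o88164 (by decide +kernel)
theorem q88213 : Rg TT 88213 88268 := Rg.of (L := c88213) o88213 (by decide +kernel)
theorem q88268 : Rg TT 88268 88317 := Rg.of (L := c88268) o88268 (by decide +kernel)
theorem q88317 : Rg TT 88317 88368 := Rg.of (L := c88317) o88317 (by decide +kernel)
theorem q88368 : Rg TT 88368 88419 := Rg.of (L := c88368) o88368 (by decide +kernel)
theorem r22 : Rg TT 85480 88419 := ((((((((((((((((((((((((((((((((((((((((((((((((((((((q85480.join q85551).join q85620).join q85690).join q85759).join q85828).join q85900).join q85963).join q86018).join q86071).join q86123).join q86177).join q86228).join q86282).join q86333).join q86386).join q86439).join q86495).join q86548).join q86599).join q86648).join q86701).join q86751).join q86802).join q86852).join q86901).join q86953).join q87002).join q87050).join q87100).join q87149).join q87201).join q87251).join q87301).join q87350).join q87399).join q87448).join q87499).join q87549).join q87602).join q87654).join q87706).join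 q87757).join q87807).join q87858).join q87910).join q87962).join q88014).join q88063).join q88112).join q88164).join q88213).join q88268).join q88317).join q88368)
theorem q88419 : Rg TT 88419 88469 := Rg.of (L := c88419) o88419 (by decide +kernel)
theorem q88469 : Rg TT 88469 88519 := Rg.of (L := c88469) o88469 (by decide +kernel)
theorem q88519 : Rg TT 88519 88571 := Rg.of (L := c88519) o88519 (by decide +kernel)
theorem q88571 : Rg TT 88571 88626 := Rg.of (L := c88571) o88571 (by decide +kernel)
theorem q88626 : Rg TT 88626 88677 := Rg.of (L := c88626) o88626 (by decide +kernel)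
theorem q88677 : Rg TT 88677 88729 := Rg.of (L := c88677) o88677 (by decide +kernel)
theorem q88729 : Rg TT 88729 88782 := Rg.of (L := c88729) o88729 (by decide +kernel)
theorem q88782 : Rg TT 88782 88834 := Rg.of (L := c88782) o88782 (by decide +kernel)
theorem q88834 : Rg TT 88834 88886 := Rg.of (L := c88834) o88834 (by decide +kernel)
theorem q88886 : Rg TT 88886 88935 := Rg.of (L := c88886) o88886 (by decide +kernel)
theorem q88935 : Rg TT 88935 88984 := Rg.of (L := c88935) o88935 (by decide +kernel)
theorem q88984 : Rg TT 88984 89033 := Rg.of (L := c88984) o88984 (by decide +kernel)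
theorem q89033 : Rg TT 89033 89082 := Rg.of (L := c89033) o89033 (by decide +kernel)
theorem q89082 : Rg TT 89082 89132 := Rg.of (L := c89082) o89082 (by decide +kernel)
theorem q89132 : Rg TT 89132 89184 := Rg.of (L := c89132) o89132 (by decide +kernel)
theorem q89184 : Rg TT 89184 89238 := Rg.of (L := c89184) o89184 (by decide +kernel)
theorem q89238 : Rg TT 89238 89291 := Rg.of (L := c89238) o89238 (by decide +kernel)
theorem q89291 : Rg TT 89291 89343 := Rg.of (L := c89291) o89291 (by decide +kernel)
theorem q89343 : Rg TT 89343 89396 := Rg.of (L := c89343) o89343 (by decide +kernel)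
theorem q89396 : Rg TT 89396 89448 := Rg.of (L := c89396) o89396 (by decide +kernel)
theorem q89448 : Rg TT 89448 89500 := Rg.of (L := c89448) o89448 (by decide +kernel)
theorem q89500 : Rg TT 89500 89552 := Rg.of (L := c89500) o89500 (by decide +kernel)
theorem q89552 : Rg TT 89552 89607 := Rg.of (L := c89552) o89552 (by decide +kernel)
theorem q89607 : Rg TT 89607 89661 := Rg.of (L := c89607) o89607 (by decide +kernel)
theorem q89661 : Rg TT 89661 89712 := Rg.of (L := c89661) o89661 (by decide +kernel)
theorem q89712 : Rg TT 89712 89764 := Rg.of (L := c89712) o89712 (by decide +kernel)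
theorem q89764 : Rg TT 89764 89817 := Rg.of (L := c89764) o89764 (by decide +kernel)
theorem q89817 : Rg TT 89817 89870 := Rg.of (L := c89817) o89817 (by decide +kernel)
theorem q89870 : Rg TT 89870 89920 := Rg.of (L := c89870) o89870 (by decide +kernel)
theorem q89920 : Rg TT 89920 89971 := Rg.of (L := c89920) o89920 (by decide +kernel)
theorem q89971 : Rg TT 89971 90012 := Rg.of (L := c89971) o89971 (by decide +kernel)
theorem q90012 : Rg TT 90012 90053 := Rg.of (L := c90012) o90012 (by decide +kernel)
theorem q90053 : Rg TT 90053 90096 := Rg.of (L := c90053) o90053 (by decide +kernel)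
theorem q90096 : Rg TT 90096 90140 := Rg.of (L := c90096) o90096 (by decide +kernel)
theorem q90140 : Rg TT 90140 90181 := Rg.of (L := c90140) o90140 (by decide +kernel)
theorem q90181 : Rg TT 90181 90222 := Rg.of (L := c90181) o90181 (by decide +kernel)
theorem q90222 : Rg TT 90222 90264 := Rg.of (L := c90222) o90222 (by decide +kernel)
theorem q90264 : Rg TT 90264 90306 := Rg.of (L := c90264) o90264 (by decide +kernel)
theorem q90306 : Rg TT 90306 90347 := Rg.of (L := c90306) o90306 (by decide +kernel)
theorem q90347 : Rg TT 90347 90390 := Rg.of (L := c90347) o90347 (by decide +kernel)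
theorem q90390 : Rg TT 90390 90430 := Rg.of (L := c90390) o90390 (by decide +kernel)
theorem q90430 : Rg TT 90430 90471 := Rg.of (L := c90430) o90430 (by decide +kernel)
theorem q90471 : Rg TT 90471 90512 := Rg.of (L := c90471) o90471 (by decide +kernel)
theorem q90512 : Rg TT 90512 90553 := Rg.of (L := c90512) o90512 (by decide +kernel)
theorem q90553 : Rg TT 90553 90593 := Rg.of (L := c90553) o90553 (by decide +kernel)
theorem q90593 : Rg TT 90593 90635 := Rg.of (L := c90593) o90593 (by decide +kernel)
theorem q90635 : Rg TT 90635 90675 := Rg.of (L := c90635) o90635 (by decide +kernel)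
theorem q90675 : Rg TT 90675 90715 := Rg.of (L := c90675) o90675 (by decide +kernel)
theorem q90715 : Rg TT 90715 90755 := Rg.of (L := c90715) o90715 (by decide +kernel)
theorem q90755 : Rg TT 90755 90795 := Rg.of (L := c90755) o90755 (by decide +kernel)
theorem q90795 : Rg TT 90795 90834 := Rg.of (L := c90795) o90795 (by decide +kernel)
theorem q90834 : Rg TT 90834 90875 := Rg.of (L := c90834) o90834 (by decide +kernel)
theorem q90875 : Rg TT 90875 90915 := Rg.of (L := c90875) o90875 (by decide +kernel)
theorem q90915 : Rg TT 90915 90955 := Rg.of (L := c90915) o90915 (by decide +kernel)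
theorem q90955 : Rg TT 90955 90995 := Rg.of (L := c90955) o90955 (by decide +kernel)
theorem r23 : Rg TT 88419 90995 := ((((((((((((((((((((((((((((((((((((((((((((((((((((((q88419.join q88469).join q88519).join q88571).join q88626).join q88677).join q88729).join q88782).join q88834).join q88886).join q88935).join q88984).join q89033).join q89082).join q89132).join q89184).join q89238).join q89291).join q89343).join q89396).join q89448).join q89500).join q89552).join q89607).join q89661).join q89712).join q89764).join q89817).join q89870).join q89920).join q89971).join q90012).join q90053).join q90096).join q90140).join q90181).join q90222).join q90264).join q90306).join q90347).join q90390).join q90430).join q90471).join q90512).join q90553).join q90593).join q90635).join q90675).join q90715).join q90755).join q90795).join q90834).join q90875).join q90915).join q90955)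
theorem q90995 : Rg TT 90995 91037 := Rg.of (L := c90995) o90995 (by decide +kernel)
theorem q91037 : Rg TT 91037 91078 := Rg.of (L := c91037) o91037 (by decide +kernel)
theorem q91078 : Rg TT 91078 91119 := Rg.of (L := c91078) o91078 (by decide +kernel)
theorem q91119 : Rg TT 91119 91159 := Rg.of (L := c91119) o91119 (by decide +kernel)
theorem q91159 : Rg TT 91159 91201 := Rg.of (L := c91159) o91159 (by decide +kernel)
theorem q91201 : Rg TT 91201 91240 := Rg.of (L := c91201) o91201 (by decide +kernel)
theorem q91240 : Rg TT 91240 91281 := Rg.of (L := c91240) o91240 (by decide +kernel)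
theorem q91281 : Rg TT 91281 91322 := Rg.of (L := c91281) o91281 (by decide +kernel)
theorem q91322 : Rg TT 91322 91361 := Rg.of (L := c91322) o91322 (by decide +kernel)
theorem q91361 : Rg TT 91361 91401 := Rg.of (L := c91361) o91361 (by decide +kernel)
theorem q91401 : Rg TT 91401 91442 := Rg.of (L := c91401) o91401 (by decide +kernel)
theorem q91442 : Rg TT 91442 91481 := Rg.of (L := c91442) o91442 (by decide +kernel)
theorem q91481 : Rg TT 91481 91520 := Rg.of (L := c91481) o91481 (by decide +kernel)
theorem q91520 : Rg TT 91520 91561 := Rg.of (L := c91520) o91520 (by decide +kernel)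
theorem q91561 : Rg TT 91561 91602 := Rg.of (L := c91561) o91561 (by decide +kernel)
theorem q91602 : Rg TT 91602 91642 := Rg.of (L := c91602) o91602 (by decide +kernel)
theorem q91642 : Rg TT 91642 91681 := Rg.of (L := c91642) o91642 (by decide +kernel)
theorem q91681 : Rg TT 91681 91722 := Rg.of (L := c91681) o91681 (by decide +kernel)
theorem q91722 : Rg TT 91722 91763 := Rg.of (L := c91722) o91722 (by decide +kernel)
theorem q91763 : Rg TT 91763 91803 := Rg.of (L := c91763) o91763 (by decide +kernel)
theorem q91803 : Rg TT 91803 91844 := Rg.of (L := c91803) o91803 (by decide +kernel)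
theorem q91844 : Rg TT 91844 91884 := Rg.of (L := c91844) o91844 (by decide +kernel)
theorem q91884 : Rg TT 91884 91925 := Rg.of (L := c91884) o91884 (by decide +kernel)
theorem q91925 : Rg TT 91925 91967 := Rg.of (L := c91925) o91925 (by decide +kernel)
theorem q91967 : Rg TT 91967 92008 := Rg.of (L := c91967) o91967 (by decide +kernel)
theorem q92008 : Rg TT 92008 92047 := Rg.of (L := c92008) o92008 (by decide +kernel)
theorem q92047 : Rg TT 92047 92087 := Rg.of (L := c92047) o92047 (by decide +kernel)
theorem q92087 : Rg TT 92087 92124 := Rg.of (L := c92087) o92087 (by decide +kernel)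
theorem q92124 : Rg TT 92124 92160 := Rg.of (L := c92124) o92124 (by decide +kernel)
theorem q92160 : Rg TT 92160 92196 := Rg.of (L := c92160) o92160 (by decide +kernel)
theorem q92196 : Rg TT 92196 92231 := Rg.of (L := c92196) o92196 (by decide +kernel)
theorem q92231 : Rg TT 92231 92266 := Rg.of (L := c92231) o92231 (by decide +kernel)
theorem q92266 : Rg TT 92266 92301 := Rg.of (L := c92266) o92266 (by decide +kernel)
theorem q92301 : Rg TT 92301 92336 := Rg.of (L := c92301) o92301 (by decide +kernel)
theorem q92336 : Rg TT 92336 92371 := Rg.of (L := c92336) o92336 (by decide +kernel)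
theorem q92371 : Rg TT 92371 92406 := Rg.of (L := c92371) o92371 (by decide +kernel)
theorem q92406 : Rg TT 92406 92441 := Rg.of (L := c92406) o92406 (by decide +kernel)
theorem q92441 : Rg TT 92441 92476 := Rg.of (L := c92441) o92441 (by decide +kernel)
theorem q92476 : Rg TT 92476 92511 := Rg.of (L := c92476) o92476 (by decide +kernel)
theorem q92511 : Rg TT 92511 92546 := Rg.of (L := c92511) o92511 (by decide +kernel)
theorem q92546 : Rg TT 92546 92582 := Rg.of (L := c92546) o92546 (by decide +kernel)
theorem q92582 : Rg TT 92582 92616 := Rg.of (L := c92582) o92582 (by decide +kernel)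
theorem q92616 : Rg TT 92616 92651 := Rg.of (L := c92616) o92616 (by decide +kernel)
theorem q92651 : Rg TT 92651 92686 := Rg.of (L := c92651) o92651 (by decide +kernel)
theorem q92686 : Rg TT 92686 92720 := Rg.of (L := c92686) o92686 (by decide +kernel)
theorem q92720 : Rg TT 92720 92754 := Rg.of (L := c92720) o92720 (by decide +kernel)
theorem q92754 : Rg TT 92754 92789 := Rg.of (L := c92754) o92754 (by decide +kernel)
theorem q92789 : Rg TT 92789 92822 := Rg.of (L := c92789) o92789 (by decide +kernel)
theorem q92822 : Rg TT 92822 92856 := Rg.of (L := c92822) o92822 (by decide +kernel)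
theorem q92856 : Rg TT 92856 92891 := Rg.of (L := c92856) o92856 (by decide +kernel)
theorem q92891 : Rg TT 92891 92926 := Rg.of (L := c92891) o92891 (by decide +kernel)
theorem q92926 : Rg TT 92926 92961 := Rg.of (L := c92926) o92926 (by decide +kernel)
theorem q92961 : Rg TT 92961 92996 := Rg.of (L := c92961) o92961 (by decide +kernel)
theorem q92996 : Rg TT 92996 93030 := Rg.of (L := c92996) o92996 (by decide +kernel)
theorem q93030 : Rg TT 93030 93064 := Rg.of (L := c93030) o93030 (by decide +kernel)
theorem r24 : Rg TT 90995 93064 := ((((((((((((((((((((((((((((((((((((((((((((((((((((((q90995.join q91037).join q91078).join q91119).join q91159).join q91201).join q91240).join q91281).join q91322).join q91361).join q91401).join q91442).join q91481).join q91520).join q91561).join q91602).join q91642).join q91681).join q91722).join q91763).join q91803).join q91844).join q91884).join q91925).join q91967).join q92008).join q92047).join q92087).join q92124).join q92160).join q92196).join q92231).join q92266).join q92301).join q92336).join q92371).join q92406).join q92441).join q92476).join q92511).join q92546).join q92582).join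 q92616).join q92651).join q92686).join q92720).join q92754).join q92789).join q92822).join q92856).join q92891).join q92926).join q92961).join q92996).join q93030)
theorem q93064 : Rg TT 93064 93099 := Rg.of (L := c93064) o93064 (by decide +kernel)
theorem q93099 : Rg TT 93099 93133 := Rg.of (L := c93099) o93099 (by decide +kernel)
theorem q93133 : Rg TT 93133 93168 := Rg.of (L := c93133) o93133 (by decide +kernel)
theorem q93168 : Rg TT 93168 93203 := Rg.of (L := c93168) o93168 (by decide +kernel)
theorem q93203 : Rg TT 93203 93238 := Rg.of (L := c93203) o93203 (by decide +kernel)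
theorem q93238 : Rg TT 93238 93272 := Rg.of (L := c93238) o93238 (by decide +kernel)
theorem q93272 : Rg TT 93272 93306 := Rg.of (L := c93272) o93272 (by decide +kernel)
theorem q93306 : Rg TT 93306 93340 := Rg.of (L := c93306) o93306 (by decide +kernel)
theorem q93340 : Rg TT 93340 93375 := Rg.of (L := c93340) o93340 (by decide +kernel)
theorem q93375 : Rg TT 93375 93410 := Rg.of (L := c93375) o93375 (by decide +kernel)
theorem q93410 : Rg TT 93410 93444 := Rg.of (L := c93410) o93410 (by decide +kernel)
theorem q93444 : Rg TT 93444 93479 := Rg.of (L := c93444) o93444 (by decide +kernel)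
theorem q93479 : Rg TT 93479 93513 := Rg.of (L := c93479) o93479 (by decide +kernel)
theorem q93513 : Rg TT 93513 93547 := Rg.of (L := c93513) o93513 (by decide +kernel)
theorem q93547 : Rg TT 93547 93581 := Rg.of (L := c93547) o93547 (by decide +kernel)
theorem q93581 : Rg TT 93581 93616 := Rg.of (L := c93581) o93581 (by decide +kernel)
theorem q93616 : Rg TT 93616 93650 := Rg.of (L := c93616) o93616 (by decide +kernel)
theorem q93650 : Rg TT 93650 93685 := Rg.of (L := c93650) o93650 (by decide +kernel)
theorem q93685 : Rg TT 93685 93719 := Rg.of (L := c93685) o93685 (by decide +kernel)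
theorem q93719 : Rg TT 93719 93753 := Rg.of (L := c93719) o93719 (by decide +kernel)
theorem q93753 : Rg TT 93753 93788 := Rg.of (L := c93753) o93753 (by decide +kernel)
theorem q93788 : Rg TT 93788 93822 := Rg.of (L := c93788) o93788 (by decide +kernel)
theorem q93822 : Rg TT 93822 93856 := Rg.of (L := c93822) o93822 (by decide +kernel)
theorem q93856 : Rg TT 93856 93890 := Rg.of (L := c93856) o93856 (by decide +kernel)
theorem q93890 : Rg TT 93890 93925 := Rg.of (L := c93890) o93890 (by decide +kernel)
theorem q93925 : Rg TT 93925 93959 := Rg.of (L := c93925) o93925 (by decide +kernel)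
theorem q93959 : Rg TT 93959 93993 := Rg.of (L := c93959) o93959 (by decide +kernel)
theorem q93993 : Rg TT 93993 94027 := Rg.of (L := c93993) o93993 (by decide +kernel)
theorem q94027 : Rg TT 94027 94062 := Rg.of (L := c94027) o94027 (by decide +kernel)
theorem q94062 : Rg TT 94062 94129 := Rg.of (L := c94062) o94062 (by decide +kernel)
theorem q94129 : Rg TT 94129 94188 := Rg.of (L := c94129) o94129 (by decide +kernel)
theorem q94188 : Rg TT 94188 94246 := Rg.of (L := c94188) o94188 (by decide +kernel)
theorem q94246 : Rg TT 94246 94302 := Rg.of (L := c94246) o94246 (by decide +kernel)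
theorem q94302 : Rg TT 94302 94358 := Rg.of (L := c94302) o94302 (by decide +kernel)
theorem q94358 : Rg TT 94358 94412 := Rg.of (L := c94358) o94358 (by decide +kernel)
theorem q94412 : Rg TT 94412 94470 := Rg.of (L := c94412) o94412 (by decide +kernel)
theorem q94470 : Rg TT 94470 94527 := Rg.of (L := c94470) o94470 (by decide +kernel)
theorem q94527 : Rg TT 94527 94582 := Rg.of (L := c94527) o94527 (by decide +kernel)
theorem q94582 : Rg TT 94582 94638 := Rg.of (L := c94582) o94582 (by decide +kernel)
theorem q94638 : Rg TT 94638 94694 := Rg.of (L := c94638) o94638 (by decide +kernel)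
theorem q94694 : Rg TT 94694 94748 := Rg.of (L := c94694) o94694 (by decide +kernel)
theorem q94748 : Rg TT 94748 94804 := Rg.of (L := c94748) o94748 (by decide +kernel)
theorem q94804 : Rg TT 94804 94860 := Rg.of (L := c94804) o94804 (by decide +kernel)
theorem q94860 : Rg TT 94860 94914 := Rg.of (L := c94860) o94860 (by decide +kernel)
theorem q94914 : Rg TT 94914 94969 := Rg.of (L := c94914) o94914 (by decide +kernel)
theorem q94969 : Rg TT 94969 95027 := Rg.of (L := c94969) o94969 (by decide +kernel)
theorem q95027 : Rg TT 95027 95085 := Rg.of (L := c95027) o95027 (by decide +kernel)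
theorem q95085 : Rg TT 95085 95142 := Rg.of (L := c95085) o95085 (by decide +kernel)
theorem q95142 : Rg TT 95142 95198 := Rg.of (L := c95142) o95142 (by decide +kernel)
theorem q95198 : Rg TT 95198 95258 := Rg.of (L := c95198) o95198 (by decide +kernel)
theorem q95258 : Rg TT 95258 95314 := Rg.of (L := c95258) o95258 (by decide +kernel)
theorem q95314 : Rg TT 95314 95369 := Rg.of (L := c95314) o95314 (by decide +kernel)
theorem q95369 : Rg TT 95369 95424 := Rg.of (L := c95369) o95369 (by decide +kernel)
theorem q95424 : Rg TT 95424 95472 := Rg.of (L := c95424) o95424 (by decide +kernel)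
theorem q95472 : Rg TT 95472 95516 := Rg.of (L := c95472) o95472 (by decide +kernel)
theorem r25 : Rg TT 93064 95516 := ((((((((((((((((((((((((((((((((((((((((((((((((((((((q93064.join q93099).join q93133).join q93168).join q93203).join q93238).join q93272).join q93306).join q93340).join q93375).join q93410).join q93444).join q93479).join q93513).join q93547).join q93581).join q93616).join q93650).join q93685).join q93719).join q93753).join q93788).join q93822).join q93856).join q93890).join q93925).join q93959).join q93993).join q94027).join q94062).join q94129).join q94188).join q94246).join q94302).join q94358).join q94412).join q94470).join q94527).join q94582).join q94638).join q94694).join q94748).join q94804).join q94860).join q94914).join q94969).join q95027).join q95085).join q95142).join q95198).join q95258).join q95314).join q95369).join q95424).join q95472)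
theorem q95516 : Rg TT 95516 95559 := Rg.of (L := c95516) o95516 (by decide +kernel)
theorem q95559 : Rg TT 95559 95602 := Rg.of (L := c95559) o95559 (by decide +kernel)
theorem q95602 : Rg TT 95602 95644 := Rg.of (L := c95602) o95602 (by decide +kernel)
theorem q95644 : Rg TT 95644 95687 := Rg.of (L := c95644) o95644 (by decide +kernel)
theorem q95687 : Rg TT 95687 95726 := Rg.of (L := c95687) o95687 (by decide +kernel)
theorem q95726 : Rg TT 95726 95767 := Rg.of (L := c95726) o95726 (by decide +kernel)
theorem q95767 : Rg TT 95767 95807 := Rg.of (L := c95767) o95767 (by decide +kernel)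
theorem q95807 : Rg TT 95807 95847 := Rg.of (L := c95807) o95807 (by decide +kernel)
theorem q95847 : Rg TT 95847 95888 := Rg.of (L := c95847) o95847 (by decide +kernel)
theorem q95888 : Rg TT 95888 95930 := Rg.of (L := c95888) o95888 (by decide +kernel)
theorem q95930 : Rg TT 95930 95971 := Rg.of (L := c95930) o95930 (by decide +kernel)
theorem q95971 : Rg TT 95971 96014 := Rg.of (L := c95971) o95971 (by decide +kernel)
theorem q96014 : Rg TT 96014 96056 := Rg.of (L := c96014) o96014 (by decide +kernel)
theorem q96056 : Rg TT 96056 96097 := Rg.of (L := c96056) o96056 (by decide +kernel)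
theorem q96097 : Rg TT 96097 96140 := Rg.of (L := c96097) o96097 (by decide +kernel)
theorem q96140 : Rg TT 96140 96183 := Rg.of (L := c96140) o96140 (by decide +kernel)
theorem q96183 : Rg TT 96183 96226 := Rg.of (L := c96183) o96183 (by decide +kernel)
theorem q96226 : Rg TT 96226 96266 := Rg.of (L := c96226) o96226 (by decide +kernel)
theorem q96266 : Rg TT 96266 96307 := Rg.of (L := c96266) o96266 (by decide +kernel)
theorem q96307 : Rg TT 96307 96349 := Rg.of (L := c96307) o96307 (by decide +kernel)
theorem q96349 : Rg TT 96349 96390 := Rg.of (L := c96349) o96349 (by decide +kernel)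
theorem q96390 : Rg TT 96390 96431 := Rg.of (L := c96390) o96390 (by decide +kernel)
theorem q96431 : Rg TT 96431 96472 := Rg.of (L := c96431) o96431 (by decide +kernel)
theorem q96472 : Rg TT 96472 96513 := Rg.of (L := c96472) o96472 (by decide +kernel)
theorem q96513 : Rg TT 96513 96555 := Rg.of (L := c96513) o96513 (by decide +kernel)
theorem q96555 : Rg TT 96555 96596 := Rg.of (L := c96555) o96555 (by decide +kernel)
theorem q96596 : Rg TT 96596 96637 := Rg.of (L := c96596) o96596 (by decide +kernel)
theorem q96637 : Rg TT 96637 96678 := Rg.of (L := c96637) o96637 (by decide +kernel)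
theorem q96678 : Rg TT 96678 96719 := Rg.of (L := c96678) o96678 (by decide +kernel)
theorem q96719 : Rg TT 96719 96762 := Rg.of (L := c96719) o96719 (by decide +kernel)
theorem q96762 : Rg TT 96762 96802 := Rg.of (L := c96762) o96762 (by decide +kernel)
theorem q96802 : Rg TT 96802 96845 := Rg.of (L := c96802) o96802 (by decide +kernel)
theorem q96845 : Rg TT 96845 96883 := Rg.of (L := c96845) o96845 (by decide +kernel)
theorem q96883 : Rg TT 96883 96917 := Rg.of (L := c96883) o96883 (by decide +kernel)
theorem q96917 : Rg TT 96917 96951 := Rg.of (L := c96917) o96917 (by decide +kernel)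
theorem q96951 : Rg TT 96951 96985 := Rg.of (L := c96951) o96951 (by decide +kernel)
theorem q96985 : Rg TT 96985 97019 := Rg.of (L := c96985) o96985 (by decide +kernel)
theorem q97019 : Rg TT 97019 97054 := Rg.of (L := c97019) o97019 (by decide +kernel)
theorem q97054 : Rg TT 97054 97088 := Rg.of (L := c97054) o97054 (by decide +kernel)
theorem q97088 : Rg TT 97088 97122 := Rg.of (L := c97088) o97088 (by decide +kernel)
theorem q97122 : Rg TT 97122 97157 := Rg.of (L := c97122) o97122 (by decide +kernel)
theorem q97157 : Rg TT 97157 97191 := Rg.of (L := c97157) o97157 (by decide +kernel)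
theorem q97191 : Rg TT 97191 97225 := Rg.of (L := c97191) o97191 (by decide +kernel)
theorem q97225 : Rg TT 97225 97259 := Rg.of (L := c97225) o97225 (by decide +kernel)
theorem q97259 : Rg TT 97259 97293 := Rg.of (L := c97259) o97259 (by decide +kernel)
theorem q97293 : Rg TT 97293 97326 := Rg.of (L := c97293) o97293 (by decide +kernel)
theorem q97326 : Rg TT 97326 97360 := Rg.of (L := c97326) o97326 (by decide +kernel)
theorem q97360 : Rg TT 97360 97394 := Rg.of (L := c97360) o97360 (by decide +kernel)
theorem q97394 : Rg TT 97394 97428 := Rg.of (L := c97394) o97394 (by decide +kernel)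
theorem q97428 : Rg TT 97428 97463 := Rg.of (L := c97428) o97428 (by decide +kernel)
theorem q97463 : Rg TT 97463 97497 := Rg.of (L := c97463) o97463 (by decide +kernel)
theorem q97497 : Rg TT 97497 97531 := Rg.of (L := c97497) o97497 (by decide +kernel)
theorem q97531 : Rg TT 97531 97565 := Rg.of (L := c97531) o97531 (by decide +kernel)
theorem q97565 : Rg TT 97565 97599 := Rg.of (L := c97565) o97565 (by decide +kernel)
theorem q97599 : Rg TT 97599 97633 := Rg.of (L := c97599) o97599 (by decide +kernel)
theorem r26 : Rg TT 95516 97633 := ((((((((((((((((((((((((((((((((((((((((((((((((((((((q95516.join q95559).join q95602).join q95644).join q95687).join q95726).join q95767).join q95807).join q95847).join q95888).join q95930).join q95971).join q96014).join q96056).join q96097).join q96140).join q96183).join q96226).join q96266).join q96307).join q96349).join q96390).join q96431).join q96472).join q96513).join q96555).join q96596).join q96637).join q96678).join q96719).join q96762).join q96802).join q96845).join q96883).join q96917).join q96951).join q96985).join q97019).join q97054).join q97088).join q97122).join q97157).join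 q97191).join q97225).join q97259).join q97293).join q97326).join q97360).join q97394).join q97428).join q97463).join q97497).join q97531).join q97565).join q97599)
theorem q97633 : Rg TT 97633 97666 := Rg.of (L := c97633) o97633 (by decide +kernel)
theorem q97666 : Rg TT 97666 97700 := Rg.of (L := c97666) o97666 (by decide +kernel)
theorem q97700 : Rg TT 97700 97734 := Rg.of (L := c97700) o97700 (by decide +kernel)
theorem q97734 : Rg TT 97734 97768 := Rg.of (L := c97734) o97734 (by decide +kernel)
theorem q97768 : Rg TT 97768 97802 := Rg.of (L := c97768) o97768 (by decide +kernel)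
theorem q97802 : Rg TT 97802 97836 := Rg.of (L := c97802) o97802 (by decide +kernel)
theorem q97836 : Rg TT 97836 97871 := Rg.of (L := c97836) o97836 (by decide +kernel)
theorem q97871 : Rg TT 97871 97904 := Rg.of (L := c97871) o97871 (by decide +kernel)
theorem q97904 : Rg TT 97904 97938 := Rg.of (L := c97904) o97904 (by decide +kernel)
theorem q97938 : Rg TT 97938 97972 := Rg.of (L := c97938) o97938 (by decide +kernel)
theorem q97972 : Rg TT 97972 98006 := Rg.of (L := c97972) o97972 (by decide +kernel)
theorem q98006 : Rg TT 98006 98040 := Rg.of (L := c98006) o98006 (by decide +kernel)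
theorem q98040 : Rg TT 98040 98075 := Rg.of (L := c98040) o98040 (by decide +kernel)
theorem q98075 : Rg TT 98075 98108 := Rg.of (L := c98075) o98075 (by decide +kernel)
theorem q98108 : Rg TT 98108 98142 := Rg.of (L := c98108) o98108 (by decide +kernel)
theorem q98142 : Rg TT 98142 98176 := Rg.of (L := c98142) o98142 (by decide +kernel)
theorem q98176 : Rg TT 98176 98209 := Rg.of (L := c98176) o98176 (by decide +kernel)
theorem q98209 : Rg TT 98209 98244 := Rg.of (L := c98209) o98209 (by decide +kernel)
theorem q98244 : Rg TT 98244 98279 := Rg.of (L := c98244) o98244 (by decide +kernel)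
theorem q98279 : Rg TT 98279 98313 := Rg.of (L := c98279) o98279 (by decide +kernel)
theorem q98313 : Rg TT 98313 98348 := Rg.of (L := c98313) o98313 (by decide +kernel)
theorem q98348 : Rg TT 98348 98382 := Rg.of (L := c98348) o98348 (by decide +kernel)
theorem q98382 : Rg TT 98382 98416 := Rg.of (L := c98382) o98382 (by decide +kernel)
theorem q98416 : Rg TT 98416 98451 := Rg.of (L := c98416) o98416 (by decide +kernel)
theorem q98451 : Rg TT 98451 98485 := Rg.of (L := c98451) o98451 (by decide +kernel)
theorem q98485 : Rg TT 98485 98519 := Rg.of (L := c98485) o98485 (by decide +kernel)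
theorem q98519 : Rg TT 98519 98554 := Rg.of (L := c98519) o98519 (by decide +kernel)
theorem q98554 : Rg TT 98554 98588 := Rg.of (L := c98554) o98554 (by decide +kernel)
theorem q98588 : Rg TT 98588 98623 := Rg.of (L := c98588) o98588 (by decide +kernel)
theorem q98623 : Rg TT 98623 98658 := Rg.of (L := c98623) o98623 (by decide +kernel)
theorem q98658 : Rg TT 98658 98692 := Rg.of (L := c98658) o98658 (by decide +kernel)
theorem q98692 : Rg TT 98692 98726 := Rg.of (L := c98692) o98692 (by decide +kernel)
theorem q98726 : Rg TT 98726 98760 := Rg.of (L := c98726) o98726 (by decide +kernel)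
theorem q98760 : Rg TT 98760 98794 := Rg.of (L := c98760) o98760 (by decide +kernel)
theorem q98794 : Rg TT 98794 98828 := Rg.of (L := c98794) o98794 (by decide +kernel)
theorem q98828 : Rg TT 98828 98863 := Rg.of (L := c98828) o98828 (by decide +kernel)
theorem q98863 : Rg TT 98863 98897 := Rg.of (L := c98863) o98863 (by decide +kernel)
theorem q98897 : Rg TT 98897 98932 := Rg.of (L := c98897) o98897 (by decide +kernel)
theorem q98932 : Rg TT 98932 98966 := Rg.of (L := c98932) o98932 (by decide +kernel)
theorem q98966 : Rg TT 98966 99000 := Rg.of (L := c98966) o98966 (by decide +kernel)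
theorem q99000 : Rg TT 99000 99035 := Rg.of (L := c99000) o99000 (by decide +kernel)
theorem q99035 : Rg TT 99035 99069 := Rg.of (L := c99035) o99035 (by decide +kernel)
theorem q99069 : Rg TT 99069 99103 := Rg.of (L := c99069) o99069 (by decide +kernel)
theorem q99103 : Rg TT 99103 99137 := Rg.of (L := c99103) o99103 (by decide +kernel)
theorem q99137 : Rg TT 99137 99171 := Rg.of (L := c99137) o99137 (by decide +kernel)
theorem q99171 : Rg TT 99171 99205 := Rg.of (L := c99171) o99171 (by decide +kernel)
theorem q99205 : Rg TT 99205 99240 := Rg.of (L := c99205) o99205 (by decide +kernel)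
theorem q99240 : Rg TT 99240 99274 := Rg.of (L := c99240) o99240 (by decide +kernel)
theorem q99274 : Rg TT 99274 99309 := Rg.of (L := c99274) o99274 (by decide +kernel)
theorem q99309 : Rg TT 99309 99343 := Rg.of (L := c99309) o99309 (by decide +kernel)
theorem q99343 : Rg TT 99343 99377 := Rg.of (L := c99343) o99343 (by decide +kernel)
theorem q99377 : Rg TT 99377 99412 := Rg.of (L := c99377) o99377 (by decide +kernel)
theorem q99412 : Rg TT 99412 99446 := Rg.of (L := c99412) o99412 (by decide +kernel)
theorem q99446 : Rg TT 99446 99480 := Rg.of (L := c99446) o99446 (by decide +kernel)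
theorem q99480 : Rg TT 99480 99515 := Rg.of (L := c99480) o99480 (by decide +kernel)
theorem r27 : Rg TT 97633 99515 := ((((((((((((((((((((((((((((((((((((((((((((((((((((((q97633.join q97666).join q97700).join q97734).join q97768).join q97802).join q97836).join q97871).join q97904).join q97938).join q97972).join q98006).join q98040).join q98075).join q98108).join q98142).join q98176).join q98209).join q98244).join q98279).join q98313).join q98348).join q98382).join q98416).join q98451).join q98485).join q98519).join q98554).join q98588).join q98623).join q98658).join q98692).join q98726).join q98760).join q98794).join q98828).join q98863).join q98897).join q98932).join q98966).join q99000).join q99035).join q99069).join q99103).join q99137).join q99171).join q99205).join q99240).join q99274).join q99309).join q99343).join q99377).join q99412).join q99446).join q99480)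
theorem q99515 : Rg TT 99515 99549 := Rg.of (L := c99515) o99515 (by decide +kernel)
theorem q99549 : Rg TT 99549 99583 := Rg.of (L := c99549) o99549 (by decide +kernel)
theorem q99583 : Rg TT 99583 99618 := Rg.of (L := c99583) o99583 (by decide +kernel)
theorem q99618 : Rg TT 99618 99652 := Rg.of (L := c99618) o99618 (by decide +kernel)
theorem q99652 : Rg TT 99652 99686 := Rg.of (L := c99652) o99652 (by decide +kernel)
theorem q99686 : Rg TT 99686 99722 := Rg.of (L := c99686) o99686 (by decide +kernel)
theorem q99722 : Rg TT 99722 99755 := Rg.of (L := c99722) o99722 (by decide +kernel)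
theorem q99755 : Rg TT 99755 99789 := Rg.of (L := c99755) o99755 (by decide +kernel)
theorem q99789 : Rg TT 99789 99823 := Rg.of (L := c99789) o99789 (by decide +kernel)
theorem q99823 : Rg TT 99823 99857 := Rg.of (L := c99823) o99823 (by decide +kernel)
theorem q99857 : Rg TT 99857 99892 := Rg.of (L := c99857) o99857 (by decide +kernel)
theorem q99892 : Rg TT 99892 99927 := Rg.of (L := c99892) o99892 (by decide +kernel)
theorem q99927 : Rg TT 99927 99962 := Rg.of (L := c99927) o99927 (by decide +kernel)
theorem q99962 : Rg TT 99962 99997 := Rg.of (L := c99962) o99962 (by decide +kernel)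
theorem q99997 : Rg TT 99997 100030 := Rg.of (L := c99997) o99997 (by decide +kernel)
theorem q100030 : Rg TT 100030 100063 := Rg.of (L := c100030) o100030 (by decide +kernel)
theorem q100063 : Rg TT 100063 100095 := Rg.of (L := c100063) o100063 (by decide +kernel)
theorem q100095 : Rg TT 100095 100128 := Rg.of (L := c100095) o100095 (by decide +kernel)
theorem q100128 : Rg TT 100128 100160 := Rg.of (L := c100128) o100128 (by decide +kernel)
theorem q100160 : Rg TT 100160 100192 := Rg.of (L := c100160) o100160 (by decide +kernel)
theorem q100192 : Rg TT 100192 100224 := Rg.of (L := c100192) o100192 (by decide +kernel)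
theorem q100224 : Rg TT 100224 100256 := Rg.of (L := c100224) o100224 (by decide +kernel)
theorem q100256 : Rg TT 100256 100288 := Rg.of (L := c100256) o100256 (by decide +kernel)
theorem q100288 : Rg TT 100288 100325 := Rg.of (L := c100288) o100288 (by decide +kernel)
theorem q100325 : Rg TT 100325 100383 := Rg.of (L := c100325) o100325 (by decide +kernel)
theorem q100383 : Rg TT 100383 100440 := Rg.of (L := c100383) o100383 (by decide +kernel)
theorem q100440 : Rg TT 100440 100496 := Rg.of (L := c100440) o100440 (by decide +kernel)
theorem q100496 : Rg TT 100496 100543 := Rg.of (L := c100496) o100496 (by decide +kernel)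
theorem q100543 : Rg TT 100543 100589 := Rg.of (L := c100543) o100543 (by decide +kernel)
theorem q100589 : Rg TT 100589 100631 := Rg.of (L := c100589) o100589 (by decide +kernel)
theorem q100631 : Rg TT 100631 100677 := Rg.of (L := c100631) o100631 (by decide +kernel)
theorem q100677 : Rg TT 100677 100721 := Rg.of (L := c100677) o100677 (by decide +kernel)
theorem q100721 : Rg TT 100721 100766 := Rg.of (L := c100721) o100721 (by decide +kernel)
theorem q100766 : Rg TT 100766 100810 := Rg.of (L := c100766) o100766 (by decide +kernel)
theorem q100810 : Rg TT 100810 100854 := Rg.of (L := c100810) o100810 (by decide +kernel)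
theorem q100854 : Rg TT 100854 100901 := Rg.of (L := c100854) o100854 (by decide +kernel)
theorem q100901 : Rg TT 100901 100948 := Rg.of (L := c100901) o100901 (by decide +kernel)
theorem q100948 : Rg TT 100948 100993 := Rg.of (L := c100948) o100948 (by decide +kernel)
theorem q100993 : Rg TT 100993 101036 := Rg.of (L := c100993) o100993 (by decide +kernel)
theorem q101036 : Rg TT 101036 101079 := Rg.of (L := c101036) o101036 (by decide +kernel)
theorem q101079 : Rg TT 101079 101122 := Rg.of (L := c101079) o101079 (by decide +kernel)
theorem q101122 : Rg TT 101122 101168 := Rg.of (L := c101122) o101122 (by decide +kernel)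
theorem q101168 : Rg TT 101168 101211 := Rg.of (L := c101168) o101168 (by decide +kernel)
theorem q101211 : Rg TT 101211 101254 := Rg.of (L := c101211) o101211 (by decide +kernel)
theorem q101254 : Rg TT 101254 101290 := Rg.of (L := c101254) o101254 (by decide +kernel)
theorem q101290 : Rg TT 101290 101326 := Rg.of (L := c101290) o101290 (by decide +kernel)
theorem q101326 : Rg TT 101326 101363 := Rg.of (L := c101326) o101326 (by decide +kernel)
theorem q101363 : Rg TT 101363 101399 := Rg.of (L := c101363) o101363 (by decide +kernel)
theorem q101399 : Rg TT 101399 101435 := Rg.of (L := c101399) o101399 (by decide +kernel)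
theorem q101435 : Rg TT 101435 101470 := Rg.of (L := c101435) o101435 (by decide +kernel)
theorem q101470 : Rg TT 101470 101507 := Rg.of (L := c101470) o101470 (by decide +kernel)
theorem q101507 : Rg TT 101507 101542 := Rg.of (L := c101507) o101507 (by decide +kernel)
theorem q101542 : Rg TT 101542 101577 := Rg.of (L := c101542) o101542 (by decide +kernel)
theorem q101577 : Rg TT 101577 101615 := Rg.of (L := c101577) o101577 (by decide +kernel)
theorem q101615 : Rg TT 101615 101652 := Rg.of (L := c101615) o101615 (by decide +kernel)
theorem r28 : Rg TT 99515 101652 := ((((((((((((((((((((((((((((((((((((((((((((((((((((((q99515.join q99549).join q99583).join q99618).join q99652).join q99686).join q99722).join q99755).join q99789).join q99823).join q99857).join q99892).join q99927).join q99962).join q99997).join q100030).join q100063).join q100095).join q100128).join q100160).join q100192).join q100224).join q100256).join q100288).join q100325).join q100383).join q100440).join q100496).join q100543).join q100589).join q100631).join q100677).join q100721).join q100766).join q100810).join q100854).join q100901).join q100948).join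 q100993).join q101036).join q101079).join q101122).join q101168).join q101211).join q101254).join q101290).join q101326).join q101363).join q101399).join q101435).join q101470).join q101507).join q101542).join q101577).join q101615)
theorem q101652 : Rg TT 101652 101687 := Rg.of (L := c101652) o101652 (by decide +kernel)
theorem q101687 : Rg TT 101687 101723 := Rg.of (L := c101687) o101687 (by decide +kernel)
theorem q101723 : Rg TT 101723 101758 := Rg.of (L := c101723) o101723 (by decide +kernel)
theorem q101758 : Rg TT 101758 101794 := Rg.of (L := c101758) o101758 (by decide +kernel)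
theorem q101794 : Rg TT 101794 101830 := Rg.of (L := c101794) o101794 (by decide +kernel)
theorem q101830 : Rg TT 101830 101866 := Rg.of (L := c101830) o101830 (by decide +kernel)
theorem q101866 : Rg TT 101866 101901 := Rg.of (L := c101866) o101866 (by decide +kernel)
theorem q101901 : Rg TT 101901 101937 := Rg.of (L := c101901) o101901 (by decide +kernel)
theorem q101937 : Rg TT 101937 101973 := Rg.of (L := c101937) o101937 (by decide +kernel)
theorem q101973 : Rg TT 101973 102009 := Rg.of (L := c101973) o101973 (by decide +kernel)
theorem q102009 : Rg TT 102009 102045 := Rg.of (L := c102009) o102009 (by decide +kernel)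
theorem q102045 : Rg TT 102045 102079 := Rg.of (L := c102045) o102045 (by decide +kernel)
theorem q102079 : Rg TT 102079 102115 := Rg.of (L := c102079) o102079 (by decide +kernel)
theorem q102115 : Rg TT 102115 102153 := Rg.of (L := c102115) o102115 (by decide +kernel)
theorem q102153 : Rg TT 102153 102191 := Rg.of (L := c102153) o102153 (by decide +kernel)
theorem q102191 : Rg TT 102191 102228 := Rg.of (L := c102191) o102191 (by decide +kernel)
theorem q102228 : Rg TT 102228 102264 := Rg.of (L := c102228) o102228 (by decide +kernel)
theorem q102264 : Rg TT 102264 102297 := Rg.of (L := c102264) o102264 (by decide +kernel)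
theorem q102297 : Rg TT 102297 102329 := Rg.of (L := c102297) o102297 (by decide +kernel)
theorem q102329 : Rg TT 102329 102360 := Rg.of (L := c102329) o102329 (by decide +kernel)
theorem q102360 : Rg TT 102360 102392 := Rg.of (L := c102360) o102360 (by decide +kernel)
theorem q102392 : Rg TT 102392 102424 := Rg.of (L := c102392) o102392 (by decide +kernel)
theorem q102424 : Rg TT 102424 102456 := Rg.of (L := c102424) o102424 (by decide +kernel)
theorem q102456 : Rg TT 102456 102487 := Rg.of (L := c102456) o102456 (by decide +kernel)
theorem q102487 : Rg TT 102487 102518 := Rg.of (L := c102487) o102487 (by decide +kernel)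
theorem q102518 : Rg TT 102518 102550 := Rg.of (L := c102518) o102518 (by decide +kernel)
theorem q102550 : Rg TT 102550 102582 := Rg.of (L := c102550) o102550 (by decide +kernel)
theorem q102582 : Rg TT 102582 102614 := Rg.of (L := c102582) o102582 (by decide +kernel)
theorem q102614 : Rg TT 102614 102646 := Rg.of (L := c102614) o102614 (by decide +kernel)
theorem q102646 : Rg TT 102646 102677 := Rg.of (L := c102646) o102646 (by decide +kernel)
theorem q102677 : Rg TT 102677 102708 := Rg.of (L := c102677) o102677 (by decide +kernel)
theorem q102708 : Rg TT 102708 102740 := Rg.of (L := c102708) o102708 (by decide +kernel)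
theorem q102740 : Rg TT 102740 102772 := Rg.of (L := c102740) o102740 (by decide +kernel)
theorem q102772 : Rg TT 102772 102803 := Rg.of (L := c102772) o102772 (by decide +kernel)
theorem q102803 : Rg TT 102803 102834 := Rg.of (L := c102803) o102803 (by decide +kernel)
theorem q102834 : Rg TT 102834 102866 := Rg.of (L := c102834) o102834 (by decide +kernel)
theorem q102866 : Rg TT 102866 102897 := Rg.of (L := c102866) o102866 (by decide +kernel)
theorem q102897 : Rg TT 102897 102928 := Rg.of (L := c102897) o102897 (by decide +kernel)
theorem q102928 : Rg TT 102928 102959 := Rg.of (L := c102928) o102928 (by decide +kernel)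
theorem q102959 : Rg TT 102959 102990 := Rg.of (L := c102959) o102959 (by decide +kernel)
theorem q102990 : Rg TT 102990 103022 := Rg.of (L := c102990) o102990 (by decide +kernel)
theorem q103022 : Rg TT 103022 103053 := Rg.of (L := c103022) o103022 (by decide +kernel)
theorem q103053 : Rg TT 103053 103084 := Rg.of (L := c103053) o103053 (by decide +kernel)
theorem q103084 : Rg TT 103084 103116 := Rg.of (L := c103084) o103084 (by decide +kernel)
theorem q103116 : Rg TT 103116 103147 := Rg.of (L := c103116) o103116 (by decide +kernel)
theorem q103147 : Rg TT 103147 103179 := Rg.of (L := c103147) o103147 (by decide +kernel)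
theorem q103179 : Rg TT 103179 103211 := Rg.of (L := c103179) o103179 (by decide +kernel)
theorem q103211 : Rg TT 103211 103243 := Rg.of (L := c103211) o103211 (by decide +kernel)
theorem q103243 : Rg TT 103243 103274 := Rg.of (L := c103243) o103243 (by decide +kernel)
theorem q103274 : Rg TT 103274 103305 := Rg.of (L := c103274) o103274 (by decide +kernel)
theorem q103305 : Rg TT 103305 103337 := Rg.of (L := c103305) o103305 (by decide +kernel)
theorem q103337 : Rg TT 103337 103369 := Rg.of (L := c103337) o103337 (by decide +kernel)
theorem q103369 : Rg TT 103369 103401 := Rg.of (L := c103369) o103369 (by decide +kernel)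
theorem q103401 : Rg TT 103401 103432 := Rg.of (L := c103401) o103401 (by decide +kernel)
theorem q103432 : Rg TT 103432 103464 := Rg.of (L := c103432) o103432 (by decide +kernel)
theorem r29 : Rg TT 101652 103464 := ((((((((((((((((((((((((((((((((((((((((((((((((((((((q101652.join q101687).join q101723).join q101758).join q101794).join q101830).join q101866).join q101901).join q101937).join q101973).join q102009).join q102045).join q102079).join q102115).join q102153).join q102191).join q102228).join q102264).join q102297).join q102329).join q102360).join q102392).join q102424).join q102456).join q102487).join q102518).join q102550).join q102582).join q102614).join q102646).join q102677).join q102708).join q102740).join q102772).join q102803).join q102834).join q102866).join q102897).join q102928).join q102959).join q102990).join q103022).join q103053).join q103084).join q103116).join q103147).join q103179).join q103211).join q103243).join q103274).join q103305).join q103337).join q103369).join q103401).join q103432)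
theorem q103464 : Rg TT 103464 103496 := Rg.of (L := c103464) o103464 (by decide +kernel)
theorem q103496 : Rg TT 103496 103528 := Rg.of (L := c103496) o103496 (by decide +kernel)
theorem q103528 : Rg TT 103528 103560 := Rg.of (L := c103528) o103528 (by decide +kernel)
theorem q103560 : Rg TT 103560 103591 := Rg.of (L := c103560) o103560 (by decide +kernel)
theorem q103591 : Rg TT 103591 103622 := Rg.of (L := c103591) o103591 (by decide +kernel)
theorem q103622 : Rg TT 103622 103654 := Rg.of (L := c103622) o103622 (by decide +kernel)
theorem q103654 : Rg TT 103654 103685 := Rg.of (L := c103654) o103654 (by decide +kernel)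
theorem q103685 : Rg TT 103685 103716 := Rg.of (L := c103685) o103685 (by decide +kernel)
theorem q103716 : Rg TT 103716 103747 := Rg.of (L := c103716) o103716 (by decide +kernel)
theorem q103747 : Rg TT 103747 103798 := Rg.of (L := c103747) o103747 (by decide +kernel)
theorem q103798 : Rg TT 103798 103844 := Rg.of (L := c103798) o103798 (by decide +kernel)
theorem q103844 : Rg TT 103844 103881 := Rg.of (L := c103844) o103844 (by decide +kernel)
theorem q103881 : Rg TT 103881 103920 := Rg.of (L := c103881) o103881 (by decide +kernel)
theorem q103920 : Rg TT 103920 103957 := Rg.of (L := c103920) o103920 (by decide +kernel)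
theorem q103957 : Rg TT 103957 103995 := Rg.of (L := c103957) o103957 (by decide +kernel)
theorem q103995 : Rg TT 103995 104033 := Rg.of (L := c103995) o103995 (by decide +kernel)
theorem q104033 : Rg TT 104033 104071 := Rg.of (L := c104033) o104033 (by decide +kernel)
theorem q104071 : Rg TT 104071 104108 := Rg.of (L := c104071) o104071 (by decide +kernel)
theorem q104108 : Rg TT 104108 104144 := Rg.of (L := c104108) o104108 (by decide +kernel)
theorem q104144 : Rg TT 104144 104181 := Rg.of (L := c104144) o104144 (by decide +kernel)
theorem q104181 : Rg TT 104181 104217 := Rg.of (L := c104181) o104181 (by decide +kernel)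
theorem q104217 : Rg TT 104217 104255 := Rg.of (L := c104217) o104217 (by decide +kernel)
theorem q104255 : Rg TT 104255 104290 := Rg.of (L := c104255) o104255 (by decide +kernel)
theorem q104290 : Rg TT 104290 104326 := Rg.of (L := c104290) o104290 (by decide +kernel)
theorem q104326 : Rg TT 104326 104358 := Rg.of (L := c104326) o104326 (by decide +kernel)
theorem q104358 : Rg TT 104358 104390 := Rg.of (L := c104358) o104358 (by decide +kernel)
theorem q104390 : Rg TT 104390 104421 := Rg.of (L := c104390) o104390 (by decide +kernel)
theorem q104421 : Rg TT 104421 104453 := Rg.of (L := c104421) o104421 (by decide +kernel)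
theorem q104453 : Rg TT 104453 104485 := Rg.of (L := c104453) o104453 (by decide +kernel)
theorem q104485 : Rg TT 104485 104516 := Rg.of (L := c104485) o104485 (by decide +kernel)
theorem q104516 : Rg TT 104516 104547 := Rg.of (L := c104516) o104516 (by decide +kernel)
theorem q104547 : Rg TT 104547 104578 := Rg.of (L := c104547) o104547 (by decide +kernel)
theorem q104578 : Rg TT 104578 104609 := Rg.of (L := c104578) o104578 (by decide +kernel)
theorem q104609 : Rg TT 104609 104641 := Rg.of (L := c104609) o104609 (by decide +kernel)
theorem q104641 : Rg TT 104641 104672 := Rg.of (L := c104641) o104641 (by decide +kernel)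
theorem q104672 : Rg TT 104672 104703 := Rg.of (L := c104672) o104672 (by decide +kernel)
theorem q104703 : Rg TT 104703 104733 := Rg.of (L := c104703) o104703 (by decide +kernel)
theorem q104733 : Rg TT 104733 104764 := Rg.of (L := c104733) o104733 (by decide +kernel)
theorem q104764 : Rg TT 104764 104794 := Rg.of (L := c104764) o104764 (by decide +kernel)
theorem q104794 : Rg TT 104794 104825 := Rg.of (L := c104794) o104794 (by decide +kernel)
theorem q104825 : Rg TT 104825 104856 := Rg.of (L := c104825) o104825 (by decide +kernel)
theorem q104856 : Rg TT 104856 104887 := Rg.of (L := c104856) o104856 (by decide +kernel)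
theorem q104887 : Rg TT 104887 104919 := Rg.of (L := c104887) o104887 (by decide +kernel)
theorem q104919 : Rg TT 104919 104950 := Rg.of (L := c104919) o104919 (by decide +kernel)
theorem q104950 : Rg TT 104950 104980 := Rg.of (L := c104950) o104950 (by decide +kernel)
theorem q104980 : Rg TT 104980 105011 := Rg.of (L := c104980) o104980 (by decide +kernel)
theorem q105011 : Rg TT 105011 105042 := Rg.of (L := c105011) o105011 (by decide +kernel)
theorem q105042 : Rg TT 105042 105073 := Rg.of (L := c105042) o105042 (by decide +kernel)
theorem q105073 : Rg TT 105073 105104 := Rg.of (L := c105073) o105073 (by decide +kernel)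
theorem q105104 : Rg TT 105104 105135 := Rg.of (L := c105104) o105104 (by decide +kernel)
theorem q105135 : Rg TT 105135 105166 := Rg.of (L := c105135) o105135 (by decide +kernel)
theorem q105166 : Rg TT 105166 105197 := Rg.of (L := c105166) o105166 (by decide +kernel)
theorem q105197 : Rg TT 105197 105227 := Rg.of (L := c105197) o105197 (by decide +kernel)
theorem q105227 : Rg TT 105227 105257 := Rg.of (L := c105227) o105227 (by decide +kernel)
theorem q105257 : Rg TT 105257 105287 := Rg.of (L := c105257) o105257 (by decide +kernel)
theorem r30 : Rg TT 103464 105287 := ((((((((((((((((((((((((((((((((((((((((((((((((((((((q103464.join q103496).join q103528).join q103560).join q103591).join q103622).join q103654).join q103685).join q103716).join q103747).join q103798).join q103844).join q103881).join q103920).join q103957).join q103995).join q104033).join q104071).join q104108).join q104144).join q104181).join q104217).join q104255).join q104290).join q104326).join q104358).join q104390).join q104421).join q104453).join q104485).join q104516).join q104547).join q104578).join q104609).join q104641).join q104672).join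 q104703).join q104733).join q104764).join q104794).join q104825).join q104856).join q104887).join q104919).join q104950).join q104980).join q105011).join q105042).join q105073).join q105104).join q105135).join q105166).join q105197).join q105227).join q105257)
theorem q105287 : Rg TT 105287 105317 := Rg.of (L := c105287) o105287 (by decide +kernel)
theorem q105317 : Rg TT 105317 105347 := Rg.of (L := c105317) o105317 (by decide +kernel)
theorem q105347 : Rg TT 105347 105377 := Rg.of (L := c105347) o105347 (by decide +kernel)
theorem q105377 : Rg TT 105377 105408 := Rg.of (L := c105377) o105377 (by decide +kernel)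
theorem q105408 : Rg TT 105408 105439 := Rg.of (L := c105408) o105408 (by decide +kernel)
theorem q105439 : Rg TT 105439 105475 := Rg.of (L := c105439) o105439 (by decide +kernel)
theorem q105475 : Rg TT 105475 105516 := Rg.of (L := c105475) o105475 (by decide +kernel)
theorem q105516 : Rg TT 105516 105555 := Rg.of (L := c105516) o105516 (by decide +kernel)
theorem q105555 : Rg TT 105555 105588 := Rg.of (L := c105555) o105555 (by decide +kernel)
theorem q105588 : Rg TT 105588 105619 := Rg.of (L := c105588) o105588 (by decide +kernel)
theorem q105619 : Rg TT 105619 105651 := Rg.of (L := c105619) o105619 (by decide +kernel)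
theorem q105651 : Rg TT 105651 105683 := Rg.of (L := c105651) o105651 (by decide +kernel)
theorem q105683 : Rg TT 105683 105714 := Rg.of (L := c105683) o105683 (by decide +kernel)
theorem q105714 : Rg TT 105714 105745 := Rg.of (L := c105714) o105714 (by decide +kernel)
theorem q105745 : Rg TT 105745 105778 := Rg.of (L := c105745) o105745 (by decide +kernel)
theorem q105778 : Rg TT 105778 105810 := Rg.of (L := c105778) o105778 (by decide +kernel)
theorem q105810 : Rg TT 105810 105843 := Rg.of (L := c105810) o105810 (by decide +kernel)
theorem q105843 : Rg TT 105843 105875 := Rg.of (L := c105843) o105843 (by decide +kernel)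
theorem q105875 : Rg TT 105875 105906 := Rg.of (L := c105875) o105875 (by decide +kernel)
theorem q105906 : Rg TT 105906 105935 := Rg.of (L := c105906) o105906 (by decide +kernel)
theorem q105935 : Rg TT 105935 105964 := Rg.of (L := c105935) o105935 (by decide +kernel)
theorem q105964 : Rg TT 105964 105993 := Rg.of (L := c105964) o105964 (by decide +kernel)
theorem q105993 : Rg TT 105993 106022 := Rg.of (L := c105993) o105993 (by decide +kernel)
theorem q106022 : Rg TT 106022 106051 := Rg.of (L := c106022) o106022 (by decide +kernel)
theorem q106051 : Rg TT 106051 106080 := Rg.of (L := c106051) o106051 (by decide +kernel)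
theorem q106080 : Rg TT 106080 106109 := Rg.of (L := c106080) o106080 (by decide +kernel)
theorem q106109 : Rg TT 106109 106138 := Rg.of (L := c106109) o106109 (by decide +kernel)
theorem q106138 : Rg TT 106138 106167 := Rg.of (L := c106138) o106138 (by decide +kernel)
theorem q106167 : Rg TT 106167 106198 := Rg.of (L := c106167) o106167 (by decide +kernel)
theorem q106198 : Rg TT 106198 106231 := Rg.of (L := c106198) o106198 (by decide +kernel)
theorem q106231 : Rg TT 106231 106263 := Rg.of (L := c106231) o106231 (by decide +kernel)
theorem q106263 : Rg TT 106263 106297 := Rg.of (L := c106263) o106263 (by decide +kernel)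
theorem q106297 : Rg TT 106297 106326 := Rg.of (L := c106297) o106297 (by decide +kernel)
theorem q106326 : Rg TT 106326 106355 := Rg.of (L := c106326) o106326 (by decide +kernel)
theorem q106355 : Rg TT 106355 106383 := Rg.of (L := c106355) o106355 (by decide +kernel)
theorem q106383 : Rg TT 106383 106412 := Rg.of (L := c106383) o106383 (by decide +kernel)
theorem q106412 : Rg TT 106412 106440 := Rg.of (L := c106412) o106412 (by decide +kernel)
theorem q106440 : Rg TT 106440 106470 := Rg.of (L := c106440) o106440 (by decide +kernel)
theorem q106470 : Rg TT 106470 106499 := Rg.of (L := c106470) o106470 (by decide +kernel)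
theorem q106499 : Rg TT 106499 106528 := Rg.of (L := c106499) o106499 (by decide +kernel)
theorem q106528 : Rg TT 106528 106554 := Rg.of (L := c106528) o106528 (by decide +kernel)
theorem q106554 : Rg TT 106554 106559 := Rg.of (L := c106554) o106554 (by decide +kernel)
theorem r31 : Rg TT 105287 106559 := (((((((((((((((((((((((((((((((((((((((((q105287.join q105317).join q105347).join q105377).join q105408).join q105439).join q105475).join q105516).join q105555).join q105588).join q105619).join q105651).join q105683).join q105714).join q105745).join q105778).join q105810).join q105843).join q105875).join q105906).join q105935).join q105964).join q105993).join q106022).join q106051).join q106080).join q106109).join q106138).join q106167).join q106198).join q106231).join q106263).join q106297).join q106326).join q106355).join q106383).join q106412).join q106440).join q106470).join q106499).join q106528).join q106554)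
/-- every shape of the table is a Breaker win -/
theorem allT : ∀ id < 106559, Pool.Agent.Helper582.Cube.BW (TH (look TT id)) := Rg.all (((((((((((((((((((((((((((((((r0.join r1).join r2).join r3).join r4).join r5).join r6).join r7).join r8).join r9).join r10).join r11).join r12).join r13).join r14).join r15).join r16).join r17).join r18).join r19).join r20).join r21).join r22).join r23).join r24).join r25).join r26).join r27).join r28).join r29).join r30).join r31)

end Pool.Agent.H425R2
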