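import Pool.Agent.H425R2.Fin
import Pool.Agent.H425R2.Sub
import Pool.Agent.H425R2.TAll
import Pool.Agent.H425R2.Sym
import Pool.Agent.H425R2.Fams
import Pool.Agent.H425R2.L0
import Pool.Agent.H425R2.L1
import Pool.Agent.H425R2.L2
import Pool.Agent.H425R2.L3
import Pool.Agent.H425R2.L4
import Pool.Agent.H425R2.L5
import Pool.Agent.H425R2.L6
import Pool.Agent.H425R2.L7
import Pool.Agent.H425R2.L8
import Pool.Agent.H425R2.L9
import Pool.Agent.H425R2.L10
import Pool.Agent.H425R2.L11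
import Pool.Agent.H425R2.L12
import Pool.Agent.H425R2.L13
import Pool.Agent.H425R2.L14
import Pool.Agent.H425R2.L15
import Pool.Agent.H425R2.L16
import Pool.Agent.H425R2.L17
import Pool.Agent.H425R2.L18
import Pool.Agent.H425R2.L19
import Pool.Agent.H425R2.I0
import Pool.Agent.H425R2.I1
import Pool.Agent.H425R2.I2
import Pool.Agent.H425R2.I3
import Pool.Agent.H425R2.C0
import Pool.Agent.H425R2.C1
import Pool.Agent.H425R2.C2
import Pool.Agent.H425R2.C3
import Pool.Agent.H425R2.C4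
import Pool.Agent.H425R2.C5
import Pool.Agent.H425R2.C6
import Pool.Agent.H425R2.C7
import Pool.Agent.H425R2.X12
import Pool.Agent.H425R2.X0
import Pool.Agent.H425R2.X2
import Pool.Agent.H425R2.X7
import Pool.Agent.H425R2.X1

set_option autoImplicit false
set_option maxRecDepth 100000

namespace Pool.Agent.H425R2

open Pool.Agent.Helper582.Cube

theorem s0_0 : Solved (nat_lit 0xa0000000011) u0_0 :=
  Solved.of allT [0, 4, 41, 43] (by decide) (by decide +kernel) l0_0
theorem s0_1 : Solved (nat_lit 0xa0000000011) u0_1 :=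
  Solved.of allT [0, 4, 41, 43] (by decide) (by decide +kernel) l0_1
theorem s0_2 : Solved (nat_lit 0xa0000000011) u0_2 :=
  Solved.of allT [0, 4, 41, 43] (by decide) (by decide +kernel) l0_2
theorem s0_3 : Solved (nat_lit 0xa0000000011) u0_3 :=
  Solved.of allT [0, 4, 41, 43] (by decide) (by decide +kernel) l0_3
theorem s0_4 : Solved (nat_lit 0xa0000000011) u0_4 :=
  Solved.of allT [0, 4, 41, 43] (by decide) (by decide +kernel) l0_4
theorem s0_5 : Solved (nat_lit 0xa0000000011) u0_5 :=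
  Solved.of allT [0, 4, 41, 43] (by decide) (by decide +kernel) l0_5
theorem s0_6 : Solved (nat_lit 0xa0000000011) u0_6 :=
  Solved.of allT [0, 4, 41, 43] (by decide) (by decide +kernel) l0_6
theorem s0_7 : Solved (nat_lit 0xa0000000011) u0_7 :=
  Solved.of allT [0, 4, 41, 43] (by decide) (by decide +kernel) l0_7
theorem s0_8 : Solved (nat_lit 0xa0000000011) u0_8 :=
  Solved.of allT [0, 4, 41, 43] (by decide) (by decide +kernel) l0_8
theorem s0_9 : Solved (nat_lit 0xa0000000011) u0_9 :=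
  Solved.of allT [0, 4, 41, 43] (by decide) (by decide +kernel) l0_9
theorem s0_10 : Solved (nat_lit 0xa0000000011) u0_10 :=
  Solved.of allT [0, 4, 41, 43] (by decide) (by decide +kernel) l0_10
theorem s0_11 : Solved (nat_lit 0xa0000000011) u0_11 :=
  Solved.of allT [0, 4, 41, 43] (by decide) (by decide +kernel) l0_11
theorem s0_12 : Solved (nat_lit 0xa0000000011) u0_12 :=
  Solved.of allT [0, 4, 41, 43] (by decide) (by decide +kernel) l0_12
theorem s0_13 : Solved (nat_lit 0xa0000000011) u0_13 :=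
  Solved.of allT [0, 4, 41, 43] (by decide) (by decide +kernel) l0_13
theorem s0_14 : Solved (nat_lit 0xa0000000011) u0_14 :=
  Solved.of allT [0, 4, 41, 43] (by decide) (by decide +kernel) l0_14
theorem s0_15 : Solved (nat_lit 0xa0000000011) u0_15 :=
  Solved.of allT [0, 4, 41, 43] (by decide) (by decide +kernel) l0_15
theorem s0_16 : Solved (nat_lit 0xa0000000011) u0_16 :=
  Solved.of allT [0, 4, 41, 43] (by decide) (by decide +kernel) l0_16
theorem s0_17 : Solved (nat_lit 0xa0000000011) u0_17 :=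
  Solved.of allT [0, 4, 41, 43] (by decide) (by decide +kernel) l0_17
theorem s0_18 : Solved (nat_lit 0xa0000000011) u0_18 :=
  Solved.of allT [0, 4, 41, 43] (by decide) (by decide +kernel) l0_18
theorem s0_19 : Solved (nat_lit 0xa0000000011) u0_19 :=
  Solved.of allT [0, 4, 41, 43] (by decide) (by decide +kernel) l0_19
theorem s0_20 : Solved (nat_lit 0xa0000000011) u0_20 :=
  Solved.of allT [0, 4, 41, 43] (by decide) (by decide +kernel) l0_20
theorem s0_21 : Solved (nat_lit 0xa0000000011) u0_21 :=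
  Solved.of allT [0, 4, 41, 43] (by decide) (by decide +kernel) l0_21
theorem s0_22 : Solved (nat_lit 0xa0000000011) u0_22 :=
  Solved.of allT [0, 4, 41, 43] (by decide) (by decide +kernel) l0_22
theorem s0_23 : Solved (nat_lit 0xa0000000011) u0_23 :=
  Solved.of allT [0, 4, 41, 43] (by decide) (by decide +kernel) l0_23
theorem s0_24 : Solved (nat_lit 0xa0000000011) u0_24 :=
  Solved.of allT [0, 4, 41, 43] (by decide) (by decide +kernel) l0_24
theorem s0_25 : Solved (nat_lit 0xa0000000011) u0_25 :=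
  Solved.of allT [0, 4, 41, 43] (by decide) (by decide +kernel) l0_25
theorem s0_26 : Solved (nat_lit 0xa0000000011) u0_26 :=
  Solved.of allT [0, 4, 41, 43] (by decide) (by decide +kernel) l0_26
theorem s0_27 : Solved (nat_lit 0xa0000000011) u0_27 :=
  Solved.of allT [0, 4, 41, 43] (by decide) (by decide +kernel) l0_27
theorem s0_28 : Solved (nat_lit 0xa0000000011) u0_28 :=
  Solved.of allT [0, 4, 41, 43] (by decide) (by decide +kernel) l0_28
theorem s0_29 : Solved (nat_lit 0xa0000000011) u0_29 :=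
  Solved.of allT [0, 4, 41, 43] (by decide) (by decide +kernel) l0_29
theorem s0_30 : Solved (nat_lit 0xa0000000011) u0_30 :=
  Solved.of allT [0, 4, 41, 43] (by decide) (by decide +kernel) l0_30
theorem s0_31 : Solved (nat_lit 0xa0000000011) u0_31 :=
  Solved.of allT [0, 4, 41, 43] (by decide) (by decide +kernel) l0_31
theorem s0_32 : Solved (nat_lit 0xa0000000011) u0_32 :=
  Solved.of allT [0, 4, 41, 43] (by decide) (by decide +kernel) l0_32
theorem s0_33 : Solved (nat_lit 0xa0000000011) u0_33 :=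
  Solved.of allT [0, 4, 41, 43] (by decide) (by decide +kernel) l0_33
theorem s0_34 : Solved (nat_lit 0xa0000000011) u0_34 :=
  Solved.of allT [0, 4, 41, 43] (by decide) (by decide +kernel) l0_34
theorem s0_35 : Solved (nat_lit 0xa0000000011) u0_35 :=
  Solved.of allT [0, 4, 41, 43] (by decide) (by decide +kernel) l0_35
theorem s0_36 : Solved (nat_lit 0xa0000000011) u0_36 :=
  Solved.of allT [0, 4, 41, 43] (by decide) (by decide +kernel) l0_36
theorem s0_37 : Solved (nat_lit 0xa0000000011) u0_37 :=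
  Solved.of allT [0, 4, 41, 43] (by decide) (by decide +kernel) l0_37
theorem s0_38 : Solved (nat_lit 0xa0000000011) u0_38 :=
  Solved.of allT [0, 4, 41, 43] (by decide) (by decide +kernel) l0_38
theorem s0_39 : Solved (nat_lit 0xa0000000011) u0_39 :=
  Solved.of allT [0, 4, 41, 43] (by decide) (by decide +kernel) l0_39
theorem s0_40 : Solved (nat_lit 0xa0000000011) u0_40 :=
  Solved.of allT [0, 4, 41, 43] (by decide) (by decide +kernel) l0_40
theorem s0_41 : Solved (nat_lit 0xa0000000011) u0_41 :=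
  Solved.of allT [0, 4, 41, 43] (by decide) (by decide +kernel) l0_41
theorem s0_42 : Solved (nat_lit 0xa0000000011) u0_42 :=
  Solved.of allT [0, 4, 41, 43] (by decide) (by decide +kernel) l0_42
theorem s0_43 : Solved (nat_lit 0xa0000000011) u0_43 :=
  Solved.of allT [0, 4, 41, 43] (by decide) (by decide +kernel) l0_43
theorem s0_44 : Solved (nat_lit 0xa0000000011) u0_44 :=
  Solved.of allT [0, 4, 41, 43] (by decide) (by decide +kernel) l0_44
theorem s0_45 : Solved (nat_lit 0xa0000000011) u0_45 :=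
  Solved.of allT [0, 4, 41, 43] (by decide) (by decide +kernel) l0_45
theorem s0_46 : Solved (nat_lit 0xa0000000011) u0_46 :=
  Solved.of allT [0, 4, 41, 43] (by decide) (by decide +kernel) l0_46
theorem s0_47 : Solved (nat_lit 0xa0000000011) u0_47 :=
  Solved.of allT [0, 4, 41, 43] (by decide) (by decide +kernel) l0_47
theorem s0_48 : Solved (nat_lit 0xa0000000011) u0_48 :=
  Solved.of allT [0, 4, 41, 43] (by decide) (by decide +kernel) l0_48
theorem s0_49 : Solved (nat_lit 0xa0000000011) u0_49 :=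
  Solved.of allT [0, 4, 41, 43] (by decide) (by decide +kernel) l0_49
theorem s0_50 : Solved (nat_lit 0xa0000000011) u0_50 :=
  Solved.of allT [0, 4, 41, 43] (by decide) (by decide +kernel) l0_50
theorem s0_51 : Solved (nat_lit 0xa0000000011) u0_51 :=
  Solved.of allT [0, 4, 41, 43] (by decide) (by decide +kernel) l0_51
theorem s0_52 : Solved (nat_lit 0xa0000000011) u0_52 :=
  Solved.of allT [0, 4, 41, 43] (by decide) (by decide +kernel) l0_52
theorem s1_0 : Solved (nat_lit 0x4000000200000001) u1_0 :=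
  Solved.of allT [0, 33, 62] (by decide) (by decide +kernel) l1_0
theorem s1_1 : Solved (nat_lit 0x4000000200000001) u1_1 :=
  Solved.of allT [0, 33, 62] (by decide) (by decide +kernel) l1_1
theorem s1_2 : Solved (nat_lit 0x4000000200000001) u1_2 :=
  Solved.of allT [0, 33, 62] (by decide) (by decide +kernel) l1_2
theorem s1_3 : Solved (nat_lit 0x4000000200000001) u1_3 :=
  Solved.of allT [0, 33, 62] (by decide) (by decide +kernel) l1_3
theorem s1_4 : Solved (nat_lit 0x4000000200000001) u1_4 :=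
  Solved.of allT [0, 33, 62] (by decide) (by decide +kernel) l1_4
theorem s1_5 : Solved (nat_lit 0x4000000200000001) u1_5 :=
  Solved.of allT [0, 33, 62] (by decide) (by decide +kernel) l1_5
theorem s1_6 : Solved (nat_lit 0x4000000200000001) u1_6 :=
  Solved.of allT [0, 33, 62] (by decide) (by decide +kernel) l1_6
theorem s1_7 : Solved (nat_lit 0x4000000200000001) u1_7 :=
  Solved.of allT [0, 33, 62] (by decide) (by decide +kernel) l1_7
theorem s1_8 : Solved (nat_lit 0x4000000200000001) u1_8 :=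
  Solved.of allT [0, 33, 62] (by decide) (by decide +kernel) l1_8
theorem s1_9 : Solved (nat_lit 0x4000000200000001) u1_9 :=
  Solved.of allT [0, 33, 62] (by decide) (by decide +kernel) l1_9
theorem s1_10 : Solved (nat_lit 0x4000000200000001) u1_10 :=
  Solved.of allT [0, 33, 62] (by decide) (by decide +kernel) l1_10
theorem s1_11 : Solved (nat_lit 0x4000000200000001) u1_11 :=
  Solved.of allT [0, 33, 62] (by decide) (by decide +kernel) l1_11
theorem s1_12 : Solved (nat_lit 0x4000000200000001) u1_12 :=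
  Solved.of allT [0, 33, 62] (by decide) (by decide +kernel) l1_12
theorem s1_13 : Solved (nat_lit 0x4000000200000001) u1_13 :=
  Solved.of allT [0, 33, 62] (by decide) (by decide +kernel) l1_13
theorem s1_14 : Solved (nat_lit 0x4000000200000001) u1_14 :=
  Solved.of allT [0, 33, 62] (by decide) (by decide +kernel) l1_14
theorem s1_15 : Solved (nat_lit 0x4000000200000001) u1_15 :=
  Solved.of allT [0, 33, 62] (by decide) (by decide +kernel) l1_15
theorem s1_16 : Solved (nat_lit 0x4000000200000001) u1_16 :=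
  Solved.of allT [0, 33, 62] (by decide) (by decide +kernel) l1_16
theorem s1_17 : Solved (nat_lit 0x4000000200000001) u1_17 :=
  Solved.of allT [0, 33, 62] (by decide) (by decide +kernel) l1_17
theorem s1_18 : Solved (nat_lit 0x4000000200000001) u1_18 :=
  Solved.of allT [0, 33, 62] (by decide) (by decide +kernel) l1_18
theorem s1_19 : Solved (nat_lit 0x4000000200000001) u1_19 :=
  Solved.of allT [0, 33, 62] (by decide) (by decide +kernel) l1_19
theorem s1_20 : Solved (nat_lit 0x4000000200000001) u1_20 :=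
  Solved.of allT [0, 33, 62] (by decide) (by decide +kernel) l1_20
theorem s1_21 : Solved (nat_lit 0x4000000200000001) u1_21 :=
  Solved.of allT [0, 33, 62] (by decide) (by decide +kernel) l1_21
theorem s1_22 : Solved (nat_lit 0x4000000200000001) u1_22 :=
  Solved.of allT [0, 33, 62] (by decide) (by decide +kernel) l1_22
theorem s1_23 : Solved (nat_lit 0x4000000200000001) u1_23 :=
  Solved.of allT [0, 33, 62] (by decide) (by decide +kernel) l1_23
theorem s1_24 : Solved (nat_lit 0x4000000200000001) u1_24 :=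
  Solved.of allT [0, 33, 62] (by decide) (by decide +kernel) l1_24
theorem s1_25 : Solved (nat_lit 0x4000000200000001) u1_25 :=
  Solved.of allT [0, 33, 62] (by decide) (by decide +kernel) l1_25
theorem s1_26 : Solved (nat_lit 0x4000000200000001) u1_26 :=
  Solved.of allT [0, 33, 62] (by decide) (by decide +kernel) l1_26
theorem s1_27 : Solved (nat_lit 0x4000000200000001) u1_27 :=
  Solved.of allT [0, 33, 62] (by decide) (by decide +kernel) l1_27
theorem s1_28 : Solved (nat_lit 0x4000000200000001) u1_28 :=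
  Solved.of allT [0, 33, 62] (by decide) (by decide +kernel) l1_28
theorem s1_29 : Solved (nat_lit 0x4000000200000001) u1_29 :=
  Solved.of allT [0, 33, 62] (by decide) (by decide +kernel) l1_29
theorem s1_30 : Solved (nat_lit 0x4000000200000001) u1_30 :=
  Solved.of allT [0, 33, 62] (by decide) (by decide +kernel) l1_30
theorem s1_31 : Solved (nat_lit 0x4000000200000001) u1_31 :=
  Solved.of allT [0, 33, 62] (by decide) (by decide +kernel) l1_31
theorem s1_32 : Solved (nat_lit 0x4000000200000001) u1_32 :=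
  Solved.of allT [0, 33, 62] (by decide) (by decide +kernel) l1_32
theorem s1_33 : Solved (nat_lit 0x4000000200000001) u1_33 :=
  Solved.of allT [0, 33, 62] (by decide) (by decide +kernel) l1_33
theorem s1_34 : Solved (nat_lit 0x4000000200000001) u1_34 :=
  Solved.of allT [0, 33, 62] (by decide) (by decide +kernel) l1_34
theorem s1_35 : Solved (nat_lit 0x4000000200000001) u1_35 :=
  Solved.of allT [0, 33, 62] (by decide) (by decide +kernel) l1_35
theorem s1_36 : Solved (nat_lit 0x4000000200000001) u1_36 :=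
  Solved.of allT [0, 33, 62] (by decide) (by decide +kernel) l1_36
theorem s1_37 : Solved (nat_lit 0x4000000200000001) u1_37 :=
  Solved.of allT [0, 33, 62] (by decide) (by decide +kernel) l1_37
theorem s1_38 : Solved (nat_lit 0x4000000200000001) u1_38 :=
  Solved.of allT [0, 33, 62] (by decide) (by decide +kernel) l1_38
theorem s2_0 : Solved (nat_lit 0x200000000020000000011) u2_0 :=
  Solved.of allT [0, 4, 41, 81] (by decide) (by decide +kernel) l2_0
theorem s2_1 : Solved (nat_lit 0x200000000020000000011) u2_1 :=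
  Solved.of allT [0, 4, 41, 81] (by decide) (by decide +kernel) l2_1
theorem s2_2 : Solved (nat_lit 0x200000000020000000011) u2_2 :=
  Solved.of allT [0, 4, 41, 81] (by decide) (by decide +kernel) l2_2
theorem s2_3 : Solved (nat_lit 0x200000000020000000011) u2_3 :=
  Solved.of allT [0, 4, 41, 81] (by decide) (by decide +kernel) l2_3
theorem s2_4 : Solved (nat_lit 0x200000000020000000011) u2_4 :=
  Solved.of allT [0, 4, 41, 81] (by decide) (by decide +kernel) l2_4
theorem s2_5 : Solved (nat_lit 0x200000000020000000011) u2_5 :=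
  Solved.of allT [0, 4, 41, 81] (by decide) (by decide +kernel) l2_5
theorem s2_6 : Solved (nat_lit 0x200000000020000000011) u2_6 :=
  Solved.of allT [0, 4, 41, 81] (by decide) (by decide +kernel) l2_6
theorem s2_7 : Solved (nat_lit 0x200000000020000000011) u2_7 :=
  Solved.of allT [0, 4, 41, 81] (by decide) (by decide +kernel) l2_7
theorem s2_8 : Solved (nat_lit 0x200000000020000000011) u2_8 :=
  Solved.of allT [0, 4, 41, 81] (by decide) (by decide +kernel) l2_8
theorem s3_0 : Solved (nat_lit 0x4000000080000001) u3_0 :=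
  Solved.of allT [0, 31, 62] (by decide) (by decide +kernel) l3_0
theorem s4_0 : Solved (nat_lit 0x20001000011) u4_0 :=
  Solved.of allT [0, 4, 24, 41] (by decide) (by decide +kernel) l4_0
theorem s5_0 : Solved (nat_lit 0x4000000000000000000020000000011) u5_0 :=
  Solved.of allT [0, 4, 41, 122] (by decide) (by decide +kernel) l5_0
theorem s6_0 : Solved (nat_lit 0x100000000000020000000011) u6_0 :=
  Solved.of allT [0, 4, 41, 92] (by decide) (by decide +kernel) l6_0
theorem s7_0 : Solved (nat_lit 0x20100000011) u7_0 :=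
  Solved.of allT [0, 4, 32, 41] (by decide) (by decide +kernel) l7_0
theorem s8_0 : Solved (nat_lit 0x10000020000000011) u8_0 :=
  Solved.of allT [0, 4, 41, 64] (by decide) (by decide +kernel) l8_0
theorem s9_0 : Solved (nat_lit 0x8000020000000011) u9_0 :=
  Solved.of allT [0, 4, 41, 63] (by decide) (by decide +kernel) l9_0
theorem s10_0 : Solved (nat_lit 0x2000020000000011) u10_0 :=
  Solved.of allT [0, 4, 41, 61] (by decide) (by decide +kernel) l10_0
theorem s11_0 : Solved (nat_lit 0x4000000000000000020000000011) u11_0 :=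
  Solved.of allT [0, 4, 41, 110] (by decide) (by decide +kernel) l11_0
theorem s12_0 : Solved (nat_lit 0x4000000000020000000011) u12_0 :=
  Solved.of allT [0, 4, 41, 86] (by decide) (by decide +kernel) l12_0
theorem s13_0 : Solved (nat_lit 0x24000000011) u13_0 :=
  Solved.of allT [0, 4, 38, 41] (by decide) (by decide +kernel) l13_0
theorem s14_0 : Solved (nat_lit 0x20000000015) u14_0 :=
  Solved.of allT [0, 2, 4, 41] (by decide) (by decide +kernel) l14_0
theorem s15_0 : Solved (nat_lit 0x10000000000000000020000000011) u15_0 :=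
  Solved.of allT [0, 4, 41, 112] (by decide) (by decide +kernel) l15_0
theorem s16_0 : Solved (nat_lit 0x8000000000020000000011) u16_0 :=
  Solved.of allT [0, 4, 41, 87] (by decide) (by decide +kernel) l16_0
theorem s17_0 : Solved (nat_lit 0x20000001011) u17_0 :=
  Solved.of allT [0, 4, 12, 41] (by decide) (by decide +kernel) l17_0
theorem s18_0 : Solved (nat_lit 0x40000000000000020000000011) u18_0 :=
  Solved.of allT [0, 4, 41, 102] (by decide) (by decide +kernel) l18_0
theorem s19_0 : Solved (nat_lit 0x400000000020000000011) u19_0 :=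
  Solved.of allT [0, 4, 41, 82] (by decide) (by decide +kernel) l19_0
theorem s20_0 : Solved (nat_lit 0x20000400011) u20_0 :=
  Solved.of allT [0, 4, 22, 41] (by decide) (by decide +kernel) l20_0
theorem s21_0 : Solved (nat_lit 0x1000020000000011) u21_0 :=
  Solved.of allT [0, 4, 41, 60] (by decide) (by decide +kernel) l21_0
theorem hFB0 : SolvedF FB0 := (SolvedF.cons s0_0 (SolvedF.cons s0_1 (SolvedF.cons s0_2 (SolvedF.cons s0_3 (SolvedF.cons s0_4 (SolvedF.cons s0_5 (SolvedF.cons s0_6 (SolvedF.cons s0_7 (SolvedF.cons s0_8 (SolvedF.cons s0_9 (SolvedF.cons s0_10 (SolvedF.cons s0_11 (SolvedF.cons s0_12 (SolvedF.cons s0_13 (SolvedF.cons s0_14 (SolvedF.cons s0_15 (SolvedF.cons s0_16 (SolvedF.cons s0_17 (SolvedF.cons s0_18 (SolvedF.cons s0_19 (SolvedF.cons s0_20 (SolvedF.cons s0_21 (SolvedF.cons s0_22 (SolvedF.cons s0_23 (SolvedF.cons s0_24 (SolvedF.cons s0_25 (SolvedF.cons s0_26 (SolvedF.cons s0_27 (SolvedF.cons s0_28 (SolvedF.cons s0_29 (SolvedF.cons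 s0_30 (SolvedF.cons s0_31 (SolvedF.cons s0_32 (SolvedF.cons s0_33 (SolvedF.cons s0_34 (SolvedF.cons s0_35 (SolvedF.cons s0_36 (SolvedF.cons s0_37 (SolvedF.cons s0_38 (SolvedF.cons s0_39 (SolvedF.cons s0_40 (SolvedF.cons s0_41 (SolvedF.cons s0_42 (SolvedF.cons s0_43 (SolvedF.cons s0_44 (SolvedF.cons s0_45 (SolvedF.cons s0_46 (SolvedF.cons s0_47 (SolvedF.cons s0_48 (SolvedF.cons s0_49 (SolvedF.cons s0_50 (SolvedF.cons s0_51 (SolvedF.cons s0_52 SolvedF.nil)))))))))))))))))))))))))))))))))))))))))))))))))))))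
theorem hFB1 : SolvedF FB1 := (SolvedF.cons s1_0 (SolvedF.cons s1_1 (SolvedF.cons s1_2 (SolvedF.cons s1_3 (SolvedF.cons s1_4 (SolvedF.cons s1_5 (SolvedF.cons s1_6 (SolvedF.cons s1_7 (SolvedF.cons s1_8 (SolvedF.cons s1_9 (SolvedF.cons s1_10 (SolvedF.cons s1_11 (SolvedF.cons s1_12 (SolvedF.cons s1_13 (SolvedF.cons s1_14 (SolvedF.cons s1_15 (SolvedF.cons s1_16 (SolvedF.cons s1_17 (SolvedF.cons s1_18 (SolvedF.cons s1_19 (SolvedF.cons s1_20 (SolvedF.cons s1_21 (SolvedF.cons s1_22 (SolvedF.cons s1_23 (SolvedF.cons s1_24 (SolvedF.cons s1_25 (SolvedF.cons s1_26 (SolvedF.cons s1_27 (SolvedF.cons s1_28 (SolvedF.cons s1_29 (SolvedF.cons s1_30 (SolvedF.cons s1_31 (SolvedF.cons s1_32 (SolvedF.cons s1_33 (SolvedF.cons s1_34 (SolvedF.cons s1_35 (SolvedF.cons s1_36 (SolvedF.cons s1_37 (SolvedF.cons s1_38 SolvedF.nil)))))))))))))))))))))))))))))))))))))))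
theorem hFB2 : SolvedF FB2 := (SolvedF.cons s2_0 (SolvedF.cons s2_1 (SolvedF.cons s2_2 (SolvedF.cons s2_3 (SolvedF.cons s2_4 (SolvedF.cons s2_5 (SolvedF.cons s2_6 (SolvedF.cons s2_7 (SolvedF.cons s2_8 SolvedF.nil)))))))))
theorem hFB3 : SolvedF FB3 := (SolvedF.cons s3_0 SolvedF.nil)
theorem hFB4 : SolvedF FB4 := (SolvedF.cons s4_0 SolvedF.nil)
theorem hFB5 : SolvedF FB5 := (SolvedF.cons s5_0 SolvedF.nil)
theorem hFB6 : SolvedF FB6 := (SolvedF.cons s6_0 SolvedF.nil)
theorem hFB7 : SolvedF FB7 := (SolvedF.cons s7_0 SolvedF.nil)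
theorem hFB8 : SolvedF FB8 := (SolvedF.cons s8_0 SolvedF.nil)
theorem hFB9 : SolvedF FB9 := (SolvedF.cons s9_0 SolvedF.nil)
theorem hFB10 : SolvedF FB10 := (SolvedF.cons s10_0 SolvedF.nil)
theorem hFB11 : SolvedF FB11 := (SolvedF.cons s11_0 SolvedF.nil)
theorem hFB12 : SolvedF FB12 := (SolvedF.cons s12_0 SolvedF.nil)
theorem hFB13 : SolvedF FB13 := (SolvedF.cons s13_0 SolvedF.nil)
theorem hFB14 : SolvedF FB14 := (SolvedF.cons s14_0 SolvedF.nil)
theorem hFB15 : SolvedF FB15 := (SolvedF.cons s15_0 SolvedF.nil)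
theorem hFB16 : SolvedF FB16 := (SolvedF.cons s16_0 SolvedF.nil)
theorem hFB17 : SolvedF FB17 := (SolvedF.cons s17_0 SolvedF.nil)
theorem hFB18 : SolvedF FB18 := (SolvedF.cons s18_0 SolvedF.nil)
theorem hFB19 : SolvedF FB19 := (SolvedF.cons s19_0 SolvedF.nil)
theorem hFB20 : SolvedF FB20 := (SolvedF.cons s20_0 SolvedF.nil)
theorem hFB21 : SolvedF FB21 := (SolvedF.cons s21_0 SolvedF.nil)
theorem sb0 : Solved (nat_lit 0xa0000000011) ib0 :=
  imgs_sound sg52 zc0 _ _ (sub_sound FB0 hFB0 _ za0) zb0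
theorem sb1 : Solved (nat_lit 0xa0000000011) ib1 :=
  imgs_sound sg65 zc1 _ _ (sub_sound FB0 hFB0 _ za1) zb1
theorem sb2 : Solved (nat_lit 0xa0000000011) ib2 :=
  imgs_sound sg59 zc2 _ _ (sub_sound FB0 hFB0 _ za2) zb2
theorem sb3 : Solved (nat_lit 0xa0000000011) ib3 :=
  imgs_sound sg70 zc3 _ _ (sub_sound FB0 hFB0 _ za3) zb3
theorem sb4 : Solved (nat_lit 0xa0000000011) ib4 :=
  imgs_sound sg71 zc4 _ _ (sub_sound FB0 hFB0 _ za4) zb4
theorem sb5 : Solved (nat_lit 0xa0000000011) ib5 :=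
  imgs_sound sg72 zc5 _ _ (sub_sound FB0 hFB0 _ za5) zb5
theorem sb6 : Solved (nat_lit 0xa0000000011) ib6 :=
  imgs_sound sg73 zc6 _ _ (sub_sound FB0 hFB0 _ za6) zb6
theorem sb7 : Solved (nat_lit 0xa00000000000000000011) ib7 :=
  imgs_sound sg50 zc7 _ _ (sub_sound FB0 hFB0 _ za7) zb7
theorem sb8 : Solved (nat_lit 0xa00000000000000000011) ib8 :=
  imgs_sound sg26 zc8 _ _ (sub_sound FB0 hFB0 _ za8) zb8
theorem sb9 : Solved (nat_lit 0xa00000000000000000011) ib9 :=
  imgs_sound sg60 zc9 _ _ (sub_sound FB0 hFB0 _ za9) zb9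
theorem sb10 : Solved (nat_lit 0xa00000000000000000011) ib10 :=
  imgs_sound sg64 zc10 _ _ (sub_sound FB0 hFB0 _ za10) zb10
theorem sb11 : Solved (nat_lit 0xa00000000000000000011) ib11 :=
  imgs_sound sg74 zc11 _ _ (sub_sound FB0 hFB0 _ za11) zb11
theorem sb12 : Solved (nat_lit 0xa00000000000000000011) ib12 :=
  imgs_sound sg12 zc12 _ _ (sub_sound FB0 hFB0 _ za12) zb12
theorem sb13 : Solved (nat_lit 0xa00000000000000000011) ib13 :=
  imgs_sound sg32 zc13 _ _ (sub_sound FB0 hFB0 _ za13) zb13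
theorem sb14 : Solved (nat_lit 0xa00000000000000000011) ib14 :=
  imgs_sound sg75 zc14 _ _ (sub_sound FB0 hFB0 _ za14) zb14
theorem sb15 : Solved (nat_lit 0x200000000020000000011) ib15 :=
  imgs_sound sg50 zc15 _ _ (sub_sound FB2 hFB2 _ za15) zb15
theorem sb16 : Solved (nat_lit 0x200000000020000000011) ib16 :=
  imgs_sound sg60 zc16 _ _ (sub_sound FB2 hFB2 _ za16) zb16
theorem sb17 : Solved (nat_lit 0x200000000020000000011) ib17 :=
  imgs_sound sg65 zc17 _ _ (sub_sound FB2 hFB2 _ za17) zb17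
theorem sb18 : Solved (nat_lit 0x800000000080000000011) ib18 :=
  imgs_sound sg26 zc18 _ _ (sub_sound FB2 hFB2 _ za18) zb18
theorem sb19 : Solved (nat_lit 0x800000000080000000011) ib19 :=
  imgs_sound sg52 zc19 _ _ (sub_sound FB2 hFB2 _ za19) zb19
theorem sb20 : Solved (nat_lit 0x800000000080000000011) ib20 :=
  imgs_sound sg59 zc20 _ _ (sub_sound FB2 hFB2 _ za20) zb20
theorem sb21 : Solved (nat_lit 0x800000000080000000011) ib21 :=
  imgs_sound sg64 zc21 _ _ (sub_sound FB2 hFB2 _ za21) zb21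
theorem sb22 : Solved (nat_lit 0x4000000080000001) ib22 :=
  imgs_sound sg66 zc22 _ _ (sub_sound FB3 hFB3 _ za22) zb22
theorem sb23 : Solved (nat_lit 0x4000000200000001) ib23 :=
  imgs_sound sg50 zc23 _ _ (sub_sound FB1 hFB1 _ za23) zb23
theorem sb24 : Solved (nat_lit 0x4000000200000001) ib24 :=
  imgs_sound sg67 zc24 _ _ (sub_sound FB1 hFB1 _ za24) zb24
theorem sb25 : Solved (nat_lit 0x4000000200000001) ib25 :=
  imgs_sound sg76 zc25 _ _ (sub_sound FB1 hFB1 _ za25) zb25
theorem sb26 : Solved (nat_lit 0x4000020000000001) ib26 :=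
  imgs_sound sg22 zc26 _ _ (sub_sound FB1 hFB1 _ za26) zb26
theorem sb27 : Solved (nat_lit 0x4000020000000001) ib27 :=
  imgs_sound sg48 zc27 _ _ (sub_sound FB1 hFB1 _ za27) zb27
theorem sb28 : Solved (nat_lit 0x4000020000000001) ib28 :=
  imgs_sound sg77 zc28 _ _ (sub_sound FB1 hFB1 _ za28) zb28
theorem sb29 : Solved (nat_lit 0x4000020000000001) ib29 :=
  imgs_sound sg78 zc29 _ _ (sub_sound FB1 hFB1 _ za29) zb29
theorem sb30 : Solved (nat_lit 0x4000000081000000) ib30 :=
  imgs_sound sg79 zc30 _ _ (sub_sound FB1 hFB1 _ za30) zb30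
theorem sb31 : Solved (nat_lit 0x4000000081000000) ib31 :=
  imgs_sound sg80 zc31 _ _ (sub_sound FB1 hFB1 _ za31) zb31
theorem sb32 : Solved (nat_lit 0x4000000081000000) ib32 :=
  imgs_sound sg19 zc32 _ _ (sub_sound FB1 hFB1 _ za32) zb32
theorem sb33 : Solved (nat_lit 0x4000000081000000) ib33 :=
  imgs_sound sg81 zc33 _ _ (sub_sound FB1 hFB1 _ za33) zb33
theorem sb34 : Solved (nat_lit 0x4000000201000000) ib34 :=
  imgs_sound sg62 zc34 _ _ (sub_sound FB1 hFB1 _ za34) zb34
theorem sb35 : Solved (nat_lit 0x4000000201000000) ib35 :=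
  imgs_sound sg82 zc35 _ _ (sub_sound FB1 hFB1 _ za35) zb35
theorem sb36 : Solved (nat_lit 0x4000000201000000) ib36 :=
  imgs_sound sg7 zc36 _ _ (sub_sound FB1 hFB1 _ za36) zb36
theorem sb37 : Solved (nat_lit 0x4000000201000000) ib37 :=
  imgs_sound sg83 zc37 _ _ (sub_sound FB1 hFB1 _ za37) zb37
theorem sb38 : Solved (nat_lit 0x4000020001000000) ib38 :=
  imgs_sound sg54 zc38 _ _ (sub_sound FB1 hFB1 _ za38) zb38
theorem sb39 : Solved (nat_lit 0x4000020001000000) ib39 :=
  imgs_sound sg84 zc39 _ _ (sub_sound FB1 hFB1 _ za39) zb39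
theorem sb40 : Solved (nat_lit 0x4000020001000000) ib40 :=
  imgs_sound sg5 zc40 _ _ (sub_sound FB1 hFB1 _ za40) zb40
theorem sb41 : Solved (nat_lit 0x4000020001000000) ib41 :=
  imgs_sound sg70 zc41 _ _ (sub_sound FB1 hFB1 _ za41) zb41
theorem hF0 : SolvedF FF0 := (SolvedF.cons s0_0 (SolvedF.cons s0_1 (SolvedF.cons s0_2 (SolvedF.cons s0_3 (SolvedF.cons s0_4 (SolvedF.cons s0_5 (SolvedF.cons s0_6 (SolvedF.cons s0_7 (SolvedF.cons s0_8 (SolvedF.cons s0_9 (SolvedF.cons s0_10 (SolvedF.cons s0_11 (SolvedF.cons s0_12 (SolvedF.cons s0_13 (SolvedF.cons s0_14 (SolvedF.cons s0_15 (SolvedF.cons s0_16 (SolvedF.cons s0_17 (SolvedF.cons s0_18 (SolvedF.cons s0_19 (SolvedF.cons s0_20 (SolvedF.cons s0_21 (SolvedF.cons s0_22 (SolvedF.cons s0_23 (SolvedF.cons s0_24 (SolvedF.cons s0_25 (SolvedF.cons s0_26 (SolvedF.cons s0_27 (SolvedF.cons s0_28 (SolvedF.cons s0_29 SolvedF.nil))))))))))))))))))))))))))))))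
theorem hF1 : SolvedF FF1 := (SolvedF.cons s0_30 (SolvedF.cons s0_31 (SolvedF.cons s0_32 (SolvedF.cons s0_33 (SolvedF.cons s0_34 (SolvedF.cons s0_35 (SolvedF.cons s0_36 (SolvedF.cons s0_37 (SolvedF.cons s0_38 (SolvedF.cons s0_39 (SolvedF.cons s0_40 (SolvedF.cons s0_41 (SolvedF.cons s0_42 (SolvedF.cons s0_43 (SolvedF.cons s0_44 (SolvedF.cons s0_45 (SolvedF.cons s0_46 (SolvedF.cons s0_47 (SolvedF.cons s0_48 (SolvedF.cons s0_49 (SolvedF.cons s0_50 (SolvedF.cons s0_51 (SolvedF.cons s0_52 (SolvedF.cons s1_0 (SolvedF.cons s1_1 (SolvedF.cons s1_2 (SolvedF.cons s1_3 (SolvedF.cons s1_4 (SolvedF.cons s1_5 (SolvedF.cons s1_6 SolvedF.nil))))))))))))))))))))))))))))))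
theorem hF2 : SolvedF FF2 := (SolvedF.cons s1_7 (SolvedF.cons s1_8 (SolvedF.cons s1_9 (SolvedF.cons s1_10 (SolvedF.cons s1_11 (SolvedF.cons s1_12 (SolvedF.cons s1_13 (SolvedF.cons s1_14 (SolvedF.cons s1_15 (SolvedF.cons s1_16 (SolvedF.cons s1_17 (SolvedF.cons s1_18 (SolvedF.cons s1_19 (SolvedF.cons s1_20 (SolvedF.cons s1_21 (SolvedF.cons s1_22 (SolvedF.cons s1_23 (SolvedF.cons s1_24 (SolvedF.cons s1_25 (SolvedF.cons s1_26 (SolvedF.cons s1_27 (SolvedF.cons s1_28 (SolvedF.cons s1_29 (SolvedF.cons s1_30 (SolvedF.cons s1_31 (SolvedF.cons s1_32 (SolvedF.cons s1_33 (SolvedF.cons s1_34 (SolvedF.cons s1_35 (SolvedF.cons s1_36 SolvedF.nil))))))))))))))))))))))))))))))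
theorem hF3 : SolvedF FF3 := (SolvedF.cons s1_37 (SolvedF.cons s1_38 (SolvedF.cons s2_0 (SolvedF.cons s2_1 (SolvedF.cons s2_2 (SolvedF.cons s2_3 (SolvedF.cons s2_4 (SolvedF.cons s2_5 (SolvedF.cons s2_6 (SolvedF.cons s2_7 (SolvedF.cons s2_8 (SolvedF.cons s3_0 (SolvedF.cons s4_0 (SolvedF.cons s5_0 (SolvedF.cons s6_0 (SolvedF.cons s7_0 (SolvedF.cons s8_0 (SolvedF.cons s9_0 (SolvedF.cons s10_0 (SolvedF.cons s11_0 (SolvedF.cons s12_0 (SolvedF.cons s13_0 (SolvedF.cons s14_0 (SolvedF.cons s15_0 (SolvedF.cons s16_0 (SolvedF.cons s17_0 (SolvedF.cons s18_0 (SolvedF.cons s19_0 (SolvedF.cons s20_0 (SolvedF.cons s21_0 SolvedF.nil))))))))))))))))))))))))))))))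
theorem hF4 : SolvedF FF4 := (SolvedF.cons sb0 (SolvedF.cons sb1 (SolvedF.cons sb2 (SolvedF.cons sb3 (SolvedF.cons sb4 (SolvedF.cons sb5 (SolvedF.cons sb6 (SolvedF.cons sb7 (SolvedF.cons sb8 (SolvedF.cons sb9 (SolvedF.cons sb10 (SolvedF.cons sb11 (SolvedF.cons sb12 (SolvedF.cons sb13 (SolvedF.cons sb14 (SolvedF.cons sb15 (SolvedF.cons sb16 (SolvedF.cons sb17 (SolvedF.cons sb18 (SolvedF.cons sb19 (SolvedF.cons sb20 (SolvedF.cons sb21 (SolvedF.cons sb22 (SolvedF.cons sb23 (SolvedF.cons sb24 (SolvedF.cons sb25 (SolvedF.cons sb26 (SolvedF.cons sb27 (SolvedF.cons sb28 (SolvedF.cons sb29 SolvedF.nil))))))))))))))))))))))))))))))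
theorem hF5 : SolvedF FF5 := (SolvedF.cons sb30 (SolvedF.cons sb31 (SolvedF.cons sb32 (SolvedF.cons sb33 (SolvedF.cons sb34 (SolvedF.cons sb35 (SolvedF.cons sb36 (SolvedF.cons sb37 (SolvedF.cons sb38 (SolvedF.cons sb39 (SolvedF.cons sb40 (SolvedF.cons sb41 SolvedF.nil))))))))))))
theorem hFF : SolvedF FF := (SolvedF.append hF0 (SolvedF.append hF1 (SolvedF.append hF2 (SolvedF.append hF3 (SolvedF.append hF4 hF5)))))
theorem hA1 : SolvedF FA1 := (SolvedF.cons (sub_sound FF hFF _ z1_0) (SolvedF.cons (sub_sound FF hFF _ z1_1) (SolvedF.cons (sub_sound FF hFF _ z1_2) (SolvedF.cons (sub_sound FF hFF _ z1_3) (SolvedF.cons (sub_sound FF hFF _ z1_4) SolvedF.nil)))))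
theorem a1 : Ans [62] [0] 1 :=
  ⟨by norm_num, 4, by norm_num, by norm_num, by decide, nchk_sound hA1 n1⟩
theorem hA2 : SolvedF FA2 := (SolvedF.cons (sub_sound FF hFF _ z2_0) (SolvedF.cons (sub_sound FF hFF _ z2_1) (SolvedF.cons (sub_sound FF hFF _ z2_2) (SolvedF.cons (sub_sound FF hFF _ z2_3) (SolvedF.cons (sub_sound FF hFF _ z2_4) (SolvedF.cons (sub_sound FF hFF _ z2_5) (SolvedF.cons (sub_sound FF hFF _ z2_6) (SolvedF.cons (sub_sound FF hFF _ z2_7) SolvedF.nil))))))))
theorem a2 : Ans [62] [0] 2 :=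
  ⟨by norm_num, 4, by norm_num, by norm_num, by decide, nchk_sound hA2 n2⟩
theorem hA20 : SolvedF FA20 := (SolvedF.cons (sub_sound FF hFF _ z20_0) (SolvedF.cons (sub_sound FF hFF _ z20_1) (SolvedF.cons (sub_sound FF hFF _ z20_2) (SolvedF.cons (sub_sound FF hFF _ z20_3) (SolvedF.cons (sub_sound FF hFF _ z20_4) SolvedF.nil)))))
theorem a20 : Ans [62] [0] 20 :=
  ⟨by norm_num, 4, by norm_num, by norm_num, by decide, nchk_sound hA20 n20⟩
theorem hA6 : SolvedF FA6 := (SolvedF.cons (sub_sound FF hFF _ z6_0) (SolvedF.cons (sub_sound FF hFF _ z6_1) (SolvedF.cons (sub_sound FF hFF _ z6_2) (SolvedF.cons (sub_sound FF hFF _ z6_3) (SolvedF.cons (sub_sound FF hFF _ z6_4) SolvedF.nil)))))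
theorem a6 : Ans [62] [0] 6 :=
  ⟨by norm_num, 4, by norm_num, by norm_num, by decide, nchk_sound hA6 n6⟩
theorem hA7 : SolvedF FA7 := (SolvedF.cons (sub_sound FF hFF _ z7_0) (SolvedF.cons (sub_sound FF hFF _ z7_1) (SolvedF.cons (sub_sound FF hFF _ z7_2) (SolvedF.cons (sub_sound FF hFF _ z7_3) (SolvedF.cons (sub_sound FF hFF _ z7_4) SolvedF.nil)))))
theorem a7 : Ans [62] [0] 7 :=
  ⟨by norm_num, 4, by norm_num, by norm_num, by decide, nchk_sound hA7 n7⟩
theorem hA40 : SolvedF FA40 := (SolvedF.cons (sub_sound FF hFF _ z40_0) (SolvedF.cons (sub_sound FF hFF _ z40_1) (SolvedF.cons (sub_sound FF hFF _ z40_2) (SolvedF.cons (sub_sound FF hFF _ z40_3) (SolvedF.cons (sub_sound FF hFF _ z40_4) SolvedF.nil)))))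
theorem a40 : Ans [62] [0] 40 :=
  ⟨by norm_num, 4, by norm_num, by norm_num, by decide, nchk_sound hA40 n40⟩
theorem hA9 : SolvedF FA9 := (SolvedF.cons (sub_sound FF hFF _ z9_0) (SolvedF.cons (sub_sound FF hFF _ z9_1) (SolvedF.cons (sub_sound FF hFF _ z9_2) (SolvedF.cons (sub_sound FF hFF _ z9_3) (SolvedF.cons (sub_sound FF hFF _ z9_4) SolvedF.nil)))))
theorem a9 : Ans [62] [0] 9 :=
  ⟨by norm_num, 4, by norm_num, by norm_num, by decide, nchk_sound hA9 n9⟩
theorem hA60 : SolvedF FA60 := (SolvedF.cons (sub_sound FF hFF _ z60_0) (SolvedF.cons (sub_sound FF hFF _ z60_1) (SolvedF.cons (sub_sound FF hFF _ z60_2) (SolvedF.cons (sub_sound FF hFF _ z60_3) (SolvedF.cons (sub_sound FF hFF _ z60_4) (SolvedF.cons (sub_sound FF hFF _ z60_5) (SolvedF.cons (sub_sound FF hFF _ z60_6) (SolvedF.cons (sub_sound FF hFF _ z60_7) SolvedF.nil))))))))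
theorem a60 : Ans [62] [0] 60 :=
  ⟨by norm_num, 4, by norm_num, by norm_num, by decide, nchk_sound hA60 n60⟩
theorem hA14 : SolvedF FA14 := (SolvedF.cons (sub_sound FF hFF _ z14_0) (SolvedF.cons (sub_sound FF hFF _ z14_1) (SolvedF.cons (sub_sound FF hFF _ z14_2) (SolvedF.cons (sub_sound FF hFF _ z14_3) (SolvedF.cons (sub_sound FF hFF _ z14_4) (SolvedF.cons (sub_sound FF hFF _ z14_5) (SolvedF.cons (sub_sound FF hFF _ z14_6) (SolvedF.cons (sub_sound FF hFF _ z14_7) SolvedF.nil))))))))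
theorem a14 : Ans [62] [0] 14 :=
  ⟨by norm_num, 4, by norm_num, by norm_num, by decide, nchk_sound hA14 n14⟩
theorem hA120 : SolvedF FA120 := (SolvedF.cons (sub_sound FF hFF _ z120_0) (SolvedF.cons (sub_sound FF hFF _ z120_1) (SolvedF.cons (sub_sound FF hFF _ z120_2) (SolvedF.cons (sub_sound FF hFF _ z120_3) (SolvedF.cons (sub_sound FF hFF _ z120_4) SolvedF.nil)))))
theorem a120 : Ans [62] [0] 120 :=
  ⟨by norm_num, 4, by norm_num, by norm_num, by decide, nchk_sound hA120 n120⟩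
theorem hA31 : SolvedF FA31 := (SolvedF.cons (sub_sound FF hFF _ z31_0) (SolvedF.cons (sub_sound FF hFF _ z31_1) (SolvedF.cons (sub_sound FF hFF _ z31_2) (SolvedF.cons (sub_sound FF hFF _ z31_3) (SolvedF.cons (sub_sound FF hFF _ z31_4) SolvedF.nil)))))
theorem a31 : Ans [62] [0] 31 :=
  ⟨by norm_num, 4, by norm_num, by norm_num, by decide, nchk_sound hA31 n31⟩
theorem hA32 : SolvedF FA32 := (SolvedF.cons (sub_sound FF hFF _ z32_0) (SolvedF.cons (sub_sound FF hFF _ z32_1) (SolvedF.cons (sub_sound FF hFF _ z32_2) (SolvedF.cons (sub_sound FF hFF _ z32_3) (SolvedF.cons (sub_sound FF hFF _ z32_4) (SolvedF.cons (sub_sound FF hFF _ z32_5) (SolvedF.cons (sub_sound FF hFF _ z32_6) (SolvedF.cons (sub_sound FF hFF _ z32_7) SolvedF.nil))))))))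
theorem a32 : Ans [62] [0] 32 :=
  ⟨by norm_num, 4, by norm_num, by norm_num, by decide, nchk_sound hA32 n32⟩
theorem hA33 : SolvedF FA33 := (SolvedF.cons (sub_sound FF hFF _ z33_0) (SolvedF.cons (sub_sound FF hFF _ z33_1) (SolvedF.cons (sub_sound FF hFF _ z33_2) (SolvedF.cons (sub_sound FF hFF _ z33_3) (SolvedF.cons (sub_sound FF hFF _ z33_4) SolvedF.nil)))))
theorem a33 : Ans [62] [0] 33 :=
  ⟨by norm_num, 4, by norm_num, by norm_num, by decide, nchk_sound hA33 n33⟩
theorem hA34 : SolvedF FA34 := (SolvedF.cons (sub_sound FF hFF _ z34_0) (SolvedF.cons (sub_sound FF hFF _ z34_1) (SolvedF.cons (sub_sound FF hFF _ z34_2) (SolvedF.cons (sub_sound FF hFF _ z34_3) (SolvedF.cons (sub_sound FF hFF _ z34_4) SolvedF.nil)))))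
theorem a34 : Ans [62] [0] 34 :=
  ⟨by norm_num, 4, by norm_num, by norm_num, by decide, nchk_sound hA34 n34⟩
theorem hA37 : SolvedF FA37 := (SolvedF.cons (sub_sound FF hFF _ z37_0) (SolvedF.cons (sub_sound FF hFF _ z37_1) (SolvedF.cons (sub_sound FF hFF _ z37_2) (SolvedF.cons (sub_sound FF hFF _ z37_3) (SolvedF.cons (sub_sound FF hFF _ z37_4) (SolvedF.cons (sub_sound FF hFF _ z37_5) (SolvedF.cons (sub_sound FF hFF _ z37_6) (SolvedF.cons (sub_sound FF hFF _ z37_7) SolvedF.nil))))))))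
theorem a37 : Ans [62] [0] 37 :=
  ⟨by norm_num, 4, by norm_num, by norm_num, by decide, nchk_sound hA37 n37⟩
theorem hA42 : SolvedF FA42 := (SolvedF.cons (sub_sound FF hFF _ z42_0) (SolvedF.cons (sub_sound FF hFF _ z42_1) (SolvedF.cons (sub_sound FF hFF _ z42_2) (SolvedF.cons (sub_sound FF hFF _ z42_3) (SolvedF.cons (sub_sound FF hFF _ z42_4) (SolvedF.cons (sub_sound FF hFF _ z42_5) (SolvedF.cons (sub_sound FF hFF _ z42_6) (SolvedF.cons (sub_sound FF hFF _ z42_7) SolvedF.nil))))))))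
theorem a42 : Ans [62] [0] 42 :=
  ⟨by norm_num, 4, by norm_num, by norm_num, by decide, nchk_sound hA42 n42⟩
theorem hA39 : SolvedF FA39 := (SolvedF.cons (sub_sound FF hFF _ z39_0) (SolvedF.cons (sub_sound FF hFF _ z39_1) (SolvedF.cons (sub_sound FF hFF _ z39_2) (SolvedF.cons (sub_sound FF hFF _ z39_3) (SolvedF.cons (sub_sound FF hFF _ z39_4) SolvedF.nil)))))
theorem a39 : Ans [62] [0] 39 :=
  ⟨by norm_num, 4, by norm_num, by norm_num, by decide, nchk_sound hA39 n39⟩
theorem hA44 : SolvedF FA44 := (SolvedF.cons (sub_sound FF hFF _ z44_0) (SolvedF.cons (sub_sound FF hFF _ z44_1) (SolvedF.cons (sub_sound FF hFF _ z44_2) (SolvedF.cons (sub_sound FF hFF _ z44_3) (SolvedF.cons (sub_sound FF hFF _ z44_4) SolvedF.nil)))))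
theorem a44 : Ans [62] [0] 44 :=
  ⟨by norm_num, 4, by norm_num, by norm_num, by decide, nchk_sound hA44 n44⟩
theorem hA49 : SolvedF FA49 := (SolvedF.cons (sub_sound FF hFF _ z49_0) (SolvedF.cons (sub_sound FF hFF _ z49_1) (SolvedF.cons (sub_sound FF hFF _ z49_2) (SolvedF.cons (sub_sound FF hFF _ z49_3) (SolvedF.cons (sub_sound FF hFF _ z49_4) SolvedF.nil)))))
theorem a49 : Ans [62] [0] 49 :=
  ⟨by norm_num, 4, by norm_num, by norm_num, by decide, nchk_sound hA49 n49⟩
theorem hA64 : SolvedF FA64 := (SolvedF.cons (sub_sound FF hFF _ z64_0) (SolvedF.cons (sub_sound FF hFF _ z64_1) (SolvedF.cons (sub_sound FF hFF _ z64_2) (SolvedF.cons (sub_sound FF hFF _ z64_3) (SolvedF.cons (sub_sound FF hFF _ z64_4) (SolvedF.cons (sub_sound FF hFF _ z64_5) (SolvedF.cons (sub_sound FF hFF _ z64_6) (SolvedF.cons (sub_sound FF hFF _ z64_7) SolvedF.nil))))))))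
theorem a64 : Ans [62] [0] 64 :=
  ⟨by norm_num, 4, by norm_num, by norm_num, by decide, nchk_sound hA64 n64⟩
theorem hA122 : SolvedF FA122 := (SolvedF.cons (sub_sound FF hFF _ z122_0) (SolvedF.cons (sub_sound FF hFF _ z122_1) (SolvedF.cons (sub_sound FF hFF _ z122_2) (SolvedF.cons (sub_sound FF hFF _ z122_3) (SolvedF.cons (sub_sound FF hFF _ z122_4) (SolvedF.cons (sub_sound FF hFF _ z122_5) (SolvedF.cons (sub_sound FF hFF _ z122_6) (SolvedF.cons (sub_sound FF hFF _ z122_7) SolvedF.nil))))))))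
theorem a122 : Ans [62] [0] 122 :=
  ⟨by norm_num, 4, by norm_num, by norm_num, by decide, nchk_sound hA122 n122⟩
theorem hA124 : SolvedF FA124 := (SolvedF.cons (sub_sound FF hFF _ z124_0) (SolvedF.cons (sub_sound FF hFF _ z124_1) (SolvedF.cons (sub_sound FF hFF _ z124_2) (SolvedF.cons (sub_sound FF hFF _ z124_3) (SolvedF.cons (sub_sound FF hFF _ z124_4) SolvedF.nil)))))
theorem a124 : Ans [62] [0] 124 :=
  ⟨by norm_num, 4, by norm_num, by norm_num, by decide, nchk_sound hA124 n124⟩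
theorem root62 : Pos (mk [62]) (mk [0]) := by
  refine root_sound (Gs := [g0, g34, g40, g18, g48, g26, g49, g50, g51, g22, g52, g53]) (As := [1, 2, 20, 6, 7, 40, 9, 60, 14, 120, 31, 32, 33, 34, 37, 42, 39, 44, 49, 64, 122, 124])
    (by decide) ?_ (by decide +kernel) (Ans.cons a1 (Ans.cons a2 (Ans.cons a20 (Ans.cons a6 (Ans.cons a7 (Ans.cons a40 (Ans.cons a9 (Ans.cons a60 (Ans.cons a14 (Ans.cons a120 (Ans.cons a31 (Ans.cons a32 (Ans.cons a33 (Ans.cons a34 (Ans.cons a37 (Ans.cons a42 (Ans.cons a39 (Ans.cons a44 (Ans.cons a49 (Ans.cons a64 (Ans.cons a122 (Ans.cons a124 Ans.nil))))))))))))))))))))))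
  intro G hG
  simp only [List.mem_cons, List.not_mem_nil, or_false] at hG
  rcases hG with rfl | rfl | rfl | rfl | rfl | rfl | rfl | rfl | rfl | rfl | rfl | rfl
  · exact sg0
  · exact sg34
  · exact sg40
  · exact sg18
  · exact sg48
  · exact sg26
  · exact sg49
  · exact sg50
  · exact sg51
  · exact sg22
  · exact sg52
  · exact sg53
theorem hX12 : SolvedF FX12 := (SolvedF.cons (sub_sound FF hFF _ y12_0) (SolvedF.cons (sub_sound FF hFF _ y12_1) (SolvedF.cons (sub_sound FF hFF _ y12_2) SolvedF.nil)))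
theorem a12_4 : Ans [12] [62] 4 :=
  ⟨by norm_num, 0, by norm_num, by norm_num, by decide, pchk_sound hX12 x12_4⟩
theorem a12_1 : Ans [12] [62] 1 :=
  ⟨by norm_num, 0, by norm_num, by norm_num, by decide, pchk_sound hX12 x12_1⟩
theorem a12_2 : Ans [12] [62] 2 :=
  ⟨by norm_num, 0, by norm_num, by norm_num, by decide, pchk_sound hX12 x12_2⟩
theorem a12_6 : Ans [12] [62] 6 :=
  ⟨by norm_num, 0, by norm_num, by norm_num, by decide, pchk_sound hX12 x12_6⟩
theorem a12_7 : Ans [12] [62] 7 :=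
  ⟨by norm_num, 0, by norm_num, by norm_num, by decide, pchk_sound hX12 x12_7⟩
theorem a12_25 : Ans [12] [62] 25 :=
  ⟨by norm_num, 0, by norm_num, by norm_num, by decide, pchk_sound hX12 x12_25⟩
theorem a12_26 : Ans [12] [62] 26 :=
  ⟨by norm_num, 0, by norm_num, by norm_num, by decide, pchk_sound hX12 x12_26⟩
theorem a12_27 : Ans [12] [62] 27 :=
  ⟨by norm_num, 0, by norm_num, by norm_num, by decide, pchk_sound hX12 x12_27⟩
theorem a12_31 : Ans [12] [62] 31 :=
  ⟨by norm_num, 0, by norm_num, by norm_num, by decide, pchk_sound hX12 x12_31⟩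
theorem a12_32 : Ans [12] [62] 32 :=
  ⟨by norm_num, 0, by norm_num, by norm_num, by decide, pchk_sound hX12 x12_32⟩
theorem a12_37 : Ans [12] [62] 37 :=
  ⟨by norm_num, 0, by norm_num, by norm_num, by decide, pchk_sound hX12 x12_37⟩
theorem a12_50 : Ans [12] [62] 50 :=
  ⟨by norm_num, 0, by norm_num, by norm_num, by decide, pchk_sound hX12 x12_50⟩
theorem a12_51 : Ans [12] [62] 51 :=
  ⟨by norm_num, 0, by norm_num, by norm_num, by decide, pchk_sound hX12 x12_51⟩
theorem a12_52 : Ans [12] [62] 52 :=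
  ⟨by norm_num, 0, by norm_num, by norm_num, by decide, pchk_sound hX12 x12_52⟩
theorem a12_56 : Ans [12] [62] 56 :=
  ⟨by norm_num, 0, by norm_num, by norm_num, by decide, pchk_sound hX12 x12_56⟩
theorem a12_57 : Ans [12] [62] 57 :=
  ⟨by norm_num, 0, by norm_num, by norm_num, by decide, pchk_sound hX12 x12_57⟩
theorem a12_100 : Ans [12] [62] 100 :=
  ⟨by norm_num, 0, by norm_num, by norm_num, by decide, pchk_sound hX12 x12_100⟩
theorem a12_101 : Ans [12] [62] 101 :=
  ⟨by norm_num, 0, by norm_num, by norm_num, by decide, pchk_sound hX12 x12_101⟩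
theorem a12_102 : Ans [12] [62] 102 :=
  ⟨by norm_num, 0, by norm_num, by norm_num, by decide, pchk_sound hX12 x12_102⟩
theorem a12_106 : Ans [12] [62] 106 :=
  ⟨by norm_num, 0, by norm_num, by norm_num, by decide, pchk_sound hX12 x12_106⟩
theorem a12_107 : Ans [12] [62] 107 :=
  ⟨by norm_num, 0, by norm_num, by norm_num, by decide, pchk_sound hX12 x12_107⟩
theorem a12_112 : Ans [12] [62] 112 :=
  ⟨by norm_num, 0, by norm_num, by norm_num, by decide, pchk_sound hX12 x12_112⟩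
theorem root12 : Pos (mk [12]) (mk [62]) := by
  refine root_sound (Gs := [g0, g36, g54, g55, g26, g56, g57, g58, g59, g60, g61, g30, g22, g34, g62, g63]) (As := [4, 1, 2, 6, 7, 25, 26, 27, 31, 32, 37, 50, 51, 52, 56, 57, 100, 101, 102, 106, 107, 112])
    (by decide) ?_ (by decide +kernel) (Ans.cons a12_4 (Ans.cons a12_1 (Ans.cons a12_2 (Ans.cons a12_6 (Ans.cons a12_7 (Ans.cons a12_25 (Ans.cons a12_26 (Ans.cons a12_27 (Ans.cons a12_31 (Ans.cons a12_32 (Ans.cons a12_37 (Ans.cons a12_50 (Ans.cons a12_51 (Ans.cons a12_52 (Ans.cons a12_56 (Ans.cons a12_57 (Ans.cons a12_100 (Ans.cons a12_101 (Ans.cons a12_102 (Ans.cons a12_106 (Ans.cons a12_107 (Ans.cons a12_112 Ans.nil))))))))))))))))))))))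
  intro G hG
  simp only [List.mem_cons, List.not_mem_nil, or_false] at hG
  rcases hG with rfl | rfl | rfl | rfl | rfl | rfl | rfl | rfl | rfl | rfl | rfl | rfl | rfl | rfl | rfl | rfl
  · exact sg0
  · exact sg36
  · exact sg54
  · exact sg55
  · exact sg26
  · exact sg56
  · exact sg57
  · exact sg58
  · exact sg59
  · exact sg60
  · exact sg61
  · exact sg30
  · exact sg22
  · exact sg34
  · exact sg62
  · exact sg63
theorem hX0 : SolvedF FX0 := (SolvedF.cons (sub_sound FF hFF _ y0_0) (SolvedF.cons (sub_sound FF hFF _ y0_1) (SolvedF.cons (sub_sound FF hFF _ y0_2) SolvedF.nil)))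
theorem a0_1 : Ans [0] [62] 1 :=
  ⟨by norm_num, 24, by norm_num, by norm_num, by decide, pchk_sound hX0 x0_1⟩
theorem a0_2 : Ans [0] [62] 2 :=
  ⟨by norm_num, 24, by norm_num, by norm_num, by decide, pchk_sound hX0 x0_2⟩
theorem a0_4 : Ans [0] [62] 4 :=
  ⟨by norm_num, 24, by norm_num, by norm_num, by decide, pchk_sound hX0 x0_4⟩
theorem a0_6 : Ans [0] [62] 6 :=
  ⟨by norm_num, 24, by norm_num, by norm_num, by decide, pchk_sound hX0 x0_6⟩
theorem a0_7 : Ans [0] [62] 7 :=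
  ⟨by norm_num, 24, by norm_num, by norm_num, by decide, pchk_sound hX0 x0_7⟩
theorem a0_8 : Ans [0] [62] 8 :=
  ⟨by norm_num, 24, by norm_num, by norm_num, by decide, pchk_sound hX0 x0_8⟩
theorem a0_9 : Ans [0] [62] 9 :=
  ⟨by norm_num, 24, by norm_num, by norm_num, by decide, pchk_sound hX0 x0_9⟩
theorem a0_12 : Ans [0] [62] 12 :=
  ⟨by norm_num, 24, by norm_num, by norm_num, by decide, pchk_sound hX0 x0_12⟩
theorem a0_14 : Ans [0] [62] 14 :=
  ⟨by norm_num, 24, by norm_num, by norm_num, by decide, pchk_sound hX0 x0_14⟩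
theorem a0_104 : Ans [0] [62] 104 :=
  ⟨by norm_num, 24, by norm_num, by norm_num, by decide, pchk_sound hX0 x0_104⟩
theorem a0_31 : Ans [0] [62] 31 :=
  ⟨by norm_num, 24, by norm_num, by norm_num, by decide, pchk_sound hX0 x0_31⟩
theorem a0_32 : Ans [0] [62] 32 :=
  ⟨by norm_num, 24, by norm_num, by norm_num, by decide, pchk_sound hX0 x0_32⟩
theorem a0_41 : Ans [0] [62] 41 :=
  ⟨by norm_num, 24, by norm_num, by norm_num, by decide, pchk_sound hX0 x0_41⟩
theorem a0_34 : Ans [0] [62] 34 :=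
  ⟨by norm_num, 24, by norm_num, by norm_num, by decide, pchk_sound hX0 x0_34⟩
theorem a0_37 : Ans [0] [62] 37 :=
  ⟨by norm_num, 24, by norm_num, by norm_num, by decide, pchk_sound hX0 x0_37⟩
theorem a0_38 : Ans [0] [62] 38 :=
  ⟨by norm_num, 24, by norm_num, by norm_num, by decide, pchk_sound hX0 x0_38⟩
theorem a0_39 : Ans [0] [62] 39 :=
  ⟨by norm_num, 24, by norm_num, by norm_num, by decide, pchk_sound hX0 x0_39⟩
theorem a0_44 : Ans [0] [62] 44 :=
  ⟨by norm_num, 24, by norm_num, by norm_num, by decide, pchk_sound hX0 x0_44⟩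
theorem a0_49 : Ans [0] [62] 49 :=
  ⟨by norm_num, 24, by norm_num, by norm_num, by decide, pchk_sound hX0 x0_49⟩
theorem a0_64 : Ans [0] [62] 64 :=
  ⟨by norm_num, 24, by norm_num, by norm_num, by decide, pchk_sound hX0 x0_64⟩
theorem a0_74 : Ans [0] [62] 74 :=
  ⟨by norm_num, 24, by norm_num, by norm_num, by decide, pchk_sound hX0 x0_74⟩
theorem a0_124 : Ans [0] [62] 124 :=
  ⟨by norm_num, 24, by norm_num, by norm_num, by decide, pchk_sound hX0 x0_124⟩
theorem root0 : Pos (mk [0]) (mk [62]) := by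
  refine root_sound (Gs := [g0, g49, g40, g26, g48, g18, g22, g50, g51, g34, g52, g53]) (As := [1, 2, 4, 6, 7, 8, 9, 12, 14, 104, 31, 32, 41, 34, 37, 38, 39, 44, 49, 64, 74, 124])
    (by decide) ?_ (by decide +kernel) (Ans.cons a0_1 (Ans.cons a0_2 (Ans.cons a0_4 (Ans.cons a0_6 (Ans.cons a0_7 (Ans.cons a0_8 (Ans.cons a0_9 (Ans.cons a0_12 (Ans.cons a0_14 (Ans.cons a0_104 (Ans.cons a0_31 (Ans.cons a0_32 (Ans.cons a0_41 (Ans.cons a0_34 (Ans.cons a0_37 (Ans.cons a0_38 (Ans.cons a0_39 (Ans.cons a0_44 (Ans.cons a0_49 (Ans.cons a0_64 (Ans.cons a0_74 (Ans.cons a0_124 Ans.nil))))))))))))))))))))))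
  intro G hG
  simp only [List.mem_cons, List.not_mem_nil, or_false] at hG
  rcases hG with rfl | rfl | rfl | rfl | rfl | rfl | rfl | rfl | rfl | rfl | rfl | rfl
  · exact sg0
  · exact sg49
  · exact sg40
  · exact sg26
  · exact sg48
  · exact sg18
  · exact sg22
  · exact sg50
  · exact sg51
  · exact sg34
  · exact sg52
  · exact sg53
theorem hX2 : SolvedF FX2 := (SolvedF.cons (sub_sound FF hFF _ y2_0) (SolvedF.cons (sub_sound FF hFF _ y2_1) (SolvedF.cons (sub_sound FF hFF _ y2_2) SolvedF.nil)))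
theorem a2_4 : Ans [2] [62] 4 :=
  ⟨by norm_num, 0, by norm_num, by norm_num, by decide, pchk_sound hX2 x2_4⟩
theorem a2_1 : Ans [2] [62] 1 :=
  ⟨by norm_num, 0, by norm_num, by norm_num, by decide, pchk_sound hX2 x2_1⟩
theorem a2_5 : Ans [2] [62] 5 :=
  ⟨by norm_num, 0, by norm_num, by norm_num, by decide, pchk_sound hX2 x2_5⟩
theorem a2_6 : Ans [2] [62] 6 :=
  ⟨by norm_num, 0, by norm_num, by norm_num, by decide, pchk_sound hX2 x2_6⟩
theorem a2_7 : Ans [2] [62] 7 :=
  ⟨by norm_num, 0, by norm_num, by norm_num, by decide, pchk_sound hX2 x2_7⟩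
theorem a2_10 : Ans [2] [62] 10 :=
  ⟨by norm_num, 0, by norm_num, by norm_num, by decide, pchk_sound hX2 x2_10⟩
theorem a2_11 : Ans [2] [62] 11 :=
  ⟨by norm_num, 0, by norm_num, by norm_num, by decide, pchk_sound hX2 x2_11⟩
theorem a2_12 : Ans [2] [62] 12 :=
  ⟨by norm_num, 0, by norm_num, by norm_num, by decide, pchk_sound hX2 x2_12⟩
theorem a2_20 : Ans [2] [62] 20 :=
  ⟨by norm_num, 0, by norm_num, by norm_num, by decide, pchk_sound hX2 x2_20⟩
theorem a2_21 : Ans [2] [62] 21 :=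
  ⟨by norm_num, 0, by norm_num, by norm_num, by decide, pchk_sound hX2 x2_21⟩
theorem a2_22 : Ans [2] [62] 22 :=
  ⟨by norm_num, 0, by norm_num, by norm_num, by decide, pchk_sound hX2 x2_22⟩
theorem a2_30 : Ans [2] [62] 30 :=
  ⟨by norm_num, 0, by norm_num, by norm_num, by decide, pchk_sound hX2 x2_30⟩
theorem a2_31 : Ans [2] [62] 31 :=
  ⟨by norm_num, 0, by norm_num, by norm_num, by decide, pchk_sound hX2 x2_31⟩
theorem a2_32 : Ans [2] [62] 32 :=
  ⟨by norm_num, 0, by norm_num, by norm_num, by decide, pchk_sound hX2 x2_32⟩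
theorem a2_35 : Ans [2] [62] 35 :=
  ⟨by norm_num, 0, by norm_num, by norm_num, by decide, pchk_sound hX2 x2_35⟩
theorem a2_36 : Ans [2] [62] 36 :=
  ⟨by norm_num, 0, by norm_num, by norm_num, by decide, pchk_sound hX2 x2_36⟩
theorem a2_37 : Ans [2] [62] 37 :=
  ⟨by norm_num, 0, by norm_num, by norm_num, by decide, pchk_sound hX2 x2_37⟩
theorem a2_40 : Ans [2] [62] 40 :=
  ⟨by norm_num, 0, by norm_num, by norm_num, by decide, pchk_sound hX2 x2_40⟩
theorem a2_41 : Ans [2] [62] 41 :=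
  ⟨by norm_num, 0, by norm_num, by norm_num, by decide, pchk_sound hX2 x2_41⟩
theorem a2_42 : Ans [2] [62] 42 :=
  ⟨by norm_num, 0, by norm_num, by norm_num, by decide, pchk_sound hX2 x2_42⟩
theorem a2_45 : Ans [2] [62] 45 :=
  ⟨by norm_num, 0, by norm_num, by norm_num, by decide, pchk_sound hX2 x2_45⟩
theorem a2_46 : Ans [2] [62] 46 :=
  ⟨by norm_num, 0, by norm_num, by norm_num, by decide, pchk_sound hX2 x2_46⟩
theorem a2_47 : Ans [2] [62] 47 :=
  ⟨by norm_num, 0, by norm_num, by norm_num, by decide, pchk_sound hX2 x2_47⟩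
theorem a2_60 : Ans [2] [62] 60 :=
  ⟨by norm_num, 0, by norm_num, by norm_num, by decide, pchk_sound hX2 x2_60⟩
theorem a2_61 : Ans [2] [62] 61 :=
  ⟨by norm_num, 0, by norm_num, by norm_num, by decide, pchk_sound hX2 x2_61⟩
theorem a2_70 : Ans [2] [62] 70 :=
  ⟨by norm_num, 0, by norm_num, by norm_num, by decide, pchk_sound hX2 x2_70⟩
theorem a2_71 : Ans [2] [62] 71 :=
  ⟨by norm_num, 0, by norm_num, by norm_num, by decide, pchk_sound hX2 x2_71⟩
theorem a2_72 : Ans [2] [62] 72 :=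
  ⟨by norm_num, 0, by norm_num, by norm_num, by decide, pchk_sound hX2 x2_72⟩
theorem a2_120 : Ans [2] [62] 120 :=
  ⟨by norm_num, 0, by norm_num, by norm_num, by decide, pchk_sound hX2 x2_120⟩
theorem a2_121 : Ans [2] [62] 121 :=
  ⟨by norm_num, 0, by norm_num, by norm_num, by decide, pchk_sound hX2 x2_121⟩
theorem a2_122 : Ans [2] [62] 122 :=
  ⟨by norm_num, 0, by norm_num, by norm_num, by decide, pchk_sound hX2 x2_122⟩
theorem root2 : Pos (mk [2]) (mk [62]) := by
  refine root_sound (Gs := [g0, g64, g26, g65, g59, g50, g60, g52]) (As := [4, 1, 5, 6, 7, 10, 11, 12, 20, 21, 22, 30, 31, 32, 35, 36, 37, 40, 41, 42, 45, 46, 47, 60, 61, 70, 71, 72, 120, 121, 122])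
    (by decide) ?_ (by decide +kernel) (Ans.cons a2_4 (Ans.cons a2_1 (Ans.cons a2_5 (Ans.cons a2_6 (Ans.cons a2_7 (Ans.cons a2_10 (Ans.cons a2_11 (Ans.cons a2_12 (Ans.cons a2_20 (Ans.cons a2_21 (Ans.cons a2_22 (Ans.cons a2_30 (Ans.cons a2_31 (Ans.cons a2_32 (Ans.cons a2_35 (Ans.cons a2_36 (Ans.cons a2_37 (Ans.cons a2_40 (Ans.cons a2_41 (Ans.cons a2_42 (Ans.cons a2_45 (Ans.cons a2_46 (Ans.cons a2_47 (Ans.cons a2_60 (Ans.cons a2_61 (Ans.cons a2_70 (Ans.cons a2_71 (Ans.cons a2_72 (Ans.cons a2_120 (Ans.cons a2_121 (Ans.cons a2_122 Ans.nil)))))))))))))))))))))))))))))))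
  intro G hG
  simp only [List.mem_cons, List.not_mem_nil, or_false] at hG
  rcases hG with rfl | rfl | rfl | rfl | rfl | rfl | rfl | rfl
  · exact sg0
  · exact sg64
  · exact sg26
  · exact sg65
  · exact sg59
  · exact sg50
  · exact sg60
  · exact sg52
theorem hX7 : SolvedF FX7 := (SolvedF.cons (sub_sound FF hFF _ y7_0) (SolvedF.cons (sub_sound FF hFF _ y7_1) (SolvedF.cons (sub_sound FF hFF _ y7_2) SolvedF.nil)))
theorem a7_4 : Ans [7] [62] 4 :=
  ⟨by norm_num, 0, by norm_num, by norm_num, by decide, pchk_sound hX7 x7_4⟩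
theorem a7_1 : Ans [7] [62] 1 :=
  ⟨by norm_num, 0, by norm_num, by norm_num, by decide, pchk_sound hX7 x7_1⟩
theorem a7_2 : Ans [7] [62] 2 :=
  ⟨by norm_num, 0, by norm_num, by norm_num, by decide, pchk_sound hX7 x7_2⟩
theorem a7_5 : Ans [7] [62] 5 :=
  ⟨by norm_num, 0, by norm_num, by norm_num, by decide, pchk_sound hX7 x7_5⟩
theorem a7_10 : Ans [7] [62] 10 :=
  ⟨by norm_num, 0, by norm_num, by norm_num, by decide, pchk_sound hX7 x7_10⟩
theorem a7_11 : Ans [7] [62] 11 :=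
  ⟨by norm_num, 0, by norm_num, by norm_num, by decide, pchk_sound hX7 x7_11⟩
theorem a7_12 : Ans [7] [62] 12 :=
  ⟨by norm_num, 0, by norm_num, by norm_num, by decide, pchk_sound hX7 x7_12⟩
theorem a7_15 : Ans [7] [62] 15 :=
  ⟨by norm_num, 0, by norm_num, by norm_num, by decide, pchk_sound hX7 x7_15⟩
theorem a7_16 : Ans [7] [62] 16 :=
  ⟨by norm_num, 0, by norm_num, by norm_num, by decide, pchk_sound hX7 x7_16⟩
theorem a7_17 : Ans [7] [62] 17 :=
  ⟨by norm_num, 0, by norm_num, by norm_num, by decide, pchk_sound hX7 x7_17⟩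
theorem a7_25 : Ans [7] [62] 25 :=
  ⟨by norm_num, 0, by norm_num, by norm_num, by decide, pchk_sound hX7 x7_25⟩
theorem a7_27 : Ans [7] [62] 27 :=
  ⟨by norm_num, 0, by norm_num, by norm_num, by decide, pchk_sound hX7 x7_27⟩
theorem a7_35 : Ans [7] [62] 35 :=
  ⟨by norm_num, 0, by norm_num, by norm_num, by decide, pchk_sound hX7 x7_35⟩
theorem a7_36 : Ans [7] [62] 36 :=
  ⟨by norm_num, 0, by norm_num, by norm_num, by decide, pchk_sound hX7 x7_36⟩
theorem a7_37 : Ans [7] [62] 37 :=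
  ⟨by norm_num, 0, by norm_num, by norm_num, by decide, pchk_sound hX7 x7_37⟩
theorem a7_40 : Ans [7] [62] 40 :=
  ⟨by norm_num, 0, by norm_num, by norm_num, by decide, pchk_sound hX7 x7_40⟩
theorem a7_43 : Ans [7] [62] 43 :=
  ⟨by norm_num, 0, by norm_num, by norm_num, by decide, pchk_sound hX7 x7_43⟩
theorem a7_42 : Ans [7] [62] 42 :=
  ⟨by norm_num, 0, by norm_num, by norm_num, by decide, pchk_sound hX7 x7_42⟩
theorem a7_45 : Ans [7] [62] 45 :=
  ⟨by norm_num, 0, by norm_num, by norm_num, by decide, pchk_sound hX7 x7_45⟩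
theorem a7_47 : Ans [7] [62] 47 :=
  ⟨by norm_num, 0, by norm_num, by norm_num, by decide, pchk_sound hX7 x7_47⟩
theorem a7_60 : Ans [7] [62] 60 :=
  ⟨by norm_num, 0, by norm_num, by norm_num, by decide, pchk_sound hX7 x7_60⟩
theorem a7_65 : Ans [7] [62] 65 :=
  ⟨by norm_num, 0, by norm_num, by norm_num, by decide, pchk_sound hX7 x7_65⟩
theorem a7_66 : Ans [7] [62] 66 :=
  ⟨by norm_num, 0, by norm_num, by norm_num, by decide, pchk_sound hX7 x7_66⟩
theorem a7_67 : Ans [7] [62] 67 :=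
  ⟨by norm_num, 0, by norm_num, by norm_num, by decide, pchk_sound hX7 x7_67⟩
theorem a7_115 : Ans [7] [62] 115 :=
  ⟨by norm_num, 0, by norm_num, by norm_num, by decide, pchk_sound hX7 x7_115⟩
theorem a7_117 : Ans [7] [62] 117 :=
  ⟨by norm_num, 0, by norm_num, by norm_num, by decide, pchk_sound hX7 x7_117⟩
theorem root7 : Pos (mk [7]) (mk [62]) := by
  refine root_sound (Gs := [g0, g66, g56, g67, g59, g68, g30, g69]) (As := [4, 1, 2, 5, 10, 11, 12, 15, 16, 17, 25, 27, 35, 36, 37, 40, 43, 42, 45, 47, 60, 65, 66, 67, 115, 117])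
    (by decide) ?_ (by decide +kernel) (Ans.cons a7_4 (Ans.cons a7_1 (Ans.cons a7_2 (Ans.cons a7_5 (Ans.cons a7_10 (Ans.cons a7_11 (Ans.cons a7_12 (Ans.cons a7_15 (Ans.cons a7_16 (Ans.cons a7_17 (Ans.cons a7_25 (Ans.cons a7_27 (Ans.cons a7_35 (Ans.cons a7_36 (Ans.cons a7_37 (Ans.cons a7_40 (Ans.cons a7_43 (Ans.cons a7_42 (Ans.cons a7_45 (Ans.cons a7_47 (Ans.cons a7_60 (Ans.cons a7_65 (Ans.cons a7_66 (Ans.cons a7_67 (Ans.cons a7_115 (Ans.cons a7_117 Ans.nil))))))))))))))))))))))))))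
  intro G hG
  simp only [List.mem_cons, List.not_mem_nil, or_false] at hG
  rcases hG with rfl | rfl | rfl | rfl | rfl | rfl | rfl | rfl
  · exact sg0
  · exact sg66
  · exact sg56
  · exact sg67
  · exact sg59
  · exact sg68
  · exact sg30
  · exact sg69
theorem hX1 : SolvedF FX1 := (SolvedF.cons (sub_sound FF hFF _ y1_0) (SolvedF.cons (sub_sound FF hFF _ y1_1) (SolvedF.cons (sub_sound FF hFF _ y1_2) SolvedF.nil)))
theorem a1_4 : Ans [1] [62] 4 :=
  ⟨by norm_num, 0, by norm_num, by norm_num, by decide, pchk_sound hX1 x1_4⟩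
theorem a1_2 : Ans [1] [62] 2 :=
  ⟨by norm_num, 0, by norm_num, by norm_num, by decide, pchk_sound hX1 x1_2⟩
theorem a1_3 : Ans [1] [62] 3 :=
  ⟨by norm_num, 0, by norm_num, by norm_num, by decide, pchk_sound hX1 x1_3⟩
theorem a1_5 : Ans [1] [62] 5 :=
  ⟨by norm_num, 0, by norm_num, by norm_num, by decide, pchk_sound hX1 x1_5⟩
theorem a1_6 : Ans [1] [62] 6 :=
  ⟨by norm_num, 0, by norm_num, by norm_num, by decide, pchk_sound hX1 x1_6⟩
theorem a1_7 : Ans [1] [62] 7 :=
  ⟨by norm_num, 0, by norm_num, by norm_num, by decide, pchk_sound hX1 x1_7⟩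
theorem a1_8 : Ans [1] [62] 8 :=
  ⟨by norm_num, 0, by norm_num, by norm_num, by decide, pchk_sound hX1 x1_8⟩
theorem a1_9 : Ans [1] [62] 9 :=
  ⟨by norm_num, 0, by norm_num, by norm_num, by decide, pchk_sound hX1 x1_9⟩
theorem a1_10 : Ans [1] [62] 10 :=
  ⟨by norm_num, 0, by norm_num, by norm_num, by decide, pchk_sound hX1 x1_10⟩
theorem a1_11 : Ans [1] [62] 11 :=
  ⟨by norm_num, 0, by norm_num, by norm_num, by decide, pchk_sound hX1 x1_11⟩
theorem a1_12 : Ans [1] [62] 12 :=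
  ⟨by norm_num, 0, by norm_num, by norm_num, by decide, pchk_sound hX1 x1_12⟩
theorem a1_13 : Ans [1] [62] 13 :=
  ⟨by norm_num, 0, by norm_num, by norm_num, by decide, pchk_sound hX1 x1_13⟩
theorem a1_20 : Ans [1] [62] 20 :=
  ⟨by norm_num, 0, by norm_num, by norm_num, by decide, pchk_sound hX1 x1_20⟩
theorem a1_21 : Ans [1] [62] 21 :=
  ⟨by norm_num, 0, by norm_num, by norm_num, by decide, pchk_sound hX1 x1_21⟩
theorem a1_22 : Ans [1] [62] 22 :=
  ⟨by norm_num, 0, by norm_num, by norm_num, by decide, pchk_sound hX1 x1_22⟩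
theorem a1_23 : Ans [1] [62] 23 :=
  ⟨by norm_num, 0, by norm_num, by norm_num, by decide, pchk_sound hX1 x1_23⟩
theorem a1_30 : Ans [1] [62] 30 :=
  ⟨by norm_num, 0, by norm_num, by norm_num, by decide, pchk_sound hX1 x1_30⟩
theorem a1_31 : Ans [1] [62] 31 :=
  ⟨by norm_num, 0, by norm_num, by norm_num, by decide, pchk_sound hX1 x1_31⟩
theorem a1_32 : Ans [1] [62] 32 :=
  ⟨by norm_num, 0, by norm_num, by norm_num, by decide, pchk_sound hX1 x1_32⟩
theorem a1_93 : Ans [1] [62] 93 :=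
  ⟨by norm_num, 0, by norm_num, by norm_num, by decide, pchk_sound hX1 x1_93⟩
theorem a1_34 : Ans [1] [62] 34 :=
  ⟨by norm_num, 0, by norm_num, by norm_num, by decide, pchk_sound hX1 x1_34⟩
theorem a1_35 : Ans [1] [62] 35 :=
  ⟨by norm_num, 0, by norm_num, by norm_num, by decide, pchk_sound hX1 x1_35⟩
theorem a1_36 : Ans [1] [62] 36 :=
  ⟨by norm_num, 0, by norm_num, by norm_num, by decide, pchk_sound hX1 x1_36⟩
theorem a1_37 : Ans [1] [62] 37 :=
  ⟨by norm_num, 0, by norm_num, by norm_num, by decide, pchk_sound hX1 x1_37⟩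
theorem a1_38 : Ans [1] [62] 38 :=
  ⟨by norm_num, 0, by norm_num, by norm_num, by decide, pchk_sound hX1 x1_38⟩
theorem a1_39 : Ans [1] [62] 39 :=
  ⟨by norm_num, 0, by norm_num, by norm_num, by decide, pchk_sound hX1 x1_39⟩
theorem a1_40 : Ans [1] [62] 40 :=
  ⟨by norm_num, 0, by norm_num, by norm_num, by decide, pchk_sound hX1 x1_40⟩
theorem a1_41 : Ans [1] [62] 41 :=
  ⟨by norm_num, 0, by norm_num, by norm_num, by decide, pchk_sound hX1 x1_41⟩
theorem a1_42 : Ans [1] [62] 42 :=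
  ⟨by norm_num, 0, by norm_num, by norm_num, by decide, pchk_sound hX1 x1_42⟩
theorem a1_43 : Ans [1] [62] 43 :=
  ⟨by norm_num, 0, by norm_num, by norm_num, by decide, pchk_sound hX1 x1_43⟩
theorem a1_45 : Ans [1] [62] 45 :=
  ⟨by norm_num, 0, by norm_num, by norm_num, by decide, pchk_sound hX1 x1_45⟩
theorem a1_46 : Ans [1] [62] 46 :=
  ⟨by norm_num, 0, by norm_num, by norm_num, by decide, pchk_sound hX1 x1_46⟩
theorem a1_47 : Ans [1] [62] 47 :=
  ⟨by norm_num, 0, by norm_num, by norm_num, by decide, pchk_sound hX1 x1_47⟩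
theorem a1_48 : Ans [1] [62] 48 :=
  ⟨by norm_num, 0, by norm_num, by norm_num, by decide, pchk_sound hX1 x1_48⟩
theorem a1_49 : Ans [1] [62] 49 :=
  ⟨by norm_num, 0, by norm_num, by norm_num, by decide, pchk_sound hX1 x1_49⟩
theorem a1_60 : Ans [1] [62] 60 :=
  ⟨by norm_num, 0, by norm_num, by norm_num, by decide, pchk_sound hX1 x1_60⟩
theorem a1_61 : Ans [1] [62] 61 :=
  ⟨by norm_num, 0, by norm_num, by norm_num, by decide, pchk_sound hX1 x1_61⟩
theorem a1_63 : Ans [1] [62] 63 :=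
  ⟨by norm_num, 0, by norm_num, by norm_num, by decide, pchk_sound hX1 x1_63⟩
theorem a1_70 : Ans [1] [62] 70 :=
  ⟨by norm_num, 0, by norm_num, by norm_num, by decide, pchk_sound hX1 x1_70⟩
theorem a1_71 : Ans [1] [62] 71 :=
  ⟨by norm_num, 0, by norm_num, by norm_num, by decide, pchk_sound hX1 x1_71⟩
theorem a1_72 : Ans [1] [62] 72 :=
  ⟨by norm_num, 0, by norm_num, by norm_num, by decide, pchk_sound hX1 x1_72⟩
theorem a1_73 : Ans [1] [62] 73 :=
  ⟨by norm_num, 0, by norm_num, by norm_num, by decide, pchk_sound hX1 x1_73⟩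
theorem a1_120 : Ans [1] [62] 120 :=
  ⟨by norm_num, 0, by norm_num, by norm_num, by decide, pchk_sound hX1 x1_120⟩
theorem a1_121 : Ans [1] [62] 121 :=
  ⟨by norm_num, 0, by norm_num, by norm_num, by decide, pchk_sound hX1 x1_121⟩
theorem a1_122 : Ans [1] [62] 122 :=
  ⟨by norm_num, 0, by norm_num, by norm_num, by decide, pchk_sound hX1 x1_122⟩
theorem a1_123 : Ans [1] [62] 123 :=
  ⟨by norm_num, 0, by norm_num, by norm_num, by decide, pchk_sound hX1 x1_123⟩
theorem root1 : Pos (mk [1]) (mk [62]) := by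
  refine root_sound (Gs := [g0, g65, g60, g50]) (As := [4, 2, 3, 5, 6, 7, 8, 9, 10, 11, 12, 13, 20, 21, 22, 23, 30, 31, 32, 93, 34, 35, 36, 37, 38, 39, 40, 41, 42, 43, 45, 46, 47, 48, 49, 60, 61, 63, 70, 71, 72, 73, 120, 121, 122, 123])
    (by decide) ?_ (by decide +kernel) (Ans.cons a1_4 (Ans.cons a1_2 (Ans.cons a1_3 (Ans.cons a1_5 (Ans.cons a1_6 (Ans.cons a1_7 (Ans.cons a1_8 (Ans.cons a1_9 (Ans.cons a1_10 (Ans.cons a1_11 (Ans.cons a1_12 (Ans.cons a1_13 (Ans.cons a1_20 (Ans.cons a1_21 (Ans.cons a1_22 (Ans.cons a1_23 (Ans.cons a1_30 (Ans.cons a1_31 (Ans.cons a1_32 (Ans.cons a1_93 (Ans.cons a1_34 (Ans.cons a1_35 (Ans.cons a1_36 (Ans.cons a1_37 (Ans.cons a1_38 (Ans.cons a1_39 (Ans.cons a1_40 (Ans.cons a1_41 (Ans.cons a1_42 (Ans.cons a1_43 (Ans.cons a1_45 (Ans.cons a1_46 (Ans.cons a1_47 (Ans.cons a1_48 (Ans.cons a1_49 (Ans.cons a1_60 (Ans.cons a1_61 (Ans.cons a1_63 (Ans.cons a1_70 (Ans.cons a1_71 (Ans.cons a1_72 (Ans.cons a1_73 (Ans.cons a1_120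 (Ans.cons a1_121 (Ans.cons a1_122 (Ans.cons a1_123 Ans.nil))))))))))))))))))))))))))))))))))))))))))))))
  intro G hG
  simp only [List.mem_cons, List.not_mem_nil, or_false] at hG
  rcases hG with rfl | rfl | rfl | rfl
  · exact sg0
  · exact sg65
  · exact sg60
  · exact sg50
theorem rb62 : Ans [] [] 62 := ⟨by norm_num, 0, by norm_num, by norm_num, by simp, root62⟩
theorem rb0 : Ans [] [] 0 := ⟨by norm_num, 62, by norm_num, by norm_num, by simp, root0⟩
theorem rb12 : Ans [] [] 12 := ⟨by norm_num, 62, by norm_num, by norm_num, by simp, root12⟩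
theorem rb1 : Ans [] [] 1 := ⟨by norm_num, 62, by norm_num, by norm_num, by simp, root1⟩
theorem rb2 : Ans [] [] 2 := ⟨by norm_num, 62, by norm_num, by norm_num, by simp, root2⟩
theorem rb7 : Ans [] [] 7 := ⟨by norm_num, 62, by norm_num, by norm_num, by simp, root7⟩
theorem root : Pos (mk []) (mk []) := by
  refine root_sound (Gs := [g0, g1, g2, g3, g4, g5, g6, g7, g8, g9, g10, g11, g12, g13, g14, g15, g16, g17, g18, g19, g20, g21, g22, g23, g24, g25, g26, g27, g28, g29, g30, g31, g32, g33, g34, g35, g36, g37, g38, g39, g40, g41, g42, g43, g44, g45, g46, g47]) (As := [62, 0, 12, 1, 2, 7])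
    (by decide) ?_ (by decide +kernel) (Ans.cons rb62 (Ans.cons rb0 (Ans.cons rb12 (Ans.cons rb1 (Ans.cons rb2 (Ans.cons rb7 Ans.nil))))))
  intro G hG
  simp only [List.mem_cons, List.not_mem_nil, or_false] at hG
  rcases hG with rfl | rfl | rfl | rfl | rfl | rfl | rfl | rfl | rfl | rfl | rfl | rfl | rfl | rfl | rfl | rfl | rfl | rfl | rfl | rfl | rfl | rfl | rfl | rfl | rfl | rfl | rfl | rfl | rfl | rfl | rfl | rfl | rfl | rfl | rfl | rfl | rfl | rfl | rfl | rfl | rfl | rfl | rfl | rfl | rfl | rfl | rfl | rfl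
  · exact sg0
  · exact sg1
  · exact sg2
  · exact sg3
  · exact sg4
  · exact sg5
  · exact sg6
  · exact sg7
  · exact sg8
  · exact sg9
  · exact sg10
  · exact sg11
  · exact sg12
  · exact sg13
  · exact sg14
  · exact sg15
  · exact sg16
  · exact sg17
  · exact sg18
  · exact sg19
  · exact sg20
  · exact sg21
  · exact sg22
  · exact sg23
  · exact sg24
  · exact sg25
  · exact sg26
  · exact sg27
  · exact sg28
  · exact sg29
  · exact sg30
  · exact sg31
  · exact sg32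
  · exact sg33
  · exact sg34
  · exact sg35
  · exact sg36
  · exact sg37
  · exact sg38
  · exact sg39
  · exact sg40
  · exact sg41
  · exact sg42
  · exact sg43
  · exact sg44
  · exact sg45
  · exact sg46
  · exact sg47

/-- Breaker wins on the lines of the cube of side five -/
theorem five : BW (cubeLines 5) := five_of_root root

end Pool.Agent.H425R2
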