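import Pool.Agent.H425R2.S0
import Pool.Agent.H425R2.S1
import Pool.Agent.H425R2.S2

set_option autoImplicit false
set_option maxRecDepth 100000

namespace Pool.Agent.H425R2

/-- all shapes -/
def TT : Tr := (Tr.node (nat_lit 256) b0 (Tr.node (nat_lit 11008) (Tr.node (nat_lit 1536) (Tr.node (nat_lit 512) b1 (Tr.node (nat_lit 1280) (Tr.node (nat_lit 768) b2 (Tr.node (nat_lit 1024) b3 b4)) b5)) (Tr.node (nat_lit 4352) (Tr.node (nat_lit 2048) (Tr.node (nat_lit 1792) b6 b7) (Tr.node (nat_lit 3840) (Tr.node (nat_lit 2304) b8 (Tr.node (nat_lit 2560) b9 (Tr.node (nat_lit 2816) b10 (Tr.node (nat_lit 3072) b11 (Tr.node (nat_lit 3328) b12 (Tr.node (nat_lit 3584) b13 b14)))))) (Tr.node (nat_lit 4096) b15 b16))) (Tr.node (nat_lit 5376) (Tr.node (nat_lit 4608) b17 (Tr.node (nat_lit 4864) b18 (Tr.node (nat_lit 5120) b19 b20))) (Tr.node (nat_lit 7936) (Tr.node (nat_lit 6400) (Tr.node (nat_lit 5632) b21 (Tr.node (nat_lit 5888) b22 (Tr.node (nat_lit 6144) b23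 b24))) (Tr.node (nat_lit 7680) (Tr.node (nat_lit 6912) (Tr.node (nat_lit 6656) b25 b26) (Tr.node (nat_lit 7168) b27 (Tr.node (nat_lit 7424) b28 b29))) b30)) (Tr.node (nat_lit 8448) (Tr.node (nat_lit 8192) b31 b32) (Tr.node (nat_lit 9216) (Tr.node (nat_lit 8704) b33 (Tr.node (nat_lit 8960) b34 b35)) (Tr.node (nat_lit 9728) (Tr.node (nat_lit 9472) b36 b37) (Tr.node (nat_lit 10240) (Tr.node (nat_lit 9984) b38 b39) (Tr.node (nat_lit 10496) b40 (Tr.node (nat_lit 10752) b41 b42)))))))))) (Tr.node (nat_lit 41984) (Tr.node (nat_lit 22016) (Tr.node (nat_lit 13056) (Tr.node (nat_lit 12032) (Tr.node (nat_lit 11776) (Tr.node (nat_lit 11520) (Tr.node (nat_lit 11264) b43 b44) b45) b46) (Tr.node (nat_lit 12800) (Tr.node (nat_lit 12544) (Tr.node (nat_lit 12288) b47 b48) b49) b50)) (Tr.node (nat_lit 15104) (Tr.node (nat_lit 13824) (Tr.node (nat_lit 13312) b51 (Tr.node (nat_lit 13568) b52 b53)) (Tr.node (nat_lit 14336) (Tr.node (nat_lit 14080) b54 b55) (Tr.node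 (nat_lit 14592) b56 (Tr.node (nat_lit 14848) b57 b58)))) (Tr.node (nat_lit 17920) (Tr.node (nat_lit 16128) (Tr.node (nat_lit 15616) (Tr.node (nat_lit 15360) b59 b60) (Tr.node (nat_lit 15872) b61 b62)) (Tr.node (nat_lit 16896) (Tr.node (nat_lit 16384) b63 (Tr.node (nat_lit 16640) b64 b65)) (Tr.node (nat_lit 17408) (Tr.node (nat_lit 17152) b66 b67) (Tr.node (nat_lit 17664) b68 b69)))) (Tr.node (nat_lit 21248) (Tr.node (nat_lit 19456) (Tr.node (nat_lit 18688) (Tr.node (nat_lit 18176) b70 (Tr.node (nat_lit 18432) b71 b72)) (Tr.node (nat_lit 18944) b73 (Tr.node (nat_lit 19200) b74 b75))) (Tr.node (nat_lit 20224) (Tr.node (nat_lit 19712) b76 (Tr.node (nat_lit 19968) b77 b78)) (Tr.node (nat_lit 20736) (Tr.node (nat_lit 20480) b79 b80) (Tr.node (nat_lit 20992) b81 b82)))) (Tr.node (nat_lit 21760) (Tr.node (nat_lit 21504) b83 b84) b85))))) (Tr.node (nat_lit 30720) (Tr.node (nat_lit 25088) (Tr.node (nat_lit 24576) (Tr.node (nat_lit 22784) (Tr.node (nat_lit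 22272) b86 (Tr.node (nat_lit 22528) b87 b88)) (Tr.node (nat_lit 23552) (Tr.node (nat_lit 23040) b89 (Tr.node (nat_lit 23296) b90 b91)) (Tr.node (nat_lit 24064) (Tr.node (nat_lit 23808) b92 b93) (Tr.node (nat_lit 24320) b94 b95)))) (Tr.node (nat_lit 24832) b96 b97)) (Tr.node (nat_lit 27136) (Tr.node (nat_lit 25856) (Tr.node (nat_lit 25344) b98 (Tr.node (nat_lit 25600) b99 b100)) (Tr.node (nat_lit 26368) (Tr.node (nat_lit 26112) b101 b102) (Tr.node (nat_lit 26624) b103 (Tr.node (nat_lit 26880) b104 b105)))) (Tr.node (nat_lit 30208) (Tr.node (nat_lit 28416) (Tr.node (nat_lit 27648) (Tr.node (nat_lit 27392) b106 b107) (Tr.node (nat_lit 27904) b108 (Tr.node (nat_lit 28160) b109 b110))) (Tr.node (nat_lit 29184) (Tr.node (nat_lit 28672) b111 (Tr.node (nat_lit 28928) b112 b113)) (Tr.node (nat_lit 29696) (Tr.node (nat_lit 29440) b114 b115) (Tr.node (nat_lit 29952) b116 b117)))) (Tr.node (nat_lit 30464) b118 b119)))) (Tr.node (nat_lit 37888) (Tr.node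 (nat_lit 33792) (Tr.node (nat_lit 31744) (Tr.node (nat_lit 31232) (Tr.node (nat_lit 30976) b120 b121) (Tr.node (nat_lit 31488) b122 b123)) (Tr.node (nat_lit 32512) (Tr.node (nat_lit 32000) b124 (Tr.node (nat_lit 32256) b125 b126)) (Tr.node (nat_lit 33024) (Tr.node (nat_lit 32768) b127 b128) (Tr.node (nat_lit 33280) b129 (Tr.node (nat_lit 33536) b130 b131))))) (Tr.node (nat_lit 37120) (Tr.node (nat_lit 35328) (Tr.node (nat_lit 34560) (Tr.node (nat_lit 34048) b132 (Tr.node (nat_lit 34304) b133 b134)) (Tr.node (nat_lit 34816) b135 (Tr.node (nat_lit 35072) b136 b137))) (Tr.node (nat_lit 36096) (Tr.node (nat_lit 35584) b138 (Tr.node (nat_lit 35840) b139 b140)) (Tr.node (nat_lit 36608) (Tr.node (nat_lit 36352) b141 b142) (Tr.node (nat_lit 36864) b143 b144)))) (Tr.node (nat_lit 37632) (Tr.node (nat_lit 37376) b145 b146) b147))) (Tr.node (nat_lit 38912) (Tr.node (nat_lit 38144) b148 (Tr.node (nat_lit 38400) b149 (Tr.node (nat_lit 38656) b150 b151)))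 (Tr.node (nat_lit 40704) (Tr.node (nat_lit 39424) (Tr.node (nat_lit 39168) b152 b153) (Tr.node (nat_lit 39936) (Tr.node (nat_lit 39680) b154 b155) (Tr.node (nat_lit 40192) b156 (Tr.node (nat_lit 40448) b157 b158)))) (Tr.node (nat_lit 41472) (Tr.node (nat_lit 40960) b159 (Tr.node (nat_lit 41216) b160 b161)) (Tr.node (nat_lit 41728) b162 b163))))))) (Tr.node (nat_lit 71936) (Tr.node (nat_lit 56320) (Tr.node (nat_lit 45312) (Tr.node (nat_lit 42752) (Tr.node (nat_lit 42240) b164 (Tr.node (nat_lit 42496) b165 b166)) (Tr.node (nat_lit 43776) (Tr.node (nat_lit 43264) (Tr.node (nat_lit 43008) b167 b168) (Tr.node (nat_lit 43520) b169 b170)) (Tr.node (nat_lit 44544) (Tr.node (nat_lit 44032) b171 (Tr.node (nat_lit 44288) b172 b173)) (Tr.node (nat_lit 44800) b174 (Tr.node (nat_lit 45056) b175 b176))))) (Tr.node (nat_lit 51200) (Tr.node (nat_lit 47872) (Tr.node (nat_lit 46336) (Tr.node (nat_lit 45824) (Tr.node (nat_lit 45568) b177 b178) (Tr.node (nat_lit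 46080) b179 b180)) (Tr.node (nat_lit 47104) (Tr.node (nat_lit 46592) b181 (Tr.node (nat_lit 46848) b182 b183)) (Tr.node (nat_lit 47360) b184 (Tr.node (nat_lit 47616) b185 b186)))) (Tr.node (nat_lit 49408) (Tr.node (nat_lit 48640) (Tr.node (nat_lit 48128) b187 (Tr.node (nat_lit 48384) b188 b189)) (Tr.node (nat_lit 48896) b190 (Tr.node (nat_lit 49152) b191 b192))) (Tr.node (nat_lit 50176) (Tr.node (nat_lit 49664) b193 (Tr.node (nat_lit 49920) b194 b195)) (Tr.node (nat_lit 50688) (Tr.node (nat_lit 50432) b196 b197) (Tr.node (nat_lit 50944) b198 b199))))) (Tr.node (nat_lit 53248) (Tr.node (nat_lit 52736) (Tr.node (nat_lit 51968) (Tr.node (nat_lit 51456) b200 (Tr.node (nat_lit 51712) b201 b202)) (Tr.node (nat_lit 52224) b203 (Tr.node (nat_lit 52480) b204 b205))) (Tr.node (nat_lit 52992) b206 b207)) (Tr.node (nat_lit 54528) (Tr.node (nat_lit 53760) (Tr.node (nat_lit 53504) b208 b209) (Tr.node (nat_lit 54016) b210 (Tr.node (nat_lit 54272) b211 b212)))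 (Tr.node (nat_lit 55296) (Tr.node (nat_lit 54784) b213 (Tr.node (nat_lit 55040) b214 b215)) (Tr.node (nat_lit 55808) (Tr.node (nat_lit 55552) b216 b217) (Tr.node (nat_lit 56064) b218 b219))))))) (Tr.node (nat_lit 61952) (Tr.node (nat_lit 58368) (Tr.node (nat_lit 57344) (Tr.node (nat_lit 56576) b220 (Tr.node (nat_lit 56832) b221 (Tr.node (nat_lit 57088) b222 b223))) (Tr.node (nat_lit 57600) b224 (Tr.node (nat_lit 57856) b225 (Tr.node (nat_lit 58112) b226 b227)))) (Tr.node (nat_lit 60672) (Tr.node (nat_lit 59648) (Tr.node (nat_lit 58880) (Tr.node (nat_lit 58624) b228 b229) (Tr.node (nat_lit 59136) b230 (Tr.node (nat_lit 59392) b231 b232))) (Tr.node (nat_lit 60416) (Tr.node (nat_lit 59904) b233 (Tr.node (nat_lit 60160) b234 b235)) b236)) (Tr.node (nat_lit 60928) b237 (Tr.node (nat_lit 61440) (Tr.node (nat_lit 61184) b238 b239) (Tr.node (nat_lit 61696) b240 b241))))) (Tr.node (nat_lit 68096) (Tr.node (nat_lit 64768) (Tr.node (nat_lit 62976) (Tr.node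 (nat_lit 62464) (Tr.node (nat_lit 62208) b242 b243) (Tr.node (nat_lit 62720) b244 b245)) (Tr.node (nat_lit 63744) (Tr.node (nat_lit 63232) b246 (Tr.node (nat_lit 63488) b247 b248)) (Tr.node (nat_lit 64256) (Tr.node (nat_lit 64000) b249 b250) (Tr.node (nat_lit 64512) b251 b252)))) (Tr.node (nat_lit 66304) (Tr.node (nat_lit 65536) (Tr.node (nat_lit 65024) b253 (Tr.node (nat_lit 65280) b254 b255)) (Tr.node (nat_lit 65792) b256 (Tr.node (nat_lit 66048) b257 b258))) (Tr.node (nat_lit 67072) (Tr.node (nat_lit 66560) b259 (Tr.node (nat_lit 66816) b260 b261)) (Tr.node (nat_lit 67584) (Tr.node (nat_lit 67328) b262 b263) (Tr.node (nat_lit 67840) b264 b265))))) (Tr.node (nat_lit 69888) (Tr.node (nat_lit 68352) b266 (Tr.node (nat_lit 68864) (Tr.node (nat_lit 68608) b267 b268) (Tr.node (nat_lit 69376) (Tr.node (nat_lit 69120) b269 b270) (Tr.node (nat_lit 69632) b271 b272)))) (Tr.node (nat_lit 71680) (Tr.node (nat_lit 70656) (Tr.node (nat_lit 70144) b273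 (Tr.node (nat_lit 70400) b274 b275)) (Tr.node (nat_lit 71168) (Tr.node (nat_lit 70912) b276 b277) (Tr.node (nat_lit 71424) b278 b279))) b280))))) (Tr.node (nat_lit 90112) (Tr.node (nat_lit 81408) (Tr.node (nat_lit 75520) (Tr.node (nat_lit 73216) (Tr.node (nat_lit 72448) (Tr.node (nat_lit 72192) b281 b282) (Tr.node (nat_lit 72704) b283 (Tr.node (nat_lit 72960) b284 b285))) (Tr.node (nat_lit 73984) (Tr.node (nat_lit 73472) b286 (Tr.node (nat_lit 73728) b287 b288)) (Tr.node (nat_lit 74752) (Tr.node (nat_lit 74240) b289 (Tr.node (nat_lit 74496) b290 b291)) (Tr.node (nat_lit 75008) b292 (Tr.node (nat_lit 75264) b293 b294))))) (Tr.node (nat_lit 78848) (Tr.node (nat_lit 77056) (Tr.node (nat_lit 76288) (Tr.node (nat_lit 75776) b295 (Tr.node (nat_lit 76032) b296 b297)) (Tr.node (nat_lit 76544) b298 (Tr.node (nat_lit 76800) b299 b300))) (Tr.node (nat_lit 77824) (Tr.node (nat_lit 77312) b301 (Tr.node (nat_lit 77568) b302 b303)) (Tr.node (nat_lit 78336)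 (Tr.node (nat_lit 78080) b304 b305) (Tr.node (nat_lit 78592) b306 b307)))) (Tr.node (nat_lit 79616) (Tr.node (nat_lit 79360) (Tr.node (nat_lit 79104) b308 b309) b310) (Tr.node (nat_lit 80384) (Tr.node (nat_lit 79872) b311 (Tr.node (nat_lit 80128) b312 b313)) (Tr.node (nat_lit 80896) (Tr.node (nat_lit 80640) b314 b315) (Tr.node (nat_lit 81152) b316 b317)))))) (Tr.node (nat_lit 85248) (Tr.node (nat_lit 82432) (Tr.node (nat_lit 82176) (Tr.node (nat_lit 81920) (Tr.node (nat_lit 81664) b318 b319) b320) b321) (Tr.node (nat_lit 83968) (Tr.node (nat_lit 83200) (Tr.node (nat_lit 82688) b322 (Tr.node (nat_lit 82944) b323 b324)) (Tr.node (nat_lit 83456) b325 (Tr.node (nat_lit 83712) b326 b327))) (Tr.node (nat_lit 84736) (Tr.node (nat_lit 84224) b328 (Tr.node (nat_lit 84480) b329 b330)) (Tr.node (nat_lit 84992) b331 b332)))) (Tr.node (nat_lit 87552) (Tr.node (nat_lit 86272) (Tr.node (nat_lit 86016) (Tr.node (nat_lit 85760) (Tr.node (nat_lit 85504) b333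 b334) b335) b336) (Tr.node (nat_lit 86784) (Tr.node (nat_lit 86528) b337 b338) (Tr.node (nat_lit 87040) b339 (Tr.node (nat_lit 87296) b340 b341)))) (Tr.node (nat_lit 89344) (Tr.node (nat_lit 88320) (Tr.node (nat_lit 87808) b342 (Tr.node (nat_lit 88064) b343 b344)) (Tr.node (nat_lit 88832) (Tr.node (nat_lit 88576) b345 b346) (Tr.node (nat_lit 89088) b347 b348))) (Tr.node (nat_lit 89856) (Tr.node (nat_lit 89600) b349 b350) b351))))) (Tr.node (nat_lit 98560) (Tr.node (nat_lit 93952) (Tr.node (nat_lit 92160) (Tr.node (nat_lit 91648) (Tr.node (nat_lit 90880) (Tr.node (nat_lit 90368) b352 (Tr.node (nat_lit 90624) b353 b354)) (Tr.node (nat_lit 91136) b355 (Tr.node (nat_lit 91392) b356 b357))) (Tr.node (nat_lit 91904) b358 b359)) (Tr.node (nat_lit 92672) (Tr.node (nat_lit 92416) b360 b361) (Tr.node (nat_lit 93184) (Tr.node (nat_lit 92928) b362 b363) (Tr.node (nat_lit 93440) b364 (Tr.node (nat_lit 93696) b365 b366))))) (Tr.node (nat_lit 96768) (Tr.node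 (nat_lit 95488) (Tr.node (nat_lit 94720) (Tr.node (nat_lit 94208) b367 (Tr.node (nat_lit 94464) b368 b369)) (Tr.node (nat_lit 95232) (Tr.node (nat_lit 94976) b370 b371) b372)) (Tr.node (nat_lit 96000) (Tr.node (nat_lit 95744) b373 b374) (Tr.node (nat_lit 96256) b375 (Tr.node (nat_lit 96512) b376 b377)))) (Tr.node (nat_lit 97024) b378 (Tr.node (nat_lit 97536) (Tr.node (nat_lit 97280) b379 b380) (Tr.node (nat_lit 98048) (Tr.node (nat_lit 97792) b381 b382) (Tr.node (nat_lit 98304) b383 b384)))))) (Tr.node (nat_lit 102400) (Tr.node (nat_lit 100352) (Tr.node (nat_lit 99840) (Tr.node (nat_lit 99072) (Tr.node (nat_lit 98816) b385 b386) (Tr.node (nat_lit 99328) b387 (Tr.node (nat_lit 99584) b388 b389))) (Tr.node (nat_lit 100096) b390 b391)) (Tr.node (nat_lit 101376) (Tr.node (nat_lit 101120) (Tr.node (nat_lit 100608) b392 (Tr.node (nat_lit 100864) b393 b394)) b395) (Tr.node (nat_lit 102144) (Tr.node (nat_lit 101632) b396 (Tr.node (nat_lit 101888) b397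 b398)) b399))) (Tr.node (nat_lit 104448) (Tr.node (nat_lit 103680) (Tr.node (nat_lit 102912) (Tr.node (nat_lit 102656) b400 b401) (Tr.node (nat_lit 103168) b402 (Tr.node (nat_lit 103424) b403 b404))) (Tr.node (nat_lit 103936) b405 (Tr.node (nat_lit 104192) b406 b407))) (Tr.node (nat_lit 105472) (Tr.node (nat_lit 104960) (Tr.node (nat_lit 104704) b408 b409) (Tr.node (nat_lit 105216) b410 b411)) (Tr.node (nat_lit 105984) (Tr.node (nat_lit 105728) b412 b413) (Tr.node (nat_lit 106240) b414 (Tr.node (nat_lit 106496) b415 b416))))))))))))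

end Pool.Agent.H425R2
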