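import Mathlib.Data.List.Nodup
import Mathlib.Data.Fintype.Card
import Mathlib.Data.List.Perm.Basic
import Mathlib.Data.Fintype.EquivFin
import Mathlib.Tactic

/-!
Strategy stealing for games in which two players alternately take cells of a board of odd size and
the first player owning a winning set wins: the second player has no winning strategy.
-/

set_option autoImplicit false

namespace Pool.Agent.H425R2.Steal

variable {α : Type*} [Fintype α] [DecidableEq α]

/-- a duplicate-free list shorter than the board misses a cell -/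
theorem exists_free (l : List α) (h : l.length < Fintype.card α) : ∃ c, c ∉ l := by
  by_contra hc
  push Not at hc
  have : Fintype.card α ≤ l.toFinset.card := by
    rw [← Finset.card_univ]
    exact Finset.card_le_card (fun x _ => by simpa using hc x)
  have h2 := l.toFinset_card_le
  omega

/-- the two coupled plays: `P` is the real one, `Q` the imaginary one, `e` the extra cell -/
structure Coup (σ : List α → α) (k : ℕ) (P Q : List α) (e : α) : Prop where
  lenP : P.length = 2 * k + 1
  lenQ : Q.length = 2 * k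
  nd : P.Nodup
  perm : P.Perm (e :: Q)
  foP : ∀ i : ℕ, Odd i → ∀ c, P[i]? = some c → c = σ (P.take i)
  foQ : ∀ i : ℕ, Odd i → ∀ c, Q[i]? = some c → c = σ (Q.take i)
  opp : ∀ i : ℕ, Odd i → ∀ c, P[i]? = some c → Q[i - 1]? = some c
  own : ∀ i : ℕ, Odd i → ∀ c, Q[i]? = some c → ∃ j : ℕ, j ≤ i + 1 ∧ Even j ∧ P[j]? = some c
  ext : ∃ j : ℕ, Even j ∧ P[j]? = some e

theorem coup_zero (σ : List α → α) (x : α) : Coup σ 0 [x] [] x where
  lenP := rfl
  lenQ := rfl
  nd := by simp
  perm := List.Perm.refl _
  foP := by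
    intro i hi c hc
    rcases i with _ | i
    · exact absurd hi (by decide)
    · simp at hc
  foQ := by intro i hi c hc; simp at hc
  opp := by
    intro i hi c hc
    rcases i with _ | i
    · exact absurd hi (by decide)
    · simp at hc
  own := by intro i hi c hc; simp at hc
  ext := ⟨0, by decide, rfl⟩

omit [Fintype α] [DecidableEq α] in
theorem fo_append {σ : List α → α} {l : List α} {a b : α} {k : ℕ} (hl : l.length = 2 * k + 1)
    (h : ∀ i : ℕ, Odd i → ∀ c, l[i]? = some c → c = σ (l.take i)) (ha : a = σ l) :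
    ∀ i : ℕ, Odd i → ∀ c, (l ++ [a, b])[i]? = some c → c = σ ((l ++ [a, b]).take i) := by
  intro i hi c hc
  rcases lt_trichotomy i l.length with h1 | h1 | h1
  · rw [List.getElem?_append_left h1] at hc
    rw [List.take_append_of_le_length h1.le]
    exact h i hi c hc
  · subst h1
    rw [List.getElem?_append_right le_rfl] at hc
    simp at hc
    rw [List.take_append_of_le_length le_rfl, List.take_length, ← ha, hc]
  · obtain ⟨m, hm⟩ := hi
    rw [List.getElem?_append_right h1.le] at hc
    obtain ⟨d, hd⟩ : ∃ d, i - l.length = d + 2 := ⟨i - l.length - 2, by omega⟩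
    rw [hd] at hc
    simp at hc

omit [Fintype α] [DecidableEq α] in
theorem fo_append' {σ : List α → α} {l : List α} {a b : α} {k : ℕ} (hl : l.length = 2 * k)
    (h : ∀ i : ℕ, Odd i → ∀ c, l[i]? = some c → c = σ (l.take i)) (hb : b = σ (l ++ [a])) :
    ∀ i : ℕ, Odd i → ∀ c, (l ++ [a, b])[i]? = some c → c = σ ((l ++ [a, b]).take i) := by
  intro i hi c hc
  obtain ⟨m, hm⟩ := hi
  rcases lt_or_ge i l.length with h1 | h1
  · rw [List.getElem?_append_left h1] at hc
    rw [List.take_append_of_le_length h1.le]
    exact h i ⟨m, hm⟩ c hc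
  · rw [List.getElem?_append_right h1] at hc
    rcases Nat.eq_or_lt_of_le (show l.length + 1 ≤ i by omega) with h2 | h2
    · rw [← h2] at hc ⊢
      have e1 : l.length + 1 - l.length = 1 := by omega
      rw [e1] at hc
      simp at hc
      have e2 : (l ++ [a, b]).take (l.length + 1) = l ++ [a] := by
        rw [show l ++ [a, b] = (l ++ [a]) ++ [b] by simp]
        rw [List.take_append_of_le_length (by simp)]
        rw [List.take_of_length_le (by simp)]
      rw [e2, ← hb, hc]
    · obtain ⟨d, hd⟩ : ∃ d, i - l.length = d + 2 := ⟨i - l.length - 2, by omega⟩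
      rw [hd] at hc
      simp at hc

theorem coup_step {σ : List α → α} {k : ℕ} {P Q : List α} {e : α}
    (hσ : ∀ l : List α, l.Nodup → Odd l.length → l.length < Fintype.card α → σ l ∉ l)
    (hN : Odd (Fintype.card α)) (hk : 2 * k + 1 < Fintype.card α) (h : Coup σ k P Q e) :
    ∃ P' Q' e' a b, Coup σ (k + 1) (P ++ P') (Q ++ Q') e' ∧ P' = [σ P, a] ∧ Q' = [σ P, b] := by
  have hoP : Odd P.length := by rw [h.lenP]; exact ⟨k, rfl⟩
  have hy : σ P ∉ P := hσ P h.nd hoP (by rw [h.lenP]; exact hk)
  have hk2 : 2 * k + 2 < Fintype.card α := by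
    obtain ⟨m, hm⟩ := hN
    omega
  have hyeQ : σ P ∉ e :: Q := fun hh => hy (h.perm.mem_iff.2 hh)
  have hndeQ : (e :: Q).Nodup := h.perm.nodup_iff.1 h.nd
  have hye : σ P ≠ e := fun hh => hyeQ (by rw [hh]; simp)
  have hyQ : σ P ∉ Q := fun hh => hyeQ (List.mem_cons_of_mem _ hh)
  have heQ : e ∉ Q := (List.nodup_cons.1 hndeQ).1
  have hndQ : Q.Nodup := (List.nodup_cons.1 hndeQ).2
  have hndQ' : (Q ++ [σ P]).Nodup := by
    rw [List.nodup_append]
    refine ⟨hndQ, by simp, ?_⟩
    intro a ha b hb
    rw [List.mem_singleton] at hb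
    subst hb
    exact fun hh => hyQ (hh ▸ ha)
  have hz : σ (Q ++ [σ P]) ∉ Q ++ [σ P] := by
    refine hσ _ hndQ' ?_ ?_
    · simp [h.lenQ]
    · simp [h.lenQ]; omega
  have hfoP := h.foP
  have hfoQ := h.foQ
  -- the common part
  have key : ∀ (w e' : α), w ∉ P → w ≠ σ P →
      (P ++ [σ P, w]).Perm (e' :: (Q ++ [σ P, σ (Q ++ [σ P])])) →
      (∃ j : ℕ, j ≤ 2 * k + 2 ∧ Even j ∧ (P ++ [σ P, w])[j]? = some (σ (Q ++ [σ P]))) →
      (∃ j : ℕ, Even j ∧ (P ++ [σ P, w])[j]? = some e') →
      Coup σ (k + 1) (P ++ [σ P, w]) (Q ++ [σ P, σ (Q ++ [σ P])]) e' := by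
    intro w e' hwP hwy hperm hown hext
    refine ⟨by simp [h.lenP]; ring, by simp [h.lenQ]; ring, ?_, hperm, fo_append h.lenP hfoP rfl,
      fo_append' h.lenQ hfoQ rfl, ?_, ?_, hext⟩
    · rw [List.nodup_append]
      refine ⟨h.nd, by simp [Ne.symm hwy], ?_⟩
      intro a ha b hb
      simp only [List.mem_cons, List.not_mem_nil, or_false] at hb
      rcases hb with rfl | rfl
      · exact fun hh => hy (hh ▸ ha)
      · exact fun hh => hwP (hh ▸ ha)
    · intro i hi c hc
      obtain ⟨m, hm⟩ := hi
      rcases lt_trichotomy i P.length with h1 | h1 | h1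
      · rw [List.getElem?_append_left h1] at hc
        have := h.opp i ⟨m, hm⟩ c hc
        have hlt : i - 1 < Q.length := by rw [h.lenQ]; rw [h.lenP] at h1; omega
        rw [List.getElem?_append_left hlt]
        exact this
      · rw [List.getElem?_append_right h1.ge] at hc
        have e1 : i - P.length = 0 := by omega
        rw [e1] at hc
        simp at hc
        have e2 : i - 1 = Q.length := by rw [h.lenQ]; rw [h.lenP] at h1; omega
        rw [e2, List.getElem?_append_right le_rfl]
        simp [hc]
      · rw [List.getElem?_append_right h1.le] at hc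
        obtain ⟨d, hd⟩ : ∃ d, i - P.length = d + 2 := ⟨i - P.length - 2, by rw [h.lenP] at h1 ⊢; omega⟩
        rw [hd] at hc
        simp at hc
    · intro i hi c hc
      obtain ⟨m, hm⟩ := hi
      rcases lt_or_ge i Q.length with h1 | h1
      · rw [List.getElem?_append_left h1] at hc
        obtain ⟨j, hj1, hj2, hj3⟩ := h.own i ⟨m, hm⟩ c hc
        refine ⟨j, hj1, hj2, ?_⟩
        have hlt : j < P.length := by
          by_contra hh
          rw [List.getElem?_eq_none (by omega)] at hj3
          simp at hj3
        rw [List.getElem?_append_left hlt]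
        exact hj3
      · rw [List.getElem?_append_right h1] at hc
        rcases Nat.eq_or_lt_of_le (show Q.length + 1 ≤ i by rw [h.lenQ] at h1 ⊢; omega) with h2 | h2
        · rw [← h2] at hc ⊢
          have e1 : Q.length + 1 - Q.length = 1 := by omega
          rw [e1] at hc
          simp at hc
          rw [← hc, h.lenQ]
          exact hown
        · obtain ⟨d, hd⟩ : ∃ d, i - Q.length = d + 2 := ⟨i - Q.length - 2, by omega⟩
          rw [hd] at hc
          simp at hc
  by_cases hze : σ (Q ++ [σ P]) = e
  · obtain ⟨w, hw⟩ := exists_free (P ++ [σ P]) (by simp [h.lenP]; omega)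
    have hwP : w ∉ P := fun hh => hw (by simp [hh])
    have hwy : w ≠ σ P := fun hh => hw (by simp [hh])
    refine ⟨[σ P, w], [σ P, σ (Q ++ [σ P])], w, w, _, ?_, rfl, rfl⟩
    refine key w w hwP hwy ?_ ?_ ?_
    · rw [hze]
      refine ((h.perm.append_right [σ P, w])).trans ?_
      rw [List.perm_iff_count]
      intro c
      simp only [List.cons_append, List.count_cons, List.count_append, List.count_nil]
      omega
    · obtain ⟨j, hj1, hj2⟩ := h.ext
      have hlt : j < P.length := by
        by_contra hh
        rw [List.getElem?_eq_none (by omega)] at hj2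
        simp at hj2
      refine ⟨j, by rw [h.lenP] at hlt; omega, hj1, ?_⟩
      rw [List.getElem?_append_left hlt, hze]
      exact hj2
    · refine ⟨2 * k + 2, ⟨k + 1, by ring⟩, ?_⟩
      rw [List.getElem?_append_right (by rw [h.lenP]; omega), h.lenP]
      have e1 : 2 * k + 2 - (2 * k + 1) = 1 := by omega
      rw [e1]
      simp
  · have hzP : σ (Q ++ [σ P]) ∉ P := by
      intro hh
      have := h.perm.mem_iff.1 hh
      rw [List.mem_cons] at this
      rcases this with h1 | h1
      · exact hze h1
      · exact hz (by rw [List.mem_append]; exact Or.inl h1)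
    have hzy : σ (Q ++ [σ P]) ≠ σ P := fun hh => hz (by rw [List.mem_append]; right; simp [hh])
    refine ⟨[σ P, σ (Q ++ [σ P])], [σ P, σ (Q ++ [σ P])], e, _, _, ?_, rfl, rfl⟩
    refine key _ e hzP hzy ?_ ?_ ?_
    · refine ((h.perm.append_right _)).trans ?_
      simp
    · refine ⟨2 * k + 2, le_rfl, ⟨k + 1, by ring⟩, ?_⟩
      rw [List.getElem?_append_right (by rw [h.lenP]; omega), h.lenP]
      have e1 : 2 * k + 2 - (2 * k + 1) = 1 := by omega
      rw [e1]
      simp
    · obtain ⟨j, hj1, hj2⟩ := h.ext
      have hlt : j < P.length := by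
        by_contra hh
        rw [List.getElem?_eq_none (by omega)] at hj2
        simp at hj2
      exact ⟨j, hj1, by rw [List.getElem?_append_left hlt]; exact hj2⟩

theorem coup_all {σ : List α → α}
    (hσ : ∀ l : List α, l.Nodup → Odd l.length → l.length < Fintype.card α → σ l ∉ l)
    (hN : Odd (Fintype.card α)) (x : α) :
    ∀ k : ℕ, 2 * k + 1 ≤ Fintype.card α → ∃ P Q e, Coup σ k P Q e := by
  intro k
  induction k with
  | zero => intro _; exact ⟨_, _, _, coup_zero σ x⟩
  | succ k ih =>
    intro hk
    obtain ⟨P, Q, e, h⟩ := ih (by omega)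
    obtain ⟨P', Q', e', a, b, h', _, _⟩ := coup_step hσ hN (by omega) h
    exact ⟨_, _, _, h'⟩

omit [Fintype α] [DecidableEq α] in
/-- the prefixes of the sequence read off a list -/
theorem map_range_getD (l : List α) (x : α) (k : ℕ) (hk : k ≤ l.length) :
    (List.range k).map (fun i => l.getD i x) = l.take k := by
  apply List.ext_getElem?
  intro i
  rw [List.getElem?_map, List.getElem?_take]
  by_cases hi : i < k
  · rw [if_pos hi, List.getElem?_range hi]
    simp [List.getD_eq_getElem?_getD, List.getElem?_eq_getElem (show i < l.length by omega)]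
  · rw [if_neg hi, List.getElem?_eq_none (by simp; omega)]
    simp

omit [Fintype α] [DecidableEq α] in
theorem getD_lt (l : List α) (x : α) {i : ℕ} (hi : i < l.length) : l.getD i x = l[i] := by
  rw [List.getD_eq_getElem?_getD, List.getElem?_eq_getElem hi]
  rfl

omit [Fintype α] [DecidableEq α] in
theorem getD_inj {l : List α} (x : α) (hl : l.Nodup) {i j : ℕ} (hi : i < l.length)
    (hj : j < l.length) (h : l.getD i x = l.getD j x) : i = j := by
  rw [getD_lt _ _ hi, getD_lt _ _ hj] at h
  exact (List.Nodup.getElem_inj_iff hl).1 h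

/-- **Strategy stealing.** -/
theorem steal (hN : Odd (Fintype.card α)) (x : α) (W : (α → Prop) → Prop)
    (hW : ∀ s t : α → Prop, (∀ c, s c → t c) → W s → W t) :
    ¬ ∃ σ : List α → α,
      (∀ l : List α, l.Nodup → Odd l.length → l.length < Fintype.card α → σ l ∉ l) ∧
      ∀ p : ℕ → α,
        (∀ i j : ℕ, i < Fintype.card α → j < Fintype.card α → p i = p j → i = j) →
        (∀ k : ℕ, k < Fintype.card α → Odd k → p k = σ ((List.range k).map p)) →
        ∃ t : ℕ, t < Fintype.card α ∧
          W (fun c => ∃ k : ℕ, k ≤ t ∧ Odd k ∧ p k = c) ∧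
          ¬ W (fun c => ∃ k : ℕ, k ≤ t ∧ Even k ∧ p k = c) := by
  rintro ⟨σ, hσ, hwin⟩
  obtain ⟨K, hK⟩ := id hN
  obtain ⟨P, Q, e, h⟩ := coup_all hσ hN x K (by omega)
  have hndeQ : (e :: Q).Nodup := h.perm.nodup_iff.1 h.nd
  have hndQe : (Q ++ [e]).Nodup := by
    rw [List.nodup_append]
    refine ⟨(List.nodup_cons.1 hndeQ).2, by simp, ?_⟩
    intro a ha b hb
    rw [List.mem_singleton] at hb
    subst hb
    exact fun hh => (List.nodup_cons.1 hndeQ).1 (hh ▸ ha)
  have hlP : P.length = Fintype.card α := by rw [h.lenP]; omega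
  have hlQ : (Q ++ [e]).length = Fintype.card α := by simp [h.lenQ]; omega
  -- the imaginary play
  obtain ⟨t, ht, hw1, hw2⟩ := hwin (fun i => (Q ++ [e]).getD i x)
    (fun i j hi hj hh => getD_inj x hndQe (by omega) (by omega) hh)
    (by
      intro k hk hko
      rw [map_range_getD _ _ _ (by omega)]
      have hkQ : k < Q.length := by
        rw [h.lenQ]; obtain ⟨m, hm⟩ := hko; omega
      have h1 := h.foQ k hko (Q[k]) (List.getElem?_eq_getElem hkQ)
      rw [List.take_append_of_le_length hkQ.le, ← h1]
      simp only [List.getD_eq_getElem?_getD]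
      rw [List.getElem?_append_left hkQ, List.getElem?_eq_getElem hkQ]
      rfl)
  -- the real play
  have hreal := hwin (fun i => P.getD i x)
    (fun i j hi hj hh => getD_inj x h.nd (by omega) (by omega) hh)
    (by
      intro k hk hko
      rw [map_range_getD _ _ _ (by omega)]
      have hkP : k < P.length := by omega
      have h1 := h.foP k hko (P[k]) (List.getElem?_eq_getElem hkP)
      rw [← h1, getD_lt _ _ hkP])
  -- first time at which the imaginary second player has a winning set
  classical
  let A : ℕ → Prop := fun s => W (fun c => ∃ k : ℕ, k ≤ s ∧ Odd k ∧ (Q ++ [e]).getD k x = c)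
  have hA : ∃ s, A s := ⟨t, hw1⟩
  obtain ⟨s, hs, hmin⟩ : ∃ s, A s ∧ ∀ m, m < s → ¬ A m :=
    ⟨Nat.find hA, Nat.find_spec hA, fun m hm => Nat.find_min hA hm⟩
  have hst : s ≤ t := by
    by_contra hh
    exact hmin t (by omega) hw1
  have hsodd : Odd s := by
    by_contra hso
    rcases s with _ | s
    · refine hw2 (hW _ _ ?_ hs)
      rintro c ⟨k, hk1, hk2, hk3⟩
      obtain ⟨m, hm⟩ := hk2
      omega
    · refine hmin s (by omega) (hW _ _ ?_ hs)
      rintro c ⟨k, hk1, hk2, hk3⟩
      refine ⟨k, ?_, hk2, hk3⟩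
      rcases Nat.eq_or_lt_of_le hk1 with h1 | h1
      · exact absurd (h1 ▸ hk2) hso
      · omega
  have hs1 : s + 1 < Fintype.card α := by
    obtain ⟨m, hm⟩ := hsodd
    omega
  -- time in the real play
  have hB : W (fun c => ∃ k : ℕ, k ≤ s + 1 ∧ Even k ∧ P.getD k x = c) := by
    refine hW _ _ ?_ hs
    rintro c ⟨k, hk1, hk2, hk3⟩
    have hkQ : k < Q.length := by
      rw [h.lenQ]; obtain ⟨m, hm⟩ := hk2; omega
    have hk4 : Q[k]? = some c := by
      rw [← hk3, List.getD_eq_getElem?_getD, List.getElem?_append_left hkQ,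
        List.getElem?_eq_getElem hkQ]
      rfl
    obtain ⟨j, hj1, hj2, hj3⟩ := h.own k hk2 c hk4
    refine ⟨j, by omega, hj2, ?_⟩
    rw [List.getD_eq_getElem?_getD, hj3]
    rfl
  have hC : ¬ W (fun c => ∃ k : ℕ, k ≤ s + 1 ∧ Odd k ∧ P.getD k x = c) := by
    intro hc
    refine hw2 (hW _ _ ?_ hc)
    rintro c ⟨k, hk1, hk2, hk3⟩
    by_cases hkP : k < P.length
    · have hk4 : P[k]? = some c := by
        rw [← hk3, List.getD_eq_getElem?_getD, List.getElem?_eq_getElem hkP]
        rfl
      have hk5 := h.opp k hk2 c hk4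
      refine ⟨k - 1, by omega, ?_, ?_⟩
      · obtain ⟨m, hm⟩ := hk2
        exact ⟨m, by omega⟩
      · have hkQ : k - 1 < Q.length := by
          by_contra hh
          rw [List.getElem?_eq_none (by omega)] at hk5
          simp at hk5
        rw [List.getD_eq_getElem?_getD, List.getElem?_append_left hkQ, hk5]
        rfl
    · exfalso
      omega
  obtain ⟨r, hr, hr1, hr2⟩ := hreal
  rcases le_or_gt r (s + 1) with h1 | h1
  · exact hC (hW _ _ (fun c ⟨k, a, b, d⟩ => ⟨k, by omega, b, d⟩) hr1)
  · exact hr2 (hW _ _ (fun c ⟨k, a, b, d⟩ => ⟨k, by omega, b, d⟩) hB)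

/-- If the second player can stop the first from ever owning a winning set, the first has no
winning strategy. -/
theorem no_first (x : α) (W : (α → Prop) → Prop) (τ : List α → α)
    (hτ : ∀ l : List α, l.Nodup →
      (∀ k : ℕ, Odd k → ∀ c, l[k]? = some c → c = τ (l.take k)) →
      ((Odd l.length → (∃ c, c ∉ l) → τ l ∉ l) ∧
        ¬ W (fun c => ∃ m : ℕ, Even m ∧ l[m]? = some c)))
    (hW : ∀ s t : α → Prop, (∀ c, s c → t c) → W s → W t) :
    ¬ ∃ σ : List α → α,
      (∀ l : List α, l.Nodup → Even l.length → l.length < Fintype.card α → σ l ∉ l) ∧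
      ∀ p : ℕ → α,
        (∀ i j : ℕ, i < Fintype.card α → j < Fintype.card α → p i = p j → i = j) →
        (∀ k : ℕ, k < Fintype.card α → Even k → p k = σ ((List.range k).map p)) →
        ∃ t : ℕ, t < Fintype.card α ∧
          W (fun c => ∃ k : ℕ, k ≤ t ∧ Even k ∧ p k = c) ∧
          ¬ W (fun c => ∃ k : ℕ, k ≤ t ∧ Odd k ∧ p k = c) := by
  rintro ⟨σ, hσ, hwin⟩
  -- the play
  have hplay : ∀ k : ℕ, k ≤ Fintype.card α → ∃ l : List α, l.length = k ∧ l.Nodup ∧
      (∀ i : ℕ, Odd i → ∀ c, l[i]? = some c → c = τ (l.take i)) ∧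
      (∀ i : ℕ, Even i → ∀ c, l[i]? = some c → c = σ (l.take i)) := by
    intro k
    induction k with
    | zero =>
      intro _
      exact ⟨[], rfl, List.nodup_nil, by simp, by simp⟩
    | succ k ih =>
      intro hk
      obtain ⟨l, h1, h2, h3, h4⟩ := ih (by omega)
      let z := if Even k then σ l else τ l
      have hz : z ∉ l := by
        by_cases hkk : Even k
        · simp only [z, if_pos hkk]
          exact hσ l h2 (by rw [h1]; exact hkk) (by omega)
        · simp only [z, if_neg hkk]
          refine (hτ l h2 h3).1 (by rw [h1]; exact Nat.not_even_iff_odd.1 hkk) ?_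
          exact exists_free l (by omega)
      have hget : ∀ (i : ℕ) (c : α), (l ++ [z])[i]? = some c →
          (i < k ∧ l[i]? = some c ∧ (l ++ [z]).take i = l.take i) ∨
          (i = k ∧ c = z ∧ (l ++ [z]).take i = l) := by
        intro i c hc
        rcases lt_trichotomy i k with hi | hi | hi
        · left
          rw [List.getElem?_append_left (by omega)] at hc
          exact ⟨hi, hc, List.take_append_of_le_length (by omega)⟩
        · right
          rw [List.getElem?_append_right (by omega)] at hc
          have e1 : i - l.length = 0 := by omega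
          rw [e1] at hc
          simp at hc
          refine ⟨hi, hc.symm, ?_⟩
          rw [List.take_append_of_le_length (by omega), List.take_of_length_le (by omega)]
        · exfalso
          rw [List.getElem?_eq_none (by simp; omega)] at hc
          simp at hc
      refine ⟨l ++ [z], by simp [h1], ?_, ?_, ?_⟩
      · rw [List.nodup_append]
        refine ⟨h2, by simp, ?_⟩
        intro a ha b hb
        rw [List.mem_singleton] at hb
        subst hb
        exact fun hh => hz (hh ▸ ha)
      · intro i hi c hc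
        rcases hget i c hc with ⟨_, b, c'⟩ | ⟨a, b, c'⟩
        · rw [c']; exact h3 i hi c b
        · rw [c', b]
          have : ¬ Even k := by rw [← a]; exact Nat.not_even_iff_odd.2 hi
          simp only [z, if_neg this]
      · intro i hi c hc
        rcases hget i c hc with ⟨_, b, c'⟩ | ⟨a, b, c'⟩
        · rw [c']; exact h4 i hi c b
        · rw [c', b]
          have : Even k := by rw [← a]; exact hi
          simp only [z, if_pos this]
  obtain ⟨l, h1, h2, h3, h4⟩ := hplay _ le_rfl
  obtain ⟨t, ht, hw1, _⟩ := hwin (fun i => l.getD i x)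
    (fun i j hi hj hh => getD_inj x h2 (by omega) (by omega) hh)
    (by
      intro k hk hko
      rw [map_range_getD _ _ _ (by omega)]
      have hkP : k < l.length := by omega
      have := h4 k hko (l[k]) (List.getElem?_eq_getElem hkP)
      rw [← this, getD_lt _ _ hkP])
  refine (hτ l h2 h3).2 (hW _ _ ?_ hw1)
  rintro c ⟨k, a, b, d⟩
  have hkP : k < l.length := by omega
  refine ⟨k, b, ?_⟩
  rw [← d, getD_lt _ _ hkP, List.getElem?_eq_getElem hkP]

end Pool.Agent.H425R2.Steal
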